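import Pool.Agent.Lib.H56D.S1

/-!
# S6: matrix entries are bounded by the displacement
-/

namespace Pool.Agent.Lib.H56D

open Matrix hiding J
open MeasureTheory Topology Filter
open Pool.Agent.Lib.H56.Picard hiding O Gam mem_Gam star_mem_O T_mem sg_mem
open Pool.Agent.Lib.H56.Gen
open scoped ENNReal

noncomputable section

theorem s6_hf_v (g : SU21) {z : ℂ × ℂ} (hz : 0 < height z) :
    Complex.normSq (hf (lift z) (mat g *ᵥ lift z)) = sgm z (act (mat g) z) * height z ^ 2 := by
  have hj := jf_ne_zero (mat_unitary g) hz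
  have hj' : 0 < Complex.normSq (jf (mat g) z) := Complex.normSq_pos.mpr hj
  have h1 : hf (lift z) (jf (mat g) z • lift (act (mat g) z)) =
      jf (mat g) z * hf (lift z) (lift (act (mat g) z)) := by
    simp only [hf_apply, Pi.smul_apply, smul_eq_mul]
    ring
  rw [mulVec_lift hj, h1, map_mul]
  unfold sgm
  rw [height_act (mat_unitary g) hz]
  field_simp

theorem s6_v (g : SU21) {z : ℂ × ℂ} (hz : 0 < height z) :
    height z / 2 * Complex.normSq ((mat g *ᵥ lift z) 2) +
      Complex.normSq ((mat g *ᵥ lift z) 1 - (mat g *ᵥ lift z) 2 * z.2) ≤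
      2 * sgm z (act (mat g) z) * height z := by
  set v := mat g *ᵥ lift z with hv
  set r : Fin 3 → ℂ := ![star (v 2), star (v 1), star (v 0)] with hr
  have hb := row_bound r hz
  have h1 : hd r = ((-height z : ℝ) : ℂ) := by
    rw [← hf_lift, ← hf_mulVec (mat_unitary g) (lift z) (lift z), ← hv, hd_apply, hf_apply]
    simp [hr]
    ring
  have h2 : r 0 * z.1 + r 1 * z.2 + r 2 = star (hf (lift z) v) := by
    rw [hf_apply]
    simp [hr, lift]
    ring
  have h3 : Complex.normSq (r 0) = Complex.normSq (v 2) := by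
    simp [hr]
  have h4 : Complex.normSq (r 1 - r 0 * star z.2) = Complex.normSq (v 1 - v 2 * z.2) := by
    rw [← Complex.normSq_conj (v 1 - v 2 * z.2)]
    congr 1
    simp [hr]
  rw [h1, h2, h3, h4, Complex.star_def, Complex.normSq_conj, hv, s6_hf_v g hz, ← hv,
    Complex.ofReal_re] at hb
  have h5 : 2 / height z * (sgm z (act (mat g) z) * height z ^ 2) =
      2 * sgm z (act (mat g) z) * height z := by
    field_simp
  rw [h5] at hb
  linarith

/-- Let `a = height z`, `v = mat g *ᵥ lift z`, `σ = σ(z, gz)`. (1) `⟨v,v⟩ = -a` (`hf_mulVec`,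
`hf_lift`) and `|⟨lift z, v⟩|² = σ a²` (`mulVec_lift`: `v = j • lift (gz)`, `height (gz) = a/|j|²`).
(2) Apply `row_bound` to `r = (conj v₂, conj v₁, conj v₀)`: `hd r = ⟨v,v⟩` and
`r₀ z₁ + r₁ z₂ + r₂ = conj ⟨lift z, v⟩`, so
`(a/2)|v₂|² + |v₁ - z₂ v₂|² ≤ -a + (2/a) σ a² ≤ 2σa`. Hence `|v₂|² ≤ 4σ`,
`|v₁ - z₂v₂|² ≤ 2σa`, and `v₀ = ⟨lift z, v⟩ - conj z₁ v₂ - conj z₂ v₁`: on a compact set `K`
(`a`, `|z|` bounded, `a` bounded below) all `|v_i|² ≤ C σ`.
(3) `row_bound` for the `i`-th row `r` of `g`: `hd r ≤ 1` (`hd_row_re_le`), `r·lift z = v_i`, so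
`(a/2)|r₀|² + |r₁ - r₀ conj z₂|² ≤ 1 + (2/a)|v_i|² ≤ C'σ` (use `σ ≥ 1`), and
`r₂ = v_i - r₀ z₁ - r₁ z₂`. (Compare the proof of `exists_entry_bound` in
`H56/Picard/Green3.lean`.) -/
theorem fro_le {K : Set (ℂ × ℂ)} (hK : IsCompact K) (hKU : K ⊆ U) :
    ∃ C : ℝ, 0 < C ∧ ∀ z ∈ K, ∀ g : SU21, fro g ≤ C * sgm z (act (mat g) z) := by
  have low : ∀ {K : Set (ℂ × ℂ)}, IsCompact K → K ⊆ U → ∃ m : ℝ, 0 < m ∧ ∀ z ∈ K, m ≤ height z := by
    intro K hK hKU
    rcases K.eq_empty_or_nonempty with rfl | hne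
    · exact ⟨1, one_pos, by simp⟩
    · obtain ⟨x, hx, hmin⟩ := hK.exists_isMinOn hne continuous_height.continuousOn
      exact ⟨height x, mem_U.mp (hKU hx), fun z hz => hmin hz⟩
  obtain ⟨m, hm, hmK⟩ := low hK hKU
  obtain ⟨C1, hC1⟩ := hK.isBounded.exists_norm_le
  obtain ⟨C3, hC3⟩ := hK.exists_bound_of_continuousOn continuous_height.continuousOn
  set C := max 1 C1 with hC
  have hC1' : C1 ≤ C := le_max_right _ _
  have hC0 : 1 ≤ C := le_max_left _ _
  set D := max 0 C3 with hD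
  have hD0 : 0 ≤ D := le_max_left _ _
  have hDC : C3 ≤ D := le_max_right _ _
  set E2 : ℝ := 2 with hE2
  set E1 : ℝ := √(2 * D) + E2 * C with hE1
  set E0 : ℝ := D + C * E2 + C * E1 with hE0
  have hE1' : 0 ≤ E1 := by positivity
  have hE0' : 0 ≤ E0 := by positivity
  set E : ℝ := max E0 (max E1 E2) with hE
  have hE' : 0 ≤ E := hE0'.trans (le_max_left _ _)
  set A : ℝ := 1 + 2 / m * E ^ 2 with hA
  have hA0 : 0 ≤ A := by positivity
  set R0 := √(2 / m * A) with hR0
  set R1 := √A + R0 * C with hR1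
  set R2 := E + R0 * C + R1 * C with hR2
  set R := max R0 (max R1 R2) with hR
  have hR' : 0 ≤ R := (Real.sqrt_nonneg _).trans (le_max_left _ _)
  refine ⟨9 * R ^ 2 + 1, by positivity, ?_⟩
  intro z hz g
  have hzU : 0 < height z := hKU hz
  have hz1 : ‖z‖ ≤ C := (hC1 z hz).trans hC1'
  have hzz1 : ‖z.1‖ ≤ C := (norm_fst_le z).trans hz1
  have hzz2 : ‖z.2‖ ≤ C := (norm_snd_le z).trans hz1
  have hmz := hmK z hz
  have hzD : height z ≤ D := by
    have := hC3 z hz
    rw [Real.norm_eq_abs] at this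
    exact ((le_abs_self _).trans this).trans hDC
  have hs1 : 1 ≤ sgm z (act (mat g) z) :=
    one_le_sgm (z := z) (w := act (mat g) z) hzU (height_act_pos (mat_unitary g) hzU)
  set σ := sgm z (act (mat g) z) with hσ
  set S := √σ with hS
  have hS0 : 0 < S := Real.sqrt_pos.2 (by linarith)
  have hS2 : S ^ 2 = σ := Real.sq_sqrt (by linarith)
  have hS1 : 1 ≤ S := by
    rw [hS]
    exact Real.one_le_sqrt.2 hs1
  have hv := s6_v g hzU
  have hl := s6_hf_v g hzU
  rw [← hσ] at hv hl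
  set v := mat g *ᵥ lift z with hvdef
  have n2 := Complex.normSq_nonneg (v 2)
  have n1 := Complex.normSq_nonneg (v 1 - v 2 * z.2)
  have b2 : ‖v 2‖ ≤ S * E2 := by
    apply le_of_sq_le_sq _ (by positivity)
    rw [← Complex.normSq_eq_norm_sq, mul_pow, hS2]
    have h1 : height z * Complex.normSq (v 2) ≤ height z * (σ * 2 ^ 2) := by nlinarith
    exact le_of_mul_le_mul_left h1 hzU
  have b1 : ‖v 1‖ ≤ S * E1 := by
    have h1 : ‖v 1 - v 2 * z.2‖ ≤ S * √(2 * D) := by
      apply le_of_sq_le_sq _ (by positivity)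
      rw [← Complex.normSq_eq_norm_sq, mul_pow, hS2, Real.sq_sqrt (by positivity)]
      have h2 : 0 ≤ height z / 2 * Complex.normSq (v 2) := by positivity
      have h3 : 2 * σ * height z ≤ σ * (2 * D) := by nlinarith
      linarith
    calc ‖v 1‖ = ‖(v 1 - v 2 * z.2) + v 2 * z.2‖ := by ring_nf
      _ ≤ ‖v 1 - v 2 * z.2‖ + ‖v 2 * z.2‖ := norm_add_le _ _
      _ ≤ S * √(2 * D) + (S * E2) * C := by
        rw [norm_mul]
        gcongr
      _ = S * E1 := by rw [hE1]; ring
  have b0 : ‖v 0‖ ≤ S * E0 := by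
    have h1 : ‖hf (lift z) v‖ ≤ S * D := by
      apply le_of_sq_le_sq _ (by positivity)
      rw [← Complex.normSq_eq_norm_sq, hl, mul_pow, hS2]
      gcongr
    have h2 : v 0 = hf (lift z) v - star z.1 * v 2 - star z.2 * v 1 := by
      rw [hf_apply]
      simp [lift]
      ring
    calc ‖v 0‖ = ‖hf (lift z) v - star z.1 * v 2 - star z.2 * v 1‖ := by rw [← h2]
      _ ≤ ‖hf (lift z) v‖ + ‖star z.1 * v 2‖ + ‖star z.2 * v 1‖ :=
        (norm_sub_le _ _).trans (add_le_add (norm_sub_le _ _) le_rfl)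
      _ ≤ S * D + C * (S * E2) + C * (S * E1) := by
        rw [norm_mul, norm_mul, norm_star, norm_star]
        gcongr
      _ = S * E0 := by rw [hE0]; ring
  have bv : ∀ i, ‖v i‖ ≤ S * E := by
    intro i
    fin_cases i
    · exact b0.trans (mul_le_mul_of_nonneg_left (le_max_left _ _) hS0.le)
    · exact b1.trans (mul_le_mul_of_nonneg_left
        ((le_max_left _ _).trans (le_max_right _ _)) hS0.le)
    · exact b2.trans (mul_le_mul_of_nonneg_left
        ((le_max_right _ _).trans (le_max_right _ _)) hS0.le)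
  have ent : ∀ i j, ‖mat g i j‖ ≤ S * R := by
    intro i j
    set r : Fin 3 → ℂ := fun j => mat g i j with hr
    set l := r 0 * z.1 + r 1 * z.2 + r 2 with hldef
    have hl1 : l = v i := by rw [hvdef, mulVec_lift_apply]
    have hln : Complex.normSq l ≤ σ * E ^ 2 := by
      rw [hl1, Complex.normSq_eq_norm_sq, ← hS2, ← mul_pow]
      exact pow_le_pow_left₀ (norm_nonneg _) (bv i) 2
    have hb := row_bound r hzU
    rw [← hldef] at hb
    have hA1 : (hd r).re + 2 / height z * Complex.normSq l ≤ σ * A := by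
      have h8 : 2 / height z ≤ 2 / m := div_le_div_of_nonneg_left (by norm_num) hm hmz
      have h9 : 2 / height z * Complex.normSq l ≤ 2 / m * (σ * E ^ 2) :=
        mul_le_mul h8 hln (Complex.normSq_nonneg _) (by positivity)
      have h10 : (hd r).re ≤ 1 := hd_row_re_le g i
      have h11 : σ * A = σ + 2 / m * (σ * E ^ 2) := by rw [hA]; ring
      linarith
    have hn0 := Complex.normSq_nonneg (r 0)
    have hn1 := Complex.normSq_nonneg (r 1 - r 0 * star z.2)
    have hr0 : ‖r 0‖ ≤ S * R0 := by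
      apply le_of_sq_le_sq _ (by positivity)
      rw [← Complex.normSq_eq_norm_sq, mul_pow, hS2, hR0, Real.sq_sqrt (by positivity)]
      have h11 : height z / 2 * Complex.normSq (r 0) ≤ σ * A := by linarith
      have h12 : m / 2 * Complex.normSq (r 0) ≤ σ * A :=
        le_trans (mul_le_mul_of_nonneg_right (by linarith) hn0) h11
      calc Complex.normSq (r 0) = 2 / m * (m / 2 * Complex.normSq (r 0)) := by field_simp
        _ ≤ 2 / m * (σ * A) := mul_le_mul_of_nonneg_left h12 (by positivity)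
        _ = σ * (2 / m * A) := by ring
    have hr1 : ‖r 1‖ ≤ S * R1 := by
      have h13 : ‖r 1 - r 0 * star z.2‖ ≤ S * √A := by
        apply le_of_sq_le_sq _ (by positivity)
        rw [← Complex.normSq_eq_norm_sq, mul_pow, hS2, Real.sq_sqrt hA0]
        have : 0 ≤ height z / 2 * Complex.normSq (r 0) := by positivity
        linarith
      calc ‖r 1‖ = ‖(r 1 - r 0 * star z.2) + r 0 * star z.2‖ := by ring_nf
        _ ≤ ‖r 1 - r 0 * star z.2‖ + ‖r 0 * star z.2‖ := norm_add_le _ _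
        _ ≤ S * √A + (S * R0) * C := by
          rw [norm_mul, norm_star]
          gcongr
        _ = S * R1 := by rw [hR1]; ring
    have hr2 : ‖r 2‖ ≤ S * R2 := by
      have h14 : ‖l‖ ≤ S * E := by
        rw [hl1]
        exact bv i
      calc ‖r 2‖ = ‖l - r 0 * z.1 - r 1 * z.2‖ := by rw [hldef]; ring_nf
        _ ≤ ‖l‖ + ‖r 0 * z.1‖ + ‖r 1 * z.2‖ :=
          (norm_sub_le _ _).trans (add_le_add (norm_sub_le _ _) le_rfl)
        _ ≤ S * E + (S * R0) * C + (S * R1) * C := by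
          rw [norm_mul, norm_mul]
          gcongr
        _ = S * R2 := by rw [hR2]; ring
    change ‖r j‖ ≤ _
    fin_cases j
    · exact hr0.trans (mul_le_mul_of_nonneg_left (le_max_left _ _) hS0.le)
    · exact hr1.trans (mul_le_mul_of_nonneg_left
        ((le_max_left _ _).trans (le_max_right _ _)) hS0.le)
    · exact hr2.trans (mul_le_mul_of_nonneg_left
        ((le_max_right _ _).trans (le_max_right _ _)) hS0.le)
  have ent2 : ∀ i j, Complex.normSq (mat g i j) ≤ R ^ 2 * σ := by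
    intro i j
    rw [Complex.normSq_eq_norm_sq, ← hS2, ← mul_pow, mul_comm R S]
    exact pow_le_pow_left₀ (norm_nonneg _) (ent i j) 2
  have hfro : fro g ≤ 9 * (R ^ 2 * σ) := by
    unfold fro
    calc ∑ i, ∑ j, Complex.normSq (mat g i j) ≤ ∑ _i : Fin 3, ∑ _j : Fin 3, R ^ 2 * σ :=
          Finset.sum_le_sum fun i _ => Finset.sum_le_sum fun j _ => ent2 i j
      _ = 9 * (R ^ 2 * σ) := by
        simp only [Finset.sum_const, Finset.card_univ, Fintype.card_fin, nsmul_eq_mul]
        push_cast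
        ring
  have : 0 ≤ σ := by linarith
  linarith

end

end Pool.Agent.Lib.H56D
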