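import Pool.Agent.Lib.H56D.S1

/-!
# S4: gradient and Laplacian of `σ(x,·)`

Let `a = height x`, `l(w) = hf (lift x) (lift w) = w₁ + conj x₂ · w₂ + conj x₁` (affine and complex
linear in `w`), `N = |l|²`, `h = height w`, so `σ = N/(a h)`. Directional derivatives along the frame
are computed from the one variable rational functions `t ↦ σ(x, w + t v)`.
-/

namespace Pool.Agent.Lib.H56D

open Matrix hiding J
open MeasureTheory Topology Filter
open Pool.Agent.Lib.H56.Picard hiding O Gam mem_Gam star_mem_O T_mem sg_mem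
open Pool.Agent.Lib.H56.Gen
open scoped ENNReal

noncomputable section

lemma s4_hf (x w : ℂ × ℂ) : hf (lift x) (lift w) = w.1 + star x.2 * w.2 + star x.1 := by
  rw [hf_apply]
  simp [lift]
  ring

/-- Quotient of smooth functions with nonvanishing denominator. -/
theorem contDiffOn_sgm {x : ℂ × ℂ} (hx : x ∈ U) : ContDiffOn ℝ 2 (sgm x) U := by
  have hl : ContDiff ℝ 2 (fun w : ℂ × ℂ => w.1 + star x.2 * w.2 + star x.1) := by
    exact (contDiff_fst.add (contDiff_const.mul contDiff_snd)).add contDiff_const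
  have hN : ContDiff ℝ 2 (fun w : ℂ × ℂ => Complex.normSq (hf (lift x) (lift w))) := by
    have h1 : ContDiff ℝ 2 (fun w : ℂ × ℂ => (w.1 + star x.2 * w.2 + star x.1).re) :=
      Complex.reCLM.contDiff.comp hl
    have h2 : ContDiff ℝ 2 (fun w : ℂ × ℂ => (w.1 + star x.2 * w.2 + star x.1).im) :=
      Complex.imCLM.contDiff.comp hl
    simp only [s4_hf, Complex.normSq_apply]
    exact (h1.mul h1).add (h2.mul h2)
  unfold sgm
  refine hN.contDiffOn.div (contDiff_const.mul (contDiff_height.of_le le_top)).contDiffOn ?_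
  intro w hw
  exact (mul_pos hx hw).ne'

/-- First derivative of the rational function. -/
def s4p1 (A p q e f H h1 h2 t : ℝ) : ℝ :=
  ((2 * e * (p + t * e) + 2 * f * (q + t * f)) * (A * (H + t * h1 + t ^ 2 * h2)) -
    ((p + t * e) ^ 2 + (q + t * f) ^ 2) * (A * (h1 + 2 * t * h2))) /
      (A * (H + t * h1 + t ^ 2 * h2)) ^ 2

lemma s4_quot1 (A p q e f H h1 h2 t : ℝ) (h0 : A * (H + t * h1 + t ^ 2 * h2) ≠ 0) :
    HasDerivAt (fun t : ℝ => ((p + t * e) ^ 2 + (q + t * f) ^ 2) / (A * (H + t * h1 + t ^ 2 * h2)))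
      (s4p1 A p q e f H h1 h2 t) t := by
  have hp : HasDerivAt (fun t : ℝ => p + t * e) e t := by
    simpa using ((hasDerivAt_id t).mul_const e).const_add p
  have hq : HasDerivAt (fun t : ℝ => q + t * f) f t := by
    simpa using ((hasDerivAt_id t).mul_const f).const_add q
  have hN : HasDerivAt (fun t : ℝ => (p + t * e) ^ 2 + (q + t * f) ^ 2)
      (2 * e * (p + t * e) + 2 * f * (q + t * f)) t := by
    refine ((hp.pow 2).add (hq.pow 2)).congr_deriv ?_
    simp; ring
  have hh : HasDerivAt (fun t : ℝ => A * (H + t * h1 + t ^ 2 * h2)) (A * (h1 + 2 * t * h2)) t := by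
    have h3 : HasDerivAt (fun t : ℝ => H + t * h1) h1 t := by
      simpa using ((hasDerivAt_id t).mul_const h1).const_add H
    have h4 : HasDerivAt (fun t : ℝ => t ^ 2 * h2) (2 * t * h2) t := by
      simpa using (hasDerivAt_pow 2 t).mul_const h2
    exact (h3.add h4).const_mul A
  exact hN.div hh h0

lemma s4_quot2 (A p q e f H h1 h2 : ℝ) (hA : A ≠ 0) (hH : H ≠ 0) :
    HasDerivAt (s4p1 A p q e f H h1 h2)
      ((2 * (e ^ 2 + f ^ 2) * H - 2 * (p ^ 2 + q ^ 2) * h2) / (A * H ^ 2) -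
        2 * h1 * ((2 * e * p + 2 * f * q) * H - (p ^ 2 + q ^ 2) * h1) / (A * H ^ 3)) 0 := by
  have hp : HasDerivAt (fun t : ℝ => p + t * e) e 0 := by
    simpa using ((hasDerivAt_id (0:ℝ)).mul_const e).const_add p
  have hq : HasDerivAt (fun t : ℝ => q + t * f) f 0 := by
    simpa using ((hasDerivAt_id (0:ℝ)).mul_const f).const_add q
  have hN : HasDerivAt (fun t : ℝ => (p + t * e) ^ 2 + (q + t * f) ^ 2)
      (2 * e * p + 2 * f * q) 0 := by
    refine ((hp.pow 2).add (hq.pow 2)).congr_deriv ?_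
    simp; ring
  have hN' : HasDerivAt (fun t : ℝ => 2 * e * (p + t * e) + 2 * f * (q + t * f))
      (2 * (e ^ 2 + f ^ 2)) 0 := by
    refine ((hp.const_mul (2 * e)).add (hq.const_mul (2 * f))).congr_deriv ?_
    ring
  have hh : HasDerivAt (fun t : ℝ => A * (H + t * h1 + t ^ 2 * h2)) (A * h1) 0 := by
    have h3 : HasDerivAt (fun t : ℝ => H + t * h1) h1 0 := by
      simpa using ((hasDerivAt_id (0:ℝ)).mul_const h1).const_add H
    have h4 : HasDerivAt (fun t : ℝ => t ^ 2 * h2) 0 0 := by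
      simpa using (hasDerivAt_pow 2 (0:ℝ)).mul_const h2
    refine ((h3.add h4).const_mul A).congr_deriv ?_
    ring
  have hh' : HasDerivAt (fun t : ℝ => A * (h1 + 2 * t * h2)) (A * (2 * h2)) 0 := by
    have h3 : HasDerivAt (fun t : ℝ => h1 + 2 * t * h2) (2 * h2) 0 := by
      simpa using (((hasDerivAt_id (0:ℝ)).const_mul 2).mul_const h2).const_add h1
    exact h3.const_mul A
  have h5 := ((hN'.mul hh).sub (hN.mul hh')).div (hh.pow 2) (by simp [hA, hH])
  unfold s4p1
  refine h5.congr_deriv ?_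
  simp only [zero_mul, add_zero, mul_zero, ne_eq, OfNat.ofNat_ne_zero, not_false_eq_true, zero_pow,
    Pi.mul_apply, Pi.sub_apply, Pi.pow_apply]
  field_simp
  ring

lemma s4_dir {g : ℂ × ℂ → ℝ} (hg : ContDiffOn ℝ 2 g U) {z : ℂ × ℂ} (hz : z ∈ U) (v : ℂ × ℂ)
    {P P1 : ℝ → ℝ} {P2 : ℝ} (hP : ∀ᶠ t in 𝓝 (0:ℝ), HasDerivAt P (P1 t) t)
    (hPg : ∀ᶠ t in 𝓝 (0:ℝ), P t = g (z + t • v)) (hP2 : HasDerivAt P1 P2 0) :
    fderiv ℝ g z v = P1 0 ∧ fderiv ℝ (fderiv ℝ g) z v v = P2 := by
  have hline : ∀ t : ℝ, HasDerivAt (fun t : ℝ => z + t • v) v t := fun t => by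
    simpa using ((hasDerivAt_id t).smul_const v).const_add z
  have hcont : ContinuousAt (fun t : ℝ => z + t • v) 0 := (hline 0).continuousAt
  have hU : ∀ᶠ t in 𝓝 (0:ℝ), z + t • v ∈ U := by
    refine hcont.eventually ?_
    simp only [zero_smul, add_zero]
    exact isOpen_U.mem_nhds hz
  have h1 : ∀ᶠ t in 𝓝 (0:ℝ), P1 t = fderiv ℝ g (z + t • v) v := by
    filter_upwards [hP, hU, hPg.eventually_nhds] with t ht htU htg
    have h2 : HasFDerivAt g (fderiv ℝ g (z + t • v)) (z + t • v) :=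
      ((hg.contDiffAt (isOpen_U.mem_nhds htU)).differentiableAt (by norm_num)).hasFDerivAt
    have h3 : HasDerivAt (fun t : ℝ => g (z + t • v)) (fderiv ℝ g (z + t • v) v) t :=
      h2.comp_hasDerivAt t (hline t)
    exact ht.unique (h3.congr_of_eventuallyEq htg)
  have h4 : ContDiffOn ℝ 1 (fderiv ℝ g) U := hg.fderiv_of_isOpen isOpen_U (by norm_num)
  have h5 : HasFDerivAt (fderiv ℝ g) (fderiv ℝ (fderiv ℝ g) z) z :=
    ((h4.contDiffAt (isOpen_U.mem_nhds hz)).differentiableAt (by norm_num)).hasFDerivAt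
  have h5' : HasFDerivAt (fderiv ℝ g) (fderiv ℝ (fderiv ℝ g) z) (z + (0:ℝ) • v) := by simpa using h5
  have h6 : HasDerivAt (fun t : ℝ => fderiv ℝ g (z + t • v)) (fderiv ℝ (fderiv ℝ g) z v) 0 :=
    h5'.comp_hasDerivAt 0 (hline 0)
  have h7 : HasDerivAt (fun t : ℝ => fderiv ℝ g (z + t • v) v) (fderiv ℝ (fderiv ℝ g) z v v) 0 := by
    have := h6.clm_apply (hasDerivAt_const (0:ℝ) v)
    simpa using this
  refine ⟨?_, ?_⟩
  · have := h1.self_of_nhds
    simpa using this.symm
  · have h8 : HasDerivAt P1 (fderiv ℝ (fderiv ℝ g) z v v) 0 := h7.congr_of_eventuallyEq h1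
    exact h8.unique hP2

/-- Directional derivatives of `σ(x,·)` along `v`. -/
lemma s4_sgm {x w : ℂ × ℂ} (hx : x ∈ U) (hw : w ∈ U) (v : ℂ × ℂ) (e f h1 h2 : ℝ)
    (he : (v.1 + star x.2 * v.2).re = e) (hf' : (v.1 + star x.2 * v.2).im = f)
    (hh1 : -(2 * v.1.re) - 2 * (w.2.re * v.2.re + w.2.im * v.2.im) = h1)
    (hh2 : -Complex.normSq v.2 = h2) :
    fderiv ℝ (sgm x) w v = ((2 * e * (hf (lift x) (lift w)).re +
        2 * f * (hf (lift x) (lift w)).im) * height w -
      ((hf (lift x) (lift w)).re ^ 2 + (hf (lift x) (lift w)).im ^ 2) * h1) /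
        (height x * height w ^ 2) ∧
    fderiv ℝ (fderiv ℝ (sgm x)) w v v =
      (2 * (e ^ 2 + f ^ 2) * height w -
        2 * ((hf (lift x) (lift w)).re ^ 2 + (hf (lift x) (lift w)).im ^ 2) * h2) /
          (height x * height w ^ 2) -
        2 * h1 * ((2 * e * (hf (lift x) (lift w)).re + 2 * f * (hf (lift x) (lift w)).im) *
          height w - ((hf (lift x) (lift w)).re ^ 2 + (hf (lift x) (lift w)).im ^ 2) * h1) /
            (height x * height w ^ 3) := by
  set p := (hf (lift x) (lift w)).re with hp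
  set q := (hf (lift x) (lift w)).im with hq
  have hxp : 0 < height x := hx
  have hwp : 0 < height w := hw
  have hne : ∀ᶠ t in 𝓝 (0:ℝ), height x * (height w + t * h1 + t ^ 2 * h2) ≠ 0 := by
    have hc : ContinuousAt (fun t : ℝ => height x * (height w + t * h1 + t ^ 2 * h2)) 0 := by
      fun_prop
    have h0 : height x * (height w + (0:ℝ) * h1 + (0:ℝ) ^ 2 * h2) ≠ 0 := by
      simp; exact ⟨hxp.ne', hwp.ne'⟩
    exact hc.eventually_ne h0
  have hPg : ∀ t : ℝ, ((p + t * e) ^ 2 + (q + t * f) ^ 2) /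
      (height x * (height w + t * h1 + t ^ 2 * h2)) = sgm x (w + t • v) := by
    intro t
    have e1 : height (w + t • v) = height w + t * h1 + t ^ 2 * h2 := by
      rw [← hh1, ← hh2]
      simp only [height, Complex.normSq_apply, Prod.fst_add, Prod.snd_add, Prod.smul_fst,
        Prod.smul_snd, Complex.add_re, Complex.add_im, Complex.real_smul, Complex.mul_re,
        Complex.mul_im, Complex.ofReal_re, Complex.ofReal_im]
      ring
    have e2 : hf (lift x) (lift (w + t • v)) =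
        hf (lift x) (lift w) + t * (v.1 + star x.2 * v.2) := by
      simp only [s4_hf, Prod.fst_add, Prod.snd_add, Prod.smul_fst, Prod.smul_snd, Complex.real_smul]
      ring
    unfold sgm
    rw [e1, e2, Complex.normSq_apply]
    simp only [Complex.add_re, Complex.add_im, Complex.re_ofReal_mul, Complex.im_ofReal_mul]
    rw [← Complex.add_re, ← Complex.add_im, he, hf', ← hp, ← hq]
    congr 1
    ring
  have h := s4_dir (contDiffOn_sgm hx) hw v
    (P := fun t : ℝ => ((p + t * e) ^ 2 + (q + t * f) ^ 2) /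
      (height x * (height w + t * h1 + t ^ 2 * h2)))
    (P1 := s4p1 (height x) p q e f (height w) h1 h2)
    (hne.mono fun t ht => s4_quot1 _ _ _ _ _ _ _ _ _ ht)
    (Filter.Eventually.of_forall hPg) (s4_quot2 _ _ _ _ _ _ _ _ hxp.ne' hwp.ne')
  refine ⟨?_, h.2⟩
  rw [h.1, s4p1]
  simp only [zero_mul, add_zero, mul_zero, ne_eq, OfNat.ofNat_ne_zero, not_false_eq_true, zero_pow]
  field_simp

/-- `|dσ|² = σ (σ - 1)`. -/
theorem normL_sgm {x w : ℂ × ℂ} (hx : x ∈ U) (hw : w ∈ U) :
    normL w (fderiv ℝ (sgm x) w) = sgm x w * (sgm x w - 1) := by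
  have hxp : 0 < height x := hx
  have hwp : 0 < height w := hw
  have hre := re_hf x w
  have f0 := (s4_sgm hx hw (1 / 2, 0) (1 / 2) 0 (-1) 0 (by simp) (by simp) (by simp) (by simp)).1
  have f1 := (s4_sgm hx hw (Complex.I / 2, 0) 0 (1 / 2) 0 0 (by simp) (by simp) (by simp)
    (by simp)).1
  have f2 := (s4_sgm hx hw (-star w.2, 1) (x.2.re - w.2.re) (w.2.im - x.2.im) 0 (-1)
    (by simp; ring) (by simp; ring) (by simp) (by simp)).1
  have f3 := (s4_sgm hx hw (-(Complex.I * star w.2), Complex.I) (x.2.im - w.2.im)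
    (x.2.re - w.2.re) 0 (-1)
    (by simp; ring) (by simp; ring) (by simp) (by simp)).1
  unfold normL
  rw [f0, f1, f2, f3]
  have hs : sgm x w = ((hf (lift x) (lift w)).re ^ 2 + (hf (lift x) (lift w)).im ^ 2) /
      (height x * height w) := by
    rw [sgm, Complex.normSq_apply]; ring
  rw [hs]
  rw [Complex.normSq_apply, Complex.sub_re, Complex.sub_im] at hre
  generalize (hf (lift x) (lift w)).re = p at *
  generalize (hf (lift x) (lift w)).im = q at *
  generalize height w = H at *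
  have hA : height x = -(2 * p) - H - ((x.2.re - w.2.re) * (x.2.re - w.2.re) +
      (x.2.im - w.2.im) * (x.2.im - w.2.im)) := by linarith
  generalize height x = A at *
  generalize x.2.re = a1 at *
  generalize x.2.im = a2 at *
  generalize w.2.re = b1 at *
  generalize w.2.im = b2 at *
  have hA0 : A ≠ 0 := hxp.ne'
  have hH0 : H ≠ 0 := hwp.ne'
  have hp : p = -(A + H + ((a1 - b1) * (a1 - b1) + (a2 - b2) * (a2 - b2))) / 2 := by linarith
  clear hA hre
  field_simp
  rw [hp]
  ring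

/-- `Δσ = 3σ - 1`. -/
theorem lapR_sgm {x w : ℂ × ℂ} (hx : x ∈ U) (hw : w ∈ U) :
    lapR (sgm x) w = 3 * sgm x w - 1 := by
  have hxp : 0 < height x := hx
  have hwp : 0 < height w := hw
  have hre := re_hf x w
  have f0 := (s4_sgm hx hw (1 / 2, 0) (1 / 2) 0 (-1) 0 (by simp) (by simp) (by simp) (by simp)).2
  have f1 := (s4_sgm hx hw (Complex.I / 2, 0) 0 (1 / 2) 0 0 (by simp) (by simp) (by simp)
    (by simp)).2
  have f2 := (s4_sgm hx hw (-star w.2, 1) (x.2.re - w.2.re) (w.2.im - x.2.im) 0 (-1)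
    (by simp; ring) (by simp; ring) (by simp) (by simp)).2
  have f3 := (s4_sgm hx hw (-(Complex.I * star w.2), Complex.I) (x.2.im - w.2.im)
    (x.2.re - w.2.re) 0 (-1)
    (by simp; ring) (by simp; ring) (by simp) (by simp)).2
  unfold lapR
  simp only [Fin.sum_univ_four, wt, fr]
  rw [f0, f1, f2, f3]
  have hs : sgm x w = ((hf (lift x) (lift w)).re ^ 2 + (hf (lift x) (lift w)).im ^ 2) /
      (height x * height w) := by
    rw [sgm, Complex.normSq_apply]; ring
  rw [hs]
  rw [Complex.normSq_apply, Complex.sub_re, Complex.sub_im] at hre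
  generalize (hf (lift x) (lift w)).re = p at *
  generalize (hf (lift x) (lift w)).im = q at *
  generalize height w = H at *
  generalize height x = A at *
  generalize x.2.re = a1 at *
  generalize x.2.im = a2 at *
  generalize w.2.re = b1 at *
  generalize w.2.im = b2 at *
  have hA0 : A ≠ 0 := hxp.ne'
  have hH0 : H ≠ 0 := hwp.ne'
  have hp : p = -(A + H + ((a1 - b1) * (a1 - b1) + (a2 - b2) * (a2 - b2))) / 2 := by linarith
  field_simp
  rw [hp]
  ring

end

end Pool.Agent.Lib.H56D
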