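import Pool.Agent.Lib.H56D.S2
import Pool.Agent.Lib.H56D.S4

/-!
# B1: the kernel as a test function
-/

namespace Pool.Agent.Lib.H56D

open Matrix hiding J
open MeasureTheory Topology Filter
open Pool.Agent.Lib.H56.Picard hiding O Gam mem_Gam star_mem_O T_mem sg_mem
open Pool.Agent.Lib.H56.Gen
open scoped ENNReal

noncomputable section

theorem ker_nonneg (p : ℕ) (L : ℝ) (x w : ℂ × ℂ) : 0 ≤ ker p L x w := by
  unfold ker
  split_ifs
  · exact pow_nonneg (le_max_right _ _) _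
  · exact le_rfl

/-- `σ ≥ 1`. -/
theorem ker_le (p : ℕ) {L : ℝ} (hL : 1 ≤ L) {x w : ℂ × ℂ} (hx : x ∈ U) :
    ker p L x w ≤ (L - 1) ^ p := by
  unfold ker
  split_ifs with h
  · have h1 := one_le_sgm hx h
    exact pow_le_pow_left₀ (le_max_right _ _) (max_le (by linarith) (by linarith)) _
  · exact pow_nonneg (by linarith) _

theorem ker_zero {p : ℕ} (hp : 1 ≤ p) {L : ℝ} {x w : ℂ × ℂ} (h : w ∉ ball x L) :
    ker p L x w = 0 := by
  unfold ker
  split_ifs with hw
  · have h1 : L < sgm x w := by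
      by_contra hcon
      push Not at hcon
      exact h ⟨hw, hcon⟩
    rw [max_eq_right (by linarith), zero_pow (by omega)]
  · rfl

theorem b1_ker_of_mem (p : ℕ) (L : ℝ) {x w : ℂ × ℂ} (hw : w ∈ U) :
    ker p L x w = (max (L - sgm x w) 0) ^ p := by
  unfold ker
  rw [if_pos (mem_U.mp hw)]

theorem ker_symm (p : ℕ) (L : ℝ) {x w : ℂ × ℂ} (hx : x ∈ U) (hw : w ∈ U) :
    ker p L x w = ker p L w x := by
  rw [b1_ker_of_mem p L hw, b1_ker_of_mem p L hx, sgm_comm]

theorem ker_act (p : ℕ) (L : ℝ) (g : SU21) {x w : ℂ × ℂ} (hx : x ∈ U) (hw : w ∈ U) :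
    ker p L (act (mat g) x) (act (mat g) w) = ker p L x w := by
  have h1 : act (mat g) w ∈ U := act_mem_U g hw
  rw [b1_ker_of_mem p L h1, b1_ker_of_mem p L hw, sgm_act g hx hw]

theorem b1_sgm_cont {x : ℂ × ℂ} (hx : x ∈ U) : ContinuousOn (sgm x) U :=
  (contDiffOn_sgm hx).continuousOn

/-- `max (L - s) 0` is continuous and `σ(x,·)` is continuous on `U`. -/
theorem ker_cont (p : ℕ) (L : ℝ) {x : ℂ × ℂ} (hx : x ∈ U) : ContinuousOn (ker p L x) U := by
  have h1 : ContinuousOn (fun w => (max (L - sgm x w) 0) ^ p) U :=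
    ((continuousOn_const.sub (b1_sgm_cont hx)).sup continuousOn_const).pow p
  exact h1.congr fun w hw => b1_ker_of_mem p L hw

/-- Vanishes off the compact set `ball x L`, continuous on `U`: `integrable_mu`. -/
theorem ker_integrable {p : ℕ} (hp : 1 ≤ p) (L : ℝ) {x : ℂ × ℂ} (hx : x ∈ U) {g : ℂ × ℂ → ℝ}
    (hg : ContinuousOn g U) : Integrable (fun w : X => ker p L x w.1 * g w.1) mu := by
  refine integrable_mu (φ := fun w => ker p L x w * g w) (isCompact_ball hx L)
    (ball_subset_U x L) ((ker_cont p L hx).mul hg) fun w _ hw => ?_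
  rw [ker_zero hp hw, zero_mul]

theorem b1_deriv {p : ℕ} (hp : 1 ≤ p) (s : ℝ) :
    HasDerivAt (fun s : ℝ => (max s 0) ^ (p + 1)) (((p : ℝ) + 1) * (max s 0) ^ p) s := by
  rcases lt_trichotomy s 0 with hs | hs | hs
  · rw [max_eq_right hs.le, zero_pow (by omega), mul_zero]
    refine (hasDerivAt_const s (0 : ℝ)).congr_of_eventuallyEq ?_
    filter_upwards [Iio_mem_nhds hs] with t ht
    rw [max_eq_right (le_of_lt ht), zero_pow (by omega)]
  · subst hs
    rw [max_self, zero_pow (by omega), mul_zero, hasDerivAt_iff_isLittleO_nhds_zero]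
    have h1 : (fun h : ℝ => h ^ (p + 1)) =o[𝓝 0] fun h => h := Asymptotics.isLittleO_pow_id (by omega)
    refine Asymptotics.IsBigO.trans_isLittleO ?_ h1
    refine Asymptotics.IsBigO.of_bound 1 ?_
    filter_upwards with t
    rw [zero_add, max_self, zero_pow (by omega), sub_zero, smul_zero, sub_zero, one_mul, norm_pow,
      norm_pow]
    apply pow_le_pow_left₀ (norm_nonneg _)
    rw [Real.norm_eq_abs, Real.norm_eq_abs, abs_of_nonneg (le_max_right _ _)]
    exact max_le (le_abs_self t) (abs_nonneg t)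
  · rw [max_eq_left hs.le]
    have h1 := hasDerivAt_pow (p + 1) s
    rw [Nat.add_sub_cancel] at h1
    push_cast at h1
    refine h1.congr_of_eventuallyEq ?_
    filter_upwards [Ioi_mem_nhds hs] with t ht
    rw [max_eq_left (le_of_lt ht)]

theorem b1_contDiff {p : ℕ} (hp : 2 ≤ p) : ContDiff ℝ 1 (fun s : ℝ => (max s 0) ^ p) := by
  obtain ⟨q, rfl⟩ : ∃ q, p = q + 1 := ⟨p - 1, by omega⟩
  have hq : 1 ≤ q := by omega
  rw [contDiff_one_iff_deriv]
  refine ⟨fun s => (b1_deriv hq s).differentiableAt, ?_⟩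
  have h1 : deriv (fun s : ℝ => (max s 0) ^ (q + 1)) = fun s => ((q : ℝ) + 1) * (max s 0) ^ q := by
    funext s
    exact (b1_deriv hq s).deriv
  rw [h1]
  fun_prop

theorem b1_eventually (p : ℕ) (L : ℝ) {x w : ℂ × ℂ} (hw : w ∈ U) :
    ker p L x =ᶠ[𝓝 w] fun w => (max (L - sgm x w) 0) ^ p := by
  filter_upwards [isOpen_U.mem_nhds hw] with z hz
  exact b1_ker_of_mem p L hz

/-- The function `s ↦ max (L - s) 0 ^ p` is `C¹` for `p ≥ 2`; at points of `U` the kernel is its
composition with `σ(x,·)`; off the compact set `ball x L ⊆ U` the kernel vanishes identically on an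
open set. -/
theorem ker_contDiff {p : ℕ} (hp : 2 ≤ p) (L : ℝ) {x : ℂ × ℂ} (hx : x ∈ U) :
    ContDiff ℝ 1 (ker p L x) := by
  rw [contDiff_iff_contDiffAt]
  intro w
  by_cases hw : w ∈ U
  · have h1 : ContDiffAt ℝ 1 (sgm x) w :=
      ((contDiffOn_sgm hx).contDiffAt (isOpen_U.mem_nhds hw)).of_le (by norm_num)
    have h2 : ContDiffAt ℝ 1 (fun w => L - sgm x w) w := contDiffAt_const.sub h1
    have h3 : ContDiffAt ℝ 1 ((fun s : ℝ => (max s 0) ^ p) ∘ (fun w => L - sgm x w)) w :=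
      ContDiffAt.comp w ((b1_contDiff hp).contDiffAt) h2
    exact h3.congr_of_eventuallyEq (b1_eventually p L hw)
  · have h1 : w ∉ ball x L := fun h => hw (ball_subset_U x L h)
    have h2 : ker p L x =ᶠ[𝓝 w] fun _ => 0 := by
      filter_upwards [(isCompact_ball hx L).isClosed.isOpen_compl.mem_nhds h1] with z hz
      exact ker_zero (by omega) hz
    exact (contDiffAt_const (c := (0 : ℝ))).congr_of_eventuallyEq h2

/-- The support is contained in the compact (closed) set `ball x L`. -/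
theorem ker_support {p : ℕ} (hp : 1 ≤ p) (L : ℝ) {x : ℂ × ℂ} (hx : x ∈ U) :
    HasCompactSupport (ker p L x) ∧ tsupport (ker p L x) ⊆ U := by
  refine ⟨HasCompactSupport.intro (isCompact_ball hx L) fun w hw => ker_zero hp hw, ?_⟩
  refine (closure_minimal ?_ (isCompact_ball hx L).isClosed).trans (ball_subset_U x L)
  intro w hw
  by_contra hcon
  exact hw (ker_zero hp hcon)

/-- Chain rule; `d/ds max (L - s) 0 ^ (p+1) = -(p+1) max (L - s) 0 ^ p` for `p ≥ 1`. -/
theorem ker_fderiv {p : ℕ} (hp : 1 ≤ p) (L : ℝ) {x w : ℂ × ℂ} (hx : x ∈ U) (hw : w ∈ U) :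
    fderiv ℝ (ker (p + 1) L x) w = (-((p + 1) * ker p L x w)) • fderiv ℝ (sgm x) w := by
  rw [(b1_eventually (p + 1) L hw).fderiv_eq, b1_ker_of_mem p L hw]
  have h1 : DifferentiableAt ℝ (sgm x) w :=
    ((contDiffOn_sgm hx).contDiffAt (isOpen_U.mem_nhds hw)).differentiableAt (by norm_num)
  have h2 : HasFDerivAt (fun w => L - sgm x w) (-fderiv ℝ (sgm x) w) w :=
    h1.hasFDerivAt.const_sub L
  have h3 := (b1_deriv hp (L - sgm x w)).comp_hasFDerivAt w h2
  have h4 : HasFDerivAt (fun w => (max (L - sgm x w) 0) ^ (p + 1)) _ w := h3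
  rw [h4.fderiv, smul_neg]
  exact (neg_smul _ _).symm

end

end Pool.Agent.Lib.H56D
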