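import Pool.Agent.Lib.H56D.B1

/-!
# B2: the differential equation of the radial integrals
-/

namespace Pool.Agent.Lib.H56D

open Matrix hiding J
open MeasureTheory Topology Filter
open Pool.Agent.Lib.H56.Picard hiding O Gam mem_Gam star_mem_O T_mem sg_mem
open Pool.Agent.Lib.H56.Gen
open scoped ENNReal

noncomputable section

theorem b2_cube (t : ℝ) : (max t 0) ^ 2 * t = (max t 0) ^ 3 := by
  rcases le_total t 0 with h | h
  · rw [max_eq_right h]; ring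
  · rw [max_eq_left h]; ring

theorem b2_sq (t : ℝ) : max t 0 * t = (max t 0) ^ 2 := by
  rcases le_total t 0 with h | h
  · rw [max_eq_right h]; ring
  · rw [max_eq_left h]; ring

theorem b2_alg2 (L : ℝ) {x w : ℂ × ℂ} (hw : w ∈ U) :
    ker 2 L x w * (3 * sgm x w - 1) = (3 * L - 1) * ker 2 L x w - 3 * ker 3 L x w := by
  rw [b1_ker_of_mem 2 L hw, b1_ker_of_mem 3 L hw, ← b2_cube (L - sgm x w)]
  ring

theorem b2_alg1 (L : ℝ) {x w : ℂ × ℂ} (hw : w ∈ U) :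
    ker 1 L x w * (sgm x w * (sgm x w - 1)) =
      L * (L - 1) * ker 1 L x w - (2 * L - 1) * ker 2 L x w + ker 3 L x w := by
  rw [b1_ker_of_mem 1 L hw, b1_ker_of_mem 2 L hw, b1_ker_of_mem 3 L hw, ← b2_cube (L - sgm x w),
    ← b2_sq (L - sgm x w), pow_one]
  ring

theorem b2_lin2 {F a b : X → ℝ} (α β : ℝ) (ha : Integrable a mu) (hb : Integrable b mu)
    (h : ∀ z, F z = α * a z + β * b z) :
    ∫ z, F z ∂mu = α * ∫ z, a z ∂mu + β * ∫ z, b z ∂mu := by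
  rw [← integral_const_mul, ← integral_const_mul, ← integral_add (ha.const_mul _) (hb.const_mul _)]
  exact integral_congr_ae (Filter.Eventually.of_forall h)

theorem b2_lin3 {F a b c : X → ℝ} (α β γ : ℝ) (ha : Integrable a mu) (hb : Integrable b mu)
    (hc : Integrable c mu) (h : ∀ z, F z = α * a z + β * b z + γ * c z) :
    ∫ z, F z ∂mu = α * ∫ z, a z ∂mu + β * ∫ z, b z ∂mu + γ * ∫ z, c z ∂mu := by
  have h1 : Integrable (fun z => α * a z + β * b z) mu := (ha.const_mul _).add (hb.const_mul _)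
  rw [← b2_lin2 α β ha hb (fun _ => rfl), ← integral_const_mul,
    ← integral_add h1 (hc.const_mul _)]
  exact integral_congr_ae (Filter.Eventually.of_forall h)

theorem b2_int (p : ℕ) (hp : 1 ≤ p) {g : ℂ × ℂ → ℝ} (hg : ContinuousOn g U) {x : ℂ × ℂ}
    (hx : x ∈ U) (L : ℝ) : Integrable (fun w : X => ker p L x w.1 * g w.1) mu :=
  ker_integrable hp L hx hg

/-- The mixed term. -/
def b2_B (g : ℂ × ℂ → ℝ) (x : ℂ × ℂ) (w : ℂ × ℂ) : ℝ :=
  Bf w (fderiv ℝ (sgm x) w) (fderiv ℝ g w)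

theorem b2_B_cont {g : ℂ × ℂ → ℝ} (hg : ContDiffOn ℝ 1 g U) {x : ℂ × ℂ} (hx : x ∈ U) :
    ContinuousOn (b2_B g x) U :=
  continuousOn_Bf hg ((contDiffOn_sgm hx).of_le (by norm_num))

theorem b2_A {g : ℂ × ℂ → ℝ} {lam : ℝ} (hg : ContDiffOn ℝ 2 g U)
    (hlap : ∀ z ∈ U, lapR g z = -(lam * g z)) {x : ℂ × ℂ} (hx : x ∈ U) (L : ℝ) :
    (-lam) * JJ 3 g x L + (-3) * ∫ w : X, ker 2 L x w.1 * b2_B g x w.1 ∂mu = 0 := by
  have h1 := green_mu hg (ker_contDiff (p := 3) (by norm_num) L hx)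
    (ker_support (p := 3) (by norm_num) L hx).1 (ker_support (p := 3) (by norm_num) L hx).2
  rw [b2_lin2 (-lam) (-3) (b2_int 3 (by norm_num) hg.continuousOn hx L)
    (b2_int 2 (by norm_num) (b2_B_cont (hg.of_le (by norm_num)) hx) hx L)] at h1
  · exact h1
  · intro z
    have h2 := ker_fderiv (p := 2) (by norm_num) L hx (w := z.1) z.2
    have h3 := hlap z.1 z.2
    rw [show (3:ℕ) = 2 + 1 from rfl, h2, Bf_smul_left, h3]
    unfold b2_B
    push_cast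
    ring

theorem b2_e1 {g : ℂ × ℂ → ℝ} (hg : ContinuousOn g U) {x : ℂ × ℂ} (hx : x ∈ U) (L : ℝ) :
    ∫ z : X, ker 2 L x z.1 * (g z.1 * lapR (sgm x) z.1) ∂mu
      = (3 * L - 1) * JJ 2 g x L + (-3) * JJ 3 g x L := by
  refine b2_lin2 (3 * L - 1) (-3) (b2_int 2 (by norm_num) hg hx L)
    (b2_int 3 (by norm_num) hg hx L) fun z => ?_
  have h1 := b2_alg2 L (x := x) (w := z.1) z.2
  rw [lapR_sgm hx z.2]
  linear_combination (g z.1) * h1

theorem b2_e2 {g : ℂ × ℂ → ℝ} (hg : ContinuousOn g U) {x : ℂ × ℂ} (hx : x ∈ U) (L : ℝ) :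
    ∫ z : X, g z.1 * Bf z.1 (fderiv ℝ (ker 2 L x) z.1) (fderiv ℝ (sgm x) z.1) ∂mu
      = (-2 * (L * (L - 1))) * JJ 1 g x L + (2 * (2 * L - 1)) * JJ 2 g x L + (-2) * JJ 3 g x L := by
  refine b2_lin3 (-2 * (L * (L - 1))) (2 * (2 * L - 1)) (-2) (b2_int 1 le_rfl hg hx L)
    (b2_int 2 (by norm_num) hg hx L) (b2_int 3 (by norm_num) hg hx L) fun z => ?_
  have h1 := b2_alg1 L (x := x) (w := z.1) z.2
  have h2 := ker_fderiv (p := 1) le_rfl L hx (w := z.1) z.2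
  have h3 := normL_sgm hx (w := z.1) z.2
  rw [show ker 2 L x = ker (1 + 1) L x from rfl, h2, Bf_smul_left, Bf_self, h3]
  rw [show ker (1 + 1) L x = ker 2 L x from rfl]
  push_cast
  linear_combination (-2 * g z.1) * h1

/-- Write `k_p = ker p L x`, `σ = sgm x`, `I_p = JJ p g x L`, `B = ∫ k_2 Bf(dσ, dg) dμ`.
(A) `green_mu` with test function `h = k_3` and `g`: `∫ k_3 Δg + Bf(dk_3, dg) = 0`, with
`dk_3 = -3 k_2 dσ` (`ker_fderiv`): `-lam I_3 - 3 B = 0`.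
(B) `green_mu` with test function `h = k_2 g` (`C¹`: `contDiff_mul_of_tsupport`; derivative:
`fderiv_mul_of_tsupport`) and the function `σ` in the role of `g`: with `Δσ = 3σ - 1`,
`d(k_2 g) = k_2 dg - 2 k_1 g dσ`, `Bf(dσ,dσ) = σ(σ-1)`:
`∫ g k_2 (3σ - 1) + B - 2 ∫ g k_1 σ(σ - 1) = 0`.
Off the ball all kernels vanish, on the ball `k_p = τ^p` with `τ = L - σ`, so
`k_2 (3σ - 1) = (3L - 1) k_2 - 3 k_3` and
`k_1 σ(σ-1) = k_1 (L-τ)(L-1-τ) = L(L-1) k_1 - (2L-1) k_2 + k_3`. Hence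
`B = 2 (L(L-1) I_1 - (2L-1) I_2 + I_3) - (3L-1) I_2 + 3 I_3`, i.e.
`B = 2L(L-1) I_1 - (7L - 3) I_2 + 5 I_3`, and (A) gives the claim (multiply by 3). -/
theorem ode_rel {g : ℂ × ℂ → ℝ} {lam : ℝ} (hg : ContDiffOn ℝ 2 g U)
    (hlap : ∀ z ∈ U, lapR g z = -(lam * g z)) {x : ℂ × ℂ} (hx : x ∈ U) (L : ℝ) :
    L * (L - 1) * (6 * JJ 1 g x L) - (7 * L - 3) * (3 * JJ 2 g x L) + (15 + lam) * JJ 3 g x L
      = 0 := by
  have hg1 : ContDiffOn ℝ 1 g U := hg.of_le (by norm_num)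
  have hs2 := contDiffOn_sgm hx
  have hA := b2_A hg hlap hx L
  have hl : ContinuousOn (lapR (sgm x)) U := by
    have h1 : ContinuousOn (fun w => 3 * sgm x w - 1) U :=
      (continuousOn_const.mul hs2.continuousOn).sub continuousOn_const
    exact h1.congr fun w hw => lapR_sgm hx hw
  have hB := green_mul hg1 hs2 (ker_contDiff (p := 2) le_rfl L hx)
      (ker_support (p := 2) (by norm_num) L hx).1 (ker_support (p := 2) (by norm_num) L hx).2 hl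
  have e3 : ∫ z : X, ker 2 L x z.1 * Bf z.1 (fderiv ℝ g z.1) (fderiv ℝ (sgm x) z.1) ∂mu
      = ∫ w : X, ker 2 L x w.1 * b2_B g x w.1 ∂mu := by
    refine integral_congr_ae (Filter.Eventually.of_forall fun z => ?_)
    show ker 2 L x z.1 * Bf z.1 (fderiv ℝ g z.1) (fderiv ℝ (sgm x) z.1) = _
    rw [Bf_comm]
    rfl
  rw [b2_e1 hg.continuousOn hx L, b2_e2 hg.continuousOn hx L, e3] at hB
  linear_combination (-1) * hA + (-3) * hB

end

end Pool.Agent.Lib.H56D
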