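import Pool.Agent.Lib.H56D.B1

/-!
# B3: differentiation under the integral sign
-/

namespace Pool.Agent.Lib.H56D

open Matrix hiding J
open MeasureTheory Topology Filter
open Pool.Agent.Lib.H56.Picard hiding O Gam mem_Gam star_mem_O T_mem sg_mem
open Pool.Agent.Lib.H56.Gen
open scoped ENNReal

noncomputable section

private lemma B3_maxpow {p : ℕ} (hp : 1 ≤ p) (t : ℝ) :
    HasDerivAt (fun t : ℝ => (max t 0) ^ (p + 1)) ((p + 1) * (max t 0) ^ p) t := by
  rcases lt_trichotomy t 0 with h | h | h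
  · have e : (fun t : ℝ => (max t 0) ^ (p + 1)) =ᶠ[𝓝 t] fun _ => (0 : ℝ) := by
      filter_upwards [Iio_mem_nhds h] with s hs
      rw [max_eq_right (le_of_lt hs), zero_pow (by omega)]
    rw [max_eq_right h.le, zero_pow (by omega), mul_zero]
    exact (hasDerivAt_const t (0 : ℝ)).congr_of_eventuallyEq e
  · subst h
    have h1 : HasDerivWithinAt (fun t : ℝ => (max t 0) ^ (p + 1)) 0 (Set.Ici 0) 0 := by
      have h2 : HasDerivWithinAt (fun t : ℝ => t ^ (p + 1)) 0 (Set.Ici 0) 0 := by
        have h3 := (hasDerivAt_pow (p + 1) (0 : ℝ)).hasDerivWithinAt (s := Set.Ici 0)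
        have e : ((p + 1 : ℕ) : ℝ) * (0 : ℝ) ^ (p + 1 - 1) = 0 := by
          rw [Nat.add_sub_cancel, zero_pow (by omega), mul_zero]
        rw [e] at h3
        exact h3
      refine h2.congr (fun s hs => ?_) ?_
      · rw [max_eq_left hs]
      · rw [max_self]
    have h4 : HasDerivWithinAt (fun t : ℝ => (max t 0) ^ (p + 1)) 0 (Set.Iic 0) 0 := by
      refine (hasDerivWithinAt_const (0 : ℝ) (Set.Iic 0) (0 : ℝ)).congr (fun s hs => ?_) ?_
      · rw [max_eq_right hs, zero_pow (by omega)]
      · rw [max_self, zero_pow (by omega)]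
    have h5 := h1.union h4
    rw [Set.union_comm, Set.Iic_union_Ici, hasDerivWithinAt_univ] at h5
    rw [max_self, zero_pow (by omega : p ≠ 0), mul_zero]
    exact h5
  · have e : (fun t : ℝ => (max t 0) ^ (p + 1)) =ᶠ[𝓝 t] fun t => t ^ (p + 1) := by
      filter_upwards [Ioi_mem_nhds h] with s hs
      rw [max_eq_left (le_of_lt hs)]
    rw [max_eq_left h.le]
    have h3 := (hasDerivAt_pow (p + 1) t).congr_of_eventuallyEq e
    rw [Nat.add_sub_cancel] at h3
    push_cast at h3
    exact h3

private lemma B3_ker_deriv {p : ℕ} (hp : 1 ≤ p) (x w : ℂ × ℂ) (L : ℝ) :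
    HasDerivAt (fun L : ℝ => ker (p + 1) L x w) ((p + 1) * ker p L x w) L := by
  by_cases hw : 0 < height w
  · have e1 : (fun L : ℝ => ker (p + 1) L x w) = fun L : ℝ => (max (L - sgm x w) 0) ^ (p + 1) := by
      funext L
      unfold ker
      rw [if_pos hw]
    have e2 : ker p L x w = (max (L - sgm x w) 0) ^ p := by
      unfold ker
      rw [if_pos hw]
    rw [e1, e2]
    have h := (B3_maxpow hp (L - sgm x w)).comp L ((hasDerivAt_id L).sub_const (sgm x w))
    rw [mul_one] at h
    exact h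
  · have e1 : (fun L : ℝ => ker (p + 1) L x w) = fun _ : ℝ => (0 : ℝ) := by
      funext L
      unfold ker
      rw [if_neg hw]
    have e2 : ker p L x w = 0 := by
      unfold ker
      rw [if_neg hw]
    rw [e1, e2, mul_zero]
    exact hasDerivAt_const _ _

private lemma B3_ker_bound {p : ℕ} (hp : 1 ≤ p) {x w : ℂ × ℂ} (hx : x ∈ U) (hw : w ∈ U)
    {L L' : ℝ} (hL : |L' - L| < 1) :
    ker p L' x w ≤ (|L| + 1) ^ p * ker 1 (|L| + 2) x w := by
  have hL1 : L' ≤ |L| + 1 := by
    have h1 := abs_lt.1 hL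
    have h2 := le_abs_self L
    linarith [h1.2]
  have hL0 := abs_nonneg L
  have h0 : 0 < height w := hw
  by_cases hs : sgm x w < L'
  · have k1 : 1 ≤ ker 1 (|L| + 2) x w := by
      unfold ker
      rw [if_pos h0, pow_one]
      exact le_max_of_le_left (by linarith)
    have k2 : ker p L' x w ≤ ker p (|L| + 2) x w := by
      unfold ker
      rw [if_pos h0, if_pos h0]
      gcongr
      linarith
    have k3 := ker_le p (by linarith : (1 : ℝ) ≤ |L| + 2) (w := w) hx
    have k4 : |L| + 2 - 1 = |L| + 1 := by ring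
    rw [k4] at k3
    have k5 : (0 : ℝ) ≤ (|L| + 1) ^ p := by positivity
    nlinarith
  · have k6 : ker p L' x w = 0 := by
      unfold ker
      rw [if_pos h0, max_eq_right (by linarith), zero_pow (by omega)]
    rw [k6]
    exact mul_nonneg (by positivity) (ker_nonneg _ _ _ _)

/-- `hasDerivAt_integral_of_dominated_loc_of_deriv_le` on `|L' - L| < 1`: for fixed `w` the function
`L ↦ ker (p+1) L x w` has derivative `(p+1) ker p L x w` (`p ≥ 1`); the dominating function is
`(p+1) (|L|+1)^p |g| 1_{ball x (|L|+1)}`, integrable because the ball is compact, `g` is bounded on it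
and `mu` is finite on compact sets (compare `integrable_mu`; on the ball
`0 ≤ L' - σ ≤ |L| + 1`). -/
theorem hasDerivAt_JJ {g : ℂ × ℂ → ℝ} (hg : ContinuousOn g U) {x : ℂ × ℂ} (hx : x ∈ U) {p : ℕ}
    (hp : 1 ≤ p) (L : ℝ) : HasDerivAt (JJ (p + 1) g x) ((p + 1) * JJ p g x L) L := by
  have hb : Integrable (fun w : X => ((p : ℝ) + 1) * ((|L| + 1) ^ p *
      (ker 1 (|L| + 2) x w.1 * |g w.1|))) mu :=
    ((ker_integrable le_rfl (|L| + 2) hx hg.abs).const_mul _).const_mul _
  have h := hasDerivAt_integral_of_dominated_loc_of_deriv_le (μ := (mu : Measure X))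
    (F := fun L (w : X) => ker (p + 1) L x w.1 * g w.1)
    (F' := fun L (w : X) => ((p : ℝ) + 1) * ker p L x w.1 * g w.1) (x₀ := L)
    (s := Metric.ball L 1)
    (bound := fun w : X => ((p : ℝ) + 1) * ((|L| + 1) ^ p * (ker 1 (|L| + 2) x w.1 * |g w.1|)))
    (Metric.ball_mem_nhds L one_pos)
    (Eventually.of_forall fun L' => (ker_integrable (by omega) L' hx hg).aestronglyMeasurable)
    (ker_integrable (by omega) L hx hg)
    (by
      have h1 := (ker_integrable hp L hx hg).const_mul ((p : ℝ) + 1)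
      refine h1.aestronglyMeasurable.congr (Eventually.of_forall fun w => ?_)
      simp only
      ring)
    (by
      filter_upwards with w
      intro L' hL'
      rw [Metric.mem_ball, Real.dist_eq] at hL'
      have h1 := B3_ker_bound hp hx w.2 hL'
      rw [norm_mul, norm_mul, Real.norm_of_nonneg (ker_nonneg _ _ _ _), Real.norm_eq_abs,
        Real.norm_eq_abs, abs_of_nonneg (by positivity : (0 : ℝ) ≤ (p : ℝ) + 1)]
      have h2 : 0 ≤ |g w.1| := abs_nonneg _
      have h3 : (0 : ℝ) ≤ (p : ℝ) + 1 := by positivity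
      calc ((p : ℝ) + 1) * ker p L' x w.1 * |g w.1|
          ≤ ((p : ℝ) + 1) * ((|L| + 1) ^ p * ker 1 (|L| + 2) x w.1) * |g w.1| := by gcongr
        _ = _ := by ring)
    hb
    (by
      filter_upwards with w
      intro L' _
      exact (B3_ker_deriv hp x w.1 L').mul_const (g w.1))
  have h2 := h.2
  have e : (∫ w : X, ((p : ℝ) + 1) * ker p L x w.1 * g w.1 ∂mu) = (p + 1) * JJ p g x L := by
    rw [JJ, ← integral_const_mul]
    congr 1
    funext w
    ring
  rw [e] at h2
  exact h2

end

end Pool.Agent.Lib.H56D
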