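import Pool.Agent.Lib.H56D.B1

/-!
# B4: behaviour at `L → 1`
-/

namespace Pool.Agent.Lib.H56D

open Matrix hiding J
open MeasureTheory Topology Filter
open Pool.Agent.Lib.H56.Picard hiding O Gam mem_Gam star_mem_O T_mem sg_mem
open Pool.Agent.Lib.H56.Gen
open scoped ENNReal

noncomputable section

theorem b4_ker_ball {p : ℕ} (hp : 1 ≤ p) {L : ℝ} {x w : ℂ × ℂ} (hL : 1 ≤ L) (hx : x ∈ U)
    (hL2 : L ≤ 2) (hw : w ∈ U) : ker p L x w ≤ (L - 1) ^ p * ker 1 3 x w := by
  by_cases hb : w ∈ ball x L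
  · have h1 : 1 ≤ ker 1 3 x w := by
      unfold ker
      have h2 : 0 < height w := hw
      rw [if_pos h2, pow_one]
      have h3 := hb.2
      exact le_max_of_le_left (by linarith)
    have h2 := ker_le p hL (w := w) hx
    have h3 : 0 ≤ (L - 1) ^ p := pow_nonneg (by linarith) p
    nlinarith
  · rw [ker_zero hp hb]
    exact mul_nonneg (pow_nonneg (by linarith) p) (ker_nonneg _ _ _ _)

/-- `|JJ p g x L| ≤ (L-1)^p ∫_{ball x 2} |g| dμ → 0` for `1 < L ≤ 2` (`ker_le`, `ker_zero`;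
`∫_{ball x 2}|g|` is finite by compactness). -/
theorem JJ_tendsto {g : ℂ × ℂ → ℝ} (hg : ContinuousOn g U) {x : ℂ × ℂ} (hx : x ∈ U) {p : ℕ}
    (hp : 1 ≤ p) : Tendsto (JJ p g x) (𝓝[>] 1) (𝓝 0) := by
  have hint : Integrable (fun w : X => ker 1 3 x w.1 * |g w.1|) mu :=
    ker_integrable le_rfl 3 hx hg.abs
  set M : ℝ := ∫ w : X, ker 1 3 x w.1 * |g w.1| ∂mu with hM
  have hbound : ∀ᶠ L in 𝓝[>] (1 : ℝ), ‖JJ p g x L‖ ≤ (L - 1) ^ p * M := by
    have h1 : ∀ᶠ L in 𝓝[>] (1 : ℝ), L ∈ Set.Ioc (1 : ℝ) 2 :=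
      Ioc_mem_nhdsGT (by norm_num)
    filter_upwards [h1] with L hL
    rw [JJ, hM, ← integral_const_mul]
    apply norm_integral_le_of_norm_le (hint.const_mul _)
    filter_upwards with w
    rw [norm_mul, Real.norm_of_nonneg (ker_nonneg _ _ _ _), Real.norm_eq_abs, ← mul_assoc]
    exact mul_le_mul_of_nonneg_right (b4_ker_ball hp hL.1.le hx hL.2 w.2) (abs_nonneg _)
  have hlim : Tendsto (fun L : ℝ => (L - 1) ^ p * M) (𝓝[>] 1) (𝓝 0) := by
    have h2 : Tendsto (fun L : ℝ => (L - 1) ^ p * M) (𝓝 1) (𝓝 ((1 - 1) ^ p * M)) := by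
      apply Continuous.tendsto
      fun_prop
    rw [sub_self, zero_pow (by omega), zero_mul] at h2
    exact h2.mono_left nhdsWithin_le_nhds
  exact squeeze_zero_norm' hbound hlim

/-- Continuity of `g` at `x` and `ball_shrink`: for `L` close to `1` one has `|g w - g x| ≤ ε` on
`ball x L`, hence `|JJ 3 g x L - g x JJ 3 1 x L| = |∫ ker 3 L x w (g w - g x)| ≤ ε JJ 3 1 x L`. -/
theorem JJ_asym {g : ℂ × ℂ → ℝ} (hg : ContinuousOn g U) {x : ℂ × ℂ} (hx : x ∈ U) {ε : ℝ}
    (hε : 0 < ε) : ∀ᶠ L in 𝓝[>] (1 : ℝ),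
      |JJ 3 g x L - g x * JJ 3 (fun _ => 1) x L| ≤ ε * JJ 3 (fun _ => 1) x L := by
  have hN : {w : ℂ × ℂ | |g w - g x| ≤ ε} ∈ 𝓝 x := by
    have h1 : ContinuousAt g x := hg.continuousAt (isOpen_U.mem_nhds hx)
    have h2 := Metric.continuousAt_iff'.1 h1 ε hε
    filter_upwards [h2] with w hw
    rw [Real.dist_eq] at hw
    exact hw.le
  obtain ⟨L₀, hL₀, hsub⟩ := ball_shrink hx hN
  have h1 : ∀ᶠ L in 𝓝[>] (1 : ℝ), L ∈ Set.Ioc (1 : ℝ) L₀ := Ioc_mem_nhdsGT hL₀
  filter_upwards [h1] with L hL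
  have hi1 : Integrable (fun w : X => ker 3 L x w.1 * g w.1) mu :=
    ker_integrable (by norm_num) L hx hg
  have hi2 : Integrable (fun w : X => ker 3 L x w.1 * (1 : ℝ)) mu :=
    ker_integrable (g := fun _ => (1 : ℝ)) (by norm_num) L hx continuousOn_const
  have e1 : JJ 3 g x L - g x * JJ 3 (fun _ => 1) x L =
      ∫ w : X, (ker 3 L x w.1 * g w.1 - g x * (ker 3 L x w.1 * (1 : ℝ))) ∂mu := by
    rw [JJ, JJ, integral_sub hi1 (hi2.const_mul _), integral_const_mul]
  rw [e1, JJ, ← integral_const_mul, ← Real.norm_eq_abs]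
  apply norm_integral_le_of_norm_le (hi2.const_mul _)
  filter_upwards with w
  have e2 : ker 3 L x w.1 * g w.1 - g x * (ker 3 L x w.1 * (1 : ℝ)) =
      ker 3 L x w.1 * (g w.1 - g x) := by ring
  rw [e2, norm_mul, Real.norm_of_nonneg (ker_nonneg _ _ _ _), Real.norm_eq_abs]
  by_cases hb : w.1 ∈ ball x L
  · have h3 : |g w.1 - g x| ≤ ε := hsub (ball_mono x hL.2 hb)
    have h4 := ker_nonneg 3 L x w.1
    nlinarith
  · rw [ker_zero (by norm_num) hb]
    simp

/-- The integrand is nonnegative, continuous and positive at `x` (`sgm_self`), `mu` is positive on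
nonempty open sets. -/
theorem JJ_one_pos {x : ℂ × ℂ} (hx : x ∈ U) {L : ℝ} (hL : 1 < L) :
    0 < JJ 3 (fun _ => 1) x L := by
  have hi2 : Integrable (fun w : X => ker 3 L x w.1 * (1 : ℝ)) mu :=
    ker_integrable (g := fun _ => (1 : ℝ)) (by norm_num) L hx continuousOn_const
  have hcont : Continuous (fun w : X => ker 3 L x w.1 * (1 : ℝ)) := by
    have h1 : Continuous (fun w : X => ker 3 L x w.1) :=
      continuousOn_iff_continuous_domRestrict.mp (ker_cont 3 L hx)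
    exact h1.mul continuous_const
  rw [JJ, integral_pos_iff_support_of_nonneg (fun w => by
    rw [Pi.zero_apply, mul_one]
    exact ker_nonneg _ _ _ _) hi2]
  have hopen : IsOpen (Function.support (fun w : X => ker 3 L x w.1 * (1 : ℝ))) := by
    rw [Function.support_eq_preimage]
    exact hcont.isOpen_preimage _ isOpen_compl_singleton
  refine hopen.measure_pos mu ⟨⟨x, hx⟩, ?_⟩
  rw [Function.mem_support, mul_one]
  have h0 : 0 < height x := hx
  show ker 3 L x x ≠ 0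
  unfold ker
  rw [if_pos h0, sgm_self hx]
  have : 0 < max (L - 1) 0 := lt_max_of_lt_left (by linarith)
  positivity

/-- Invariance of `mu` (`measurePreserving_smul`) and of the kernel (`ker_act`). -/
theorem JJ_one_act (g : SU21) {x : ℂ × ℂ} (hx : x ∈ U) (L : ℝ) :
    JJ 3 (fun _ => 1) (act (mat g) x) L = JJ 3 (fun _ => 1) x L := by
  have h3 := (measurePreserving_smul g (mu : Measure X)).integral_comp
    (measurableEmbedding_const_smul g)
    (fun w : X => ker 3 L (act (mat g) x) w.1 * (1 : ℝ))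
  rw [JJ, ← h3, JJ]
  apply integral_congr_ae
  filter_upwards with w
  have h4 : ((g • w : X) : ℂ × ℂ) = act (mat g) w.1 := rfl
  rw [h4, ker_act 3 L g hx w.2]

end

end Pool.Agent.Lib.H56D
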