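import Pool.Agent.Lib.H56D.Stmt
import Pool.Agent.Lib.H56C.L8
import Pool.Agent.Lib.H56C.B2

/-!
# H56D, BT: combinatorics of case (3) of `Adm`
-/

set_option autoImplicit false

open Finset

namespace H56D

open H56C

/-- six indices, all classes of two or three elements: all of two or all of three elements -/
theorem B2_six {β : Fin 6 → ℝ} (h2 : ∀ i, 2 ≤ cl β i) (h3 : ∀ i, cl β i ≤ 3) : (∀ i, cl β i = 2) ∨ ∀ i, cl β i = 3 := by
  classical
  obtain ⟨F, hF⟩ : ∃ F : ℝ → ℕ, F = fun v => (univ.filter fun j => β j = v).card := ⟨_, rfl⟩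
  have hcl : ∀ i, cl β i = F (β i) := by
    intro i
    rw [hF]
    unfold cl
    rfl
  have hmem : ∀ v ∈ univ.image β, F v = 2 ∨ F v = 3 := by
    intro v hv
    obtain ⟨i, -, rfl⟩ := mem_image.1 hv
    have h4 := h2 i
    have h5 := h3 i
    rw [hcl] at h4 h5
    omega
  have h6 : 6 = ∑ v ∈ univ.image β, F v := by
    have h7 := card_eq_sum_card_image β (univ : Finset (Fin 6))
    rw [card_univ, Fintype.card_fin] at h7
    rw [hF]
    exact h7
  have h8 : ∑ v ∈ univ.image β, F v = 2 * ((univ.image β).filter fun v => F v = 2).card + 3 * ((univ.image β).filter fun v => ¬F v = 2).card := by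
    rw [← sum_filter_add_sum_filter_not _ (fun v => F v = 2)]
    congr 1
    · rw [sum_congr rfl fun v hv => (mem_filter.1 hv).2, sum_const, smul_eq_mul, mul_comm]
    · rw [sum_congr rfl fun v hv => (hmem v (mem_filter.1 hv).1).resolve_left (mem_filter.1 hv).2, sum_const, smul_eq_mul, mul_comm]
  rw [h8] at h6
  by_cases h9 : ((univ.image β).filter fun v => ¬F v = 2).card = 0
  · left
    intro i
    rw [hcl]
    by_contra h10
    rw [card_eq_zero] at h9
    have h11 : β i ∈ (univ.image β).filter fun v => ¬F v = 2 := mem_filter.2 ⟨mem_image_of_mem β (mem_univ i), h10⟩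
    rw [h9] at h11
    exact absurd h11 (notMem_empty _)
  · right
    have h10 : ((univ.image β).filter fun v => F v = 2).card = 0 := by omega
    intro i
    rw [hcl]
    rcases hmem _ (mem_image_of_mem β (mem_univ i)) with h11 | h11
    · rw [card_eq_zero] at h10
      have h12 : β i ∈ (univ.image β).filter fun v => F v = 2 := mem_filter.2 ⟨mem_image_of_mem β (mem_univ i), h11⟩
      rw [h10] at h12
      exact absurd h12 (notMem_empty _)
    · exact h11

theorem adm_three {N : ℕ} {β : Fin N → ℝ} (h : H56C.Adm β) : Adm β := by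
  rcases h with h | h
  · exact Or.inl h
  · exact Or.inr (Or.inl h)

theorem adm_her {M N : ℕ} {β : Fin N → ℝ} (hA : Adm β) {f : Fin M → Fin N} (hf : Function.Injective f) : Adm (fun k => β (f k)) := by
  classical
  rcases hA with h | h | ⟨h1, h3⟩
  · exact adm_three (L8 (Or.inl h) hf)
  · exact adm_three (L8 (Or.inr h) hf)
  · refine Or.inr (Or.inr ⟨fun i => le_trans (L8_le β hf i) (h1 _), ?_⟩)
    refine le_trans ?_ h3
    rw [← Finset.card_image_of_injective _ hf]
    apply Finset.card_le_card
    intro x hx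
    obtain ⟨j, hj, rfl⟩ := Finset.mem_image.1 hx
    exact Finset.mem_filter.2 ⟨Finset.mem_univ _, le_trans (Finset.mem_filter.1 hj).2 (L8_le β hf j)⟩

/-- two different values -/
theorem B2_add {N : ℕ} {β : Fin N → ℝ} {i j : Fin N} (h : β i ≠ β j) : cl β i + cl β j ≤ N := by
  classical
  unfold cl
  have h1 : Disjoint (univ.filter fun x => β x = β i) (univ.filter fun x => β x = β j) := by
    rw [Finset.disjoint_left]
    intro x hx hy
    exact h ((mem_filter.1 hx).2.symm.trans (mem_filter.1 hy).2)
  rw [← card_union_of_disjoint h1]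
  exact (card_le_univ _).trans (by rw [Fintype.card_fin])

/-- no simple value in case (3): dimension at most four, or six indices and the classes `2, 2, 2`, or one class of three or four indices -/
theorem B2_three {n : ℕ} {β : Fin (2 * n) → ℝ} (h3 : ∀ i, cl β i ≤ 5) (h6 : (Finset.univ.filter fun i => 2 ≤ cl β i).card ≤ 6) (h2 : ∀ i, 2 ≤ cl β i) :
    n ≤ 2 ∨ (n = 3 ∧ ((∀ i, cl β i = 2) ∨ (∃ p, cl β p = 3) ∨ ∃ p, cl β p = 4)) := by
  classical
  have e1 : (univ.filter fun i => 2 ≤ cl β i) = univ := filter_true_of_mem fun j _ => h2 j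
  rw [e1, card_univ, Fintype.card_fin] at h6
  by_cases hn : n ≤ 2
  · exact Or.inl hn
  · obtain rfl : n = 3 := by omega
    refine Or.inr ⟨rfl, ?_⟩
    by_cases h4 : ∃ p, 4 ≤ cl β p
    · obtain ⟨p, hp⟩ := h4
      right; right
      refine ⟨p, ?_⟩
      have h5 := h3 p
      by_contra h7
      have h8 : cl β p = 5 := by omega
      have h9 : ∃ j, β j ≠ β p := by
        by_contra h10
        push Not at h10
        have h11 : cl β p = 6 := by
          unfold cl
          rw [filter_true_of_mem fun j _ => h10 j, card_univ, Fintype.card_fin]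
        omega
      obtain ⟨j, hj⟩ := h9
      have h12 := B2_add hj
      have h13 := h2 j
      omega
    · push Not at h4
      rcases B2_six (β := β) h2 (fun i => by have := h4 i; omega) with h | h
      · exact Or.inl h
      · exact Or.inr (Or.inl ⟨0, h 0⟩)

end H56D
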