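import Mathlib

/-!
# C1: the ordinary differential equation (pure calculus)

`L(L-1) J'' - (7L-3) J' + (15 + a(2-a)) J = 0` on `L > 1`, `J, J' → 0` at `1+`. Put
`W(L) = L^(-3-a) ((L-1) J' + a (L-1) J/L - 5 J)`. Then `W → 0` at `1+`,
`W' = a(a+4) L^(-5-a) J`, and `z = L^a J/(L-1)^5` has `z' = L^(3+2a) (L-1)^(-6) W`.
-/

namespace Pool.Agent.Lib.H56D

open Topology Filter

noncomputable section

/-- The hypotheses on `J` and its derivatives `J1`, `J2`. -/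
structure Ode (a : ℝ) (J J1 J2 : ℝ → ℝ) : Prop where
  d0 : ∀ L : ℝ, 1 < L → HasDerivAt J (J1 L) L
  d1 : ∀ L : ℝ, 1 < L → HasDerivAt J1 (J2 L) L
  ode : ∀ L : ℝ, 1 < L → L * (L - 1) * J2 L - (7 * L - 3) * J1 L + (15 + a * (2 - a)) * J L = 0
  l0 : Tendsto J (𝓝[>] 1) (𝓝 0)
  l1 : Tendsto J1 (𝓝[>] 1) (𝓝 0)

def WW (a : ℝ) (J J1 : ℝ → ℝ) (L : ℝ) : ℝ :=
  L ^ (-3 - a) * ((L - 1) * J1 L + a * (L - 1) * J L / L - 5 * J L)

/-- Differentiate; with `t = L - 1` and `A = t J' + a t J/L - 5 J`: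
`A' = t J'' - 4 J' + a t J'/L + a J/L - a t J/L²` and, by the equation,
`t J'' = (7 - 3/L) J' - (15 + a(2-a)) J/L`, so
`A' = ((3+a) t/L) J' + J (a - a t/L - 15 - a(2-a))/L` and
`A' - (3+a) A/L = a(4+a) J/L²`. -/
theorem WW_deriv {a : ℝ} {J J1 J2 : ℝ → ℝ} (h : Ode a J J1 J2) {L : ℝ} (hL : 1 < L) :
    HasDerivAt (WW a J J1) (a * (a + 4) * L ^ (-5 - a) * J L) L := by
  have hL0 : L ≠ 0 := by linarith
  have hLpos : 0 < L := by linarith
  have h0 := h.d0 L hL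
  have h1 := h.d1 L hL
  have hode := h.ode L hL
  have e0 : HasDerivAt (fun L : ℝ => L ^ (-3 - a)) ((-3 - a) * L ^ (-3 - a - 1)) L :=
    Real.hasDerivAt_rpow_const (Or.inl hL0)
  have e1 : HasDerivAt (fun L : ℝ => L - 1) 1 L := (hasDerivAt_id L).sub_const 1
  have e2 : HasDerivAt (fun L : ℝ => (L - 1) * J1 L) (1 * J1 L + (L - 1) * J2 L) L := e1.mul h1
  have e3 : HasDerivAt (fun L : ℝ => a * (L - 1)) (a * 1) L := e1.const_mul a
  have e4 : HasDerivAt (fun L : ℝ => a * (L - 1) * J L) (a * 1 * J L + a * (L - 1) * J1 L) L :=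
    e3.mul h0
  have e5 : HasDerivAt (fun L : ℝ => a * (L - 1) * J L / L)
      (((a * 1 * J L + a * (L - 1) * J1 L) * L - a * (L - 1) * J L * 1) / L ^ 2) L :=
    e4.div (hasDerivAt_id L) hL0
  have e6 : HasDerivAt (fun L : ℝ => 5 * J L) (5 * J1 L) L := h0.const_mul 5
  have e7 := e0.mul ((e2.add e5).sub e6)
  have e8 : HasDerivAt (WW a J J1) _ L := e7
  convert e8 using 1
  have r1 : L ^ (-3 - a - 1) = L ^ (-3 - a) / L := Real.rpow_sub_one hL0 _
  have r2 : L ^ (-5 - a) = L ^ (-3 - a) / L / L := by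
    rw [← Real.rpow_sub_one hL0, ← Real.rpow_sub_one hL0]
    congr 1
    ring
  simp only [Pi.add_apply, Pi.sub_apply] at *
  rw [r1, r2]
  field_simp
  linear_combination (-L) * hode

theorem WW_lim {a : ℝ} {J J1 J2 : ℝ → ℝ} (h : Ode a J J1 J2) :
    Tendsto (WW a J J1) (𝓝[>] 1) (𝓝 0) := by
  have hid : Tendsto (fun L : ℝ => L) (𝓝[>] (1 : ℝ)) (𝓝 1) := tendsto_nhdsWithin_of_tendsto_nhds tendsto_id
  have h1 : Tendsto (fun L : ℝ => L ^ (-3 - a)) (𝓝[>] (1 : ℝ)) (𝓝 1) := by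
    have h2 := hid.rpow_const (p := -3 - a) (Or.inl one_ne_zero)
    rwa [Real.one_rpow] at h2
  have h2 : Tendsto (fun L : ℝ => L - 1) (𝓝[>] (1 : ℝ)) (𝓝 (1 - 1)) := hid.sub_const 1
  have h3 := (h2.mul h.l1).add ((((h2.const_mul a).mul h.l0).div hid one_ne_zero))
  have h4 := h1.mul (h3.sub (h.l0.const_mul 5))
  have e : (1 : ℝ) * ((1 - 1) * 0 + a * (1 - 1) * 0 / 1 - 5 * 0) = 0 := by ring
  rw [e] at h4
  exact h4

theorem zz_deriv {a : ℝ} {J J1 J2 : ℝ → ℝ} (h : Ode a J J1 J2) {L : ℝ} (hL : 1 < L) :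
    HasDerivAt (fun L => L ^ a * J L / (L - 1) ^ 5)
      (L ^ (3 + 2 * a) / (L - 1) ^ 6 * WW a J J1 L) L := by
  have hL0 : L ≠ 0 := by linarith
  have hLpos : 0 < L := by linarith
  have hL1 : L - 1 ≠ 0 := by
    have : 0 < L - 1 := by linarith
    exact this.ne'
  have h0 := h.d0 L hL
  have e0 : HasDerivAt (fun L : ℝ => L ^ a) (a * L ^ (a - 1)) L :=
    Real.hasDerivAt_rpow_const (Or.inl hL0)
  have e1 : HasDerivAt (fun L : ℝ => L - 1) 1 L := (hasDerivAt_id L).sub_const 1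
  have e2 : HasDerivAt (fun L : ℝ => (L - 1) ^ 5) (((5 : ℕ) : ℝ) * (L - 1) ^ 4 * 1) L := e1.pow 5
  have e3 := (e0.mul h0).div e2 (pow_ne_zero 5 hL1)
  have e4 : HasDerivAt (fun L => L ^ a * J L / (L - 1) ^ 5) _ L := e3
  convert e4 using 1
  have r1 : L ^ (a - 1) = L ^ a / L := Real.rpow_sub_one hL0 _
  have r2 : L ^ (3 + 2 * a) * L ^ (-3 - a) = L ^ a := by
    rw [← Real.rpow_add hLpos]
    congr 1
    ring
  simp only [Pi.mul_apply]
  unfold WW
  rw [r1, div_mul_eq_mul_div, ← mul_assoc, r2]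
  field_simp
  push_cast
  ring

theorem C1_mono {a : ℝ} {J J1 J2 : ℝ → ℝ} (h : Ode a J J1 J2) {R : ℝ}
    (hJ : ∀ L, 1 < L → L < R → 0 ≤ a * (a + 4) * J L) {L : ℝ} (hL : 1 < L) (hR : L < R) :
    0 ≤ WW a J J1 L := by
  have hmono : MonotoneOn (WW a J J1) (Set.Ioo 1 R) := by
    apply monotoneOn_of_deriv_nonneg (convex_Ioo 1 R)
    · intro x hx
      exact (WW_deriv h hx.1).continuousAt.continuousWithinAt
    · intro x hx
      rw [interior_Ioo] at hx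
      exact (WW_deriv h hx.1).differentiableAt.differentiableWithinAt
    · intro x hx
      rw [interior_Ioo] at hx
      rw [(WW_deriv h hx.1).deriv]
      have h1 := hJ x hx.1 hx.2
      have h2 : 0 < x ^ (-5 - a) := Real.rpow_pos_of_pos (by linarith [hx.1]) _
      nlinarith
  refine le_of_tendsto (WW_lim h) ?_
  filter_upwards [Ioo_mem_nhdsGT hL] with s hs
  exact hmono ⟨hs.1, hs.2.trans hR⟩ ⟨hL, hR⟩ hs.2.le

theorem C1_z {a : ℝ} {J J1 J2 : ℝ → ℝ} (h : Ode a J J1 J2) {c : ℝ}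
    (hc : Tendsto (fun L => J L / (L - 1) ^ 5) (𝓝[>] 1) (𝓝 c)) {R : ℝ} (hR : 1 < R)
    (hJ : ∀ L, 1 < L → L < R → 0 ≤ a * (a + 4) * J L) :
    c ≤ R ^ a * J R / (R - 1) ^ 5 := by
  have hmono : MonotoneOn (fun L => L ^ a * J L / (L - 1) ^ 5) (Set.Ioc 1 R) := by
    apply monotoneOn_of_deriv_nonneg (convex_Ioc 1 R)
    · intro x hx
      exact (zz_deriv h hx.1).continuousAt.continuousWithinAt
    · intro x hx
      rw [interior_Ioc] at hx
      exact (zz_deriv h hx.1).differentiableAt.differentiableWithinAt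
    · intro x hx
      rw [interior_Ioc] at hx
      rw [(zz_deriv h hx.1).deriv]
      have h1 := C1_mono h hJ hx.1 hx.2
      have h2 : 0 < x ^ (3 + 2 * a) := Real.rpow_pos_of_pos (by linarith [hx.1]) _
      have h3 : 0 < (x - 1) ^ 6 := pow_pos (by linarith [hx.1]) _
      positivity
  have hid : Tendsto (fun L : ℝ => L) (𝓝[>] (1 : ℝ)) (𝓝 1) :=
    tendsto_nhdsWithin_of_tendsto_nhds tendsto_id
  have h1 : Tendsto (fun L : ℝ => L ^ a) (𝓝[>] (1 : ℝ)) (𝓝 1) := by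
    have h2 := hid.rpow_const (p := a) (Or.inl one_ne_zero)
    rwa [Real.one_rpow] at h2
  have h2 : Tendsto (fun L => L ^ a * J L / (L - 1) ^ 5) (𝓝[>] (1 : ℝ)) (𝓝 c) := by
    have h3 := h1.mul hc
    rw [one_mul] at h3
    refine h3.congr ?_
    intro L
    rw [mul_div_assoc]
  refine le_of_tendsto h2 ?_
  filter_upwards [Ioo_mem_nhdsGT hR] with s hs
  exact hmono ⟨hs.1, hs.2.le⟩ ⟨hR, le_refl R⟩ hs.2.le

/-- For `a = 0`: `W' = 0`, so `W = 0`, so `z = J/(L-1)^5` is constant; evaluate at `2`. -/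
theorem ode_zero {J J1 J2 : ℝ → ℝ} (h : Ode 0 J J1 J2) {L : ℝ} (hL : 1 < L) :
    J L = J 2 * (L - 1) ^ 5 := by
  -- W = 0
  have hW : ∀ x : ℝ, 1 < x → WW 0 J J1 x = 0 := by
    intro x hx
    have hneg : Ode 0 (fun L => -J L) (fun L => -J1 L) (fun L => -J2 L) := by
      refine ⟨fun L hL => (h.d0 L hL).neg, fun L hL => (h.d1 L hL).neg, ?_, ?_, ?_⟩
      · intro L hL
        have := h.ode L hL
        linear_combination -this
      · have := h.l0.neg
        rwa [neg_zero] at this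
      · have := h.l1.neg
        rwa [neg_zero] at this
    have h1 : 0 ≤ WW 0 J J1 x :=
      C1_mono h (R := x + 1) (fun L _ _ => by simp) hx (by linarith)
    have h2 : 0 ≤ WW 0 (fun L => -J L) (fun L => -J1 L) x :=
      C1_mono hneg (R := x + 1) (fun L _ _ => by simp) hx (by linarith)
    have h3 : WW 0 (fun L => -J L) (fun L => -J1 L) x = -WW 0 J J1 x := by
      unfold WW
      ring
    rw [h3] at h2
    linarith
  have hz : ∀ x ∈ Set.Ioi (1 : ℝ), ∀ y ∈ Set.Ioi (1 : ℝ),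
      x ^ (0 : ℝ) * J x / (x - 1) ^ 5 = y ^ (0 : ℝ) * J y / (y - 1) ^ 5 := by
    intro x hx y hy
    have key := (convex_Ioi (1 : ℝ)).is_const_of_fderivWithin_eq_zero (𝕜 := ℝ)
      (f := fun L => L ^ (0 : ℝ) * J L / (L - 1) ^ 5)
      (fun x hx => (zz_deriv h hx).differentiableAt.differentiableWithinAt) (fun x hx => by
        have h1 := zz_deriv h hx
        rw [hW x hx, mul_zero] at h1
        have h2 := h1.hasFDerivAt.hasFDerivWithinAt (s := Set.Ioi (1 : ℝ))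
        rw [h2.fderivWithin (isOpen_Ioi.uniqueDiffWithinAt hx)]
        ext
        simp) hx hy
    exact key
  have h1 := hz L hL 2 (by norm_num : (1 : ℝ) < 2)
  rw [Real.rpow_zero, Real.rpow_zero, one_mul, one_mul] at h1
  have h2 : (L - 1) ^ 5 ≠ 0 := pow_ne_zero 5 (by linarith)
  rw [div_eq_iff h2] at h1
  rw [h1]
  norm_num

/-- `J > 0` near `1+` as `J/(L-1)^5 → c > 0`. Suppose `J L0 ≤ 0` for some `L0 > 1`; let `L1 > 1` be
the infimum of such points: `J > 0` on `(1, L1)`, `J L1 = 0` (or `≤ 0`) by continuity. On `(1, L1)`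
`W' ≥ 0` and `W → 0` at `1+`, so `W ≥ 0`, so `z` is monotone on `(1, L1]` and `z → c` at `1+`
(as `L^a → 1`), so `z(L1) ≥ c > 0`, contradiction. So `J > 0` on `(1,∞)`, `W ≥ 0`, `z ≥ c`. -/
theorem ode_lower {a : ℝ} (ha : 0 ≤ a) {J J1 J2 : ℝ → ℝ} (h : Ode a J J1 J2) {c : ℝ} (hc0 : 0 < c)
    (hc : Tendsto (fun L => J L / (L - 1) ^ 5) (𝓝[>] 1) (𝓝 c)) {L : ℝ} (hL : 1 < L) :
    c * (L - 1) ^ 5 * L ^ (-a) ≤ J L := by
  have haa : 0 ≤ a * (a + 4) := by positivity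
  have hpos : ∀ x : ℝ, 1 < x → 0 < J x := by
    intro x₀ hx₀
    by_contra hcon
    push Not at hcon
    -- positive near one
    have h1 : ∀ᶠ s in 𝓝[>] (1 : ℝ), 0 < J s := by
      have h2 : ∀ᶠ s in 𝓝[>] (1 : ℝ), 0 < J s / (s - 1) ^ 5 := hc.eventually (lt_mem_nhds hc0)
      filter_upwards [h2, self_mem_nhdsWithin] with s hs hs1
      have h3 : 0 < (s - 1) ^ 5 := pow_pos (by linarith [Set.mem_Ioi.1 hs1]) _
      have h4 := mul_pos hs h3
      rwa [div_mul_cancel₀ _ h3.ne'] at h4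
    obtain ⟨b, hb1, hb⟩ := mem_nhdsGT_iff_exists_Ioo_subset.1 h1
    have hb1' : 1 < b := hb1
    set b' := min ((1 + b) / 2) x₀ with hb'
    have hb'1 : 1 < b' := lt_min (by linarith) hx₀
    have hb'b : b' < b := lt_of_le_of_lt (min_le_left _ _) (by linarith)
    have hb'x : b' ≤ x₀ := min_le_right _ _
    have hcont : ContinuousOn J (Set.Icc b' x₀) := fun x hx =>
      (h.d0 x (lt_of_lt_of_le hb'1 hx.1)).continuousAt.continuousWithinAt
    have hcomp : IsCompact (Set.Icc b' x₀ ∩ J ⁻¹' Set.Iic 0) :=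
      isCompact_Icc.of_isClosed_subset
        (hcont.preimage_isClosed_of_isClosed isClosed_Icc isClosed_Iic) Set.inter_subset_left
    obtain ⟨m, hm, hmin⟩ := hcomp.exists_isLeast ⟨x₀, ⟨hb'x, le_refl _⟩, hcon⟩
    have hm1 : 1 < m := lt_of_lt_of_le hb'1 hm.1.1
    have hJpos : ∀ y, 1 < y → y < m → 0 < J y := by
      intro y hy1 hym
      by_cases hyb : y < b
      · exact hb ⟨hy1, hyb⟩
      · by_contra hcon2
        push Not at hcon2 hyb
        have h3 := hmin ⟨⟨hb'b.le.trans hyb, (hym.trans_le hm.1.2).le⟩, hcon2⟩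
        exact absurd hym (not_lt.2 h3)
    have h4 := C1_z h hc hm1 fun y hy1 hym => mul_nonneg haa (hJpos y hy1 hym).le
    have h5 : J m ≤ 0 := hm.2
    have h6 : 0 < m ^ a := Real.rpow_pos_of_pos (by linarith) _
    have h7 : 0 < (m - 1) ^ 5 := pow_pos (by linarith) _
    have h8 : m ^ a * J m / (m - 1) ^ 5 ≤ 0 :=
      div_nonpos_of_nonpos_of_nonneg (mul_nonpos_of_nonneg_of_nonpos h6.le h5) h7.le
    linarith
  have h1 := C1_z h hc hL fun y hy _ => mul_nonneg haa (hpos y hy).le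
  have h6 : 0 < L ^ a := Real.rpow_pos_of_pos (by linarith) _
  have h7 : 0 < (L - 1) ^ 5 := pow_pos (by linarith) _
  rw [le_div_iff₀ h7] at h1
  rw [Real.rpow_neg (by linarith), ← div_eq_mul_inv, div_le_iff₀ h6]
  linarith

end

end Pool.Agent.Lib.H56D
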