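import Pool.Agent.Lib.H56D.S3
import Pool.Agent.Lib.H56D.B2
import Pool.Agent.Lib.H56D.B3
import Pool.Agent.Lib.H56D.B4
import Pool.Agent.Lib.H56D.C1

/-!
# D1: the volume function and the lower bound for real eigenfunctions
-/

namespace Pool.Agent.Lib.H56D

open Matrix hiding J
open MeasureTheory Topology Filter
open Pool.Agent.Lib.H56.Picard hiding O Gam mem_Gam star_mem_O T_mem sg_mem
open Pool.Agent.Lib.H56.Gen
open scoped ENNReal

noncomputable section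

/-- `JJ 3 g x` satisfies the equation: `d0`, `d1` by `hasDerivAt_JJ` (`p = 2`, `p = 1`), with
`J1 = 3 JJ 2`, `J2 = 6 JJ 1`; `ode` by `ode_rel` with `lam = a(2-a)`; limits by `JJ_tendsto`. -/
theorem JJ_ode {g : ℂ × ℂ → ℝ} {a : ℝ} (hg : ContDiffOn ℝ 2 g U)
    (hlap : ∀ z ∈ U, lapR g z = -(a * (2 - a) * g z)) {x : ℂ × ℂ} (hx : x ∈ U) :
    Ode a (JJ 3 g x) (fun L => 3 * JJ 2 g x L) (fun L => 6 * JJ 1 g x L) where
  d0 := by
    intro L _
    have h := hasDerivAt_JJ hg.continuousOn hx (p := 2) (by norm_num) L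
    refine h.congr_deriv ?_
    norm_num
  d1 := by
    intro L _
    have h := (hasDerivAt_JJ hg.continuousOn hx (p := 1) le_rfl L).const_mul 3
    refine h.congr_deriv ?_
    norm_num
    ring
  ode := by
    intro L _
    exact ode_rel hg hlap hx L
  l0 := JJ_tendsto hg.continuousOn hx (by norm_num)
  l1 := by
    have h := (JJ_tendsto hg.continuousOn hx (p := 2) (by norm_num)).const_mul 3
    rwa [mul_zero] at h

theorem c3_pos : 0 < c3 := JJ_one_pos o_mem (by norm_num)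

theorem d1_lap_one (z : ℂ × ℂ) : lapR (fun _ : ℂ × ℂ => (1 : ℝ)) z = 0 := by
  unfold lapR
  have h1 : fderiv ℝ (fun _ : ℂ × ℂ => (1 : ℝ)) = fun _ => 0 := by
    funext w
    exact (hasFDerivAt_const _ _).fderiv
  rw [h1]
  have h2 : fderiv ℝ (fun _ : ℂ × ℂ => (0 : ℂ × ℂ →L[ℝ] ℝ)) z = 0 :=
    (hasFDerivAt_const _ _).fderiv
  rw [h2]
  simp

/-- `ode_zero` for the constant function (`a = 0`, `lapR 1 = 0`), and
`JJ 3 1 x 2 = JJ 3 1 o 2 = c3` by transitivity (`exists_act_o`, `JJ_one_act`). -/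
theorem JJ_one {x : ℂ × ℂ} (hx : x ∈ U) {L : ℝ} (hL : 1 < L) :
    JJ 3 (fun _ => 1) x L = c3 * (L - 1) ^ 5 := by
  have h1 : Ode 0 (JJ 3 (fun _ => 1) x) (fun L => 3 * JJ 2 (fun _ => 1) x L)
      (fun L => 6 * JJ 1 (fun _ => 1) x L) :=
    JJ_ode contDiffOn_const (fun z _ => by rw [d1_lap_one]; ring) hx
  rw [ode_zero h1 hL]
  congr 1
  obtain ⟨g, hg⟩ := exists_act_o hx
  rw [← hg, JJ_one_act g o_mem]
  rfl

/-- `ode_lower` with `c = c3 g(x)`; the limit `JJ 3 g x L/(L-1)^5 → c3 g(x)` by `JJ_asym` and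
`JJ_one`. -/
theorem JJ_lower {g : ℂ × ℂ → ℝ} {a : ℝ} (ha : 0 ≤ a) (hg : ContDiffOn ℝ 2 g U)
    (hlap : ∀ z ∈ U, lapR g z = -(a * (2 - a) * g z)) {x : ℂ × ℂ} (hx : x ∈ U) (hgx : 0 < g x)
    {L : ℝ} (hL : 1 < L) : c3 * g x * (L - 1) ^ 5 * L ^ (-a) ≤ JJ 3 g x L := by
  apply ode_lower ha (JJ_ode hg hlap hx) (mul_pos c3_pos hgx) _ hL
  rw [Metric.tendsto_nhds]
  intro ε hε
  have h1 := JJ_asym hg.continuousOn hx (ε := ε / (2 * c3)) (by have := c3_pos; positivity)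
  have h2 : ∀ᶠ L in 𝓝[>] (1 : ℝ), 1 < L := eventually_mem_nhdsWithin
  filter_upwards [h1, h2] with L h1 h2
  rw [JJ_one hx h2] at h1
  have hc := c3_pos
  have hp : 0 < (L - 1) ^ 5 := pow_pos (by linarith) 5
  rw [Real.dist_eq]
  have e1 : JJ 3 g x L / (L - 1) ^ 5 - c3 * g x =
      (JJ 3 g x L - g x * (c3 * (L - 1) ^ 5)) / (L - 1) ^ 5 := by
    rw [sub_div, ← mul_assoc, mul_div_assoc (g x * c3), div_self hp.ne', mul_one, mul_comm c3]
  rw [e1, abs_div, abs_of_pos hp, div_lt_iff₀ hp]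
  refine lt_of_le_of_lt h1 ?_
  have e2 : ε / (2 * c3) * (c3 * (L - 1) ^ 5) = ε / 2 * (L - 1) ^ 5 := by
    field_simp
  rw [e2]
  exact mul_lt_mul_of_pos_right (by linarith) hp

end

end Pool.Agent.Lib.H56D
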