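import Pool.Agent.Lib.H56D.D1

/-!
# D3: the lower bound for complex eigenfunctions
-/

namespace Pool.Agent.Lib.H56D

open Matrix hiding J
open MeasureTheory Topology Filter
open Pool.Agent.Lib.H56.Picard hiding O Gam mem_Gam star_mem_O T_mem sg_mem
open Pool.Agent.Lib.H56.Gen
open scoped ENNReal

noncomputable section

/-- the real linear form `w ↦ Re (conj c · w)` -/
def d3_l (c : ℂ) : ℂ →L[ℝ] ℝ :=
  Complex.reCLM.comp ((ContinuousLinearMap.mul ℝ ℂ) (star c))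

theorem d3_l_apply (c w : ℂ) : d3_l c w = (star c * w).re := rfl

theorem d3_l_smul (c : ℂ) (r : ℝ) (w : ℂ) : d3_l c ((r : ℂ) * w) = r * d3_l c w := by
  rw [← Complex.real_smul, map_smul, smul_eq_mul]

theorem d3_l_self (c : ℂ) : d3_l c c = ‖c‖ ^ 2 := by
  rw [d3_l_apply]
  have h : star c * c = ((Complex.normSq c : ℝ) : ℂ) := Complex.normSq_eq_conj_mul_self.symm
  rw [h, Complex.ofReal_re, Complex.normSq_eq_norm_sq]

theorem d3_l_le (c w : ℂ) : d3_l c w ≤ ‖c‖ * ‖w‖ := by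
  rw [d3_l_apply]
  refine (Complex.re_le_norm _).trans ?_
  rw [norm_mul, norm_star]

theorem d3_integrable {f : ℂ × ℂ → ℂ} (hf : ContinuousOn f U) {x : ℂ × ℂ} (hx : x ∈ U) (L : ℝ) :
    Integrable (fun w : X => (ker 3 L x w.1 : ℂ) * f w.1) mu := by
  have h1 : Integrable (fun w : X => ker 3 L x w.1 * (f w.1).re) mu :=
    ker_integrable (g := fun w => (f w).re) (by norm_num) L hx
      (Complex.continuous_re.comp_continuousOn hf)
  have h2 : Integrable (fun w : X => ker 3 L x w.1 * (f w.1).im) mu :=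
    ker_integrable (g := fun w => (f w).im) (by norm_num) L hx
      (Complex.continuous_im.comp_continuousOn hf)
  have h3 := h1.ofReal (𝕜 := ℂ)
  have h4 := (h2.ofReal (𝕜 := ℂ)).mul_const Complex.I
  refine (h3.add h4).congr (Eventually.of_forall fun w => ?_)
  simp only [Pi.add_apply]
  apply Complex.ext
  · simp
  · simp

/-- Let `ν' = √(1 - lam) ≥ ν`, `a = 1 - ν' ∈ [0, 1-ν]`, `lam = a(2 - a)`. If `f x = 0` trivial. Otherwise
apply `JJ_lower` to the real function `g = Re (conj (f x) · f)` (a real linear functional of `f`: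
`lapR_comp`), `g x = |f x|²`:
`c3 |f x|² (L-1)^5 L^(ν'-1) ≤ ∫ k g = Re (conj (f x) ∫ k f) ≤ |f x| |∫ k f|`, and
`L^(ν'-1) ≥ L^(ν-1)`. -/
theorem lower_complex {f : ℂ × ℂ → ℂ} {lam ν : ℝ} (hf : ContDiffOn ℝ 2 f U)
    (heig : ∀ z ∈ U, laplacian f z = -((lam : ℂ) * f z)) (h0 : 0 ≤ lam) (hν0 : 0 < ν)
    (hν : lam ≤ 1 - ν ^ 2) {x : ℂ × ℂ} (hx : x ∈ U) {L : ℝ} (hL : 1 < L) :
    c3 * (L - 1) ^ 5 * L ^ (ν - 1) * ‖f x‖ ≤ ‖∫ w : X, (ker 3 L x w.1 : ℂ) * f w.1 ∂mu‖ := by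
  by_cases hfx : f x = 0
  · rw [hfx, norm_zero, mul_zero]
    exact norm_nonneg _
  have hn : 0 < ‖f x‖ := norm_pos_iff.2 hfx
  have hc := c3_pos
  obtain ⟨ν', hν'⟩ : ∃ ν' : ℝ, ν' = √(1 - lam) := ⟨_, rfl⟩
  have h1 : 0 ≤ 1 - lam := by nlinarith
  have h2 : ν' ^ 2 = 1 - lam := by rw [hν']; exact Real.sq_sqrt h1
  have h3 : 0 ≤ ν' := by rw [hν']; exact Real.sqrt_nonneg _
  have h4 : ν ≤ ν' := by
    rw [hν']
    exact Real.le_sqrt_of_sq_le (by linarith)
  have h5 : ν' ≤ 1 := by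
    by_contra hcon
    push Not at hcon
    nlinarith
  have hg : ContDiffOn ℝ 2 (fun z => d3_l (f x) (f z)) U :=
    (d3_l (f x)).contDiff.comp_contDiffOn hf
  have hlap : ∀ z ∈ U, lapR (fun z => d3_l (f x) (f z)) z =
      -((1 - ν') * (2 - (1 - ν')) * d3_l (f x) (f z)) := by
    intro z hz
    have e1 := lapR_comp (d3_l (f x)) hf hz
    rw [heig z hz] at e1
    rw [e1, map_neg, d3_l_smul]
    have e2 : (1 - ν') * (2 - (1 - ν')) = lam := by nlinarith
    rw [e2]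
  have h6 := JJ_lower (a := 1 - ν') (by linarith) hg hlap hx
    (by simp only [d3_l_self]; positivity) hL
  have h7 : JJ 3 (fun z => d3_l (f x) (f z)) x L =
      d3_l (f x) (∫ w : X, (ker 3 L x w.1 : ℂ) * f w.1 ∂mu) := by
    rw [← ContinuousLinearMap.integral_comp_comm _ (d3_integrable hf.continuousOn hx L), JJ]
    apply integral_congr_ae
    filter_upwards with w
    rw [d3_l_smul]
  rw [h7] at h6
  simp only [d3_l_self] at h6
  have h8 := h6.trans (d3_l_le _ _)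
  have h9 : L ^ (ν - 1) ≤ L ^ (-(1 - ν')) :=
    Real.rpow_le_rpow_of_exponent_le hL.le (by linarith)
  have hp : 0 < (L - 1) ^ 5 := pow_pos (by linarith) 5
  refine le_of_mul_le_mul_left ?_ hn
  refine le_trans ?_ h8
  have e3 : ‖f x‖ * (c3 * (L - 1) ^ 5 * L ^ (ν - 1) * ‖f x‖) =
      c3 * ‖f x‖ ^ 2 * (L - 1) ^ 5 * L ^ (ν - 1) := by ring
  rw [e3]
  exact mul_le_mul_of_nonneg_left h9 (by positivity)

end

end Pool.Agent.Lib.H56D
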