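import Pool.Agent.Lib.H56.Gen.Main
import Pool.Agent.Lib.H56.Gen.LevelCoord
import Pool.Agent.Lib.H56.Gen.LevelData

/-!
# Density theorem for `SU(2,1)`: definitions of the analytic part

`Gam q` is `SU(2,1; OO q)`, `GamN q p` its principal congruence subgroup of level `p`, `X` the
complex hyperbolic plane (Siegel domain), `U` the same set in `ℂ × ℂ`, `mu` the invariant measure
(all in `Pool/Agent/Lib/H56`).
-/

namespace Pool.Agent.Lib.H56D

open Matrix hiding J
open MeasureTheory Topology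
open Pool.Agent.Lib.H56.Picard hiding O Gam mem_Gam star_mem_O T_mem sg_mem
open Pool.Agent.Lib.H56.Gen
open scoped ENNReal

noncomputable section

/-- `σ(z,w) = |⟨z,w⟩|²/(height z · height w)`, the square of the hyperbolic cosine of half of the
distance; `σ ≥ 1`. -/
def sgm (z w : ℂ × ℂ) : ℝ := Complex.normSq (hf (lift z) (lift w)) / (height z * height w)

/-- The closed ball `σ(x,·) ≤ L`. -/
def ball (x : ℂ × ℂ) (L : ℝ) : Set (ℂ × ℂ) := {w | 0 < height w ∧ sgm x w ≤ L}

open Classical in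
/-- The point-pair invariant `(L - σ(x,w))₊^p` (used for `p ≥ 1`). -/
def ker (p : ℕ) (L : ℝ) (x w : ℂ × ℂ) : ℝ := if 0 < height w then (max (L - sgm x w) 0) ^ p else 0

/-- `∫ (L - σ(x,w))₊^p g(w) dμ(w)`. -/
def JJ (p : ℕ) (g : ℂ × ℂ → ℝ) (x : ℂ × ℂ) (L : ℝ) : ℝ := ∫ w : X, ker p L x w.1 * g w.1 ∂mu

/-- The base point. -/
def o : ℂ × ℂ := (-(1 / 2), 0)

/-- The constant in `∫ (L - σ(x,w))₊^3 dμ(w) = c3 (L - 1)^5`. -/
def c3 : ℝ := JJ 3 (fun _ => 1) o 2

/-- Data of a field: `q : QD` describes the ring of integers `OO q`, `K` the translation lattice of the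
cusp of `Gam q = SU(2,1; OO q)` (level one), and every point has a translate of height `> h`. -/
structure CD (q : QD) where
  /-- translation lattice of the cusp -/
  K : Cusp q
  /-- level one -/
  one : K.p = 1
  /-- covering height -/
  h : ℝ
  hh : 0 < h
  h1 : h ≤ 1
  high : ∀ z : X, ∃ γ : Gam q, h < height (γ • z : X).1

variable {q : QD}

/-- The weight of `Gam q`: supported in the box above height `h`, its translates sum to `1`. -/
def om (D : CD q) (z : X) : ℝ≥0∞ := omg (OO q) star_mem D.K.Box D.h z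

/-- The weight of a subgroup `G` of finite index. -/
def wG (D : CD q) (G : Subgroup (Gam q)) (z : X) : ℝ≥0∞ :=
  ∑' c : Gam q ⧸ G, om D ((c.out : Gam q) • z)

/-- The measure defining `L²(G\X)` as functions on `X`. -/
def rho (D : CD q) (G : Subgroup (Gam q)) : Measure X := mu.withDensity (wG D G)

/-- Square integrable `G`-invariant eigenfunctions, in the form of the final theorem. -/
structure Eig (D : CD q) (G : Subgroup (Gam q)) (f : ℂ × ℂ → ℂ) (lam : ℂ) : Prop where
  smooth : ContDiffOn ℝ 2 f U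
  inv : ∀ γ : Gam q, γ ∈ G → ∀ z ∈ U, f (act (mat γ.1) z) = f z
  eig : ∀ z ∈ U, laplacian f z = -(lam * f z)
  L2 : ∀ γ : Gam q, ∫⁻ u in Set.Ioi (1:ℝ), ∫⁻ s in Set.Icc (0:ℝ) 1, ∫⁻ t in Set.Icc (0:ℝ) 1,
    ∫⁻ v in Set.Icc (0:ℝ) D.K.P, ENNReal.ofReal (u⁻¹ ^ 3 *
      Complex.normSq (f (act (mat γ.1) (PsiE D.K.e1 D.K.e2 s t v u)))) ≠ ⊤

/-- Square integrable `G`-invariant eigenfunctions, internal form (real eigenvalue). -/
structure Good (D : CD q) (G : Subgroup (Gam q)) (f : ℂ × ℂ → ℂ) (lam : ℝ) : Prop where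
  smooth : ContDiffOn ℝ 2 f U
  inv : ∀ γ : Gam q, γ ∈ G → ∀ z ∈ U, f (act (mat γ.1) z) = f z
  eig : ∀ z ∈ U, laplacian f z = -((lam : ℂ) * f z)
  L2 : ∫⁻ z : X, wG D G z * ENNReal.ofReal (Complex.normSq (f z.1)) ∂mu ≠ ⊤

/-- Squared Frobenius norm. -/
def fro (g : SU21) : ℝ := ∑ i, ∑ j, Complex.normSq (mat g i j)

/-- The majorant of the convolution square of the kernel. -/
def FL (L s : ℝ) : ℝ≥0∞ := if s ≤ 4 * L ^ 2 then ENNReal.ofReal (128 * c3 * L ^ 8 / s) else 0

/-- The relatively compact part of the box. -/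
def K0 (D : CD q) : Set X := {z | z.1 ∈ D.K.Box ∧ D.h < height z.1 ∧ height z.1 ≤ 8 / D.h}

end

end Pool.Agent.Lib.H56D
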