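import Pool.Agent.Lib.H56D.S1

/-!
# S5: midpoints
-/

namespace Pool.Agent.Lib.H56D

open Matrix hiding J
open MeasureTheory Topology Filter
open Pool.Agent.Lib.H56.Picard hiding O Gam mem_Gam star_mem_O T_mem sg_mem
open Pool.Agent.Lib.H56.Gen
open scoped ENNReal

noncomputable section

theorem s5_add_left (Z W V : Fin 3 → ℂ) : hf (Z + W) V = hf Z V + hf W V := by
  simp only [hf_apply, Pi.add_apply, star_add]
  ring

theorem s5_add_right (Z W V : Fin 3 → ℂ) : hf V (Z + W) = hf V Z + hf V W := by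
  simp only [hf_apply, Pi.add_apply]
  ring

theorem s5_smul_left (c : ℂ) (Z V : Fin 3 → ℂ) : hf (c • Z) V = star c * hf Z V := by
  simp only [hf_apply, Pi.smul_apply, smul_eq_mul, star_mul']
  ring

theorem s5_smul_right (c : ℂ) (Z V : Fin 3 → ℂ) : hf V (c • Z) = c * hf V Z := by
  simp only [hf_apply, Pi.smul_apply, smul_eq_mul]
  ring

theorem s5_star (Z W : Fin 3 → ℂ) : hf W Z = star (hf Z W) := by
  simp only [hf_apply, star_add, star_mul', star_star]
  ring

theorem s5_point {Z : Fin 3 → ℂ} {t : ℝ} (ht : 0 < t) (h : hf Z Z = ((-t : ℝ) : ℂ)) :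
    ∃ m ∈ U, ∀ y ∈ U, sgm m y = Complex.normSq (hf Z (lift y)) / (t * height y) := by
  have h2 : Z 2 ≠ 0 := by
    intro h0
    rw [hf_apply, h0] at h
    simp only [mul_zero, star_zero, zero_mul, add_zero, zero_add] at h
    have h3 := congrArg Complex.re h
    rw [Complex.star_def, ← Complex.normSq_eq_conj_mul_self, Complex.ofReal_re,
      Complex.ofReal_re] at h3
    have h4 := Complex.normSq_nonneg (Z 1)
    linarith
  set m : ℂ × ℂ := (Z 0 / Z 2, Z 1 / Z 2) with hm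
  have hl : lift m = (Z 2)⁻¹ • Z := by
    ext i
    fin_cases i
    · simp [lift, hm, div_eq_inv_mul]
    · simp [lift, hm, div_eq_inv_mul]
    · simp [lift, h2]
  have hq : 0 < Complex.normSq (Z 2)⁻¹ := by
    rw [map_inv₀]
    exact inv_pos.2 (Complex.normSq_pos.2 h2)
  have hh : height m = t * Complex.normSq (Z 2)⁻¹ := by
    have h5 := hf_lift m
    rw [hl, hf_smul, h, ← Complex.ofReal_mul, Complex.ofReal_inj] at h5
    linarith
  have hm0 : 0 < height m := by
    rw [hh]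
    exact mul_pos ht hq
  refine ⟨m, hm0, fun y hy => ?_⟩
  have hy0 : 0 < height y := hy
  unfold sgm
  rw [hh, hl, s5_smul_left, map_mul, Complex.star_def, Complex.normSq_conj]
  obtain ⟨q, hqq⟩ : ∃ q, q = Complex.normSq (Z 2)⁻¹ := ⟨_, rfl⟩
  rw [← hqq] at hq ⊢
  field_simp

/-- MIDPOINT. Let `x̂ = lift x/√(height x)`, `x̂' = ζ • lift x'/√(height x')` with `|ζ| = 1` chosen such
that `⟨x̂, x̂'⟩ = -s`, `s = √σ(x,x') ≥ 1` (the modulus of `⟨lift x, lift x'⟩/√(a a')` is `s`). Then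
`⟨x̂,x̂⟩ = ⟨x̂',x̂'⟩ = -1` (`hf_lift`), `M = x̂ + x̂'` has `⟨M,M⟩ = -2 - 2s < 0`. A vector `Z` with
`Re ⟨Z,Z⟩ < 0` has `Z 2 ≠ 0` (argument of `jf_ne_zero`), and `m = (Z 0/Z 2, Z 1/Z 2)` satisfies
`lift m = (Z 2)⁻¹ • Z`, `height m = -⟨Z,Z⟩/|Z 2|² > 0`, so
`σ(m,y) = |⟨Z, lift y⟩|²/(-⟨Z,Z⟩ height y)`. Hence
`σ(m,y) = |⟨x̂,ŷ⟩ + ⟨x̂',ŷ⟩|²/(2 + 2s) ≤ (σ(x,y) + σ(x',y))/(1 + s)` by
`|u + v|² ≤ 2|u|² + 2|v|²`. -/
theorem exists_mid {x x' : ℂ × ℂ} (hx : x ∈ U) (hx' : x' ∈ U) :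
    ∃ m ∈ U, ∀ y ∈ U, sgm m y * (1 + √(sgm x x')) ≤ sgm x y + sgm x' y := by
  have ha : 0 < height x := hx
  have ha' : 0 < height x' := hx'
  have hs1 := one_le_sgm hx hx'
  set s : ℝ := √(sgm x x') with hs
  have hs0 : 0 < s := Real.sqrt_pos.2 (by linarith)
  have hs2 : s ^ 2 = sgm x x' := Real.sq_sqrt (by linarith)
  set l : ℂ := hf (lift x) (lift x') with hl
  have hlN : Complex.normSq l = s ^ 2 * (height x * height x') := by
    rw [hs2]
    unfold sgm
    rw [div_mul_cancel₀ _ (mul_pos ha ha').ne']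
  have hl0 : l ≠ 0 := by
    intro h0
    rw [h0, map_zero] at hlN
    have : 0 < s ^ 2 * (height x * height x') := by positivity
    linarith
  have hln : ‖l‖ = s * (√(height x) * √(height x')) := by
    rw [← Real.sqrt_mul ha.le, ← Real.sqrt_sq (norm_nonneg l), ← Complex.normSq_eq_norm_sq, hlN,
      Real.sqrt_mul (by positivity), Real.sqrt_sq hs0.le]
  have hc : 0 < √(height x) := Real.sqrt_pos.2 ha
  have hc' : 0 < √(height x') := Real.sqrt_pos.2 ha'
  have hcs : √(height x) ^ 2 = height x := Real.sq_sqrt ha.le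
  have hcs' : √(height x') ^ 2 = height x' := Real.sq_sqrt ha'.le
  set c : ℝ := √(height x) with hcdef
  set c' : ℝ := √(height x') with hcdef'
  -- the unit scalar
  set ζ : ℂ := -(‖l‖ : ℂ) / l with hζ
  have hζ1 : Complex.normSq ζ = 1 := by
    rw [hζ, map_div₀, Complex.normSq_neg, Complex.normSq_ofReal]
    rw [div_eq_one_iff_eq (by simpa using hl0)]
    rw [Complex.normSq_eq_norm_sq]
    ring
  have hζl : ζ * l = -(‖l‖ : ℂ) := by
    rw [hζ]
    field_simp
  set V : Fin 3 → ℂ := ((c⁻¹ : ℝ) : ℂ) • lift x with hV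
  set V' : Fin 3 → ℂ := (ζ * ((c'⁻¹ : ℝ) : ℂ)) • lift x' with hV'
  have e1 : hf V V = ((-1 : ℝ) : ℂ) := by
    rw [hV, hf_smul, hf_lift, Complex.normSq_ofReal, ← Complex.ofReal_mul, Complex.ofReal_inj,
      ← hcs]
    field_simp
  have e2 : hf V' V' = ((-1 : ℝ) : ℂ) := by
    rw [hV', hf_smul, hf_lift, map_mul, hζ1, Complex.normSq_ofReal, ← Complex.ofReal_mul,
      Complex.ofReal_inj, ← hcs']
    field_simp
  have e3 : hf V V' = ((-s : ℝ) : ℂ) := by
    rw [hV, hV', s5_smul_left, s5_smul_right, ← hl, Complex.star_def, Complex.conj_ofReal]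
    have : ((c⁻¹ : ℝ) : ℂ) * (ζ * ((c'⁻¹ : ℝ) : ℂ) * l) =
        ((c⁻¹ : ℝ) : ℂ) * ((c'⁻¹ : ℝ) : ℂ) * (ζ * l) := by ring
    rw [this, hζl, hln, ← Complex.ofReal_neg, ← Complex.ofReal_mul, ← Complex.ofReal_mul,
      Complex.ofReal_inj]
    field_simp
  have e4 : hf V' V = ((-s : ℝ) : ℂ) := by
    rw [s5_star V V', e3, Complex.star_def, Complex.conj_ofReal]
  have e5 : hf (V + V') (V + V') = ((-(2 + 2 * s) : ℝ) : ℂ) := by
    rw [s5_add_left, s5_add_right, s5_add_right, e1, e2, e3, e4]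
    push_cast
    ring
  obtain ⟨m, hm, hmy⟩ := s5_point (by positivity : 0 < 2 + 2 * s) e5
  refine ⟨m, hm, fun y hy => ?_⟩
  have hy0 : 0 < height y := hy
  rw [hmy y hy, s5_add_left]
  have f1 : Complex.normSq (hf V (lift y)) = sgm x y * height y := by
    rw [hV, s5_smul_left, map_mul, Complex.star_def, Complex.conj_ofReal, Complex.normSq_ofReal]
    unfold sgm
    rw [← hcs]
    field_simp
  have f2 : Complex.normSq (hf V' (lift y)) = sgm x' y * height y := by
    rw [hV', s5_smul_left, map_mul, Complex.star_def, Complex.normSq_conj, map_mul, hζ1,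
      Complex.normSq_ofReal]
    unfold sgm
    rw [← hcs']
    field_simp
  have f3 : Complex.normSq (hf V (lift y) + hf V' (lift y)) ≤
      2 * Complex.normSq (hf V (lift y)) + 2 * Complex.normSq (hf V' (lift y)) := by
    simp only [Complex.normSq_apply, Complex.add_re, Complex.add_im]
    nlinarith [sq_nonneg ((hf V (lift y)).re - (hf V' (lift y)).re),
      sq_nonneg ((hf V (lift y)).im - (hf V' (lift y)).im)]
  rw [f1, f2] at f3
  have f4 : Complex.normSq (hf V (lift y) + hf V' (lift y)) / ((2 + 2 * s) * height y) * (1 + s) =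
      Complex.normSq (hf V (lift y) + hf V' (lift y)) / (2 * height y) := by
    field_simp
  rw [f4, div_le_iff₀ (by positivity)]
  linarith

end

end Pool.Agent.Lib.H56D
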