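import Pool.Agent.Lib.H56D.D1
import Pool.Agent.Lib.H56D.S5

/-!
# E1: volume of balls and the convolution square
-/

namespace Pool.Agent.Lib.H56D

open Matrix hiding J
open MeasureTheory Topology Filter
open Pool.Agent.Lib.H56.Picard hiding O Gam mem_Gam star_mem_O T_mem sg_mem
open Pool.Agent.Lib.H56.Gen
open scoped ENNReal

noncomputable section

/-- On `ball x L` one has `ker 3 (2L) x w ≥ L³`, so `L³ μ(ball) ≤ JJ 3 1 x (2L) = c3 (2L-1)^5`
(`JJ_one`). -/
theorem mu_ball {x : ℂ × ℂ} (hx : x ∈ U) {L : ℝ} (hL : 1 ≤ L) :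
    mu {w : X | w.1 ∈ ball x L} ≤ ENNReal.ofReal (32 * c3 * L ^ 2) := by
  have hc := c3_pos
  have hi : Integrable (fun w : X => ker 3 (2 * L) x w.1) mu := by
    have h := ker_integrable (p := 3) (g := fun _ => (1 : ℝ)) (by norm_num) (2 * L) hx
      continuousOn_const
    simpa using h
  have h1 : ENNReal.ofReal (∫ w : X, ker 3 (2 * L) x w.1 ∂mu) =
      ∫⁻ w : X, ENNReal.ofReal (ker 3 (2 * L) x w.1) ∂mu :=
    ofReal_integral_eq_lintegral_ofReal hi (Eventually.of_forall fun w => ker_nonneg _ _ _ _)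
  have h2 : ∫ w : X, ker 3 (2 * L) x w.1 ∂mu = c3 * (2 * L - 1) ^ 5 := by
    rw [← JJ_one hx (by linarith : 1 < 2 * L), JJ]
    simp
  have h3 := mul_meas_ge_le_lintegral₀ (μ := mu)
    (f := fun w : X => ENNReal.ofReal (ker 3 (2 * L) x w.1))
    (hi.1.aemeasurable.ennreal_ofReal) (ENNReal.ofReal (L ^ 3))
  rw [← h1, h2] at h3
  have h4 : mu {w : X | w.1 ∈ ball x L} ≤
      mu {w : X | ENNReal.ofReal (L ^ 3) ≤ ENNReal.ofReal (ker 3 (2 * L) x w.1)} := by
    apply measure_mono
    intro w hw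
    apply ENNReal.ofReal_le_ofReal
    unfold ker
    have h5 : 0 < height w.1 := hw.1
    rw [if_pos h5]
    apply pow_le_pow_left₀ (by linarith)
    have h6 := hw.2
    exact le_max_of_le_left (by linarith)
  have h5 : ENNReal.ofReal (L ^ 3) * mu {w : X | w.1 ∈ ball x L} ≤
      ENNReal.ofReal (L ^ 3) * ENNReal.ofReal (32 * c3 * L ^ 2) := by
    refine (mul_le_mul_right h4 _).trans (h3.trans ?_)
    rw [← ENNReal.ofReal_mul (by positivity)]
    apply ENNReal.ofReal_le_ofReal
    have h6 : (2 * L - 1) ^ 5 ≤ (2 * L) ^ 5 := pow_le_pow_left₀ (by linarith) (by linarith) 5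
    have h7 : L ^ 3 * (32 * c3 * L ^ 2) = c3 * (2 * L) ^ 5 := by ring
    rw [h7]
    exact mul_le_mul_of_nonneg_left h6 hc.le
  have h8 : ENNReal.ofReal (L ^ 3) ≠ 0 := by
    rw [Ne, ENNReal.ofReal_eq_zero, not_le]
    positivity
  exact (ENNReal.mul_le_mul_iff_right h8 ENNReal.ofReal_ne_top).1 h5

/-- Both kernels are `≤ L³` and vanish off the balls. Let `m` be the midpoint (`exists_mid`),
`s = √σ(x,x') ≥ 1`: on `ball x L ∩ ball x' L` one has `σ(m,w) ≤ 2L/(1+s) ≤ 2L/s`. If
`σ(x,x') > 4L²`, then `2L/s < 1` and the intersection is empty (`one_le_sgm`). Otherwise the integral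
is `≤ L^6 μ(ball m (2L/s)) ≤ L^6 · 32 c3 · 4L²/s²` by `mu_ball`. -/
theorem conv_le {x x' : ℂ × ℂ} (hx : x ∈ U) (hx' : x' ∈ U) {L : ℝ} (hL : 1 ≤ L) :
    ∫⁻ w : X, ENNReal.ofReal (ker 3 L x w.1) * ENNReal.ofReal (ker 3 L x' w.1) ∂mu ≤
      FL L (sgm x x') := by
  have hc := c3_pos
  have hσ := one_le_sgm hx hx'
  obtain ⟨m, hm, hmid⟩ := exists_mid hx hx'
  obtain ⟨s, hs⟩ : ∃ s : ℝ, s = √(sgm x x') := ⟨_, rfl⟩
  rw [← hs] at hmid
  have hs2 : s ^ 2 = sgm x x' := by rw [hs]; exact Real.sq_sqrt (by linarith)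
  have hs0 : 0 ≤ s := by rw [hs]; exact Real.sqrt_nonneg _
  have hs1 : 1 ≤ s := by
    rw [hs]
    exact Real.one_le_sqrt.2 hσ
  -- the intersection of the balls
  have hint : ∀ w ∈ U, w ∈ ball x L → w ∈ ball x' L → sgm m w * s ≤ 2 * L - 1 := by
    intro w hw h1 h2
    have h3 := hmid w hw
    have h4 := one_le_sgm hm hw
    have h5 := h1.2
    have h6 := h2.2
    nlinarith
  have hzero : ∀ w : X, ¬ (w.1 ∈ ball x L ∧ w.1 ∈ ball x' L) →
      ENNReal.ofReal (ker 3 L x w.1) * ENNReal.ofReal (ker 3 L x' w.1) = 0 := by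
    intro w hw
    by_cases h1 : w.1 ∈ ball x L
    · have h2 : w.1 ∉ ball x' L := fun h => hw ⟨h1, h⟩
      rw [ker_zero (p := 3) (by norm_num) h2, ENNReal.ofReal_zero, mul_zero]
    · rw [ker_zero (p := 3) (by norm_num) h1, ENNReal.ofReal_zero, zero_mul]
  unfold FL
  split_ifs with hcase
  · have hs2L : s ≤ 2 * L := by
      by_contra hcon
      push Not at hcon
      nlinarith
    have hR1 : 1 ≤ 2 * L / s := by
      rw [le_div_iff₀ (by linarith)]
      linarith
    have hle : ∀ w : X, ENNReal.ofReal (ker 3 L x w.1) * ENNReal.ofReal (ker 3 L x' w.1) ≤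
        {w : X | w.1 ∈ ball m (2 * L / s)}.indicator (fun _ => ENNReal.ofReal (L ^ 6)) w := by
      intro w
      by_cases hw : w.1 ∈ ball x L ∧ w.1 ∈ ball x' L
      · have h1 : w ∈ {w : X | w.1 ∈ ball m (2 * L / s)} := by
          refine ⟨w.2, ?_⟩
          rw [le_div_iff₀ (by linarith)]
          have := hint w.1 w.2 hw.1 hw.2
          linarith
        rw [Set.indicator_of_mem h1, ← ENNReal.ofReal_mul (ker_nonneg _ _ _ _)]
        apply ENNReal.ofReal_le_ofReal
        have h2 := ker_le 3 hL (w := w.1) hx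
        have h3 := ker_le 3 hL (w := w.1) hx'
        have h4 : (L - 1) ^ 3 ≤ L ^ 3 := pow_le_pow_left₀ (by linarith) (by linarith) 3
        calc ker 3 L x w.1 * ker 3 L x' w.1 ≤ L ^ 3 * L ^ 3 :=
              mul_le_mul (h2.trans h4) (h3.trans h4) (ker_nonneg _ _ _ _) (by positivity)
          _ = L ^ 6 := by ring
      · rw [hzero w hw]
        exact bot_le
    refine (lintegral_mono hle).trans ?_
    refine (lintegral_indicator_const_le _ _).trans ?_
    refine (mul_le_mul_right (mu_ball hm hR1) _).trans ?_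
    rw [← ENNReal.ofReal_mul (by positivity)]
    apply ENNReal.ofReal_le_ofReal
    rw [← hs2]
    apply le_of_eq
    field_simp
    ring
  · push Not at hcase
    rw [nonpos_iff_eq_zero, lintegral_eq_zero_iff']
    · filter_upwards with w
      apply hzero w
      rintro ⟨h1, h2⟩
      have h3 := hint w.1 w.2 h1 h2
      have h4 := one_le_sgm hm w.2
      have h5 : 2 * L < s := by
        by_contra hcon
        push Not at hcon
        nlinarith
      nlinarith
    · have h6 : ∀ z : ℂ × ℂ, z ∈ U → AEMeasurable (fun w : X => ENNReal.ofReal (ker 3 L z w.1)) mu := by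
        intro z hz
        have h := ker_integrable (p := 3) (g := fun _ => (1 : ℝ)) (by norm_num) L hz
          continuousOn_const
        have h7 : Integrable (fun w : X => ker 3 L z w.1) mu := by simpa using h
        exact h7.1.aemeasurable.ennreal_ofReal
      exact (h6 x hx).mul (h6 x' hx')

end

end Pool.Agent.Lib.H56D
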