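import Mathlib

/-!
# G1: orthonormal bases with labels, Bessel's inequality (abstract)
-/

namespace Pool.Agent.Lib.H56D

open MeasureTheory

noncomputable section

variable {α : Type*} [MeasurableSpace α]

/-- Orthonormal families adapted to labels in an abstract inner product space. -/
lemma g1_abs {H : Type*} [NormedAddCommGroup H] [InnerProductSpace ℂ H] {m : ℕ} (F : Fin m → H)
    (hli : LinearIndependent ℂ F) (lab : Fin m → ℝ)
    (horth : ∀ i j, lab i ≠ lab j → inner ℂ (F i) (F j) = 0) :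
    ∃ c : Fin m → Fin m → ℂ, (∀ i j, c i j ≠ 0 → lab j = lab i) ∧
      Orthonormal ℂ (fun i => ∑ k, c i k • F k) := by
  classical
  let S : ℝ → Submodule ℂ H := fun r => Submodule.span ℂ (Set.range fun i : {i // lab i = r} => F i)
  have hfin : ∀ r, FiniteDimensional ℂ (S r) := fun r =>
    FiniteDimensional.span_of_finite ℂ (Set.finite_range _)
  have hcard : ∀ r, Module.finrank ℂ (S r) = Fintype.card {i // lab i = r} := fun r =>
    finrank_span_eq_card (hli.comp _ Subtype.val_injective)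
  let b : ∀ r, OrthonormalBasis {i // lab i = r} ℂ (S r) := fun r =>
    haveI := hfin r
    (stdOrthonormalBasis ℂ (S r)).reindex
      (Fintype.equivOfCardEq (by rw [Fintype.card_fin, hcard r]))
  let e : Fin m → H := fun i => (b (lab i) ⟨i, rfl⟩ : H)
  have he : ∀ i r (h : lab i = r), ((b r ⟨i, h⟩ : S r) : H) = e i := by
    rintro i r rfl; rfl
  have hex : ∀ i, ∃ d : {k // lab k = lab i} → ℂ, ∑ k, d k • F k.1 = e i := by
    intro i
    have h := (b (lab i) ⟨i, rfl⟩).2
    exact (Submodule.mem_span_range_iff_exists_fun ℂ).1 h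
  choose d hd using hex
  let c : Fin m → Fin m → ℂ := fun i k => if h : lab k = lab i then d i ⟨k, h⟩ else 0
  have hc : ∀ i, ∑ k, c i k • F k = e i := by
    intro i
    rw [← hd i]
    have h1 : ∑ k, c i k • F k = ∑ k ∈ Finset.univ.filter (fun k => lab k = lab i), c i k • F k := by
      rw [Finset.sum_filter]
      refine Finset.sum_congr rfl fun k _ => ?_
      by_cases h : lab k = lab i
      · simp [h]
      · simp [c, h]
    rw [h1, Finset.sum_subtype (Finset.univ.filter fun k => lab k = lab i)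
      (p := fun k => lab k = lab i) (by simp) (fun k => c i k • F k)]
    refine Finset.sum_congr rfl fun k _ => ?_
    simp [c, k.2]
  have hc0 : ∀ i j, c i j ≠ 0 → lab j = lab i := by
    intro i j h
    by_contra h2
    exact h (by simp [c, h2])
  refine ⟨c, hc0, ?_⟩
  have hce : (fun i => ∑ k, c i k • F k) = e := funext hc
  rw [hce, orthonormal_iff_ite]
  intro i j
  by_cases hlab : lab i = lab j
  · have h1 := (orthonormal_iff_ite.1 (b (lab j)).orthonormal) ⟨i, hlab⟩ ⟨j, rfl⟩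
    rw [Submodule.coe_inner, he, he] at h1
    rw [h1]
    simp
  · have hij : i ≠ j := fun h => hlab (by rw [h])
    rw [if_neg hij, ← hc i, ← hc j, sum_inner]
    refine Finset.sum_eq_zero fun k _ => ?_
    rw [inner_sum]
    refine Finset.sum_eq_zero fun l _ => ?_
    rw [inner_smul_left, inner_smul_right]
    by_cases h1 : c i k = 0
    · simp [h1]
    by_cases h2 : c j l = 0
    · simp [h2]
    have h3 : lab k ≠ lab l := by rw [hc0 i k h1, hc0 j l h2]; exact hlab
    rw [horth k l h3]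
    simp

lemma g1_coe {ρ : Measure α} {ι : Type*} (f : ι → α → ℂ) (hf : ∀ i, MemLp (f i) 2 ρ) (c : ι → ℂ)
    (s : Finset ι) : ⇑(∑ i ∈ s, c i • (hf i).toLp (f i)) =ᵐ[ρ] fun x => ∑ i ∈ s, c i * f i x := by
  classical
  induction s using Finset.induction_on with
  | empty =>
    simp only [Finset.sum_empty]
    exact Lp.coeFn_zero _ _ _
  | insert a s ha ih =>
    rw [Finset.sum_insert ha]
    refine (Lp.coeFn_add _ _).trans ?_
    filter_upwards [ih, Lp.coeFn_smul (c a) ((hf a).toLp (f a)), (hf a).coeFn_toLp] with x h1 h2 h3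
    rw [Pi.add_apply, h1, h2, Pi.smul_apply, h3, Finset.sum_insert ha, smul_eq_mul]

/-- Gram-Schmidt in `Lp ℂ 2 ρ`. -/
theorem exists_orthonormal (ρ : Measure α) {m : ℕ} (f : Fin m → α → ℂ)
    (hf : ∀ i, MemLp (f i) 2 ρ)
    (hli : ∀ c : Fin m → ℂ, (fun x => ∑ i, c i * f i x) =ᵐ[ρ] 0 → c = 0) (lab : Fin m → ℝ)
    (horth : ∀ i j, lab i ≠ lab j → ∫ x, star (f i x) * f j x ∂ρ = 0) :
    ∃ c : Fin m → Fin m → ℂ, (∀ i j, c i j ≠ 0 → lab j = lab i) ∧
      ∀ i j, ∫ x, star (∑ k, c i k * f k x) * (∑ k, c j k * f k x) ∂ρ = if i = j then 1 else 0 := by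
  have hF : LinearIndependent ℂ (fun i => (hf i).toLp (f i)) := by
    rw [Fintype.linearIndependent_iff]
    intro g hg i
    have h1 := g1_coe f hf g Finset.univ
    rw [hg] at h1
    have h2 : (fun x => ∑ i, g i * f i x) =ᵐ[ρ] 0 := by
      refine h1.symm.trans ?_
      exact Lp.coeFn_zero _ _ _
    exact congrFun (hli g h2) i
  have hin : ∀ c c' : Fin m → ℂ, inner ℂ (∑ k, c k • (hf k).toLp (f k))
      (∑ k, c' k • (hf k).toLp (f k)) =
      ∫ x, star (∑ k, c k * f k x) * (∑ k, c' k * f k x) ∂ρ := by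
    intro c c'
    rw [L2.inner_def]
    refine integral_congr_ae ?_
    filter_upwards [g1_coe f hf c Finset.univ, g1_coe f hf c' Finset.univ] with x h1 h2
    rw [h1, h2]
    simp [mul_comm]
  have horth' : ∀ i j, lab i ≠ lab j →
      inner ℂ ((hf i).toLp (f i)) ((hf j).toLp (f j)) = 0 := by
    intro i j hij
    rw [L2.inner_def, ← horth i j hij]
    refine integral_congr_ae ?_
    filter_upwards [(hf i).coeFn_toLp, (hf j).coeFn_toLp] with x h1 h2
    rw [h1, h2]
    simp [mul_comm]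
  obtain ⟨c, hc, hon⟩ := g1_abs (fun i => (hf i).toLp (f i)) hF lab horth'
  refine ⟨c, hc, fun i j => ?_⟩
  have h1 := orthonormal_iff_ite.1 hon i j
  rw [hin] at h1
  exact h1

/-- If the right side is infinite nothing is to be proved; otherwise `Φ ∈ L²(ρ)` and this is
`Orthonormal.sum_inner_products_le` in `Lp ℂ 2 ρ`; `⟨Φ, e i⟩ = ∫ Φ e_i` because `Φ` is real. -/
theorem bessel (ρ : Measure α) {m : ℕ} (e : Fin m → α → ℂ) (he : ∀ i, MemLp (e i) 2 ρ)
    (hon : ∀ i j, ∫ x, star (e i x) * e j x ∂ρ = if i = j then 1 else 0) {Φ : α → ℝ}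
    (hΦ : Measurable Φ) (h0 : ∀ x, 0 ≤ Φ x) :
    ∑ i, ENNReal.ofReal (‖∫ x, (Φ x : ℂ) * e i x ∂ρ‖ ^ 2) ≤ ∫⁻ x, ENNReal.ofReal (Φ x) ^ 2 ∂ρ := by
  by_cases htop : ∫⁻ x, ENNReal.ofReal (Φ x) ^ 2 ∂ρ = ⊤
  · rw [htop]; exact le_top
  have hΦc : Measurable (fun x => (Φ x : ℂ)) := Complex.measurable_ofReal.comp hΦ
  have hint : Integrable (fun x => ‖(Φ x : ℂ)‖ ^ 2) ρ := by
    refine ⟨(hΦc.norm.pow_const 2).aestronglyMeasurable, ?_⟩
    rw [hasFiniteIntegral_iff_ofReal (Filter.Eventually.of_forall fun x => by positivity)]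
    refine lt_of_le_of_lt (le_of_eq ?_) (lt_top_iff_ne_top.2 htop)
    refine lintegral_congr fun x => ?_
    rw [Complex.norm_real, Real.norm_of_nonneg (h0 x), ENNReal.ofReal_pow (h0 x)]
  have hmem : MemLp (fun x => (Φ x : ℂ)) 2 ρ :=
    (memLp_two_iff_integrable_sq_norm hΦc.aestronglyMeasurable).2 hint
  have hon' : Orthonormal ℂ (fun i => (he i).toLp (e i)) := by
    rw [orthonormal_iff_ite]
    intro i j
    rw [← hon i j, L2.inner_def]
    refine integral_congr_ae ?_
    filter_upwards [(he i).coeFn_toLp, (he j).coeFn_toLp] with x h1 h2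
    rw [h1, h2]
    simp [mul_comm]
  have hb := hon'.sum_inner_products_le (hmem.toLp _) (s := Finset.univ)
  have h1 : ∀ i, ‖inner ℂ ((he i).toLp (e i)) (hmem.toLp _)‖ = ‖∫ x, (Φ x : ℂ) * e i x ∂ρ‖ := by
    intro i
    have h2 : inner ℂ ((he i).toLp (e i)) (hmem.toLp _) =
        (starRingEnd ℂ) (∫ x, (Φ x : ℂ) * e i x ∂ρ) := by
      rw [L2.inner_def, ← integral_conj]
      refine integral_congr_ae ?_
      filter_upwards [(he i).coeFn_toLp, hmem.coeFn_toLp] with x h1 h2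
      rw [h1, h2]
      simp
    rw [h2, RCLike.norm_conj]
  have h2 : ‖hmem.toLp _‖ ^ 2 = ∫ x, ‖(Φ x : ℂ)‖ ^ 2 ∂ρ := by
    rw [← inner_self_eq_norm_sq (𝕜 := ℂ), L2.inner_def]
    have h3 : ∫ x, inner ℂ (hmem.toLp _ x) (hmem.toLp _ x) ∂ρ =
        ((∫ x, ‖(Φ x : ℂ)‖ ^ 2 ∂ρ : ℝ) : ℂ) := by
      rw [← integral_complex_ofReal]
      refine integral_congr_ae ?_
      filter_upwards [hmem.coeFn_toLp] with x h1
      rw [h1, inner_self_eq_norm_sq_to_K]
      norm_cast
    rw [h3]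
    simp
  rw [h2] at hb
  have h3 : ∫⁻ x, ENNReal.ofReal (Φ x) ^ 2 ∂ρ = ENNReal.ofReal (∫ x, ‖(Φ x : ℂ)‖ ^ 2 ∂ρ) := by
    rw [ofReal_integral_eq_lintegral_ofReal hint (Filter.Eventually.of_forall fun x => by positivity)]
    refine lintegral_congr fun x => ?_
    rw [Complex.norm_real, Real.norm_of_nonneg (h0 x), ENNReal.ofReal_pow (h0 x)]
  rw [h3, ← ENNReal.ofReal_sum_of_nonneg (fun i _ => by positivity)]
  refine ENNReal.ofReal_le_ofReal (le_trans (le_of_eq ?_) hb)
  exact Finset.sum_congr rfl fun i _ => by rw [h1 i]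

end

end Pool.Agent.Lib.H56D
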