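import Pool.Agent.Lib.H56D.B1
import Pool.Agent.Lib.H56D.G1
import Pool.Agent.Lib.H56D.L2

/-!
# F4: the pre-trace inequality
-/

namespace Pool.Agent.Lib.H56D

open Matrix hiding J
open MeasureTheory Topology Filter
open Pool.Agent.Lib.H56.Picard hiding O Gam mem_Gam star_mem_O T_mem sg_mem
open Pool.Agent.Lib.H56.Gen
open scoped ENNReal

noncomputable section

variable {q : QD}

/-- The periodised kernel. -/
def PK (G : Subgroup (Gam q)) (L : ℝ) (x : ℂ × ℂ) (z : X) : ℝ :=
  ∑' γ : G, ker 3 L x (act (mat γ.1.1) z.1)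

lemma f4_countable (G : Subgroup (Gam q)) : Countable G := by
  have := countable_arith (hO := star_mem (q := q)) finite_ball
  infer_instance

lemma f4_measurable_ker (L : ℝ) {x : ℂ × ℂ} (hx : x ∈ U) :
    Measurable (fun z : X => ker 3 L x z.1) := by
  have h1 : Continuous (fun z : X => ker 3 L x z.1) :=
    continuousOn_iff_continuous_domRestrict.1 (ker_cont 3 L hx)
  exact h1.measurable

lemma f4_act (G : Subgroup (Gam q)) (γ : G) (z : X) : (γ • z : X).1 = act (mat γ.1.1) z.1 := rfl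

lemma f4_measurable_smul (G : Subgroup (Gam q)) (γ : G) : Measurable (fun z : X => γ • z) :=
  (continuous_act_smul γ.1.1).measurable

lemma f4_finite (G : Subgroup (Gam q)) (L : ℝ) {x : ℂ × ℂ} (hx : x ∈ U) (z : X) :
    {γ : G | act (mat γ.1.1) z.1 ∈ ball x L}.Finite := by
  obtain ⟨B, hB⟩ := exists_entry_bound (K := {z.1}) (L := ball x L) isCompact_singleton
    (by rintro w rfl; exact z.2) (isCompact_ball hx L) (ball_subset_U x L)
  have h1 : {γ : Gam q | ∀ i j, ‖mat γ.1 i j‖ ≤ B}.Finite :=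
    finite_entries (hO := star_mem (q := q)) finite_ball B
  have h2 := h1.preimage (f := (Subtype.val : G → Gam q)) Subtype.val_injective.injOn
  refine h2.subset fun γ hγ => ?_
  exact hB z.1 rfl γ.1.1 hγ

/-- The sum is locally finite (`locally_finite` for the compact set `ball x L`), so `PK` is finite,
nonnegative, and (as an `ENNReal` sum) measurable; `PK` is `G`-invariant (`Equiv.mulRight`). -/
theorem PK_basic (G : Subgroup (Gam q)) {L : ℝ} {x : ℂ × ℂ} (hx : x ∈ U) :
    (∀ z, 0 ≤ PK G L x z) ∧ Measurable (PK G L x) ∧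
      (∀ z : X, Summable fun γ : G => ker 3 L x (act (mat γ.1.1) z.1)) ∧
      (∀ z : X, ENNReal.ofReal (PK G L x z) =
        ∑' γ : G, ENNReal.ofReal (ker 3 L x (act (mat γ.1.1) z.1))) ∧
      ∀ (δ : G) (z : X), PK G L x (δ • z) = PK G L x z := by
  have := f4_countable G
  have hs : ∀ z : X, Summable fun γ : G => ker 3 L x (act (mat γ.1.1) z.1) := by
    intro z
    refine summable_of_hasFiniteSupport ((f4_finite G L hx z).subset fun γ hγ => ?_)
    by_contra hcon
    exact hγ (ker_zero (by norm_num) hcon)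
  have h0 : ∀ z, 0 ≤ PK G L x z := fun z => tsum_nonneg fun γ => ker_nonneg _ _ _ _
  have he : ∀ z : X, ENNReal.ofReal (PK G L x z) =
      ∑' γ : G, ENNReal.ofReal (ker 3 L x (act (mat γ.1.1) z.1)) := fun z =>
    ENNReal.ofReal_tsum_of_nonneg (fun γ => ker_nonneg _ _ _ _) (hs z)
  refine ⟨h0, ?_, hs, he, ?_⟩
  · have h1 : PK G L x = fun z => (∑' γ : G,
        ENNReal.ofReal (ker 3 L x (act (mat γ.1.1) z.1))).toReal := by
      funext z
      rw [← he z, ENNReal.toReal_ofReal (h0 z)]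
    rw [h1]
    refine Measurable.ennreal_toReal (Measurable.tsum fun γ => ?_)
    exact ((f4_measurable_ker L hx).comp (f4_measurable_smul G γ)).ennreal_ofReal
  · intro δ z
    unfold PK
    have h2 : ∀ γ : G, ker 3 L x (act (mat γ.1.1) (δ • z : X).1) =
        (fun γ' : G => ker 3 L x (act (mat γ'.1.1) z.1)) (γ * δ) := by
      intro γ
      have h3 : ((γ * δ) • z : X) = γ • (δ • z : X) := mul_smul γ δ z
      simp only [← f4_act, h3]
    simp only [h2]
    exact (Equiv.mulRight δ).tsum_eq fun γ' : G => ker 3 L x (act (mat γ'.1.1) z.1)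

lemma f4_unfold {D : CD q} {G : Subgroup (Gam q)} [G.FiniteIndex] {e : ℂ × ℂ → ℝ}
    (he : ContinuousOn e U) (hinv : ∀ γ : Gam q, γ ∈ G → ∀ z ∈ U, e (act (mat γ.1) z) = e z)
    {L : ℝ} {x : ℂ × ℂ} (hx : x ∈ U) :
    Integrable (fun z : X => (wG D G z).toReal * (PK G L x z * e z.1)) mu ∧
    ∫ z : X, (wG D G z).toReal * (PK G L x z * e z.1) ∂mu = ∫ w : X, ker 3 L x w.1 * e w.1 ∂mu := by
  have := f4_countable G
  have hec : Measurable (fun z : X => e z.1) :=
    (continuousOn_iff_continuous_domRestrict.1 he).measurable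
  have hΦ : Integrable (fun w : X => ker 3 L x w.1 * e w.1) mu :=
    ker_integrable (by norm_num) L hx he
  have hΦm : Measurable (fun w : X => ker 3 L x w.1 * e w.1) := (f4_measurable_ker L hx).mul hec
  have hb := PK_basic G (L := L) hx
  have hinv' : ∀ (γ : G) (z : X), e (γ • z : X).1 = e z.1 := fun γ z => hinv γ.1 γ.2 z.1 z.2
  have h1 : ∀ z : X, ∑' γ : G, ker 3 L x (γ • z : X).1 * e (γ • z : X).1 = PK G L x z * e z.1 := by
    intro z
    simp only [hinv']
    rw [tsum_mul_right]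
    rfl
  refine ⟨?_, ?_⟩
  · refine ⟨((measurable_wG D G).ennreal_toReal.mul (hb.2.1.mul hec)).aestronglyMeasurable, ?_⟩
    rw [HasFiniteIntegral]
    have h2 := unfold_lintegral (G := G) (measurable_wG D G) (c := 1)
      (Filter.Eventually.of_forall (sum_wG D G)) hΦm.enorm
    rw [one_mul] at h2
    have h3 : ∫⁻ z, ‖(wG D G z).toReal * (PK G L x z * e z.1)‖ₑ ∂mu ≤
        ∫⁻ z, wG D G z * ∑' γ : G, ‖ker 3 L x (γ • z : X).1 * e (γ • z : X).1‖ₑ ∂mu := by
      refine lintegral_mono fun z => ?_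
      rw [enorm_mul, Real.enorm_of_nonneg ENNReal.toReal_nonneg]
      refine mul_le_mul' ENNReal.ofReal_toReal_le ?_
      rw [enorm_mul, Real.enorm_of_nonneg (hb.1 z), hb.2.2.2.1 z, ← ENNReal.tsum_mul_right]
      refine ENNReal.tsum_le_tsum fun γ => ?_
      rw [enorm_mul, hinv', Real.enorm_of_nonneg (ker_nonneg _ _ _ _)]
      exact le_rfl
    refine lt_of_le_of_lt h3 ?_
    rw [← h2]
    exact hΦ.2
  · have h2 := unfold_integral (G := G) (measurable_wG D G) ENNReal.one_ne_top
      (Filter.Eventually.of_forall (sum_wG D G)) hΦ hΦm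
    rw [ENNReal.toReal_one, one_mul] at h2
    rw [h2]
    refine integral_congr_ae (Filter.Eventually.of_forall fun z => ?_)
    simp only
    rw [h1 z]

/-- Unfolding (`unfold_integral`, `c = 1`, `sum_wG`) applied to `Φ(z) = ker 3 L x z · Re e(z)` and
`Im`: `∑_γ ker(x,γz) e(γz) = PK(z) e(z)` by invariance of `e`; the integral against `rho` by
`integral_withDensity_eq_integral_toReal_smul`. -/
theorem PK_integral {D : CD q} {G : Subgroup (Gam q)} [G.FiniteIndex] {e : ℂ × ℂ → ℂ} {l : ℝ}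
    (he : Good D G e l) {L : ℝ} {x : ℂ × ℂ} (hx : x ∈ U) :
    ∫ z : X, (PK G L x z : ℂ) * e z.1 ∂(rho D G) = ∫ w : X, (ker 3 L x w.1 : ℂ) * e w.1 ∂mu := by
  have hce : ContinuousOn e U := he.smooth.continuousOn
  have hre : ContinuousOn (fun w => (e w).re) U := Complex.continuous_re.comp_continuousOn hce
  have him : ContinuousOn (fun w => (e w).im) U := Complex.continuous_im.comp_continuousOn hce
  obtain ⟨i1, e1⟩ := f4_unfold (D := D) (G := G) hre
    (fun γ hγ z hz => by rw [he.inv γ hγ z hz]) (L := L) hx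
  obtain ⟨i2, e2⟩ := f4_unfold (D := D) (G := G) him
    (fun γ hγ z hz => by rw [he.inv γ hγ z hz]) (L := L) hx
  have j1 := ker_integrable (p := 3) (by norm_num) L hx hre
  have j2 := ker_integrable (p := 3) (by norm_num) L hx him
  rw [rho, integral_withDensity_eq_integral_toReal_smul (measurable_wG D G)
    (Filter.Eventually.of_forall fun z => lt_top_iff_ne_top.2 (wG_ne_top D G z))]
  have h1 : (fun z : X => (wG D G z).toReal • ((PK G L x z : ℂ) * e z.1)) = fun z : X =>
      (((wG D G z).toReal * (PK G L x z * (e z.1).re) : ℝ) : ℂ) +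
        (((wG D G z).toReal * (PK G L x z * (e z.1).im) : ℝ) : ℂ) * Complex.I := by
    funext z
    conv_lhs => rw [← Complex.re_add_im (e z.1)]
    rw [Complex.real_smul]
    push_cast
    ring
  have h2 : (fun w : X => (ker 3 L x w.1 : ℂ) * e w.1) = fun w : X =>
      ((ker 3 L x w.1 * (e w.1).re : ℝ) : ℂ) +
        ((ker 3 L x w.1 * (e w.1).im : ℝ) : ℂ) * Complex.I := by
    funext z
    conv_lhs => rw [← Complex.re_add_im (e z.1)]
    push_cast
    ring
  rw [h1, h2, integral_add i1.ofReal (i2.ofReal.mul_const _), integral_add j1.ofReal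
    (j2.ofReal.mul_const _), integral_mul_const, integral_mul_const,
    integral_complex_ofReal, integral_complex_ofReal, integral_complex_ofReal,
    integral_complex_ofReal, e1, e2]

/-- `unfold_lintegral` with `Φ(z) = ker(x,z) PK(z)`: `∫ wG PK² = ∫ ker(x,z) PK(z) dμ`, then
`lintegral_tsum` (countable group, measurable terms). -/
theorem PK_square (D : CD q) {G : Subgroup (Gam q)} [G.FiniteIndex] {L : ℝ} {x : ℂ × ℂ}
    (hx : x ∈ U) :
    ∫⁻ z, ENNReal.ofReal (PK G L x z) ^ 2 ∂(rho D G) =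
      ∑' γ : G, ∫⁻ w : X, ENNReal.ofReal (ker 3 L x w.1) *
        ENNReal.ofReal (ker 3 L x (act (mat γ.1.1) w.1)) ∂mu := by
  have := f4_countable G
  have hb := PK_basic G (L := L) hx
  have hk := (f4_measurable_ker L hx).ennreal_ofReal
  have hP := hb.2.1.ennreal_ofReal
  rw [rho, lintegral_withDensity_eq_lintegral_mul _ (measurable_wG D G) (hP.pow_const 2)]
  have h2 := unfold_lintegral (G := G) (measurable_wG D G) (c := 1)
    (Filter.Eventually.of_forall (sum_wG D G)) (hk.mul hP)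
  rw [one_mul] at h2
  have h3 : ∀ z : X, (wG D G * fun a => ENNReal.ofReal (PK G L x a) ^ 2) z = wG D G z *
      ∑' γ : G, ((fun z : X => ENNReal.ofReal (ker 3 L x z.1)) *
        fun z => ENNReal.ofReal (PK G L x z)) (γ • z) := by
    intro z
    simp only [Pi.mul_apply, hb.2.2.2.2]
    rw [ENNReal.tsum_mul_right]
    have h4 : ∑' γ : G, ENNReal.ofReal (ker 3 L x (γ • z : X).1) = ENNReal.ofReal (PK G L x z) :=
      (hb.2.2.2.1 z).symm
    rw [h4, sq]
  simp only [h3]
  rw [← h2]
  simp only [Pi.mul_apply, hb.2.2.2.1, ← ENNReal.tsum_mul_left]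
  rw [lintegral_tsum]
  intro γ
  exact (hk.mul ((f4_measurable_ker L hx).comp (f4_measurable_smul G γ)).ennreal_ofReal).aemeasurable

/-- `bessel (rho D G)` with `Φ = PK`, `PK_integral`, `PK_square`. -/
theorem pretrace {D : CD q} {G : Subgroup (Gam q)} [G.FiniteIndex] {m : ℕ}
    {e : Fin m → ℂ × ℂ → ℂ} {l : Fin m → ℝ} (he : ∀ i, Good D G (e i) (l i))
    (hon : ∀ i j, ∫ z : X, star (e i z.1) * e j z.1 ∂(rho D G) = if i = j then 1 else 0) {L : ℝ}
    {x : ℂ × ℂ} (hx : x ∈ U) :
    ∑ i, ENNReal.ofReal (‖∫ w : X, (ker 3 L x w.1 : ℂ) * e i w.1 ∂mu‖ ^ 2) ≤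
      ∑' γ : G, ∫⁻ w : X, ENNReal.ofReal (ker 3 L x w.1) *
        ENNReal.ofReal (ker 3 L x (act (mat γ.1.1) w.1)) ∂mu := by
  have hb := PK_basic G (L := L) hx
  have h1 := bessel (rho D G) (fun i (z : X) => e i z.1) (fun i => Good_memLp (he i)) hon
    hb.2.1 hb.1
  simp only [PK_integral (he _) hx] at h1
  rw [PK_square D hx] at h1
  exact h1

end

end Pool.Agent.Lib.H56D
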