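import Pool.Agent.Lib.H56D.F4
import Pool.Agent.Lib.H56D.D3
import Pool.Agent.Lib.H56D.E1

/-!
# F5: pointwise bound for orthonormal families
-/

namespace Pool.Agent.Lib.H56D

open Matrix hiding J
open MeasureTheory Topology Filter
open Pool.Agent.Lib.H56.Picard hiding O Gam mem_Gam star_mem_O T_mem sg_mem
open Pool.Agent.Lib.H56.Gen
open scoped ENNReal

noncomputable section

/-- `pretrace`, `lower_complex` on the left; on the right `ker 3 L x (γ w) = ker 3 L (γ⁻¹ x) w`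
(`ker_act` with `γ⁻¹`, `act_act`, `act_inv_act`), `conv_le`, and re-index `γ ↦ γ⁻¹`
(`Equiv.inv`). -/
theorem point_bound {q : QD} {D : CD q} {G : Subgroup (Gam q)} [G.FiniteIndex] {ν : ℝ}
    (hν : 0 < ν) {m : ℕ} {e : Fin m → ℂ × ℂ → ℂ} {l : Fin m → ℝ}
    (he : ∀ i, Good D G (e i) (l i)) (hl : ∀ i, 0 ≤ l i ∧ l i ≤ 1 - ν ^ 2)
    (hon : ∀ i j, ∫ z : X, star (e i z.1) * e j z.1 ∂(rho D G) = if i = j then 1 else 0) {L : ℝ}
    (hL : 1 < L) {x : ℂ × ℂ} (hx : x ∈ U) :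
    ENNReal.ofReal ((c3 * (L - 1) ^ 5 * L ^ (ν - 1)) ^ 2) *
        ∑ i, ENNReal.ofReal (Complex.normSq (e i x)) ≤
      ∑' γ : G, FL L (sgm x (act (mat γ.1.1) x)) := by
  have hc := c3_pos
  have hA : 0 ≤ c3 * (L - 1) ^ 5 * L ^ (ν - 1) := by
    have h1 : 0 < (L - 1) ^ 5 := pow_pos (by linarith) 5
    have h2 : 0 < L ^ (ν - 1) := Real.rpow_pos_of_pos (by linarith) _
    positivity
  have h1 : ENNReal.ofReal ((c3 * (L - 1) ^ 5 * L ^ (ν - 1)) ^ 2) *
        ∑ i, ENNReal.ofReal (Complex.normSq (e i x)) ≤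
      ∑ i, ENNReal.ofReal (‖∫ w : X, (ker 3 L x w.1 : ℂ) * e i w.1 ∂mu‖ ^ 2) := by
    rw [Finset.mul_sum]
    apply Finset.sum_le_sum
    intro i _
    rw [← ENNReal.ofReal_mul (by positivity)]
    apply ENNReal.ofReal_le_ofReal
    have h2 := lower_complex (he i).smooth (he i).eig (hl i).1 hν (hl i).2 hx hL
    rw [Complex.normSq_eq_norm_sq, ← mul_pow]
    exact pow_le_pow_left₀ (mul_nonneg hA (norm_nonneg _)) h2 2
  refine h1.trans ((pretrace he hon (L := L) hx).trans ?_)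
  rw [← (Equiv.inv G).tsum_eq (fun γ : G => FL L (sgm x (act (mat γ.1.1) x)))]
  apply ENNReal.tsum_le_tsum
  intro γ
  have h3 : ∀ w : X, ker 3 L x (act (mat γ.1.1) w.1) =
      ker 3 L (act (mat ((Equiv.inv G) γ).1.1) x) w.1 := by
    intro w
    have e1 : act (mat (γ⁻¹).1.1) (act (mat γ.1.1) w.1) = w.1 := act_inv_act γ.1.1 w.2
    have e2 := ker_act 3 L (γ⁻¹).1.1 hx (act_mem_U γ.1.1 w.2)
    rw [e1] at e2
    exact e2.symm
  simp only [h3]
  exact conv_le hx (act_mem_U _ hx) hL.le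

end

end Pool.Agent.Lib.H56D
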