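import Pool.Agent.Lib.H56D.L1

/-!
# G0: the eigenvalues are real and nonnegative; energy inequality
-/

namespace Pool.Agent.Lib.H56D

open Matrix hiding J
open MeasureTheory Topology Filter
open Pool.Agent.Lib.H56.Picard hiding O Gam mem_Gam star_mem_O T_mem sg_mem
open Pool.Agent.Lib.H56.Gen
open scoped ENNReal

noncomputable section

/-- `green_level finite_ball one_le_norm (cover D)` with `w = om D`, `c = 1` (`sum_om`); its hypothesis
`hL2` for each coset follows from `lintegral_PhiS` and the finiteness of `∫ om PhiS` (one term of a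
sum). -/
theorem energy_level {q : QD} (D : CD q) {G : Subgroup (Gam q)} [hG : G.FiniteIndex]
    {f : ℂ × ℂ → ℂ} {lam : ℂ}
    (hf : ContDiffOn ℝ 2 f U) (hinv : ∀ γ : Gam q, γ ∈ G → ∀ z ∈ U, f (act (mat γ.1) z) = f z)
    (heig : ∀ z ∈ U, laplacian f z = -(lam * f z))
    (hL2 : ∫⁻ z : X, wG D G z * ENNReal.ofReal (Complex.normSq (f z.1)) ∂mu ≠ ⊤)
    (hne : ∃ z ∈ U, f z ≠ 0) :
    lam.im = 0 ∧
      ∫⁻ z, om D z * EnS G f z ∂mu ≤ ENNReal.ofReal lam.re * ∫⁻ z, om D z * PhiS G f z ∂mu := by
  refine green_level H56.Gen.finite_ball one_le_norm (cover D) hG (measurable_om D) (c := 1)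
    one_ne_zero ENNReal.one_ne_top (Filter.Eventually.of_forall (sum_om D)) hf hinv heig ?_ hne
  intro c
  rw [lintegral_PhiS D G hf] at hL2
  refine ne_top_of_le_ne_top hL2 (lintegral_mono fun z => ?_)
  gcongr
  exact ENNReal.le_tsum (f := fun c => ENNReal.ofReal (Complex.normSq (conj G f c z.1))) c

/-- A covector of norm zero vanishes. -/
lemma G0_normL_eq_zero {z : ℂ × ℂ} (hz : 0 < height z) {L : ℂ × ℂ →L[ℝ] ℝ}
    (h : normL z L = 0) : L = 0 := by
  rw [normL_eq] at h
  have h1 : 0 ≤ height z ^ 2 * Complex.normSq (cov1 L) :=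
    mul_nonneg (sq_nonneg _) (Complex.normSq_nonneg _)
  have h2 : 0 ≤ height z * Complex.normSq (cov2 L - star z.2 * cov1 L) :=
    mul_nonneg hz.le (Complex.normSq_nonneg _)
  have h3 : height z ^ 2 * Complex.normSq (cov1 L) = 0 := by linarith
  have h4 : height z * Complex.normSq (cov2 L - star z.2 * cov1 L) = 0 := by linarith
  have h5 : cov1 L = 0 := by
    rcases mul_eq_zero.1 h3 with h | h
    · exact absurd h (by positivity)
    · exact Complex.normSq_eq_zero.1 h
  have h6 : cov2 L = 0 := by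
    rcases mul_eq_zero.1 h4 with h | h
    · exact absurd h hz.ne'
    · have := Complex.normSq_eq_zero.1 h
      rw [h5, mul_zero, sub_zero] at this
      exact this
  ext v
  · simp [apply_eq_cov L, h5, h6]
  · simp [apply_eq_cov L, h5, h6]

/-- The Laplacian of a function with vanishing derivative. -/
lemma G0_lapR_eq_zero {g : ℂ × ℂ → ℝ} (h : ∀ z ∈ U, fderiv ℝ g z = 0) {z : ℂ × ℂ}
    (hz : z ∈ U) : lapR g z = 0 := by
  have h1 : fderiv ℝ g =ᶠ[𝓝 z] fun _ => 0 := by
    filter_upwards [isOpen_U.mem_nhds hz] with w hw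
    exact h w hw
  have h2 : fderiv ℝ (fderiv ℝ g) z = 0 := by
    rw [h1.fderiv_eq]
    simp
  unfold lapR
  rw [h2]
  simp

/-- Suppose `lam.re < 0`. Then `ofReal lam.re = 0`, so `∫ om EnS = 0`; as `EnS` is invariant
(`EnS_smul`) and `∑ om(γz) = 1`, `EnS = 0` almost everywhere (unfolding as for `PhiS` in the proof of
`main_abstract`, `hI0`), in particular the energies of real and imaginary part of `f` vanish almost
everywhere (coset of `1`, compose with the representative), hence everywhere on `U` by continuity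
(`continuousOn_normL`, `Continuous.ae_eq_iff_eq`); so `fderiv` of `Re f`, `Im f` vanishes on `U`
(`normL z L = 0`, `height z > 0` force `L = 0`: the four frame vectors span), so `laplacian f = 0` on `U`
and `lam f = 0`: contradiction with `hne`. -/
theorem lam_nonneg {q : QD} (D : CD q) {G : Subgroup (Gam q)} [hG : G.FiniteIndex]
    {f : ℂ × ℂ → ℂ} {lam : ℂ}
    (hf : ContDiffOn ℝ 2 f U) (hinv : ∀ γ : Gam q, γ ∈ G → ∀ z ∈ U, f (act (mat γ.1) z) = f z)
    (heig : ∀ z ∈ U, laplacian f z = -(lam * f z))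
    (hL2 : ∫⁻ z : X, wG D G z * ENNReal.ofReal (Complex.normSq (f z.1)) ∂mu ≠ ⊤)
    (hne : ∃ z ∈ U, f z ≠ 0) : 0 ≤ lam.re := by
  by_contra hcon
  push Not at hcon
  have hfinq : Finite (Gam q ⧸ G) := Subgroup.finite_quotient_of_finiteIndex
  have hcountA : Countable (Gam q) := countable_arith H56.Gen.finite_ball
  have h1 := (energy_level D hf hinv heig hL2 hne).2
  rw [ENNReal.ofReal_of_nonpos hcon.le, zero_mul] at h1
  have h2 : ∫⁻ z, om D z * EnS G f z ∂mu = 0 := le_zero_iff.1 h1
  have mE : Measurable (EnS G f) := measurable_EnS hf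
  have h3 := unfold_lintegral (G := Gam q) (measurable_om D) (c := 1)
    (Filter.Eventually.of_forall (sum_om D)) mE
  rw [one_mul] at h3
  have h4 : ∫⁻ z, om D z * ∑' γ : Gam q, EnS G f (γ • z) ∂mu = 0 := by
    simp only [EnS_smul hf hinv]
    have mOE : Measurable fun z : X => om D z * EnS G f z := (measurable_om D).mul mE
    rw [lintegral_eq_zero_iff mOE] at h2
    refine (lintegral_congr_ae ?_).trans lintegral_zero
    filter_upwards [h2] with z hz
    simp only [Pi.zero_apply, mul_eq_zero] at hz ⊢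
    rcases hz with hz | hz
    · exact Or.inl hz
    · right
      rw [hz]
      simp
  rw [h4] at h3
  set c : Gam q ⧸ G := ((1 : Gam q) : Gam q ⧸ G) with hc
  have hcc := contDiffOn_conj (G := G) hf c
  have hf1 : ContDiffOn ℝ 1 (fun z => (conj G f c z).re) U :=
    Complex.reCLM.contDiff.comp_contDiffOn hcc
  have hf2 : ContDiffOn ℝ 1 (fun z => (conj G f c z).im) U :=
    Complex.imCLM.contDiff.comp_contDiffOn hcc
  have hcont : Continuous fun z : X => energy (fun z => (conj G f c z).re) z.1 +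
        energy (fun z => (conj G f c z).im) z.1 :=
    continuous_restrict (φ := fun z =>
      normL z (fderiv ℝ (fun z => (conj G f c z).re) z) +
        normL z (fderiv ℝ (fun z => (conj G f c z).im) z))
        ((continuousOn_normL hf1).add (continuousOn_normL hf2))
  have hn1 : ∀ z : X, 0 ≤ energy (fun z => (conj G f c z).re) z.1 := fun z =>
    normL_nonneg z.2.le _
  have hn2 : ∀ z : X, 0 ≤ energy (fun z => (conj G f c z).im) z.1 := fun z =>
    normL_nonneg z.2.le _
  have h5 : (fun z : X => energy (fun z => (conj G f c z).re) z.1 +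
        energy (fun z => (conj G f c z).im) z.1) =ᵐ[mu] fun _ => 0 := by
    rw [lintegral_eq_zero_iff mE] at h3
    filter_upwards [h3] with z hz
    have h6 : EnS G f z = 0 := hz
    unfold EnS at h6
    rw [ENNReal.tsum_eq_zero] at h6
    exact le_antisymm (ENNReal.ofReal_eq_zero.mp (h6 c)) (add_nonneg (hn1 z) (hn2 z))
  have h7 := (Continuous.ae_eq_iff_eq mu hcont continuous_const).mp h5
  have hmem : (c.out : Gam q)⁻¹ ∈ G := by
    have h8 : ((1 : Gam q) : Gam q ⧸ G) = ((c.out : Gam q) : Gam q ⧸ G) := by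
      rw [QuotientGroup.out_eq']
    rw [QuotientGroup.eq] at h8
    simpa using G.inv_mem h8
  have hcf : ∀ z ∈ U, conj G f c z = f z := fun z hz => hinv _ hmem z hz
  have d1 : ∀ z ∈ U, fderiv ℝ (fun z => (f z).re) z = 0 := by
    intro z hz
    have h8 := congrFun h7 (⟨z, hz⟩ : X)
    simp only at h8
    have h9 : energy (fun z => (conj G f c z).re) z = 0 := by
      have a := hn1 ⟨z, hz⟩
      have b := hn2 ⟨z, hz⟩
      simp only at a b
      linarith
    have h10 : fderiv ℝ (fun z => (conj G f c z).re) z = 0 := G0_normL_eq_zero hz h9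
    rw [← h10]
    apply Filter.EventuallyEq.fderiv_eq
    filter_upwards [isOpen_U.mem_nhds hz] with w hw
    rw [hcf w hw]
  have d2 : ∀ z ∈ U, fderiv ℝ (fun z => (f z).im) z = 0 := by
    intro z hz
    have h8 := congrFun h7 (⟨z, hz⟩ : X)
    simp only at h8
    have h9 : energy (fun z => (conj G f c z).im) z = 0 := by
      have a := hn1 ⟨z, hz⟩
      have b := hn2 ⟨z, hz⟩
      simp only at a b
      linarith
    have h10 : fderiv ℝ (fun z => (conj G f c z).im) z = 0 := G0_normL_eq_zero hz h9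
    rw [← h10]
    apply Filter.EventuallyEq.fderiv_eq
    filter_upwards [isOpen_U.mem_nhds hz] with w hw
    rw [hcf w hw]
  obtain ⟨z, hz, hfz⟩ := hne
  have e1 : (laplacian f z).re = 0 := by
    have h := lapR_comp Complex.reCLM hf hz
    have h' : lapR (fun w => (f w).re) z = (laplacian f z).re := h
    rw [← h', G0_lapR_eq_zero d1 hz]
  have e2 : (laplacian f z).im = 0 := by
    have h := lapR_comp Complex.imCLM hf hz
    have h' : lapR (fun w => (f w).im) z = (laplacian f z).im := h
    rw [← h', G0_lapR_eq_zero d2 hz]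
  have e3 : laplacian f z = 0 := Complex.ext e1 e2
  rw [heig z hz, neg_eq_zero, mul_eq_zero] at e3
  rcases e3 with h | h
  · rw [h] at hcon
    simp at hcon
  · exact hfz h

/-- Combine. -/
theorem Good_of_Eig {q : QD} {D : CD q} {G : Subgroup (Gam q)} [hG : G.FiniteIndex]
    {f : ℂ × ℂ → ℂ} {lam : ℂ} (h : Eig D G f lam) (hne : ∃ z ∈ U, f z ≠ 0) :
    Good D G f lam.re ∧ 0 ≤ lam.re := by
  have h1 := Eig_L2 h
  have h2 := (energy_level D h.smooth h.inv h.eig h1 hne).1
  refine ⟨⟨h.smooth, h.inv, fun z hz => ?_, h1⟩, lam_nonneg D h.smooth h.inv h.eig h1 hne⟩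
  rw [h.eig z hz]
  congr 2
  apply Complex.ext
  · simp
  · simp [h2]

end

end Pool.Agent.Lib.H56D
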