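import Pool.Agent.Lib.H56D.G0
import Pool.Agent.Lib.H56D.L2

/-!
# G3: orthogonality of eigenfunctions with different eigenvalues
-/

namespace Pool.Agent.Lib.H56D

open Matrix hiding J
open MeasureTheory Topology Filter
open Pool.Agent.Lib.H56.Picard hiding O Gam mem_Gam star_mem_O T_mem sg_mem
open Pool.Agent.Lib.H56.Gen
open scoped ENNReal

noncomputable section

section aux

variable {O : Subring ℂ} {hO : ∀ x ∈ O, star x ∈ O} {G : Subgroup SU21}

lemma g3_integrable_mul {w : X → ℝ≥0∞} (hw : Measurable w) {f g : ℂ × ℂ → ℝ}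
    (hf : ContDiffOn ℝ 2 f U) (hg : ContDiffOn ℝ 2 g U)
    (n1 : Integrable (fun z : X => (w z).toReal * f z.1 ^ 2) mu)
    (n2 : Integrable (fun z : X => (w z).toReal * g z.1 ^ 2) mu) :
    Integrable (fun z : X => (w z).toReal * (f z.1 * g z.1)) mu := by
  have hc1 : Continuous fun z : X => f z.1 := continuous_restrict hf.continuousOn
  have hc2 : Continuous fun z : X => g z.1 := continuous_restrict hg.continuousOn
  have hm : Measurable (fun z : X => (w z).toReal * (f z.1 * g z.1)) :=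
    hw.ennreal_toReal.mul (hc1.mul hc2).measurable
  have hm' : AEStronglyMeasurable (fun z : X => (w z).toReal * (f z.1 * g z.1)) mu :=
    hm.aestronglyMeasurable
  have hadd : Integrable (fun z : X => (w z).toReal * f z.1 ^ 2 + (w z).toReal * g z.1 ^ 2) mu :=
    n1.add n2
  refine hadd.mono' hm' (Filter.Eventually.of_forall fun z => ?_)
  have h1 : 0 ≤ (w z).toReal := ENNReal.toReal_nonneg
  rw [Real.norm_eq_abs, abs_mul, abs_of_nonneg h1, ← mul_add]
  refine mul_le_mul_of_nonneg_left ?_ h1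
  rw [abs_le]
  constructor <;> nlinarith [sq_nonneg (f z.1 + g z.1), sq_nonneg (f z.1 - g z.1)]

/-- The first order terms tend to zero. -/
lemma g3_first
    (hO1 : ∀ x ∈ O, x ≠ 0 → 1 ≤ ‖x‖)
    {w : X → ℝ≥0∞} (hw : Measurable w)
    {f g : ℂ × ℂ → ℝ} (hf : ContDiffOn ℝ 2 f U) (hg : ContDiffOn ℝ 2 g U)
    (n1 : Integrable (fun z : X => (w z).toReal * f z.1 ^ 2) mu)
    (m2 : Integrable (fun z : X => (w z).toReal * normL z.1 (fderiv ℝ g z.1)) mu) :
    Tendsto (fun n : ℕ => ∫ z : X, (w z).toReal *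
        (2 * cutH O hO (qR ((n : ℝ) + 3)) z.1 * (f z.1 * Bf z.1
          (fderiv ℝ (cutH O hO (qR ((n : ℝ) + 3))) z.1) (fderiv ℝ g z.1))) ∂mu) atTop (𝓝 0) := by
  obtain ⟨C, hC⟩ := exists_bound_deriv_qR
  have hC0 : 0 ≤ C := le_trans (by positivity) (hC 1 one_pos 0)
  have hR3 : ∀ n : ℕ, (3 : ℝ) ≤ (n : ℝ) + 3 := fun n => by
    have := Nat.cast_nonneg (α := ℝ) n
    linarith
  have hR0 : ∀ n : ℕ, (0 : ℝ) < (n : ℝ) + 3 := fun n => by linarith [hR3 n]
  have hη : ∀ n : ℕ, ContDiffOn ℝ 1 (cutH O hO (qR ((n : ℝ) + 3))) U := fun n =>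
    contDiffOn_cutH (hO := hO) hO1 (hR3 n) (fun u hu => qR_eq_one (hR0 n) hu) (contDiff_qR _)
  have hf1 : ContDiffOn ℝ 1 f U := hf.of_le (by norm_num)
  have hg1 : ContDiffOn ℝ 1 g U := hg.of_le (by norm_num)
  suffices hS : Tendsto (fun n : ℕ => ∫ z : X, (w z).toReal *
        (2 * cutH O hO (qR ((n : ℝ) + 3)) z.1 * (f z.1 * Bf z.1
          (fderiv ℝ (cutH O hO (qR ((n : ℝ) + 3))) z.1) (fderiv ℝ g z.1))) ∂mu) atTop
          (𝓝 (∫ _ : X, (0 : ℝ) ∂mu)) by
    rwa [integral_zero] at hS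
  have hbd : Integrable (fun z : X => C * ((w z).toReal * f z.1 ^ 2) +
      (w z).toReal * normL z.1 (fderiv ℝ g z.1)) mu := (n1.const_mul C).add m2
  have hmeas : ∀ n : ℕ, Measurable (fun z : X => 2 * cutH O hO (qR ((n : ℝ) + 3)) z.1 *
      (f z.1 * Bf z.1 (fderiv ℝ (cutH O hO (qR ((n : ℝ) + 3))) z.1) (fderiv ℝ g z.1))) := fun n =>
    (continuous_restrict (φ := fun z => 2 * cutH O hO (qR ((n : ℝ) + 3)) z *
      (f z * Bf z (fderiv ℝ (cutH O hO (qR ((n : ℝ) + 3))) z) (fderiv ℝ g z)))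
      ((continuousOn_const.mul (hη n).continuousOn).mul
        (hf1.continuousOn.mul (continuousOn_Bf hg1 (hη n))))).measurable
  refine tendsto_integral_of_dominated_convergence _ (fun n => ?_) hbd
    (fun n => Filter.Eventually.of_forall fun z => ?_) (Filter.Eventually.of_forall fun z => ?_)
  · exact (hw.ennreal_toReal.mul (hmeas n)).aestronglyMeasurable
  · have hw0 : 0 ≤ (w z).toReal := ENNReal.toReal_nonneg
    have hm := cutH_mem (hO := hO) (qR ((n : ℝ) + 3)) (qR_mem _) z.1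
    have hz := z.2
    have hn2 := normL_nonneg hz.le (fderiv ℝ g z.1)
    have hn3 := normL_nonneg hz.le (fderiv ℝ (cutH O hO (qR ((n : ℝ) + 3))) z.1)
    obtain ⟨hc1, -⟩ := normL_fderiv_cutH (hO := hO) hO1 (hR3 n) (fun u hu => qR_eq_one (hR0 n) hu)
      (contDiff_qR _) (hC _ (hR0 n)) hz
    have hB := Bf_sq_le hz.le (fderiv ℝ (cutH O hO (qR ((n : ℝ) + 3))) z.1) (fderiv ℝ g z.1)
    set η := cutH O hO (qR ((n : ℝ) + 3)) z.1
    set B := Bf z.1 (fderiv ℝ (cutH O hO (qR ((n : ℝ) + 3))) z.1) (fderiv ℝ g z.1)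
    set N3 := normL z.1 (fderiv ℝ (cutH O hO (qR ((n : ℝ) + 3))) z.1)
    set N2 := normL z.1 (fderiv ℝ g z.1)
    rw [Real.norm_eq_abs, abs_mul, abs_of_nonneg hw0]
    have key : |2 * η * (f z.1 * B)| ≤ C * f z.1 ^ 2 + N2 := by
      have h1 : |2 * η * (f z.1 * B)| ≤ 2 * |f z.1 * B| := by
        rw [abs_mul]
        refine mul_le_mul_of_nonneg_right ?_ (abs_nonneg _)
        rw [abs_of_nonneg (by linarith [hm.1])]
        linarith [hm.2]
      have h2 : (f z.1 * B) ^ 2 ≤ (C * f z.1 ^ 2) * N2 := by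
        have h3 : B ^ 2 ≤ C * N2 := hB.trans (mul_le_mul_of_nonneg_right hc1 hn2)
        calc (f z.1 * B) ^ 2 = f z.1 ^ 2 * B ^ 2 := by ring
          _ ≤ f z.1 ^ 2 * (C * N2) := mul_le_mul_of_nonneg_left h3 (sq_nonneg _)
          _ = (C * f z.1 ^ 2) * N2 := by ring
      have h4 : 0 ≤ C * f z.1 ^ 2 := mul_nonneg hC0 (sq_nonneg _)
      have h5 : (2 * |f z.1 * B|) ^ 2 ≤ (C * f z.1 ^ 2 + N2) ^ 2 := by
        rw [mul_pow, sq_abs]
        nlinarith [sq_nonneg (C * f z.1 ^ 2 - N2)]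
      exact h1.trans (abs_le_of_sq_le_sq' h5 (by positivity)).2
    calc (w z).toReal * |2 * η * (f z.1 * B)| ≤ (w z).toReal * (C * f z.1 ^ 2 + N2) :=
          mul_le_mul_of_nonneg_left key hw0
      _ = _ := by ring
  · obtain ⟨M, hM⟩ := height_bounded (hO := hO) hO1 z.2
    refine tendsto_const_nhds.congr' ?_
    filter_upwards [Filter.eventually_ge_atTop (Nat.ceil M)] with n hn
    have hn' : M ≤ (n : ℝ) + 3 := by
      have h1 : M ≤ (Nat.ceil M : ℝ) := Nat.le_ceil M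
      have h2 : ((Nat.ceil M : ℕ) : ℝ) ≤ n := by exact_mod_cast hn
      linarith
    obtain ⟨-, hc2⟩ := normL_fderiv_cutH (hO := hO) hO1 (hR3 n)
      (fun u hu => qR_eq_one (hR0 n) hu) (contDiff_qR _) (hC _ (hR0 n)) z.2
    rw [hc2 fun γ => (hM γ).trans_le hn', Bf_zero_left]
    ring

/-- Convergence of the main terms. -/
lemma g3_main
    (hO1 : ∀ x ∈ O, x ≠ 0 → 1 ≤ ‖x‖)
    {w : X → ℝ≥0∞} (hw : Measurable w) {e : ℂ × ℂ → ℝ} (he : ContinuousOn e U)
    (n1 : Integrable (fun z : X => (w z).toReal * e z.1) mu) :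
    Tendsto (fun n : ℕ => ∫ z : X, (w z).toReal *
        (cutH O hO (qR ((n : ℝ) + 3)) z.1 ^ 2 * e z.1) ∂mu) atTop
      (𝓝 (∫ z : X, (w z).toReal * e z.1 ∂mu)) := by
  have hR3 : ∀ n : ℕ, (3 : ℝ) ≤ (n : ℝ) + 3 := fun n => by
    have := Nat.cast_nonneg (α := ℝ) n
    linarith
  have hR0 : ∀ n : ℕ, (0 : ℝ) < (n : ℝ) + 3 := fun n => by linarith [hR3 n]
  have hη : ∀ n : ℕ, ContDiffOn ℝ 1 (cutH O hO (qR ((n : ℝ) + 3))) U := fun n =>
    contDiffOn_cutH (hO := hO) hO1 (hR3 n) (fun u hu => qR_eq_one (hR0 n) hu) (contDiff_qR _)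
  refine tendsto_integral_of_dominated_convergence (fun z => ‖(w z).toReal * e z.1‖)
    (fun n => ?_) n1.norm
    (fun n => Filter.Eventually.of_forall fun z => ?_) (Filter.Eventually.of_forall fun z => ?_)
  · refine (hw.ennreal_toReal.mul ?_).aestronglyMeasurable
    exact (continuous_restrict (φ := fun z => cutH O hO (qR ((n : ℝ) + 3)) z ^ 2 * e z)
      (((hη n).continuousOn.pow 2).mul he)).measurable
  · have hm := cutH_mem (hO := hO) (qR ((n : ℝ) + 3)) (qR_mem _) z.1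
    have h2 : cutH O hO (qR ((n : ℝ) + 3)) z.1 ^ 2 ≤ 1 := pow_le_one₀ hm.1 hm.2
    rw [norm_mul, norm_mul, norm_mul, Real.norm_of_nonneg (sq_nonneg _)]
    refine mul_le_mul_of_nonneg_left ?_ (norm_nonneg _)
    exact (mul_le_mul_of_nonneg_right h2 (norm_nonneg _)).trans_eq (one_mul _)
  · obtain ⟨M, hM⟩ := height_bounded (hO := hO) hO1 z.2
    refine tendsto_const_nhds.congr' ?_
    filter_upwards [Filter.eventually_ge_atTop (Nat.ceil M)] with n hn
    have hn' : M ≤ (n : ℝ) + 3 := by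
      have h1 : M ≤ (Nat.ceil M : ℝ) := Nat.le_ceil M
      have h2 : ((Nat.ceil M : ℕ) : ℝ) ≤ n := by exact_mod_cast hn
      linarith
    rw [cutH_eq_one hO1 (fun u hu => qR_eq_one (hR0 n) hu) z.2 fun γ => ((hM γ).le.trans hn')]
    ring

lemma g3_aux (hGO : G ≤ arith O hO)
    (hOd : ∀ B : ℝ, {x : ℂ | x ∈ O ∧ ‖x‖ ≤ B}.Finite)
    (hO1 : ∀ x ∈ O, x ≠ 0 → 1 ≤ ‖x‖)
    (hcov : ∀ R : ℝ, ∃ K : Set (ℂ × ℂ), IsCompact K ∧ K ⊆ U ∧ ∀ z ∈ U,
      (∀ γ : arith O hO, height (act (mat γ.1) z) ≤ R) → ∃ γ : G, act (mat γ.1) z ∈ K)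
    {w : X → ℝ≥0∞} (hw : Measurable w) {c : ℝ≥0∞} (hc : c ≠ ⊤)
    (hwc : ∀ᵐ z ∂mu, ∑' γ : G, w (γ • z) = c)
    {f g : ℂ × ℂ → ℝ} (hf : ContDiffOn ℝ 2 f U) (hg : ContDiffOn ℝ 2 g U)
    (hfinv : ∀ γ : G, ∀ z ∈ U, f (act (mat γ.1) z) = f z)
    (hginv : ∀ γ : G, ∀ z ∈ U, g (act (mat γ.1) z) = g z)
    {a b : ℝ} (hlf : ∀ z ∈ U, lapR f z = -(a * f z)) (hlg : ∀ z ∈ U, lapR g z = -(b * g z))
    (n1 : Integrable (fun z : X => (w z).toReal * f z.1 ^ 2) mu)
    (n2 : Integrable (fun z : X => (w z).toReal * g z.1 ^ 2) mu)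
    (m1 : Integrable (fun z : X => (w z).toReal * normL z.1 (fderiv ℝ f z.1)) mu)
    (m2 : Integrable (fun z : X => (w z).toReal * normL z.1 (fderiv ℝ g z.1)) mu)
    (hab : a ≠ b) :
    ∫ z : X, (w z).toReal * (f z.1 * g z.1) ∂mu = 0 := by
  have hGd := finite_sub hGO hOd
  have hR3 : ∀ n : ℕ, (3 : ℝ) ≤ (n : ℝ) + 3 := fun n => by
    have := Nat.cast_nonneg (α := ℝ) n
    linarith
  have hR0 : ∀ n : ℕ, (0 : ℝ) < (n : ℝ) + 3 := fun n => by linarith [hR3 n]
  have hη : ∀ n : ℕ, ContDiffOn ℝ 1 (cutH O hO (qR ((n : ℝ) + 3))) U := fun n =>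
    contDiffOn_cutH (hO := hO) hO1 (hR3 n) (fun u hu => qR_eq_one (hR0 n) hu) (contDiff_qR _)
  have hI := g3_integrable_mul hw hf hg n1 n2
  have l1 := g3_main (hO := hO) hO1 hw (e := fun z => f z * g z)
    (hf.continuousOn.mul hg.continuousOn) hI
  have l2 := g3_first (hO := hO) hO1 hw hf hg n1 m2
  have l3 := g3_first (hO := hO) hO1 hw hg hf n2 m1
  have key : ∀ n : ℕ, (a - b) * ∫ z : X, (w z).toReal *
        (cutH O hO (qR ((n : ℝ) + 3)) z.1 ^ 2 * (f z.1 * g z.1)) ∂mu =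
      (∫ z : X, (w z).toReal *
        (2 * cutH O hO (qR ((n : ℝ) + 3)) z.1 * (g z.1 * Bf z.1
          (fderiv ℝ (cutH O hO (qR ((n : ℝ) + 3))) z.1) (fderiv ℝ f z.1))) ∂mu) -
      ∫ z : X, (w z).toReal *
        (2 * cutH O hO (qR ((n : ℝ) + 3)) z.1 * (f z.1 * Bf z.1
          (fderiv ℝ (cutH O hO (qR ((n : ℝ) + 3))) z.1) (fderiv ℝ g z.1))) ∂mu := by
    intro n
    obtain ⟨h, hh, hcs, hs, h0, hP⟩ := exists_test hGO hGd hO1 hcov (hR3 n)
    have p1 := green_pair hGd hw hc hwc hh hcs hs (hη n) hP hf hg hg hg hfinv hginv hginv hginv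
      (p := b) (q := 0) (fun z hz => by rw [hlg z hz]; ring)
    have p2 := green_pair hGd hw hc hwc hh hcs hs (hη n) hP hg hf hf hf hginv hfinv hfinv hfinv
      (p := a) (q := 0) (fun z hz => by rw [hlf z hz]; ring)
    have eP : ∫ z : X, (w z).toReal *
          (cutH O hO (qR ((n : ℝ) + 3)) z.1 ^ 2 * (g z.1 * f z.1)) ∂mu =
        ∫ z : X, (w z).toReal *
          (cutH O hO (qR ((n : ℝ) + 3)) z.1 ^ 2 * (f z.1 * g z.1)) ∂mu := by
      refine integral_congr_ae (Filter.Eventually.of_forall fun z => ?_)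
      simp only
      ring
    have eB : ∫ z : X, (w z).toReal * (cutH O hO (qR ((n : ℝ) + 3)) z.1 ^ 2 *
          Bf z.1 (fderiv ℝ f z.1) (fderiv ℝ g z.1)) ∂mu =
        ∫ z : X, (w z).toReal * (cutH O hO (qR ((n : ℝ) + 3)) z.1 ^ 2 *
          Bf z.1 (fderiv ℝ g z.1) (fderiv ℝ f z.1)) ∂mu := by
      refine integral_congr_ae (Filter.Eventually.of_forall fun z => ?_)
      simp only
      rw [Bf_comm]
    rw [eP] at p2
    rw [eB] at p1
    linear_combination p1 - p2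
  have l4 : Tendsto (fun n : ℕ => (a - b) * ∫ z : X, (w z).toReal *
        (cutH O hO (qR ((n : ℝ) + 3)) z.1 ^ 2 * (f z.1 * g z.1)) ∂mu) atTop (𝓝 (0 - 0)) := by
    simp only [key]
    exact l3.sub l2
  have l5 := tendsto_nhds_unique (l1.const_mul (a - b)) l4
  rw [sub_zero] at l5
  exact (mul_eq_zero.1 l5).resolve_left (sub_ne_zero.2 hab)

end aux

lemma g3_cov {q : QD} (D : CD q) (G : Subgroup (Gam q)) [G.FiniteIndex] (R : ℝ) :
    ∃ K : Set (ℂ × ℂ), IsCompact K ∧ K ⊆ U ∧ ∀ z ∈ U,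
      (∀ γ : Gam q, height (act (mat γ.1) z) ≤ R) → ∃ γ : G, act (mat γ.1.1) z ∈ K := by
  have hfinq : Finite (Gam q ⧸ G) := Subgroup.finite_quotient_of_finiteIndex
  obtain ⟨K, hK, hKU, hKc⟩ := cover D R
  refine ⟨⋃ c : Gam q ⧸ G, act (mat ((c.out : Gam q)⁻¹).1) '' K,
    isCompact_iUnion fun c => hK.image_of_continuousOn fun z hz =>
      (contDiffAt_act _ (hKU hz)).continuousAt.continuousWithinAt, ?_, ?_⟩
  · rw [Set.iUnion_subset_iff]
    rintro c _ ⟨z, hz, rfl⟩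
    exact act_mem_U _ (hKU hz)
  · intro z hz hR
    obtain ⟨γ, hγ⟩ := hKc z hz hR
    obtain ⟨⟨c, δ⟩, rfl⟩ := (bijective_out G).2 γ
    refine ⟨δ, Set.mem_iUnion.2 ⟨c, _, hγ, ?_⟩⟩
    rw [act_act _ _ hz]
    have h3 : ((c.out : Gam q)⁻¹).1 * ((c.out : Gam q) * (δ : Gam q)).1 = (δ : Gam q).1 := by
      have h4 : (c.out : Gam q)⁻¹ * ((c.out : Gam q) * (δ : Gam q)) = δ := by group
      exact congrArg (fun g : Gam q => g.1) h4
    rw [h3]

/-- Integrability against the weight. -/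
lemma g3_int {q : QD} (D : CD q) (G : Subgroup (Gam q)) [G.FiniteIndex] {e : X → ℝ}
    {d : X → ℝ} (he0 : ∀ z, 0 ≤ e z) (hed : ∀ z, e z ≤ d z) (hm : Measurable e)
    (hfin : ∫⁻ z, wG D G z * ENNReal.ofReal (d z) ∂mu ≠ ⊤) :
    Integrable (fun z : X => (wG D G z).toReal * e z) mu := by
  have hm' : Measurable (fun z : X => (wG D G z).toReal * e z) :=
    (measurable_wG D G).ennreal_toReal.mul hm
  refine ⟨hm'.aestronglyMeasurable, ?_⟩
  rw [hasFiniteIntegral_iff_ofReal (Filter.Eventually.of_forall fun z =>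
    mul_nonneg ENNReal.toReal_nonneg (he0 z))]
  refine lt_of_le_of_lt (lintegral_mono fun z => ?_) hfin.lt_top
  rw [ENNReal.ofReal_mul ENNReal.toReal_nonneg, ENNReal.ofReal_toReal (wG_ne_top D G z)]
  exact mul_le_mul' le_rfl (ENNReal.ofReal_le_ofReal (hed z))

/-- Real version. Let `w = wG D G`, cut-off `η = cutH (OO q) star_mem (qR R)`, `R = n + 3 → ∞` (as in
`green_sub_aux` in `H56/Gen/GreenSub1.lean`, with `G.map (subtype)` as subgroup of `SU21`, `exists_test`,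
`hcov` from `cover` as in `green_level`). `green_pair` for `(f,g) = (g1,g2)`, eigenvalue `l2`, and
`(g2,g1)`, eigenvalue `l1` (`k = g`, `q = 0`), subtract:
`(l1 - l2) ∫ w η² g1 g2 + 2 ∫ w η (g1 Bf(dη,dg2) - g2 Bf(dη,dg1)) = 0`. The second integral is at most
`2 √C ∫_{TR R} w (|g1| |dg2| + |g2| |dg1|)` (`Bf_sq_le`, `normL_fderiv_cutH`), and tends to `0` because
`w g_i²` and `w normL (dg_i)` are integrable (energy finite by hypothesis) and `TR R` shrinks to the
empty set; `η → 1` boundedly. -/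
theorem real_orth {q : QD} (D : CD q) {G : Subgroup (Gam q)} [G.FiniteIndex]
    {g1 g2 : ℂ × ℂ → ℝ} {l1 l2 : ℝ}
    (h1 : ContDiffOn ℝ 2 g1 U) (h2 : ContDiffOn ℝ 2 g2 U)
    (i1 : ∀ γ : Gam q, γ ∈ G → ∀ z ∈ U, g1 (act (mat γ.1) z) = g1 z)
    (i2 : ∀ γ : Gam q, γ ∈ G → ∀ z ∈ U, g2 (act (mat γ.1) z) = g2 z)
    (e1 : ∀ z ∈ U, lapR g1 z = -(l1 * g1 z)) (e2 : ∀ z ∈ U, lapR g2 z = -(l2 * g2 z))
    (n1 : Integrable (fun z : X => (wG D G z).toReal * g1 z.1 ^ 2) mu)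
    (n2 : Integrable (fun z : X => (wG D G z).toReal * g2 z.1 ^ 2) mu)
    (m1 : Integrable (fun z : X => (wG D G z).toReal * normL z.1 (fderiv ℝ g1 z.1)) mu)
    (m2 : Integrable (fun z : X => (wG D G z).toReal * normL z.1 (fderiv ℝ g2 z.1)) mu)
    (hne : l1 ≠ l2) : ∫ z : X, (wG D G z).toReal * (g1 z.1 * g2 z.1) ∂mu = 0 := by
  let e : G ≃* G.map (Gam q).subtype :=
    G.equivMapOfInjective (Gam q).subtype Subtype.coe_injective
  have hGO : G.map (Gam q).subtype ≤ arith (OO q) star_mem := by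
    rintro _ ⟨γ, _, rfl⟩
    exact γ.2
  have hfinq : Finite (Gam q ⧸ G) := Subgroup.finite_quotient_of_finiteIndex
  refine g3_aux (hO := star_mem) (G := G.map (Gam q).subtype) hGO finite_ball one_le_norm ?_
    (measurable_wG D G) ENNReal.one_ne_top ?_ h1 h2 ?_ ?_ e1 e2 n1 n2 m1 m2 hne
  · intro R
    obtain ⟨K, hK, hKU, hKc⟩ := g3_cov D G R
    refine ⟨K, hK, hKU, fun z hz hR => ?_⟩
    obtain ⟨γ, hγ⟩ := hKc z hz hR
    exact ⟨e γ, hγ⟩
  · refine Filter.Eventually.of_forall fun z => ?_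
    rw [← e.toEquiv.tsum_eq, ← sum_wG D G z]
    rfl
  · rintro ⟨_, γ, hγ, rfl⟩ z hz
    exact i1 γ hγ z hz
  · rintro ⟨_, γ, hγ, rfl⟩ z hz
    exact i2 γ hγ z hz

/-- Integrability of the squares and of the energies. -/
lemma g3_good {q : QD} {D : CD q} {G : Subgroup (Gam q)} [G.FiniteIndex]
    {f : ℂ × ℂ → ℂ} {l : ℝ} (h : Good D G f l) (hne : ∃ z ∈ U, f z ≠ 0) :
    Integrable (fun z : X => (wG D G z).toReal * (f z.1).re ^ 2) mu ∧
    Integrable (fun z : X => (wG D G z).toReal * (f z.1).im ^ 2) mu ∧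
    Integrable (fun z : X => (wG D G z).toReal *
      normL z.1 (fderiv ℝ (fun z => (f z).re) z.1)) mu ∧
    Integrable (fun z : X => (wG D G z).toReal *
      normL z.1 (fderiv ℝ (fun z => (f z).im) z.1)) mu := by
  have hfc : ContinuousOn f U := h.smooth.continuousOn
  have hf1 : ContDiffOn ℝ 1 (fun z => (f z).re) U :=
    (Complex.reCLM.contDiff.comp_contDiffOn h.smooth).of_le (by norm_num)
  have hf2 : ContDiffOn ℝ 1 (fun z => (f z).im) U :=
    (Complex.imCLM.contDiff.comp_contDiffOn h.smooth).of_le (by norm_num)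
  have hinv' : ∀ γ : G, ∀ z ∈ U, f (act (mat γ.1.1) z) = f z := fun γ z hz =>
    h.inv γ.1 γ.2 z hz
  have key := (green_sub (hO := star_mem (q := q)) finite_ball one_le_norm (G := G) (g3_cov D G)
    (measurable_wG D G) one_ne_zero ENNReal.one_ne_top
    (Filter.Eventually.of_forall (sum_wG D G)) h.smooth hinv' h.eig h.L2 hne).2
  have hfin : ∫⁻ z, wG D G z * ENNReal.ofReal (energy (fun z => (f z).re) z.1 +
        energy (fun z => (f z).im) z.1) ∂mu ≠ ⊤ :=
    ne_top_of_le_ne_top (ENNReal.mul_ne_top ENNReal.ofReal_ne_top h.L2) key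
  have c1 : Measurable fun z : X => (f z.1).re ^ 2 :=
    ((Complex.continuous_re.comp (continuousOn_iff_continuous_domRestrict.mp hfc)).pow 2).measurable
  have c2 : Measurable fun z : X => (f z.1).im ^ 2 :=
    ((Complex.continuous_im.comp (continuousOn_iff_continuous_domRestrict.mp hfc)).pow 2).measurable
  have c3 : Measurable fun z : X => normL z.1 (fderiv ℝ (fun z => (f z).re) z.1) :=
    (continuous_restrict (φ := fun z => normL z (fderiv ℝ (fun z => (f z).re) z))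
      (continuousOn_normL hf1)).measurable
  have c4 : Measurable fun z : X => normL z.1 (fderiv ℝ (fun z => (f z).im) z.1) :=
    (continuous_restrict (φ := fun z => normL z (fderiv ℝ (fun z => (f z).im) z))
      (continuousOn_normL hf2)).measurable
  have e1 : ∀ z : X, 0 ≤ energy (fun z => (f z).re) z.1 := fun z => normL_nonneg z.2.le _
  have e2 : ∀ z : X, 0 ≤ energy (fun z => (f z).im) z.1 := fun z => normL_nonneg z.2.le _
  refine ⟨g3_int D G (fun z => sq_nonneg _) (fun z => ?_) c1 h.L2,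
    g3_int D G (fun z => sq_nonneg _) (fun z => ?_) c2 h.L2,
    g3_int D G (fun z => normL_nonneg z.2.le _) (fun z => ?_) c3 hfin,
    g3_int D G (fun z => normL_nonneg z.2.le _) (fun z => ?_) c4 hfin⟩
  · rw [Complex.normSq_apply]
    nlinarith [sq_nonneg (f z.1).im]
  · rw [Complex.normSq_apply]
    nlinarith [sq_nonneg (f z.1).re]
  · have := e2 z
    change energy (fun z => (f z).re) z.1 ≤ _
    linarith
  · have := e1 z
    change energy (fun z => (f z).im) z.1 ≤ _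
    linarith

/-- Apply `real_orth` to the four pairs of real and imaginary parts (`lapR_comp`); the energies are
finite by `green_sub`/`energy_level` (`∫ wG energy ≤ lam ∫ wG |f|²`; if `f = 0` on `U` trivial); the
integral against `rho` is `integral_withDensity_eq_integral_toReal_smul`. -/
theorem Good_orth {q : QD} {D : CD q} {G : Subgroup (Gam q)} [G.FiniteIndex]
    {f1 f2 : ℂ × ℂ → ℂ} {l1 l2 : ℝ}
    (h1 : Good D G f1 l1) (h2 : Good D G f2 l2) (hne : l1 ≠ l2) :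
    ∫ z : X, star (f1 z.1) * f2 z.1 ∂(rho D G) = 0 := by
  by_cases hn1 : ∃ z ∈ U, f1 z ≠ 0
  swap
  · push Not at hn1
    refine (integral_congr_ae (Filter.Eventually.of_forall fun z => ?_)).trans
      (integral_zero X ℂ)
    rw [hn1 z.1 z.2]
    simp
  by_cases hn2 : ∃ z ∈ U, f2 z ≠ 0
  swap
  · push Not at hn2
    refine (integral_congr_ae (Filter.Eventually.of_forall fun z => ?_)).trans
      (integral_zero X ℂ)
    rw [hn2 z.1 z.2]
    simp
  obtain ⟨a1, a2, a3, a4⟩ := g3_good h1 hn1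
  obtain ⟨b1, b2, b3, b4⟩ := g3_good h2 hn2
  have r1 : ContDiffOn ℝ 2 (fun z => (f1 z).re) U := Complex.reCLM.contDiff.comp_contDiffOn h1.smooth
  have s1 : ContDiffOn ℝ 2 (fun z => (f1 z).im) U := Complex.imCLM.contDiff.comp_contDiffOn h1.smooth
  have r2 : ContDiffOn ℝ 2 (fun z => (f2 z).re) U := Complex.reCLM.contDiff.comp_contDiffOn h2.smooth
  have s2 : ContDiffOn ℝ 2 (fun z => (f2 z).im) U := Complex.imCLM.contDiff.comp_contDiffOn h2.smooth
  have lre : ∀ {f : ℂ × ℂ → ℂ} {l : ℝ}, Good D G f l → ∀ z ∈ U,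
      lapR (fun z => (f z).re) z = -(l * (f z).re) := by
    intro f l h z hz
    have h3 := lapR_comp Complex.reCLM h.smooth hz
    rw [h.eig z hz] at h3
    have h4 : lapR (fun z => (f z).re) z = Complex.reCLM (-((l : ℂ) * f z)) := h3
    rw [h4]
    simp
  have lim : ∀ {f : ℂ × ℂ → ℂ} {l : ℝ}, Good D G f l → ∀ z ∈ U,
      lapR (fun z => (f z).im) z = -(l * (f z).im) := by
    intro f l h z hz
    have h3 := lapR_comp Complex.imCLM h.smooth hz
    rw [h.eig z hz] at h3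
    have h4 : lapR (fun z => (f z).im) z = Complex.imCLM (-((l : ℂ) * f z)) := h3
    rw [h4]
    simp
  have ire : ∀ {f : ℂ × ℂ → ℂ} {l : ℝ}, Good D G f l → ∀ γ : Gam q, γ ∈ G → ∀ z ∈ U,
      (fun z => (f z).re) (act (mat γ.1) z) = (fun z => (f z).re) z := by
    intro f l h γ hγ z hz
    simp only [h.inv γ hγ z hz]
  have iim : ∀ {f : ℂ × ℂ → ℂ} {l : ℝ}, Good D G f l → ∀ γ : Gam q, γ ∈ G → ∀ z ∈ U,
      (fun z => (f z).im) (act (mat γ.1) z) = (fun z => (f z).im) z := by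
    intro f l h γ hγ z hz
    simp only [h.inv γ hγ z hz]
  have k1 := real_orth D r1 r2 (ire h1) (ire h2) (lre h1) (lre h2) a1 b1 a3 b3 hne
  have k2 := real_orth D r1 s2 (ire h1) (iim h2) (lre h1) (lim h2) a1 b2 a3 b4 hne
  have k3 := real_orth D s1 r2 (iim h1) (ire h2) (lim h1) (lre h2) a2 b1 a4 b3 hne
  have k4 := real_orth D s1 s2 (iim h1) (iim h2) (lim h1) (lim h2) a2 b2 a4 b4 hne
  have j1 := g3_integrable_mul (measurable_wG D G) r1 r2 a1 b1
  have j2 := g3_integrable_mul (measurable_wG D G) r1 s2 a1 b2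
  have j3 := g3_integrable_mul (measurable_wG D G) s1 r2 a2 b1
  have j4 := g3_integrable_mul (measurable_wG D G) s1 s2 a2 b2
  rw [rho, integral_withDensity_eq_integral_toReal_smul (measurable_wG D G)
    (Filter.Eventually.of_forall fun z => lt_top_iff_ne_top.2 (wG_ne_top D G z))]
  have h5 : (fun z : X => (wG D G z).toReal • (star (f1 z.1) * f2 z.1)) = fun z : X =>
      ((((wG D G z).toReal * ((f1 z.1).re * (f2 z.1).re) : ℝ) : ℂ) +
        (((wG D G z).toReal * ((f1 z.1).im * (f2 z.1).im) : ℝ) : ℂ)) +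
      ((((wG D G z).toReal * ((f1 z.1).re * (f2 z.1).im) : ℝ) : ℂ) -
        (((wG D G z).toReal * ((f1 z.1).im * (f2 z.1).re) : ℝ) : ℂ)) * Complex.I := by
    funext z
    apply Complex.ext
    · simp
      ring
    · simp
      ring
  have p1 : Integrable (fun z : X =>
      (((wG D G z).toReal * ((f1 z.1).re * (f2 z.1).re) : ℝ) : ℂ)) mu := j1.ofReal
  have p2 : Integrable (fun z : X =>
      (((wG D G z).toReal * ((f1 z.1).re * (f2 z.1).im) : ℝ) : ℂ)) mu := j2.ofReal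
  have p3 : Integrable (fun z : X =>
      (((wG D G z).toReal * ((f1 z.1).im * (f2 z.1).re) : ℝ) : ℂ)) mu := j3.ofReal
  have p4 : Integrable (fun z : X =>
      (((wG D G z).toReal * ((f1 z.1).im * (f2 z.1).im) : ℝ) : ℂ)) mu := j4.ofReal
  have p5 : Integrable (fun z : X =>
      (((wG D G z).toReal * ((f1 z.1).re * (f2 z.1).re) : ℝ) : ℂ) +
      (((wG D G z).toReal * ((f1 z.1).im * (f2 z.1).im) : ℝ) : ℂ)) mu := p1.add p4
  have p6 : Integrable (fun z : X =>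
      ((((wG D G z).toReal * ((f1 z.1).re * (f2 z.1).im) : ℝ) : ℂ) -
      (((wG D G z).toReal * ((f1 z.1).im * (f2 z.1).re) : ℝ) : ℂ)) * Complex.I) mu :=
    (p2.sub p3).mul_const _
  rw [h5, integral_add p5 p6, integral_add p1 p4,
    integral_mul_const, integral_sub p2 p3, integral_complex_ofReal, integral_complex_ofReal,
    integral_complex_ofReal, integral_complex_ofReal]
  rw [k1, k2, k3, k4]
  simp

end

end Pool.Agent.Lib.H56D
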