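import Pool.Agent.Lib.H56D.O5

/-!
# G4: invariant functions vanishing almost everywhere for the weight vanish
-/

namespace Pool.Agent.Lib.H56D

open Matrix hiding J
open MeasureTheory Topology Filter
open Pool.Agent.Lib.H56.Picard hiding O Gam mem_Gam star_mem_O T_mem sg_mem
open Pool.Agent.Lib.H56.Gen
open scoped ENNReal

noncomputable section

/-- `wG |F|² = 0` `mu`-almost everywhere; unfolding (`unfold_lintegral` with `w = wG D G`, `c = 1`,
`Φ = |F|²` invariant under `G`): `∫ |F|² dμ = ∫ wG ∑_γ |F|² = 0` (the product `wG · ∑_γ |F|²` is `0`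
where `wG |F|² = 0`), so `F = 0` a.e. and everywhere by continuity (see `hNpos` in
`green_sub_aux`). -/
theorem ae_zero {q : QD} {D : CD q} {G : Subgroup (Gam q)} [G.FiniteIndex] {F : ℂ × ℂ → ℂ}
    (hF : ContinuousOn F U)
    (hinv : ∀ γ : Gam q, γ ∈ G → ∀ z ∈ U, F (act (mat γ.1) z) = F z)
    (h : (fun z : X => F z.1) =ᵐ[rho D G] 0) : ∀ z ∈ U, F z = 0 := by
  have hc : Continuous fun z : X => Complex.normSq (F z.1) :=
    Complex.continuous_normSq.comp (continuousOn_iff_continuous_domRestrict.mp hF)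
  have hm : Measurable fun z : X => ENNReal.ofReal (Complex.normSq (F z.1)) :=
    (ENNReal.continuous_ofReal.comp hc).measurable
  have hcountA : Countable (Gam q) := countable_arith finite_ball
  have hcountG : Countable G := inferInstance
  have h0 : ∀ᵐ z : X ∂mu, wG D G z ≠ 0 → F z.1 = 0 :=
    (ae_withDensity_iff (measurable_wG D G)).1 h
  have h1 := unfold_lintegral (G := G) (measurable_wG D G) (c := 1)
    (Filter.Eventually.of_forall (sum_wG D G)) hm
  rw [one_mul] at h1
  have h2 : ∫⁻ z, wG D G z * ∑' γ : G,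
      ENNReal.ofReal (Complex.normSq (F (γ • z : X).1)) ∂mu = 0 := by
    have h3 : ∀ z : X, ∀ γ : G, ENNReal.ofReal (Complex.normSq (F (γ • z : X).1)) =
        ENNReal.ofReal (Complex.normSq (F z.1)) := by
      intro z γ
      have h4 : (γ • z : X).1 = act (mat γ.1.1) z.1 := rfl
      rw [h4, hinv γ.1 γ.2 z.1 z.2]
    simp only [h3]
    refine (lintegral_congr_ae ?_).trans lintegral_zero
    filter_upwards [h0] with z hz
    by_cases hw : wG D G z = 0
    · rw [hw, zero_mul]
    · rw [hz hw]
      simp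
  rw [h2] at h1
  have h5 : (fun z : X => Complex.normSq (F z.1)) =ᵐ[mu] fun _ => 0 := by
    rw [lintegral_eq_zero_iff hm] at h1
    filter_upwards [h1] with z hz
    have h8 : Complex.normSq (F z.1) ≤ 0 := ENNReal.ofReal_eq_zero.mp hz
    exact le_antisymm h8 (Complex.normSq_nonneg _)
  have h6 := (Continuous.ae_eq_iff_eq mu hc continuous_const).mp h5
  intro z hz
  have h7 := congrFun h6 (⟨z, hz⟩ : X)
  exact Complex.normSq_eq_zero.1 h7

end

end Pool.Agent.Lib.H56D
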