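import Pool.Agent.Lib.H56D.G1
import Pool.Agent.Lib.H56D.G3
import Pool.Agent.Lib.H56D.G4

/-!
# G5: orthonormal families of eigenfunctions
-/

namespace Pool.Agent.Lib.H56D

open Matrix hiding J
open MeasureTheory Topology Filter
open Pool.Agent.Lib.H56.Picard hiding O Gam mem_Gam star_mem_O T_mem sg_mem
open Pool.Agent.Lib.H56.Gen
open scoped ENNReal

noncomputable section

/-- Each `f i` is nonzero somewhere on `U` (`hli`), so `Good D G (f i) (lam i).re` and `0 ≤ (lam i).re`
(`Good_of_Eig`). `exists_orthonormal (rho D G)` with labels `(lam i).re`: `Good_memLp`, `Good_orth`, and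
linear independence from `ae_zero`. Put `e i = ∑_k c i k f_k`; `Good_sum` with `lam = (lam i).re`. -/
theorem exists_onb {q : QD} {D : CD q} {G : Subgroup (Gam q)} [G.FiniteIndex] {ν : ℝ} {m : ℕ}
    {f : Fin m → ℂ × ℂ → ℂ} {lam : Fin m → ℂ} (h : ∀ i, Eig D G (f i) (lam i))
    (hν : ∀ i, (lam i).re ≤ 1 - ν ^ 2)
    (hli : ∀ c : Fin m → ℂ, (∀ z ∈ U, ∑ i, c i * f i z = 0) → c = 0) :
    ∃ (e : Fin m → ℂ × ℂ → ℂ) (l : Fin m → ℝ), (∀ i, Good D G (e i) (l i)) ∧
      (∀ i, 0 ≤ l i ∧ l i ≤ 1 - ν ^ 2) ∧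
      ∀ i j, ∫ z : X, star (e i z.1) * e j z.1 ∂(rho D G) = if i = j then 1 else 0 := by
  classical
  have hne : ∀ i, ∃ z ∈ U, f i z ≠ 0 := by
    intro i
    by_contra hcon
    push Not at hcon
    have h1 := hli (Pi.single i 1) (by
      intro z hz
      rw [Finset.sum_eq_single i]
      · rw [hcon z hz, mul_zero]
      · intro j _ hj
        rw [Pi.single_eq_of_ne hj, zero_mul]
      · intro hi
        exact absurd (Finset.mem_univ i) hi)
    have h2 := congrFun h1 i
    rw [Pi.single_eq_same] at h2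
    exact one_ne_zero h2
  have hgood : ∀ i, Good D G (f i) (lam i).re ∧ 0 ≤ (lam i).re := fun i =>
    Good_of_Eig (h i) (hne i)
  obtain ⟨c, hc, hon⟩ := exists_orthonormal (rho D G) (fun i (z : X) => f i z.1)
    (fun i => Good_memLp (hgood i).1) (by
      intro c hc
      apply hli c
      refine ae_zero (D := D) (G := G) (F := fun z => ∑ i, c i * f i z) ?_ ?_ hc
      · exact continuousOn_finsetSum _ fun i _ =>
          continuousOn_const.mul (h i).smooth.continuousOn
      · intro γ hγ z hz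
        exact Finset.sum_congr rfl fun i _ => by rw [(h i).inv γ hγ z hz])
    (fun i => (lam i).re) (fun i j hij => Good_orth (hgood i).1 (hgood j).1 hij)
  refine ⟨fun i z => ∑ k, c i k * f k z, fun i => (lam i).re, ?_, ?_, hon⟩
  · intro i
    refine Good_sum fun k hk => ?_
    have h1 : (lam k).re = (lam i).re := hc i k hk
    show Good D G (f k) (lam i).re
    rw [← h1]
    exact (hgood k).1
  · intro i
    exact ⟨(hgood i).2, hν i⟩

end

end Pool.Agent.Lib.H56D
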