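import Pool.Agent.Lib.H56D.Gen
import Pool.Agent.Lib.H56C.KG3

/-!
# H56D, Geo: closed manifolds, for a general class of multiplicities (see `H56C.GC`, `H56C.KG3`)
-/

set_option autoImplicit false

open scoped ContDiff Topology Manifold
open Set

namespace H56D

open H31R H79G H60E H30K H56C
open Pool.Agent.H69Hopf (Arr IsAlgCurv ev area2)

/-- the eigenvalues of `b` with respect to `G` belong to the class -/
def AtA (A : (N : ℕ) → (Fin N → ℝ) → Prop) {d : ℕ} (G b : Matrix (Fin d) (Fin d) ℝ) : Prop :=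
  ∃ (E : Matrix (Fin d) (Fin d) ℝ) (β : Fin d → ℝ), E.transpose * G * E = 1 ∧ E.transpose * b * E = Matrix.diagonal β ∧ A d β

/-- density of the class -/
def DenseA (A : (N : ℕ) → (Fin N → ℝ) → Prop) {d : ℕ} {M : Type} [TopologicalSpace M] [ChartedSpace (EE d) M] (g : Ch.Metric d M) : Prop :=
  ∀ p : M, ∀ V : Set (EE d), V ⊆ (chartAt (EE d) p).target → IsOpen V → V.Nonempty →
    ∃ U : Set (EE d), U ⊆ V ∧ IsOpen U ∧ U.Nonempty ∧ ∃ b : EE d → Matrix (Fin d) (Fin d) ℝ,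
      IsCodazzi (g.mat p) U b ∧ ((∃ y ∈ U, AtA A (g.mat p y) (b y)) ∨ ∀ y ∈ U, TwoAt (g.mat p y) (b y))

variable {A : (N : ℕ) → (Fin N → ℝ) → Prop}

theorem GA_pt {n : ℕ} (hP : PTA A n) {U : Set (EE (2 * n))} {G b : EE (2 * n) → Mt (2 * n)} (h : MetOn U G) (hc : IsCodazzi G U b) {c : ℝ} (hc0 : 0 ≤ c)
    (hK : ∀ y ∈ U, ∀ E : Mt (2 * n), E.transpose * G y * E = 1 → KB (N := 2 * n) c (frR (riem G y) E)) {y : EE (2 * n)} (hy : y ∈ U)
    (hA : AtA A (G y) (b y)) : c ^ n ≤ (-1) ^ n * pfn G y := by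
  obtain ⟨E, β, hE, hβ, hG⟩ := hA
  have hA1 : IsAlgCurv (N := 2 * n) (riem G y) := riem_algCurv h hy
  have hA2 : IsAlgCurv (N := 2 * n) (frR (riem G y) E) := frR_algCurv hA1 E
  have h1 := hP (frR (riem G y) E) hA2 β (G2_cyc h hc hy hE hβ) hG c hc0 (hK y hy E hE)
  have h4 : (0 : ℝ) < 4 ^ n * n.factorial := by positivity
  rw [GA_pf h hy hE, ← mul_div_assoc, le_div_iff₀ h4, mul_comm]
  exact h1

theorem GA_loc {n : ℕ} (hP : PTA A n) (h1A : ∀ β : Fin (2 * n) → ℝ, H56C.Adm β → A (2 * n) β) {U : Set (EE (2 * n))} {G b : EE (2 * n) → Mt (2 * n)} (h : MetOn U G) (hc : IsCodazzi G U b) {c : ℝ} (hc0 : 0 ≤ c)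
    (hK : ∀ y ∈ U, ∀ E : Mt (2 * n), E.transpose * G y * E = 1 → KB (N := 2 * n) c (frR (riem G y) E)) (hU : U.Nonempty)
    (hA : (∃ y ∈ U, AtA A (G y) (b y)) ∨ ∀ y ∈ U, TwoAt (G y) (b y)) : ∃ y ∈ U, c ^ n ≤ (-1) ^ n * pfn G y := by
  rcases hA with ⟨y, hy, hAy⟩ | hT
  · exact ⟨y, hy, GA_pt hP h hc hc0 hK hy hAy⟩
  · by_cases hone : ∃ y ∈ U, ∃ (E : Mt (2 * n)) (β : Fin (2 * n) → ℝ), E.transpose * G y * E = 1 ∧
        E.transpose * b y * E = Matrix.diagonal β ∧ ∃ i, cl β i ≤ 1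
    · obtain ⟨y, hy, E, β, hE, hβ, i, hi⟩ := hone
      have h1 := KG1 (hT y hy) hE hβ
      exact ⟨y, hy, GA_pt hP h hc hc0 hK hy ⟨E, β, hE, hβ, h1A _ (KG1_adm h1.1 h1.2 hi)⟩⟩
    · have ht : D.TwoOn U G b := by
        intro y hy E β hE hβ
        have h1 := KG1 (hT y hy) hE hβ
        refine KG1_two h1.1 fun i => ?_
        by_contra hlt
        exact hone ⟨y, hy, E, β, hE, hβ, i, by omega⟩
      obtain ⟨x, hx⟩ := hU
      exact ⟨x, hx, KG2 h hc ht hx (fun E β hE hβ => (KG1 (hT x hx) hE hβ).2) hc0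
        (fun E hE => hK x hx E hE)⟩

theorem GA_dense {n : ℕ} (hP : PTA A n) (h1A : ∀ β : Fin (2 * n) → ℝ, H56C.Adm β → A (2 * n) β) {M : Type} [TopologicalSpace M] [ChartedSpace (EE (2 * n)) M] {g : Ch.Metric (2 * n) M} (hD : DenseA A g) (p : M)
    {W : Set (EE (2 * n))} (hW : IsOpen W) (hWt : W ⊆ (chartAt (EE (2 * n)) p).target) {c : ℝ} (hc0 : 0 ≤ c)
    (hK : ∀ y ∈ W, ∀ E : Mt (2 * n), E.transpose * g.mat p y * E = 1 → KB (N := 2 * n) c (frR (riem (g.mat p) y) E))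
    {y : EE (2 * n)} (hy : y ∈ W) : c ^ n ≤ (-1) ^ n * pfn (g.mat p) y := by
  have hM : MetOn W (g.mat p) := gc_mono (metOn g p) hW hWt
  have hcl : y ∈ closure {z | z ∈ W ∧ c ^ n ≤ (-1) ^ n * pfn (g.mat p) z} := by
    rw [mem_closure_iff]
    intro O hO hyO
    obtain ⟨U, hUV, hU, hUne, b, hb, hA⟩ := hD p (O ∩ W) (fun z hz => hWt hz.2) (hO.inter hW) ⟨y, hyO, hy⟩
    have hUW : U ⊆ W := fun z hz => (hUV hz).2
    obtain ⟨z, hz, hzc⟩ := GA_loc hP h1A (gc_mono hM hU hUW) hb hc0 (fun w hw => hK w (hUW hw)) hUne hA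
    exact ⟨z, (hUV hz).1, hUW hz, hzc⟩
  have h1 : ContinuousWithinAt (fun z => (-1) ^ n * pfn (g.mat p) z) {z | z ∈ W ∧ c ^ n ≤ (-1) ^ n * pfn (g.mat p) z} y :=
    ((GA_cont hM y hy).mono fun z hz => hz.1).const_mul _
  exact continuousWithinAt_const.closure_le hcl h1 fun z hz => hz.2

theorem GA_main {n : ℕ} (hn : 1 ≤ n) (hP : PTA A n) (h1A : ∀ β : Fin (2 * n) → ℝ, H56C.Adm β → A (2 * n) β) (M : Closed (2 * n)) (g : Ch.Metric (2 * n) M.carrier) (hK : SecNonpos g) (hD : DenseA A g) :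
    ∃ χ : ℤ, IsEulerCharacteristic (2 * n) M.carrier χ ∧ 0 ≤ (-1) ^ n * χ ∧ ((∃ m : M.carrier, NegAt g m) → 0 < (-1) ^ n * χ) := by
  have hK4 : (0 : ℝ) < 4 ^ n * n.factorial := by positivity
  have hpt : ∀ p : M.carrier, ∀ y ∈ (chartAt (EE (2 * n)) p).target, ∀ E : Mt (2 * n),
      E.transpose * g.mat p y * E = 1 →
      0 ≤ ((-1) ^ n : ℝ) * Pool.Agent.H69Hopf.gaussBonnet n (frameR (riem (g.mat p) y) E) := by
    intro p y hy E hE
    have h1 := GA_dense hP h1A hD p (chartAt (EE (2 * n)) p).open_target subset_rfl le_rfl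
      (fun z hz E _ => GB_nonpos hK p hz E) hy
    rw [GA_pf (metOn g p) hy hE, ← mul_div_assoc, le_div_iff₀ hK4, zero_pow (by omega), zero_mul] at h1
    exact h1
  obtain ⟨χ, h1, h2, h3⟩ := sign_principle n M g ((-1) ^ n) hpt
  refine ⟨χ, h1, ?_, ?_⟩
  · exact_mod_cast h2
  · rintro ⟨m, hm⟩
    have h4 : 0 < ((-1) ^ n : ℝ) * χ := by
      refine h3 ⟨m, fun E hE => ?_⟩
      obtain ⟨c, hc, W, hWt, hW, hmW, hKW⟩ :=
        GB_neg (by omega) (metOn g m) (mem_chart_target (EE (2 * n)) m) hm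
      have h5 := GA_dense hP h1A hD m hW hWt hc.le hKW hmW
      rw [GA_pf (metOn g m) (mem_chart_target (EE (2 * n)) m) hE, ← mul_div_assoc, le_div_iff₀ hK4] at h5
      have h6 : 0 < c ^ n * (4 ^ n * n.factorial) := mul_pos (pow_pos hc n) hK4
      exact lt_of_lt_of_le h6 h5
    exact_mod_cast h4

end H56D
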