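import Mathlib

/-!
# H1: the one dimensional Hardy inequality with a boundary layer
-/

namespace Pool.Agent.Lib.H56D

open MeasureTheory
open scoped ENNReal

noncomputable section

private lemma H1_der {φ : ℝ → ℝ} (hφ : ContDiffOn ℝ 1 φ (Set.Ioi 0)) {u : ℝ} (hu : 0 < u) :
    HasDerivAt φ (deriv φ u) u := by
  have h1 : DifferentiableOn ℝ φ (Set.Ioi 0) := hφ.differentiableOn (by norm_num)
  exact (h1.differentiableAt (Ioi_mem_nhds hu)).hasDerivAt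

private lemma H1_cder {φ : ℝ → ℝ} (hφ : ContDiffOn ℝ 1 φ (Set.Ioi 0)) :
    ContinuousOn (deriv φ) (Set.Ioi 0) :=
  hφ.continuousOn_deriv_of_isOpen isOpen_Ioi le_rfl

private lemma H1_ic {f : ℝ → ℝ} (hf : ContinuousOn f (Set.Ioi 0)) {a b : ℝ} (ha : 0 < a)
    (hab : a ≤ b) : IntervalIntegrable f volume a b := by
  apply ContinuousOn.intervalIntegrable
  rw [Set.uIcc_of_le hab]
  exact hf.mono (fun x hx => lt_of_lt_of_le ha hx.1)

private lemma H1_inv (k : ℕ) : ContinuousOn (fun u : ℝ => u⁻¹ ^ k) (Set.Ioi 0) :=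
  (continuousOn_inv₀.mono (fun x (hx : (0 : ℝ) < x) => ne_of_gt hx)).pow k

private lemma H1_ofReal {f : ℝ → ℝ} (hf : ContinuousOn f (Set.Ioi 0)) (h0 : ∀ u, 0 < u → 0 ≤ f u)
    {a b : ℝ} (ha : 0 < a) (hab : a ≤ b) :
    ∫⁻ u in Set.Ioc a b, ENNReal.ofReal (f u) = ENNReal.ofReal (∫ u in a..b, f u) := by
  rw [intervalIntegral.integral_of_le hab]
  rw [ofReal_integral_eq_lintegral_ofReal]
  · exact (intervalIntegrable_iff_integrableOn_Ioc_of_le hab).1 (H1_ic hf ha hab)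
  · refine (ae_restrict_iff' measurableSet_Ioc).2 (Filter.Eventually.of_forall fun u hu => ?_)
    exact h0 u (lt_trans ha hu.1)

private lemma H1_real {φ : ℝ → ℝ} (hφ : ContDiffOn ℝ 1 φ (Set.Ioi 0)) {h R : ℝ} (hh : 0 < h)
    (hR : 2 * h ≤ R) :
    ∫ u in (2 * h)..R, u⁻¹ ^ 3 * φ u ^ 2 ≤
      (∫ u in h..R, u⁻¹ * deriv φ u ^ 2) + 2 * ∫ u in h..(2 * h), u⁻¹ ^ 3 * φ u ^ 2 := by
  have cφ : ContinuousOn φ (Set.Ioi 0) := hφ.continuousOn
  have cd := H1_cder hφ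
  have c3 : ContinuousOn (fun u : ℝ => u⁻¹ ^ 3 * φ u ^ 2) (Set.Ioi 0) :=
    (H1_inv 3).mul (cφ.pow 2)
  have c1 : ContinuousOn (fun u : ℝ => u⁻¹ * deriv φ u ^ 2) (Set.Ioi 0) := by
    have := (H1_inv 1).mul (cd.pow 2)
    simp only [pow_one] at this
    exact this
  have c2 : ContinuousOn (fun u : ℝ => 2 * (u⁻¹ ^ 2 * φ u * deriv φ u)) (Set.Ioi 0) :=
    continuousOn_const.mul (((H1_inv 2).mul cφ).mul cd)
  have key : ∀ a ∈ Set.Icc h (2 * h), (∫ u in (2 * h)..R, u⁻¹ ^ 3 * φ u ^ 2) -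
      (∫ u in h..R, u⁻¹ * deriv φ u ^ 2) ≤ 2 * h * (a⁻¹ ^ 3 * φ a ^ 2) := by
    intro a ha
    have ha0 : 0 < a := lt_of_lt_of_le hh ha.1
    have haR : a ≤ R := ha.2.trans hR
    -- integrate the derivative of u⁻² φ²
    have hder : ∀ u ∈ Set.uIcc a R, HasDerivAt (fun u : ℝ => u⁻¹ ^ 2 * φ u ^ 2)
        (2 * (u⁻¹ ^ 2 * φ u * deriv φ u) - 2 * (u⁻¹ ^ 3 * φ u ^ 2)) u := by
      intro u hu
      rw [Set.uIcc_of_le haR] at hu
      have hu0 : 0 < u := lt_of_lt_of_le ha0 hu.1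
      have e1 := ((hasDerivAt_inv (ne_of_gt hu0)).pow 2).mul ((H1_der hφ hu0).pow 2)
      refine e1.congr_deriv ?_
      simp only [Nat.cast_ofNat, Pi.pow_apply]
      have hne : u ≠ 0 := ne_of_gt hu0
      simp only [inv_pow]
      field_simp
      ring
    have ci1 : IntervalIntegrable (fun u : ℝ => 2 * (u⁻¹ ^ 2 * φ u * deriv φ u)) volume a R :=
      H1_ic c2 ha0 haR
    have ci2 : IntervalIntegrable (fun u : ℝ => 2 * (u⁻¹ ^ 3 * φ u ^ 2)) volume a R :=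
      (H1_ic c3 ha0 haR).const_mul 2
    have hint := intervalIntegral.integral_eq_sub_of_hasDerivAt hder (ci1.sub ci2)
    rw [intervalIntegral.integral_sub ci1 ci2] at hint
    -- the square
    have hsq : (∫ u in a..R, 2 * (u⁻¹ ^ 2 * φ u * deriv φ u)) - (∫ u in a..R, u⁻¹ ^ 3 * φ u ^ 2) ≤
        ∫ u in a..R, u⁻¹ * deriv φ u ^ 2 := by
      rw [← intervalIntegral.integral_sub ci1 (H1_ic c3 ha0 haR)]
      refine intervalIntegral.integral_mono_on haR (ci1.sub (H1_ic c3 ha0 haR))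
        (H1_ic c1 ha0 haR) ?_
      intro u hu
      have hu0 : 0 < u := lt_of_lt_of_le ha0 hu.1
      have hi : 0 < u⁻¹ := inv_pos.2 hu0
      nlinarith [mul_nonneg hi.le (sq_nonneg (deriv φ u - u⁻¹ * φ u))]
    have h2 : (∫ u in a..R, 2 * (u⁻¹ ^ 3 * φ u ^ 2)) = 2 * ∫ u in a..R, u⁻¹ ^ 3 * φ u ^ 2 :=
      intervalIntegral.integral_const_mul _ _
    have h3 : (∫ u in (2 * h)..R, u⁻¹ ^ 3 * φ u ^ 2) ≤ ∫ u in a..R, u⁻¹ ^ 3 * φ u ^ 2 := by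
      have e := intervalIntegral.integral_add_adjacent_intervals (H1_ic c3 ha0 ha.2)
        (H1_ic c3 (by linarith : (0 : ℝ) < 2 * h) hR)
      rw [← e]
      have : 0 ≤ ∫ u in a..(2 * h), u⁻¹ ^ 3 * φ u ^ 2 := by
        refine intervalIntegral.integral_nonneg ha.2 fun u hu => ?_
        have hu0 : 0 < u := lt_of_lt_of_le ha0 hu.1
        positivity
      linarith
    have h4 : (∫ u in a..R, u⁻¹ * deriv φ u ^ 2) ≤ ∫ u in h..R, u⁻¹ * deriv φ u ^ 2 := by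
      have e := intervalIntegral.integral_add_adjacent_intervals (H1_ic c1 hh ha.1)
        (H1_ic c1 ha0 haR)
      rw [← e]
      have : 0 ≤ ∫ u in h..a, u⁻¹ * deriv φ u ^ 2 := by
        refine intervalIntegral.integral_nonneg ha.1 fun u hu => ?_
        have hu0 : 0 < u := lt_of_lt_of_le hh hu.1
        positivity
      linarith
    have h5 : 0 ≤ R⁻¹ ^ 2 * φ R ^ 2 := by positivity
    have h6 : a⁻¹ ^ 2 * φ a ^ 2 ≤ 2 * h * (a⁻¹ ^ 3 * φ a ^ 2) := by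
      have hi : 0 < a⁻¹ := inv_pos.2 ha0
      have h7 : 1 ≤ 2 * h * a⁻¹ := by
        rw [← div_eq_mul_inv, le_div_iff₀ ha0]
        linarith [ha.2]
      have h8 : 0 ≤ a⁻¹ ^ 2 * φ a ^ 2 := by positivity
      have h9 := mul_le_mul_of_nonneg_right h7 h8
      calc a⁻¹ ^ 2 * φ a ^ 2 = 1 * (a⁻¹ ^ 2 * φ a ^ 2) := by ring
        _ ≤ 2 * h * a⁻¹ * (a⁻¹ ^ 2 * φ a ^ 2) := h9
        _ = _ := by ring
    linarith
  -- average over a
  have hav := intervalIntegral.integral_mono_on (by linarith : h ≤ 2 * h)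
    (intervalIntegrable_const (μ := volume) (c := (∫ u in (2 * h)..R, u⁻¹ ^ 3 * φ u ^ 2) -
      (∫ u in h..R, u⁻¹ * deriv φ u ^ 2)))
    ((H1_ic c3 hh (by linarith : h ≤ 2 * h)).const_mul (2 * h)) key
  rw [intervalIntegral.integral_const, intervalIntegral.integral_const_mul, smul_eq_mul] at hav
  have e : 2 * h - h = h := by ring
  rw [e] at hav
  have hav' : h * ((∫ u in (2 * h)..R, u⁻¹ ^ 3 * φ u ^ 2) -
      (∫ u in h..R, u⁻¹ * deriv φ u ^ 2)) ≤ h * (2 * ∫ u in h..(2 * h), u⁻¹ ^ 3 * φ u ^ 2) := by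
    refine hav.trans (le_of_eq ?_)
    ring
  have := le_of_mul_le_mul_left hav' hh
  linarith

/-- For `h ≤ a ≤ 2h < R`, from `(φ' - φ/u)² ≥ 0` and `(φ²)' = 2φφ'`:
`∫_a^R u⁻¹ φ'² ≥ ∫_a^R (2 u⁻² φ φ' - u⁻³ φ²) = [u⁻² φ²]_a^R + ∫_a^R (2u⁻³ - u⁻³) φ²
≥ ∫_{2h}^R u⁻³ φ² - a⁻² φ(a)²`. Average over `a ∈ [h,2h]`:
`∫_{2h}^R u⁻³φ² ≤ ∫_h^R u⁻¹φ'² + (1/h) ∫_h^{2h} a⁻²φ(a)² da`, and `a⁻² ≤ 2h a⁻³` there. Let `R → ∞`
(monotone convergence). All functions are continuous on `(0,∞)`. -/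
theorem hardy1 {φ : ℝ → ℝ} (hφ : ContDiffOn ℝ 1 φ (Set.Ioi 0)) {h : ℝ} (hh : 0 < h) :
    ∫⁻ u in Set.Ioi (2 * h), ENNReal.ofReal (u⁻¹ ^ 3 * φ u ^ 2) ≤
      (∫⁻ u in Set.Ioi h, ENNReal.ofReal (u⁻¹ * deriv φ u ^ 2)) +
        2 * ∫⁻ u in Set.Ioc h (2 * h), ENNReal.ofReal (u⁻¹ ^ 3 * φ u ^ 2) := by
  have cφ : ContinuousOn φ (Set.Ioi 0) := hφ.continuousOn
  have cd := H1_cder hφ
  have c3 : ContinuousOn (fun u : ℝ => u⁻¹ ^ 3 * φ u ^ 2) (Set.Ioi 0) :=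
    (H1_inv 3).mul (cφ.pow 2)
  have c1 : ContinuousOn (fun u : ℝ => u⁻¹ * deriv φ u ^ 2) (Set.Ioi 0) := by
    have := (H1_inv 1).mul (cd.pow 2)
    simp only [pow_one] at this
    exact this
  have p3 : ∀ u : ℝ, 0 < u → 0 ≤ u⁻¹ ^ 3 * φ u ^ 2 := fun u hu => by positivity
  have p1 : ∀ u : ℝ, 0 < u → 0 ≤ u⁻¹ * deriv φ u ^ 2 := fun u hu => by positivity
  have hU : Set.Ioi (2 * h) = ⋃ n : ℕ, Set.Ioc (2 * h) (2 * h + n) := by
    ext u
    simp only [Set.mem_Ioi, Set.mem_iUnion, Set.mem_Ioc]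
    constructor
    · intro hu
      obtain ⟨n, hn⟩ := exists_nat_ge (u - 2 * h)
      exact ⟨n, hu, by linarith⟩
    · rintro ⟨n, hn, _⟩
      exact hn
  rw [hU, setLIntegral_iUnion_of_directed]
  · refine iSup_le fun n => ?_
    have hn : (0 : ℝ) ≤ n := Nat.cast_nonneg n
    have hR : 2 * h ≤ 2 * h + n := by linarith
    rw [H1_ofReal c3 p3 (by linarith) hR]
    refine (ENNReal.ofReal_le_ofReal (H1_real hφ hh hR)).trans ?_
    have q1 : 0 ≤ ∫ u in h..(2 * h + n), u⁻¹ * deriv φ u ^ 2 :=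
      intervalIntegral.integral_nonneg (by linarith) fun u hu => p1 u (lt_of_lt_of_le hh hu.1)
    have q3 : 0 ≤ ∫ u in h..(2 * h), u⁻¹ ^ 3 * φ u ^ 2 :=
      intervalIntegral.integral_nonneg (by linarith) fun u hu => p3 u (lt_of_lt_of_le hh hu.1)
    rw [ENNReal.ofReal_add q1 (by positivity), ENNReal.ofReal_mul (by norm_num)]
    rw [← H1_ofReal c3 p3 hh (by linarith : h ≤ 2 * h), ← H1_ofReal c1 p1 hh
      (by linarith : h ≤ 2 * h + n)]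
    have e2 : ENNReal.ofReal 2 = 2 := by norm_num
    rw [e2]
    gcongr
    exact Set.Ioc_subset_Ioi_self
  · refine directed_of_isDirected_le fun m n hmn => ?_
    exact Set.Ioc_subset_Ioc_right (by gcongr)

end

end Pool.Agent.Lib.H56D
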