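import Pool.Agent.Lib.H56D.Defs
import Pool.Agent.Lib.H56D.H1
import Pool.Agent.Lib.H56.Gen.LevelCusp

/-!
# H2: Hardy's inequality in the box
-/

namespace Pool.Agent.Lib.H56D

open Matrix hiding J
open MeasureTheory Topology Filter
open Pool.Agent.Lib.H56.Picard hiding O Gam mem_Gam star_mem_O T_mem sg_mem
open Pool.Agent.Lib.H56.Gen
open scoped ENNReal

noncomputable section

private lemma H2_swap {μ1 μ2 μ3 μ4 : Measure ℝ} [SFinite μ1] [SFinite μ2] [SFinite μ3]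
    [SFinite μ4] (G : ℝ → ℝ × ℝ × ℝ → ℝ≥0∞) (hG : Measurable fun p : ℝ × (ℝ × ℝ × ℝ) => G p.1 p.2) :
    ∫⁻ u, ∫⁻ s, ∫⁻ t, ∫⁻ v, G u (s, t, v) ∂μ4 ∂μ3 ∂μ2 ∂μ1 =
      ∫⁻ p, ∫⁻ u, G u p ∂μ1 ∂(μ2.prod (μ3.prod μ4)) := by
  rw [lintegral_lintegral_swap (f := fun p u => G u p)
    (hG.comp (measurable_snd.prodMk measurable_fst)).aemeasurable]
  apply lintegral_congr
  intro u
  have h1 : Measurable fun p : ℝ × ℝ × ℝ => G u p :=
    hG.comp (measurable_const.prodMk measurable_id)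
  rw [lintegral_prod _ h1.aemeasurable]
  apply lintegral_congr
  intro s
  have h2 : Measurable fun p : ℝ × ℝ => G u (s, p) :=
    h1.comp (measurable_const.prodMk measurable_id)
  rw [lintegral_prod _ h2.aemeasurable]

private lemma H2_mono {μ1 μ2 μ3 μ4 : Measure ℝ} [SFinite μ1] [SFinite μ2] [SFinite μ3]
    [SFinite μ4] (A B C : ℝ → ℝ × ℝ × ℝ → ℝ≥0∞)
    (hA : Measurable fun p : ℝ × (ℝ × ℝ × ℝ) => A p.1 p.2)
    (hB : Measurable fun p : ℝ × (ℝ × ℝ × ℝ) => B p.1 p.2)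
    (hC : Measurable fun p : ℝ × (ℝ × ℝ × ℝ) => C p.1 p.2)
    (h : ∀ p, ∫⁻ u, A u p ∂μ1 ≤ (∫⁻ u, B u p ∂μ1) + 2 * ∫⁻ u, C u p ∂μ1) :
    ∫⁻ u, ∫⁻ s, ∫⁻ t, ∫⁻ v, A u (s, t, v) ∂μ4 ∂μ3 ∂μ2 ∂μ1 ≤
      (∫⁻ u, ∫⁻ s, ∫⁻ t, ∫⁻ v, B u (s, t, v) ∂μ4 ∂μ3 ∂μ2 ∂μ1) +
        2 * ∫⁻ u, ∫⁻ s, ∫⁻ t, ∫⁻ v, C u (s, t, v) ∂μ4 ∂μ3 ∂μ2 ∂μ1 := by
  rw [H2_swap A hA, H2_swap B hB, H2_swap C hC]
  have hB' : Measurable fun p : ℝ × ℝ × ℝ => ∫⁻ u, B u p ∂μ1 :=
    (hB.comp (measurable_snd.prodMk measurable_fst)).lintegral_prod_right'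
      (f := fun q : (ℝ × ℝ × ℝ) × ℝ => B q.2 q.1)
  have hC' : Measurable fun p : ℝ × ℝ × ℝ => ∫⁻ u, C u p ∂μ1 :=
    (hC.comp (measurable_snd.prodMk measurable_fst)).lintegral_prod_right'
      (f := fun q : (ℝ × ℝ × ℝ) × ℝ => C q.2 q.1)
  refine (lintegral_mono h).trans (le_of_eq ?_)
  rw [lintegral_add_left hB', lintegral_const_mul _ hC']

/-- measurability of the cut-off functions -/
private lemma H2_meas {g : ℂ × ℂ → ℝ} (hg : ContinuousOn g U) {S : Set (ℂ × ℂ)} (hS : S ⊆ U)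
    (hSm : MeasurableSet S) : Measurable (S.indicator fun z => ENNReal.ofReal (g z)) := by
  have h1 : ContinuousOn (fun z => ENNReal.ofReal (g z)) S :=
    ENNReal.continuous_ofReal.comp_continuousOn (hg.mono hS)
  classical
  have h2 := h1.measurable_piecewise (g := fun _ => (0 : ℝ≥0∞)) continuousOn_const hSm
  exact h2

private lemma H2_set {q : QD} (K : Cusp q) {S : Set (ℂ × ℂ)} (hSm : MeasurableSet S)
    (g : ℂ × ℂ → ℝ≥0∞) :
    ∫⁻ z in {z : X | z.1 ∈ K.Box ∧ z.1 ∈ S}, g z.1 ∂mu =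
      ∫⁻ z in {z : X | z.1 ∈ K.Box}, S.indicator g z.1 ∂mu := by
  have hs : MeasurableSet {z : X | z.1 ∈ S} := hSm.preimage measurable_subtype_coe
  have e : ∀ z : X, S.indicator g z.1 = {z : X | z.1 ∈ S}.indicator (fun z : X => g z.1) z := by
    intro z
    rfl
  simp only [e]
  rw [setLIntegral_indicator hs]
  congr 2
  ext z
  exact and_comm

private lemma H2_line (e1 e2 : ℂ) (s t v : ℝ) (g : ℂ × ℂ → ℝ) {S : Set (ℂ × ℂ)} {T : Set ℝ}
    (hT : MeasurableSet T) (hT0 : T ⊆ Set.Ioi 0)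
    (hST : ∀ u, 0 < u → (PsiE e1 e2 s t v u ∈ S ↔ u ∈ T)) :
    ∫⁻ u in Set.Ioi (0 : ℝ), ENNReal.ofReal (u⁻¹ ^ 3) *
        S.indicator (fun z => ENNReal.ofReal (g z)) (PsiE e1 e2 s t v u) =
      ∫⁻ u in T, ENNReal.ofReal (u⁻¹ ^ 3 * g (PsiE e1 e2 s t v u)) := by
  have e : ∫⁻ u in Set.Ioi (0 : ℝ), ENNReal.ofReal (u⁻¹ ^ 3) *
        S.indicator (fun z => ENNReal.ofReal (g z)) (PsiE e1 e2 s t v u) =
      ∫⁻ u in Set.Ioi (0 : ℝ), T.indicator
        (fun u => ENNReal.ofReal (u⁻¹ ^ 3 * g (PsiE e1 e2 s t v u))) u := by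
    apply setLIntegral_congr_fun measurableSet_Ioi
    intro u hu
    have hu0 : (0 : ℝ) < u := hu
    by_cases h : u ∈ T
    · simp only
      rw [Set.indicator_of_mem h, Set.indicator_of_mem ((hST u hu0).2 h), ENNReal.ofReal_mul]
      positivity
    · simp only
      rw [Set.indicator_of_notMem h, Set.indicator_of_notMem (fun h' => h ((hST u hu0).1 h')),
        mul_zero]
  rw [e, setLIntegral_indicator hT, Set.inter_eq_left.2 hT0]

private lemma H2_one {g : ℂ × ℂ → ℝ} (hg : ContDiffOn ℝ 1 g U) (e1 e2 : ℂ) (s t v : ℝ) {h : ℝ}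
    (hh : 0 < h) :
    ∫⁻ u in Set.Ioi (2 * h), ENNReal.ofReal (u⁻¹ ^ 3 * g (PsiE e1 e2 s t v u) ^ 2) ≤
      (∫⁻ u in Set.Ioi h, ENNReal.ofReal (u⁻¹ ^ 3 * energy g (PsiE e1 e2 s t v u))) +
        2 * ∫⁻ u in Set.Ioc h (2 * h), ENNReal.ofReal (u⁻¹ ^ 3 * g (PsiE e1 e2 s t v u) ^ 2) := by
  have hP : ∀ u, HasDerivAt (fun u => PsiE e1 e2 s t v u) du u :=
    fun u => hasDerivAt_PsiE_u e1 e2 s t v u
  have hPc : ContDiff ℝ 1 (fun u => PsiE e1 e2 s t v u) := by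
    rw [contDiff_one_iff_deriv]
    refine ⟨fun u => (hP u).differentiableAt, ?_⟩
    have e : deriv (fun u => PsiE e1 e2 s t v u) = fun _ => du := by
      funext u
      exact (hP u).deriv
    rw [e]
    exact continuous_const
  have hφ : ContDiffOn ℝ 1 (fun u => g (PsiE e1 e2 s t v u)) (Set.Ioi 0) := by
    refine hg.comp hPc.contDiffOn ?_
    intro u hu
    show 0 < height (PsiE e1 e2 s t v u)
    rw [ht_PsiE]
    exact hu
  refine (hardy1 hφ hh).trans ?_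
  gcongr ?_ + 2 * _
  apply setLIntegral_mono' measurableSet_Ioi
  intro u hu
  have hu0 : 0 < u := hh.trans hu
  have hPU : PsiE e1 e2 s t v u ∈ U := by
    show 0 < height (PsiE e1 e2 s t v u)
    rw [ht_PsiE]
    exact hu0
  have hd : HasFDerivAt g (fderiv ℝ g (PsiE e1 e2 s t v u)) (PsiE e1 e2 s t v u) :=
    ((hg.differentiableOn (by norm_num)).differentiableAt (isOpen_U.mem_nhds hPU)).hasFDerivAt
  have hder : deriv (fun u => g (PsiE e1 e2 s t v u)) u =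
      fderiv ℝ g (PsiE e1 e2 s t v u) du := (hd.comp_hasDerivAt u (hP u)).deriv
  rw [hder]
  apply ENNReal.ofReal_le_ofReal
  set L := fderiv ℝ g (PsiE e1 e2 s t v u) with hL
  have hdu : (du : ℂ × ℂ) = -((1 / 2 : ℂ), (0 : ℂ)) := by
    unfold du
    refine Prod.ext (Complex.ext ?_ ?_) (Complex.ext ?_ ?_) <;> simp
  have e1' : L du = -(L (1 / 2, 0)) := by rw [hdu, map_neg]
  have hen : u ^ 2 * L (1 / 2, 0) ^ 2 ≤ energy g (PsiE e1 e2 s t v u) := by
    unfold energy normL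
    rw [← hL, ht_PsiE]
    have q1 : 0 ≤ u ^ 2 * L (Complex.I / 2, 0) ^ 2 := by positivity
    have q2 : 0 ≤ u / 4 * (L (-star (PsiE e1 e2 s t v u).2, 1) ^ 2 +
      L (-(Complex.I * star (PsiE e1 e2 s t v u).2), Complex.I) ^ 2) := by positivity
    nlinarith
  rw [e1', neg_sq]
  have hi : 0 < u⁻¹ := inv_pos.2 hu0
  calc u⁻¹ * L (1 / 2, 0) ^ 2 = u⁻¹ ^ 3 * (u ^ 2 * L (1 / 2, 0) ^ 2) := by
        field_simp
    _ ≤ _ := by gcongr

/-- In the coordinates `PsiE e1 e2 s t v u` (`lintegral_Box'`; the order of integration is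
`u, s, t, v`; swap so that `u` is innermost with `lintegral_lintegral_swap`, joint measurability from
`continuous_PsiE4` and continuity of `f`, `fderiv f` on `U`, cf. `tonelli3'`, or use the product
measure) apply `hardy1` to `φ(u) = Re f(PsiE s t v u)` and `Im` for fixed `s,t,v`: the derivative is
`fderiv ℝ (Re f) (PsiE ..) (-(1/2), 0)` (as in `hasDerivAt_Psi_u`, `du`), and
`energy g z ≥ height z ^ 2 * (fderiv g z (1/2, 0))²` (first summand of `normL`, the others are `≥ 0`),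
so `u⁻³ energy ≥ u⁻¹ φ'²`. -/
theorem hardy_box {q : QD} (K : Cusp q) {f : ℂ × ℂ → ℂ} (hf : ContDiffOn ℝ 1 f U) {h : ℝ}
    (hh : 0 < h) :
    ∫⁻ z in {z : X | z.1 ∈ K.Box ∧ 2 * h < height z.1}, ENNReal.ofReal (Complex.normSq (f z.1)) ∂mu ≤
      (∫⁻ z in {z : X | z.1 ∈ K.Box ∧ h < height z.1},
        ENNReal.ofReal (energy (fun z => (f z).re) z.1 + energy (fun z => (f z).im) z.1) ∂mu) +
        2 * ∫⁻ z in {z : X | z.1 ∈ K.Box ∧ h < height z.1 ∧ height z.1 ≤ 2 * h},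
          ENNReal.ofReal (Complex.normSq (f z.1)) ∂mu := by
  have hre : ContDiffOn ℝ 1 (fun z => (f z).re) U := Complex.reCLM.contDiff.comp_contDiffOn hf
  have him : ContDiffOn ℝ 1 (fun z => (f z).im) U := Complex.imCLM.contDiff.comp_contDiffOn hf
  have cf : ContinuousOn (fun z => Complex.normSq (f z)) U :=
    Complex.continuous_normSq.comp_continuousOn hf.continuousOn
  have cen : ∀ {g : ℂ × ℂ → ℝ}, ContDiffOn ℝ 1 g U → ContinuousOn (energy g) U := by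
    intro g hg
    have h1 : ContinuousOn (fderiv ℝ g) U := hg.continuousOn_fderiv_of_isOpen isOpen_U le_rfl
    have hst : Continuous fun z : ℂ × ℂ => star z.2 := continuous_star.comp continuous_snd
    have h2 : ContinuousOn (fun z : ℂ × ℂ => fderiv ℝ g z (1 / 2, 0)) U :=
      h1.clm_apply continuousOn_const
    have h3 : ContinuousOn (fun z : ℂ × ℂ => fderiv ℝ g z (Complex.I / 2, 0)) U :=
      h1.clm_apply continuousOn_const
    have h4 : ContinuousOn (fun z : ℂ × ℂ => fderiv ℝ g z (-star z.2, 1)) U :=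
      h1.clm_apply (hst.neg.prodMk continuous_const).continuousOn
    have h5 : ContinuousOn (fun z : ℂ × ℂ => fderiv ℝ g z (-(Complex.I * star z.2), Complex.I)) U :=
      h1.clm_apply ((continuous_const.mul hst).neg.prodMk continuous_const).continuousOn
    have h6 : ContinuousOn height U := continuous_height.continuousOn
    exact ((h6.pow 2).mul ((h2.pow 2).add (h3.pow 2))).add
      ((h6.div_const 4).mul ((h4.pow 2).add (h5.pow 2)))
  have ce : ContinuousOn (fun z => energy (fun z => (f z).re) z + energy (fun z => (f z).im) z) U :=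
    (cen hre).add (cen him)
  set S1 : Set (ℂ × ℂ) := {z | 2 * h < height z} with hS1
  set S2 : Set (ℂ × ℂ) := {z | h < height z} with hS2
  set S3 : Set (ℂ × ℂ) := {z | h < height z ∧ height z ≤ 2 * h} with hS3
  have m1 : MeasurableSet S1 := continuous_height.measurable measurableSet_Ioi
  have m2 : MeasurableSet S2 := continuous_height.measurable measurableSet_Ioi
  have m3 : MeasurableSet S3 := continuous_height.measurable measurableSet_Ioc
  have u1 : S1 ⊆ U := fun z (hz : 2 * h < height z) => (by linarith : 0 < height z)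
  have u2 : S2 ⊆ U := fun z (hz : h < height z) => (by linarith : 0 < height z)
  have u3 : S3 ⊆ U := fun z hz => (by linarith [hz.1] : 0 < height z)
  have k1 := H2_set K m1 (fun z => ENNReal.ofReal (Complex.normSq (f z)))
  have k2 := H2_set K m2 (fun z => ENNReal.ofReal
    (energy (fun z => (f z).re) z + energy (fun z => (f z).im) z))
  have k3 := H2_set K m3 (fun z => ENNReal.ofReal (Complex.normSq (f z)))
  have n1 := H2_meas cf u1 m1
  have n2 := H2_meas ce u2 m2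
  have n3 := H2_meas cf u3 m3
  have g1 : (∫⁻ z in {z : X | z.1 ∈ K.Box ∧ 2 * h < height z.1},
      ENNReal.ofReal (Complex.normSq (f z.1)) ∂mu) = _ := k1
  have g2 : (∫⁻ z in {z : X | z.1 ∈ K.Box ∧ h < height z.1},
        ENNReal.ofReal (energy (fun z => (f z).re) z.1 + energy (fun z => (f z).im) z.1) ∂mu) = _ :=
    k2
  have g3 : (∫⁻ z in {z : X | z.1 ∈ K.Box ∧ h < height z.1 ∧ height z.1 ≤ 2 * h},
          ENNReal.ofReal (Complex.normSq (f z.1)) ∂mu) = _ := k3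
  rw [g1, g2, g3, lintegral_Box K _ n1, lintegral_Box K _ n2, lintegral_Box K _ n3]
  rw [mul_left_comm (2 : ℝ≥0∞), ← mul_add]
  gcongr ENNReal.ofReal (K.cv / 4) * ?_
  have hΨ : Measurable fun p : ℝ × (ℝ × ℝ × ℝ) =>
      PsiE K.e1 K.e2 p.2.1 p.2.2.1 p.2.2.2 p.1 := by
    have h1 : Continuous fun p : ℝ × (ℝ × ℝ × ℝ) => (p.2.1, p.2.2.1, p.2.2.2, p.1) := by fun_prop
    exact ((continuous_PsiE4 K.e1 K.e2).comp h1).measurable
  have hu3 : Measurable fun p : ℝ × (ℝ × ℝ × ℝ) => ENNReal.ofReal (p.1⁻¹ ^ 3) := by fun_prop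
  refine H2_mono
    (fun u p => ENNReal.ofReal (u⁻¹ ^ 3) *
      S1.indicator (fun z => ENNReal.ofReal (Complex.normSq (f z)))
        (PsiE K.e1 K.e2 p.1 p.2.1 p.2.2 u))
    (fun u p => ENNReal.ofReal (u⁻¹ ^ 3) *
      S2.indicator (fun z => ENNReal.ofReal
        (energy (fun z => (f z).re) z + energy (fun z => (f z).im) z))
        (PsiE K.e1 K.e2 p.1 p.2.1 p.2.2 u))
    (fun u p => ENNReal.ofReal (u⁻¹ ^ 3) *
      S3.indicator (fun z => ENNReal.ofReal (Complex.normSq (f z)))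
        (PsiE K.e1 K.e2 p.1 p.2.1 p.2.2 u))
    (hu3.mul (n1.comp hΨ)) (hu3.mul (n2.comp hΨ)) (hu3.mul (n3.comp hΨ)) ?_
  rintro ⟨s, t, v⟩
  simp only
  rw [H2_line K.e1 K.e2 s t v (fun z => Complex.normSq (f z)) (T := Set.Ioi (2 * h))
      measurableSet_Ioi (fun u (hu : 2 * h < u) => (by linarith : (0 : ℝ) < u))
      (fun u _ => by rw [hS1, Set.mem_ofPred_eq, ht_PsiE, Set.mem_Ioi]),
    H2_line K.e1 K.e2 s t v (fun z => energy (fun z => (f z).re) z + energy (fun z => (f z).im) z)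
      (T := Set.Ioi h)
      measurableSet_Ioi (fun u (hu : h < u) => (by linarith : (0 : ℝ) < u))
      (fun u _ => by rw [hS2, Set.mem_ofPred_eq, ht_PsiE, Set.mem_Ioi]),
    H2_line K.e1 K.e2 s t v (fun z => Complex.normSq (f z)) (T := Set.Ioc h (2 * h))
      measurableSet_Ioc (fun u hu => (by linarith [hu.1] : (0 : ℝ) < u))
      (fun u _ => by rw [hS3, Set.mem_ofPred_eq, ht_PsiE, Set.mem_Ioc])]
  have hline : ∀ {g : ℂ × ℂ → ℝ} {T : Set ℝ}, ContinuousOn g U → MeasurableSet T →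
      T ⊆ Set.Ioi 0 → AEMeasurable (fun u => ENNReal.ofReal (u⁻¹ ^ 3 * g (PsiE K.e1 K.e2 s t v u)))
        (volume.restrict T) := by
    intro g T hg hT hT0
    apply ContinuousOn.aemeasurable _ hT
    apply ENNReal.continuous_ofReal.comp_continuousOn
    have c1 : ContinuousOn (fun u : ℝ => u⁻¹ ^ 3) T :=
      (continuousOn_inv₀.mono (fun x hx => ne_of_gt (hT0 hx))).pow 3
    refine c1.mul (hg.comp ?_ ?_)
    · have h1 : Continuous fun u : ℝ => (s, t, v, u) := by fun_prop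
      exact ((continuous_PsiE4 K.e1 K.e2).comp h1).continuousOn
    · intro u hu
      show 0 < height (PsiE K.e1 K.e2 s t v u)
      rw [ht_PsiE]
      exact hT0 hu
  have hsplit : ∀ {T : Set ℝ} (g1 g2 : ℂ × ℂ → ℝ), ContinuousOn g1 U → MeasurableSet T →
      T ⊆ Set.Ioi 0 → (∀ z ∈ U, 0 ≤ g1 z) → (∀ z ∈ U, 0 ≤ g2 z) →
      ∫⁻ u in T, ENNReal.ofReal (u⁻¹ ^ 3 * (g1 (PsiE K.e1 K.e2 s t v u) +
        g2 (PsiE K.e1 K.e2 s t v u))) =
      (∫⁻ u in T, ENNReal.ofReal (u⁻¹ ^ 3 * g1 (PsiE K.e1 K.e2 s t v u))) +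
        ∫⁻ u in T, ENNReal.ofReal (u⁻¹ ^ 3 * g2 (PsiE K.e1 K.e2 s t v u)) := by
    intro T g1 g2 hg1 hT hT0 p1 p2
    rw [← lintegral_add_left' (hline hg1 hT hT0)]
    apply setLIntegral_congr_fun hT
    intro u hu
    have hu0 : (0 : ℝ) < u := hT0 hu
    have hU : PsiE K.e1 K.e2 s t v u ∈ U := by
      show 0 < height (PsiE K.e1 K.e2 s t v u)
      rw [ht_PsiE]
      exact hu0
    simp only
    rw [mul_add, ENNReal.ofReal_add]
    · exact mul_nonneg (by positivity) (p1 _ hU)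
    · exact mul_nonneg (by positivity) (p2 _ hU)
  have T1 : Set.Ioi (2 * h) ⊆ Set.Ioi (0 : ℝ) := fun u (hu : 2 * h < u) =>
    (by linarith : (0 : ℝ) < u)
  have T2 : Set.Ioi h ⊆ Set.Ioi (0 : ℝ) := fun u (hu : h < u) => (by linarith : (0 : ℝ) < u)
  have T3 : Set.Ioc h (2 * h) ⊆ Set.Ioi (0 : ℝ) := fun u hu => (by linarith [hu.1] : (0 : ℝ) < u)
  have r1 := H2_one hre K.e1 K.e2 s t v hh
  have r2 := H2_one him K.e1 K.e2 s t v hh
  have en : ∀ z, Complex.normSq (f z) = (f z).re ^ 2 + (f z).im ^ 2 := fun z => by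
    rw [Complex.normSq_apply]
    ring
  have cre : ContinuousOn (fun z => (f z).re ^ 2) U := hre.continuousOn.pow 2
  have ene : ∀ (g : ℂ × ℂ → ℝ), ∀ z ∈ U, 0 ≤ energy g z := fun g z hz =>
    normL_nonneg (le_of_lt hz) _
  simp only [en]
  rw [hsplit (fun z => (f z).re ^ 2) (fun z => (f z).im ^ 2) cre measurableSet_Ioi T1
      (fun z _ => sq_nonneg _) (fun z _ => sq_nonneg _),
    hsplit (fun z => (f z).re ^ 2) (fun z => (f z).im ^ 2) cre measurableSet_Ioc T3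
      (fun z _ => sq_nonneg _) (fun z _ => sq_nonneg _),
    hsplit (fun z => energy (fun z => (f z).re) z) (fun z => energy (fun z => (f z).im) z)
      (cen hre) measurableSet_Ioi T2 (ene _) (ene _)]
  refine (add_le_add r1 r2).trans (le_of_eq ?_)
  ring

end

end Pool.Agent.Lib.H56D
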