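import Pool.Agent.Lib.H56D.O3

/-!
# O4: the weight is constant high in the cusp
-/

namespace Pool.Agent.Lib.H56D

open Matrix hiding J
open MeasureTheory Topology Filter
open Pool.Agent.Lib.H56.Picard hiding O Gam mem_Gam star_mem_O T_mem sg_mem
open Pool.Agent.Lib.H56.Gen
open scoped ENNReal

noncomputable section

/-- `κ = rep (OO q) star_mem D.K.Box y0` for any base point `y0` (`rep_const`; `1 ≤ κ` by `one_le_rep`,
`κ ≠ ⊤` by `rep_ne_top`; `D.K.B ≤ stab` since the matrices are `TM`). Let `z` be in the box with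
`height z > 4/h`, `h = D.h ≤ 1`, so `height z > h`. In
`cnt (OO q) star_mem D.K.Box h z = ∑' γ, bx (γz) above h (height γz)` the terms with
`mat γ 2 0 ≠ 0` vanish: `1 ≤ ‖mat γ 2 0‖` (`one_le_norm`), so `height (γz) ≤ 4/height z ≤ h`
(`height_mul_le`); for `γ ∈ stab` the height is unchanged (`height_stab`) and `above = 1`. So
`cnt = ∑' a : stab, bx (a z) = rep z = κ` (sum over a subtype: `tsum_subtype` or
`Function.Injective.tsum_eq`), and `om z = 1 · 1 · κ⁻¹`. -/
theorem om_high {q : QD} (D : CD q) : ∃ κ : ℝ≥0∞, 1 ≤ κ ∧ κ ≠ ⊤ ∧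
    ∀ z : X, z.1 ∈ D.K.Box → 4 / D.h < height z.1 → om D z = κ⁻¹ := by
  have hy : ((-(1 / 2) : ℂ), (0 : ℂ)) ∈ U := by
    rw [mem_U]
    simp [height]
  let y0 : X := ⟨((-(1 / 2) : ℂ), (0 : ℂ)), hy⟩
  have hBA := O3_B_le_stab D.K
  have hB : ∀ z ∈ U, ∃! b : D.K.B, act (mat b.1.1) z ∈ D.K.Box := fun z hz =>
    D.K.exists_unique_B hz
  refine ⟨rep (OO q) star_mem D.K.Box y0, one_le_rep hBA hB y0,
    rep_ne_top H56.Gen.finite_ball one_le_norm (fun r R hr => Box_compact D.K r R hr) y0, ?_⟩
  intro z hz hhz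
  have hh := D.hh
  have h4 : D.h < height z.1 := by
    have : D.h ≤ 4 / D.h := by
      rw [le_div_iff₀ hh]
      nlinarith [D.h1]
    linarith
  have hz0 : 0 < height z.1 := mem_U.1 z.2
  -- the count
  have hcnt : cnt (OO q) star_mem D.K.Box D.h z = rep (OO q) star_mem D.K.Box y0 := by
    rw [rep_const hBA hB y0 z]
    unfold cnt rep
    have hs : Function.support (fun γ : arith (OO q) star_mem =>
        bx D.K.Box (γ • z : X).1 * above D.h (height (γ • z : X).1)) ⊆
        (stab (OO q) star_mem : Set (arith (OO q) star_mem)) := by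
      intro γ hγ
      by_contra hcon
      apply hγ
      have h0 : mat γ.1 2 0 ≠ 0 := hcon
      have h1 : 1 ≤ ‖mat γ.1 2 0‖ := one_le_norm _ (γ.2 2 0) h0
      have h2 := height_mul_le γ.1 z.2 h1
      have h3 : height (γ • z : X).1 ≤ D.h := by
        change height (act (mat γ.1) z.1) ≤ D.h
        rw [div_lt_iff₀ hh] at hhz
        by_contra hc
        push Not at hc
        nlinarith
      have h5 : above D.h (height (γ • z : X).1) = 0 :=
        Set.indicator_of_notMem (fun h => absurd h (not_lt.2 h3)) _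
      change bx D.K.Box (γ • z : X).1 * above D.h (height (γ • z : X).1) = 0
      rw [h5, mul_zero]
    rw [← tsum_subtype_eq_of_support_subset hs]
    refine tsum_congr fun a => ?_
    have h6 : height ((a.1 : arith (OO q) star_mem) • z : X).1 = height z.1 :=
      height_stab one_le_norm (⟨a.1, a.2⟩ : stab (OO q) star_mem) z
    have h7 : above D.h (height ((a.1 : arith (OO q) star_mem) • z : X).1) = 1 := by
      rw [h6]
      exact Set.indicator_of_mem (show height z.1 ∈ Set.Ioi D.h from h4) _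
    rw [h7, mul_one]
    rfl
  unfold om omg
  rw [hcnt]
  have e1 : bx D.K.Box z.1 = 1 := if_pos hz
  have e2 : above D.h (height z.1) = 1 :=
    Set.indicator_of_mem (show height z.1 ∈ Set.Ioi D.h from h4) _
  rw [e1, e2, one_mul, one_mul]

end

end Pool.Agent.Lib.H56D
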