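import Pool.Agent.Lib.H56D.H2
import Pool.Agent.Lib.H56D.O4
import Pool.Agent.Lib.H56D.G0

/-!
# H3: the compact part carries a positive proportion of the mass
-/

namespace Pool.Agent.Lib.H56D

open Matrix hiding J
open MeasureTheory Topology Filter
open Pool.Agent.Lib.H56.Picard hiding O Gam mem_Gam star_mem_O T_mem sg_mem
open Pool.Agent.Lib.H56.Gen
open scoped ENNReal

noncomputable section

private lemma H3_arith {A E Al : ℝ≥0∞} {ν : ℝ} (hA : A ≠ ⊤) (hν0 : 0 < ν) (hν1 : ν ≤ 1)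
    (h1 : A ≤ Al + (E + 2 * Al)) (h2 : E ≤ ENNReal.ofReal (1 - ν ^ 2) * A) :
    ENNReal.ofReal (ν ^ 2) * A ≤ 3 * Al := by
  have h3 : 0 ≤ 1 - ν ^ 2 := by nlinarith
  have h4 : ENNReal.ofReal (ν ^ 2) * A + ENNReal.ofReal (1 - ν ^ 2) * A = A := by
    rw [← add_mul, ← ENNReal.ofReal_add (sq_nonneg ν) h3]
    have : ν ^ 2 + (1 - ν ^ 2) = 1 := by ring
    rw [this, ENNReal.ofReal_one, one_mul]
  have h5 : ENNReal.ofReal (1 - ν ^ 2) * A ≠ ⊤ := ENNReal.mul_ne_top ENNReal.ofReal_ne_top hA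
  have h6 : ENNReal.ofReal (ν ^ 2) * A + ENNReal.ofReal (1 - ν ^ 2) * A ≤
      3 * Al + ENNReal.ofReal (1 - ν ^ 2) * A := by
    rw [h4]
    calc A ≤ Al + (E + 2 * Al) := h1
      _ ≤ Al + (ENNReal.ofReal (1 - ν ^ 2) * A + 2 * Al) := by gcongr
      _ = _ := by ring
  exact (ENNReal.add_le_add_iff_right h5).1 h6

/-- Let `A = ∫ om PhiS` (finite by `lintegral_PhiS` and `h.L2`), `E = ∫ om EnS ≤ (1 - ν²) A`
(`energy_level`; if `f = 0` on `U` trivial), `A = A_low + A_high` with `A_low = ∫_{K0} om PhiS` and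
`A_high` the part `height > 8/h`, `h = D.h` (`om` vanishes outside the box above height `h`:
`om_zero`). By `om_high` (`κ`): `A_high = κ⁻¹ ∫_{Box, height > 8/h} PhiS`; apply `hardy_box D.K` with
`4/h` for `h` to each conjugate `conj G f q` (`contDiffOn_conj`) and sum over the cosets (finite sum):
`A_high ≤ κ⁻¹ ∫_{Box, height > 4/h} EnS + 2 κ⁻¹ ∫_{Box, 4/h < height ≤ 8/h} PhiS ≤ E + 2 A_low` (note
`4/h > h`). So `A ≤ A_low + (1 - ν²) A + 2 A_low`, `ν² A ≤ 3 A_low`. -/
theorem hardy_low {q : QD} {D : CD q} {G : Subgroup (Gam q)} [G.FiniteIndex] {f : ℂ × ℂ → ℂ}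
    {l ν : ℝ} (h : Good D G f l) (hν0 : 0 < ν) (hν1 : ν ≤ 1) (hl : l ≤ 1 - ν ^ 2) :
    ENNReal.ofReal (ν ^ 2) * ∫⁻ z, om D z * PhiS G f z ∂mu ≤
      3 * ∫⁻ z in K0 D, om D z * PhiS G f z ∂mu := by
  have hfinq : Finite (Gam q ⧸ G) := Subgroup.finite_quotient_of_finiteIndex
  have hA : ∫⁻ z, om D z * PhiS G f z ∂mu ≠ ⊤ := by
    rw [← lintegral_PhiS D G h.smooth]
    exact h.L2
  by_cases hne : ∃ z ∈ U, f z ≠ 0
  swap
  · push Not at hne
    have h0 : ∫⁻ z, om D z * PhiS G f z ∂mu = 0 := by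
      rw [← lintegral_PhiS D G h.smooth]
      have : ∀ z : X, wG D G z * ENNReal.ofReal (Complex.normSq (f z.1)) = 0 := by
        intro z
        rw [hne z.1 z.2]
        simp
      simp only [this, lintegral_zero]
    rw [h0, mul_zero]
    exact zero_le
  obtain ⟨κ, hκ1, hκt, hκ⟩ := om_high D
  have hE := (energy_level D h.smooth h.inv h.eig h.L2 hne).2
  rw [Complex.ofReal_re] at hE
  have hE' : ∫⁻ z, om D z * EnS G f z ∂mu ≤
      ENNReal.ofReal (1 - ν ^ 2) * ∫⁻ z, om D z * PhiS G f z ∂mu :=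
    hE.trans (by gcongr)
  refine H3_arith hA hν0 hν1 ?_ hE'
  have hh := D.hh
  have mB : MeasurableSet {z : X | z.1 ∈ D.K.Box} :=
    (measurableSet_Box D.K).preimage measurable_subtype_coe
  have mh : Measurable fun z : X => height z.1 :=
    continuous_height.measurable.comp measurable_subtype_coe
  have mK0 : MeasurableSet (K0 D) := by
    have e : K0 D = {z : X | z.1 ∈ D.K.Box} ∩ {z : X | height z.1 ∈ Set.Ioc D.h (8 / D.h)} := by
      ext z
      rfl
    rw [e]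
    exact mB.inter (mh measurableSet_Ioc)
  have mP : Measurable (PhiS G f) := measurable_PhiS h.smooth
  have mE : Measurable (EnS G f) := measurable_EnS h.smooth
  set Hi : Set X := {z : X | z.1 ∈ D.K.Box ∧ 2 * (4 / D.h) < height z.1} with hHi
  set B1 : Set X := {z : X | z.1 ∈ D.K.Box ∧ 4 / D.h < height z.1} with hB1
  set B2 : Set X := {z : X | z.1 ∈ D.K.Box ∧ 4 / D.h < height z.1 ∧ height z.1 ≤ 2 * (4 / D.h)}
    with hB2
  have mHi : MeasurableSet Hi := mB.inter (mh measurableSet_Ioi)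
  have mB1 : MeasurableSet B1 := mB.inter (mh measurableSet_Ioi)
  have mB2 : MeasurableSet B2 := mB.inter (mh measurableSet_Ioc)
  have e8 : 2 * (4 / D.h) = 8 / D.h := by ring
  have h4 : 0 < 4 / D.h := by positivity
  have h4h : D.h < 4 / D.h := by
    rw [lt_div_iff₀ hh]
    nlinarith [D.h1]
  -- split
  have s1 : ∫⁻ z, om D z * PhiS G f z ∂mu ≤
      (∫⁻ z in K0 D, om D z * PhiS G f z ∂mu) + ∫⁻ z in Hi, om D z * PhiS G f z ∂mu := by
    have mOP : Measurable fun z : X => om D z * PhiS G f z := (measurable_om D).mul mP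
    rw [← lintegral_indicator mK0, ← lintegral_indicator mHi,
      ← lintegral_add_left (mOP.indicator mK0)]
    apply lintegral_mono
    intro z
    by_cases hz : z.1 ∈ D.K.Box ∧ D.h < height z.1
    · by_cases hz2 : height z.1 ≤ 8 / D.h
      · have : z ∈ K0 D := ⟨hz.1, hz.2, hz2⟩
        simp only
        rw [Set.indicator_of_mem this]
        exact le_self_add
      · have : z ∈ Hi := ⟨hz.1, by rw [e8]; exact lt_of_not_ge hz2⟩
        simp only
        rw [Set.indicator_of_mem this]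
        exact le_add_self
    · simp only
      rw [om_zero D hz, zero_mul]
      exact zero_le
  refine s1.trans ?_
  gcongr
  -- the high part
  have s2 : ∫⁻ z in Hi, om D z * PhiS G f z ∂mu = κ⁻¹ * ∫⁻ z in Hi, PhiS G f z ∂mu := by
    rw [← lintegral_const_mul _ mP]
    apply setLIntegral_congr_fun mHi
    intro z hz
    simp only
    rw [hκ z hz.1 (by linarith [hz.2])]
  have s3 : κ⁻¹ * ∫⁻ z in B1, EnS G f z ∂mu ≤ ∫⁻ z, om D z * EnS G f z ∂mu := by
    rw [← lintegral_const_mul _ mE]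
    refine le_trans (le_of_eq ?_) (setLIntegral_le_lintegral B1 _)
    apply setLIntegral_congr_fun mB1
    intro z hz
    simp only
    rw [hκ z hz.1 hz.2]
  have s4 : κ⁻¹ * ∫⁻ z in B2, PhiS G f z ∂mu ≤ ∫⁻ z in K0 D, om D z * PhiS G f z ∂mu := by
    rw [← lintegral_const_mul _ mP]
    have hsub : B2 ⊆ K0 D := by
      intro z hz
      exact ⟨hz.1, h4h.trans hz.2.1, by rw [← e8]; exact hz.2.2⟩
    refine le_trans (le_of_eq ?_) (lintegral_mono_set hsub)
    apply setLIntegral_congr_fun mB2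
    intro z hz
    simp only
    rw [hκ z hz.1 hz.2.1]
  have mPq : ∀ c : Gam q ⧸ G, Measurable fun z : X =>
      ENNReal.ofReal (Complex.normSq (conj G f c z.1)) := fun c =>
    (ENNReal.continuous_ofReal.comp (Complex.continuous_normSq.comp
      (continuousOn_iff_continuous_domRestrict.mp
        (contDiffOn_conj (G := G) h.smooth c).continuousOn))).measurable
  have s5 : ∫⁻ z in Hi, PhiS G f z ∂mu ≤
      (∫⁻ z in B1, EnS G f z ∂mu) + 2 * ∫⁻ z in B2, PhiS G f z ∂mu := by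
    unfold PhiS EnS
    rw [lintegral_tsum fun c => (mPq c).aemeasurable,
      lintegral_tsum fun c => (measurable_energy h.smooth c).aemeasurable,
      lintegral_tsum fun c => (mPq c).aemeasurable, ← ENNReal.tsum_mul_left, ← ENNReal.tsum_add]
    exact ENNReal.tsum_le_tsum fun c =>
      hardy_box D.K (contDiffOn_conj (G := G) h.smooth c) h4
  calc ∫⁻ z in Hi, om D z * PhiS G f z ∂mu = κ⁻¹ * ∫⁻ z in Hi, PhiS G f z ∂mu := s2
    _ ≤ κ⁻¹ * ((∫⁻ z in B1, EnS G f z ∂mu) + 2 * ∫⁻ z in B2, PhiS G f z ∂mu) := by gcongr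
    _ = κ⁻¹ * (∫⁻ z in B1, EnS G f z ∂mu) + 2 * (κ⁻¹ * ∫⁻ z in B2, PhiS G f z ∂mu) := by ring
    _ ≤ _ := by gcongr

end

end Pool.Agent.Lib.H56D
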