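import Pool.Agent.Lib.H56D.O5

/-!
# L1: square integrability in the two forms
-/

namespace Pool.Agent.Lib.H56D

open Matrix hiding J
open MeasureTheory Topology Filter
open Pool.Agent.Lib.H56.Picard hiding O Gam mem_Gam star_mem_O T_mem sg_mem
open Pool.Agent.Lib.H56.Gen
open scoped ENNReal

noncomputable section

lemma l1_compact {S : Set (ℂ × ℂ)} (hS : IsCompact S) (hSU : S ⊆ {z | 0 < height z}) :
    IsCompact {z : X | z.1 ∈ S} := by
  have hind : Topology.IsInducing (Subtype.val : X → ℂ × ℂ) := Topology.IsInducing.subtypeVal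
  rw [hind.isCompact_iff]
  convert hS using 1
  ext z
  constructor
  · rintro ⟨w, hw, rfl⟩
    exact hw
  · intro hz
    exact ⟨⟨z, hSU hz⟩, hz, rfl⟩

/-- one coset -/
lemma l1_one {q : QD} {D : CD q} {G : Subgroup (Gam q)} {f : ℂ × ℂ → ℂ}
    {lam : ℂ} (h : Eig D G f lam) (γ : Gam q) :
    ∫⁻ z : X, om D z * ENNReal.ofReal (Complex.normSq (f (γ • z : X).1)) ∂mu ≠ ⊤ := by
  have hcont : Continuous fun z : X => Complex.normSq (f (γ • z : X).1) := by
    have h1 : Continuous fun z : X => f z.1 :=
      continuousOn_iff_continuous_domRestrict.mp h.smooth.continuousOn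
    have h2 : ContinuousOn (fun w : ℂ × ℂ => f (act (mat γ.1) w)) U := by
      intro z hz
      apply ContinuousAt.continuousWithinAt
      exact ContinuousAt.comp (x := z) (g := f)
        ((h.smooth.continuousOn).continuousAt (isOpen_U.mem_nhds (act_mem_U _ hz)))
        (contDiffAt_act γ.1 hz).continuousAt
    exact Complex.continuous_normSq.comp (continuousOn_iff_continuous_domRestrict.mp h2)
  have hmeas : Measurable fun z : X => Complex.normSq (f (γ • z : X).1) := hcont.measurable
  obtain ⟨S, hS, hSU, hbox⟩ := Box_compact D.K D.h 1 D.hh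
  have hSc := l1_compact hS hSU
  obtain ⟨M, hM⟩ := hSc.exists_bound_of_continuousOn hcont.continuousOn
  -- first part
  have hA : ∫⁻ z in {z : X | z.1 ∈ S}, ENNReal.ofReal (Complex.normSq (f (γ • z : X).1)) ∂mu ≠ ⊤ := by
    have h1 : ∫⁻ z in {z : X | z.1 ∈ S}, ENNReal.ofReal (Complex.normSq (f (γ • z : X).1)) ∂mu ≤
        ENNReal.ofReal M * mu {z : X | z.1 ∈ S} := by
      calc _ ≤ ∫⁻ _ in {z : X | z.1 ∈ S}, ENNReal.ofReal M ∂mu := by
            refine setLIntegral_mono measurable_const fun z hz => ?_
            apply ENNReal.ofReal_le_ofReal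
            have := hM z hz
            rw [Real.norm_eq_abs] at this
            exact (le_abs_self _).trans this
        _ = _ := setLIntegral_const _ _
    exact ne_top_of_le_ne_top (ENNReal.mul_ne_top ENNReal.ofReal_ne_top hSc.measure_lt_top.ne) h1
  -- second part
  have hB : ∫⁻ z in {z : X | z.1 ∈ D.K.Box}, above 1 (height z.1) *
      ENNReal.ofReal (Complex.normSq (f (act (mat γ.1) z.1))) ∂mu ≠ ⊤ := by
    rw [lintegral_Box_weight D.K one_pos (wE := above 1) (w := fun _ => 1) (measurable_above 1)
      (fun _ _ => zero_le_one) (fun u hu => by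
        unfold above
        rw [Set.indicator_of_mem (show u ∈ Set.Ioi 1 from hu), ENNReal.ofReal_one])
      (fun u hu => by
        unfold above
        exact Set.indicator_of_notMem (show u ∉ Set.Ioi 1 from fun hc => absurd hc (not_lt.2 hu)) _)
      (fun z => Complex.normSq (f (act (mat γ.1) z))) hmeas]
    apply ENNReal.mul_ne_top ENNReal.ofReal_ne_top
    unfold BW
    simp only [one_mul]
    exact h.L2 γ
  have hle : ∀ z : X, om D z * ENNReal.ofReal (Complex.normSq (f (γ • z : X).1)) ≤
      ({z : X | z.1 ∈ S}).indicator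
        (fun z => ENNReal.ofReal (Complex.normSq (f (γ • z : X).1))) z +
      ({z : X | z.1 ∈ D.K.Box}).indicator (fun z => above 1 (height z.1) *
        ENNReal.ofReal (Complex.normSq (f (act (mat γ.1) z.1)))) z := by
    intro z
    by_cases hz : z.1 ∈ D.K.Box ∧ D.h < height z.1
    · have h1 : om D z * ENNReal.ofReal (Complex.normSq (f (γ • z : X).1)) ≤
          ENNReal.ofReal (Complex.normSq (f (γ • z : X).1)) := by
        calc _ ≤ 1 * ENNReal.ofReal (Complex.normSq (f (γ • z : X).1)) :=
              mul_le_mul_left (om_le_one D z) _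
          _ = _ := one_mul _
      refine h1.trans ?_
      rcases le_or_gt (height z.1) 1 with h2 | h2
      · have h3 : z ∈ {z : X | z.1 ∈ S} := hbox z.1 hz.1 hz.2.le h2
        rw [Set.indicator_of_mem h3]
        exact le_self_add
      · rw [Set.indicator_of_mem (show z ∈ {z : X | z.1 ∈ D.K.Box} from hz.1)]
        have h4 : above 1 (height z.1) = 1 := by
          unfold above
          exact Set.indicator_of_mem (show height z.1 ∈ Set.Ioi 1 from h2) _
        rw [h4, one_mul]
        exact le_add_self
    · rw [om_zero D hz, zero_mul]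
      exact zero_le
  have hmS : MeasurableSet {z : X | z.1 ∈ S} := hSc.measurableSet
  have hmB : MeasurableSet {z : X | z.1 ∈ D.K.Box} :=
    measurable_subtype_coe (measurableSet_Box D.K)
  refine ne_top_of_le_ne_top ?_ (lintegral_mono hle)
  have hmF : Measurable (({z : X | z.1 ∈ S}).indicator
      (fun z => ENNReal.ofReal (Complex.normSq (f (γ • z : X).1)))) :=
    (ENNReal.measurable_ofReal.comp hmeas).indicator hmS
  rw [lintegral_add_left hmF, lintegral_indicator hmS, lintegral_indicator hmB]
  exact ENNReal.add_ne_top.2 ⟨hA, hB⟩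

/-- By `lintegral_PhiS` the integral is `∫ om ∑_q |f(q⁻¹z)|²`, a finite sum over cosets of
`∫ om |f ∘ γ|²`, `γ = (c.out)⁻¹ ∈ Gam q`, each at most `∫_{Box, height > h} |f ∘ γ|² dμ` (`om_le`),
`h = D.h ≤ 1`. Split at height `1`: the part `h < height ≤ 1` of the box lies in a compact subset
`K ⊆ U` (`Box_compact`), on which `|f ∘ γ|²` is continuous, hence bounded, and `mu` of (the preimage
of) `K` is finite; the part `height > 1` is computed by `lintegral_Box'` applied to
`φ z = above 1 (height z) * ofReal |f (γ z)|²` (`ht_PsiE`) and is finite by `h.L2 γ` (for `u ≤ 1` the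
integrand vanishes; `ofReal (u⁻¹^3) * ofReal (..) = ofReal (u⁻¹^3 * ..)`). -/
theorem Eig_L2 {q : QD} {D : CD q} {G : Subgroup (Gam q)} [G.FiniteIndex] {f : ℂ × ℂ → ℂ}
    {lam : ℂ} (h : Eig D G f lam) :
    ∫⁻ z : X, wG D G z * ENNReal.ofReal (Complex.normSq (f z.1)) ∂mu ≠ ⊤ := by
  have hfinq : Finite (Gam q ⧸ G) := Subgroup.finite_quotient_of_finiteIndex
  have : Fintype (Gam q ⧸ G) := Fintype.ofFinite _
  have hc : Continuous fun z : X => Complex.normSq (f z.1) :=
    Complex.continuous_normSq.comp
      (continuousOn_iff_continuous_domRestrict.mp h.smooth.continuousOn)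
  have hm : Measurable fun z : X => ENNReal.ofReal (Complex.normSq (f z.1)) :=
    (ENNReal.continuous_ofReal.comp hc).measurable
  rw [lintegral_wG D G hm]
  have h1 : ∀ z : X, om D z * ∑' c : Gam q ⧸ G, ENNReal.ofReal
      (Complex.normSq (f ((c.out : Gam q)⁻¹ • z : X).1)) =
      ∑ c : Gam q ⧸ G, om D z * ENNReal.ofReal
        (Complex.normSq (f ((c.out : Gam q)⁻¹ • z : X).1)) := by
    intro z
    rw [tsum_fintype, Finset.mul_sum]
  simp only [h1]
  rw [lintegral_finsetSum']
  · exact ENNReal.sum_ne_top.2 fun c _ => l1_one h _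
  · intro c _
    exact ((measurable_om D).mul (hm.comp (measurable_const_smul _))).aemeasurable

end

end Pool.Agent.Lib.H56D
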