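import Pool.Agent.Lib.H56D.Defs
import Pool.Agent.Lib.H56.Gen.D3.Gap
import Pool.Agent.Lib.H56.Gen.D4.Gap
import Pool.Agent.Lib.H56.Gen.D7.Gap
import Pool.Agent.Lib.H56.Gen.D8.Gap

/-!
# O1: the data of the four fields
-/

set_option maxRecDepth 100000

namespace Pool.Agent.Lib.H56D

open Matrix hiding J
open MeasureTheory Topology Filter
open Pool.Agent.Lib.H56.Picard hiding O Gam mem_Gam star_mem_O T_mem sg_mem
open Pool.Agent.Lib.H56.Gen
open scoped ENNReal

noncomputable section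

/-- A point with nonzero cusp sum has a high translate. -/
lemma exists_high_of_cuspSum {q : QD} {h : ℝ} {v : ℝ → ℝ≥0∞} (hv0 : ∀ u ≤ h, v u = 0)
    {z : X} (hc : cuspSum (OO q) star_mem v z ≠ 0) : ∃ γ : Gam q, h < height (γ • z : X).1 := by
  unfold cuspSum at hc
  rw [Ne, ENNReal.tsum_eq_zero] at hc
  push Not at hc
  obtain ⟨c, hc⟩ := hc
  refine ⟨(c.out : Gam q)⁻¹, ?_⟩
  by_contra hcon
  exact hc (hv0 _ (not_lt.mp hcon))

/-- The covering height of a certificate. -/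
theorem high_of_cert {E : EP} {q : QD} {p : Par} {w1 w2 : ℤ × ℤ} {Le : List Ent} {Lc : List Cos}
    {tw tv : Tr} {M4 Pm U1 kf : ℕ} (hC : CertOK E q p w1 w2 Le Lc tw tv M4 Pm U1 kf)
    {d : PD} (hd : pdOK p d = true) (hWS : 0 < d.WS) (hVS : 0 < d.VS) (hc0 : 0 < p.c)
    (K : Cusp q) {k0 L : ℝ} (hk0 : 0 ≤ k0)
    (hL0 : 0 ≤ L)
    (h1a : (d.m1a : ℝ) / d.ms ≤ ((p.hn : ℝ) / p.hd) ^ 2 * (2 * Real.pi / K.P) ^ 2)
    (h1b : (d.m1b : ℝ) / d.ms ≤ ((p.hn : ℝ) / p.hd) * L * (2 * Real.pi / K.P))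
    (h2a : (d.m2a : ℝ) / d.ms ≤ ((p.hn : ℝ) / p.hd) * (4 * Real.pi ^ 2 * k0)) (z : X) :
    ∃ γ : Gam q, (p.hn : ℝ) / p.hd < height (γ • z : X).1 := by
  obtain ⟨w, V, B1, B2, B1', B2', M, cw, hw, mV, hV0, hB1, hB2, cB1, cB2, cB1', cB2', hB1h, hB2h,
    hM1, hM2, hV1, hV2, hwt, hvt⟩ := poly_data hC.ok hd K.hP hk0 hL0 h1a h1b h2a
  set h : ℝ := (p.hn : ℝ) / p.hd with hh
  classical
  set wE : ℝ → ℝ≥0∞ := fun u => if u ≤ h then 0 else ENNReal.ofReal (w u) with hwE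
  set vE : ℝ → ℝ≥0∞ := fun u => if u ≤ h then 0 else ENNReal.ofReal (V u) with hvE
  have a1 : ∀ u, h < u → wE u = ENNReal.ofReal (w u) := fun u hu => if_neg (not_le.mpr hu)
  have a2 : ∀ u ≤ h, wE u = 0 := fun u hu => if_pos hu
  have a3 : ∀ u, h < u → vE u = ENNReal.ofReal (V u) := fun u hu => if_neg (not_le.mpr hu)
  have a4 : ∀ u ≤ h, vE u = 0 := fun u hu => if_pos hu
  obtain ⟨b1, b2⟩ := bounds hC hWS hVS a1 a2 a3 a4 hwt hvt
  have hc1 : (p.c : ℝ≥0∞) / d.VS ≠ 0 := by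
    rw [Ne, ENNReal.div_eq_zero_iff, not_or]
    exact ⟨by exact_mod_cast hc0.ne', ENNReal.natCast_ne_top _⟩
  refine exists_high_of_cuspSum a4 (v := vE) fun h0 => ?_
  have := b2 z
  rw [h0] at this
  exact hc1 (le_zero_iff.mp this)

/-- With numerical conditions on natural numbers. -/
theorem high_LD {E : EP} {q : QD} {p : Par} {w1 w2 : ℤ × ℤ} {Le : List Ent} {Lc : List Cos}
    {tw tv : Tr} {M4 Pm U1 kf : ℕ} (hC : CertOK E q p w1 w2 Le Lc tw tv M4 Pm U1 kf)
    {d : PD} (hd : pdOK p d = true) (hWS : 0 < d.WS) (hVS : 0 < d.VS) (hc0 : 0 < p.c)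
    (D : LD q) {ka kb : ℤ} (hka : 0 ≤ ka) (hkb : 0 < kb)
    {dP Pu Pv : ℕ} (hdP : D.m ^ 2 * dd q = dP) (hms : 0 < d.ms) (hPv : 0 < Pv)
    (hPu : dP * Pv ^ 2 ≤ Pu ^ 2)
    (n1 : d.m1a * (p.hd ^ 2 * dP) * 10 ^ 12 ≤ d.ms * (p.hn ^ 2 * (4 * 3141592 ^ 2)))
    (n2 : d.m1b * (p.hd * Pu) * 10 ^ 6 ≤ d.ms * (p.hn * (2 * 3141592)) * Pv)
    (n3 : (d.m2a : ℤ) * (p.hd * kb) * 10 ^ 12 ≤ d.ms * (p.hn * (4 * 3141592 ^ 2 * ka))) (z : X) :
    ∃ γ : Gam q, (p.hn : ℝ) / p.hd < height (γ • z : X).1 := by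
  have hdP0 : 0 < dP := by
    have h1 := D.hm
    have h2 := dd_pos q
    have h3 : 0 < D.m ^ 2 * dd q := by positivity
    rw [hdP] at h3
    exact_mod_cast h3
  have hP2 : D.K.P ^ 2 ≤ (dP : ℝ) := by
    rw [D.P_sq, hdP]
    push_cast
    exact le_refl _
  have hka' : (0 : ℝ) ≤ ka := by exact_mod_cast hka
  have hkb' : (0 : ℝ) < kb := by exact_mod_cast hkb
  exact high_of_cert hC hd hWS hVS hc0 D.K (k0 := (ka : ℝ) / kb) (L := 1) (by positivity)
    zero_le_one (num_a hms hC.ok.hd0 hdP0 hP2 D.K.hP n1)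
    (num_b hms hC.ok.hd0 hPv hP2 D.K.hP hPu n2) (num_c hms hC.ok.hd0 hkb hka n3) z

/-- `ℤ[i]`, level one -/
def dI1 : LD qI where
  p := (1, 0)
  x1 := (1, 1)
  x2 := (-1, 1)
  s1 := (1, -1)
  s2 := (-1, -1)
  y1 := (-1, 0)
  y2 := (-1, 0)
  z := (0, 1)
  m := 1
  hp0 := by simp [np, qI]
  hs1 := by simp [pm, cp, qI]
  hs2 := by simp [pm, cp, qI]
  r1 := by simp [np, tp, pm, qI]
  r2 := by simp [np, tp, pm, qI]
  hz := by simp [tp, pm, qI]
  hz' := by simp [pm, qI]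
  hm := by norm_num
  cov := by simp [dp, pm, qI]
  cen := by
    intro a b h
    simp only [tp, pm, qI] at h ⊢
    omega

/-- `ℤ[ω]`, level one -/
def dW1 : LD qW where
  p := (1, 0)
  x1 := (1, 0)
  x2 := (0, 1)
  s1 := (1, 0)
  s2 := (1, -1)
  y1 := (-1, 1)
  y2 := (-1, 1)
  z := (-1, 2)
  m := 2
  hp0 := by simp [np, qW]
  hs1 := by simp [pm, cp, qW]
  hs2 := by simp [pm, cp, qW]
  r1 := by simp [np, tp, pm, qW]
  r2 := by simp [np, tp, pm, qW]
  hz := by simp [tp, pm, qW]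
  hz' := by simp [pm, qW]
  hm := by norm_num
  cov := by simp [dp, pm, qW]
  cen := by
    intro a b h
    simp only [tp, pm, qW] at h ⊢
    omega

lemma el_one' {q : QD} : el q 1 0 = 1 := el_one

theorem highI (z : X) : ∃ γ : Gam qI, (7 : ℝ) / 10 < height (γ • z : X).1 := by
  have h := high_LD D4.cert D4.okpd (by decide +kernel) (by decide +kernel)
      (by decide +kernel) dI8 (ka := 1) (kb := 32) (by norm_num)
      (by norm_num) (dP := 64) (Pu := 80000) (Pv := 10000)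
      (by decide +kernel) (by decide +kernel) (by norm_num) (by norm_num) (by decide +kernel)
      (by decide +kernel) (by decide +kernel) z
  have e1 : D4.par.hn = 7 := rfl
  have e2 : D4.par.hd = 10 := rfl
  rw [e1, e2] at h
  exact_mod_cast h

theorem highW (z : X) : ∃ γ : Gam qW, (3 : ℝ) / 4 < height (γ • z : X).1 := by
  have h := high_LD D3.cert D3.okpd (by decide +kernel) (by decide +kernel)
      (by decide +kernel) dW4 (ka := 1) (kb := 48) (by norm_num)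
      (by norm_num) (dP := 192) (Pu := 138565) (Pv := 10000)
      (by decide +kernel) (by decide +kernel) (by norm_num) (by norm_num) (by decide +kernel)
      (by decide +kernel) (by decide +kernel) z
  have e1 : D3.par.hn = 3 := rfl
  have e2 : D3.par.hd = 4 := rfl
  rw [e1, e2] at h
  exact_mod_cast h

theorem high7 (z : X) : ∃ γ : Gam q7, (3 : ℝ) / 5 < height (γ • z : X).1 := by
  have h := high_LD D7.cert D7.okpd (by decide +kernel) (by decide +kernel)
      (by decide +kernel) d7 (ka := 1) (kb := 7) (by norm_num)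
      (by norm_num) (dP := 28) (Pu := 52916) (Pv := 10000)
      (by decide +kernel) (by decide +kernel) (by norm_num) (by norm_num) (by decide +kernel)
      (by decide +kernel) (by decide +kernel) z
  have e1 : D7.par.hn = 3 := rfl
  have e2 : D7.par.hd = 5 := rfl
  rw [e1, e2] at h
  exact_mod_cast h

theorem high8 (z : X) : ∃ γ : Gam q8, (2 : ℝ) / 5 < height (γ • z : X).1 := by
  have h := high_LD D8.cert D8.okpd (by decide +kernel) (by decide +kernel)
      (by decide +kernel) d8 (ka := 1) (kb := 16) (by norm_num)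
      (by norm_num) (dP := 8) (Pu := 28285) (Pv := 10000)
      (by decide +kernel) (by decide +kernel) (by norm_num) (by norm_num) (by decide +kernel)
      (by decide +kernel) (by decide +kernel) z
  have e1 : D8.par.hn = 2 := rfl
  have e2 : D8.par.hd = 5 := rfl
  rw [e1, e2] at h
  exact_mod_cast h

/-- The Gaussian field. -/
def cI : CD qI := ⟨dI1.K, el_one, 7 / 10, by norm_num, by norm_num, highI⟩

/-- The Eisenstein field. -/
def cW : CD qW := ⟨dW1.K, el_one, 3 / 4, by norm_num, by norm_num, highW⟩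

/-- The field of discriminant `-7`. -/
def c7 : CD q7 := ⟨d7.K, el_one, 3 / 5, by norm_num, by norm_num, high7⟩

/-- The field of discriminant `-8`. -/
def c8 : CD q8 := ⟨d8.K, el_one, 2 / 5, by norm_num, by norm_num, high8⟩

end

end Pool.Agent.Lib.H56D
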