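import Pool.Agent.Lib.H56D.Defs

/-!
# O3: the weight of the full group
-/

namespace Pool.Agent.Lib.H56D

open Matrix hiding J
open MeasureTheory Topology Filter
open Pool.Agent.Lib.H56.Picard hiding O Gam mem_Gam star_mem_O T_mem sg_mem
open Pool.Agent.Lib.H56.Gen
open scoped ENNReal

noncomputable section

theorem O3_B_le_stab {q : QD} (K : Cusp q) : K.B ≤ stab (OO q) star_mem := by
  rintro γ ⟨m, n, w, -, -, h⟩
  show mat γ.1 2 0 = 0
  rw [h]
  simp [TM]

variable {q : QD} (D : CD q)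

/-- `D.high`, then a translation of `D.K.B` into the box (`Cusp.exists_unique_B`); elements of
`D.K.B` have matrix `TM` with `2 0` entry zero, so they keep the height (`height_eq_of_zero`). -/
theorem exists_box (z : X) :
    ∃ γ : Gam q, (γ • z : X).1 ∈ D.K.Box ∧ D.h < height (γ • z : X).1 := by
  obtain ⟨γ, hγ⟩ := D.high z
  obtain ⟨b, hb, -⟩ := D.K.exists_unique_B (z := (γ • z : X).1) (γ • z : X).2
  refine ⟨b.1 * γ, ?_, ?_⟩
  · rw [mul_smul]
    exact hb
  · rw [mul_smul]
    have h3 := height_stab one_le_norm (⟨b.1, O3_B_le_stab D.K b.2⟩ : stab (OO q) star_mem)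
      (γ • z)
    have h4 : (b.1 • (γ • z) : X) =
      (⟨b.1, O3_B_le_stab D.K b.2⟩ : stab (OO q) star_mem) • (γ • z) := rfl
    rw [h4, h3]
    exact hγ

/-- `measurable_omg`, `measurableSet_Box`. -/
theorem measurable_om : Measurable (om D) :=
  measurable_omg H56.Gen.finite_ball (measurableSet_Box D.K) D.h

theorem O3_one_le_cnt (z : X) : 1 ≤ cnt (OO q) star_mem D.K.Box D.h z :=
  one_le_cnt (exists_box D z)

/-- `sum_omg` with `one_le_cnt`, `cnt_ne_top` (`Box_compact`), see the proof of `main_abstract`. -/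
theorem sum_om (z : X) : ∑' γ : Gam q, om D (γ • z) = 1 :=
  sum_omg (O3_one_le_cnt D z)
    (cnt_ne_top H56.Gen.finite_ball one_le_norm (fun r R hr => Box_compact D.K r R hr) D.hh z)

/-- `omg_le`. -/
theorem om_le (z : X) : om D z ≤ bx D.K.Box z.1 * above D.h (height z.1) :=
  omg_le (O3_one_le_cnt D z)

theorem om_le_one (z : X) : om D z ≤ 1 := by
  have h1 : om D ((1 : Gam q) • z) ≤ 1 := by
    rw [← sum_om D z]
    exact ENNReal.le_tsum _
  rwa [one_smul] at h1

theorem om_zero {z : X} (h : ¬(z.1 ∈ D.K.Box ∧ D.h < height z.1)) : om D z = 0 := by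
  have h2 := om_le D z
  have h3 : bx D.K.Box z.1 * above D.h (height z.1) = 0 := by
    by_cases hb : z.1 ∈ D.K.Box
    · have hnot : height z.1 ∉ Set.Ioi D.h := fun hc => h ⟨hb, hc⟩
      have : above D.h (height z.1) = 0 := Set.indicator_of_notMem hnot _
      rw [this, mul_zero]
    · have : bx D.K.Box z.1 = 0 := if_neg hb
      rw [this, zero_mul]
  rw [h3] at h2
  exact le_zero_iff.1 h2

include D in
/-- The covering hypothesis of `green_sub`, `green_level`: `exists_box` and `Box_compact D.K D.h R`. -/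
theorem cover (R : ℝ) : ∃ K : Set (ℂ × ℂ), IsCompact K ∧ K ⊆ U ∧ ∀ z ∈ U,
    (∀ γ : Gam q, height (act (mat γ.1) z) ≤ R) → ∃ γ : Gam q, act (mat γ.1) z ∈ K := by
  obtain ⟨K, hK, hKU, hKc⟩ := Box_compact D.K D.h R D.hh
  refine ⟨K, hK, hKU, fun z hz hR => ?_⟩
  obtain ⟨γ, h1, h2⟩ := exists_box D ⟨z, hz⟩
  exact ⟨γ, hKc _ h1 h2.le (hR γ)⟩

end

end Pool.Agent.Lib.H56D
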