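import Pool.Agent.Lib.H56D.O3

/-!
# O5: the weight of a subgroup
-/

namespace Pool.Agent.Lib.H56D

open Matrix hiding J
open MeasureTheory Topology Filter
open Pool.Agent.Lib.H56.Picard hiding O Gam mem_Gam star_mem_O T_mem sg_mem
open Pool.Agent.Lib.H56.Gen
open scoped ENNReal

noncomputable section

variable {q : QD} (D : CD q) (G : Subgroup (Gam q)) [G.FiniteIndex]

theorem measurable_wG : Measurable (wG D G) := by
  have hfinq : Finite (Gam q ⧸ G) := Subgroup.finite_quotient_of_finiteIndex
  exact Measurable.ennreal_tsum fun c =>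
    (measurable_om D).comp (measurable_const_smul (c.out : Gam q))

/-- The translates of `wG D G` under `G` sum to one (`bijective_out`; see the proof of `green_level`:
`hw'c`). -/
theorem sum_wG (z : X) : ∑' γ : G, wG D G (γ • z) = 1 := by
  rw [← sum_om D z, ← (Equiv.ofBijective _ (bijective_out G)).tsum_eq, ENNReal.tsum_prod',
    ENNReal.tsum_comm]
  refine tsum_congr fun c => tsum_congr fun γ => ?_
  have h1 : ((Equiv.ofBijective _ (bijective_out G)) (γ, c)) • z =
      (γ.out : Gam q) • (c • z) := mul_smul (γ.out : Gam q) (c : Gam q) z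
  rw [h1]

/-- `om ≤ 1`; the number of cosets is the index. -/
theorem wG_ne_top (z : X) : wG D G z ≠ ⊤ := by
  have h1 : wG D G ((1 : G) • z) ≤ 1 := by
    rw [← sum_wG D G z]
    exact ENNReal.le_tsum _
  rw [one_smul] at h1
  exact ne_top_of_le_ne_top ENNReal.one_ne_top h1

/-- `lintegral_cosets`. -/
theorem lintegral_wG {φ : X → ℝ≥0∞} (hφ : Measurable φ) :
    ∫⁻ z, wG D G z * φ z ∂mu =
      ∫⁻ z, om D z * ∑' c : Gam q ⧸ G, φ ((c.out : Gam q)⁻¹ • z) ∂mu := by
  have hfinq : Finite (Gam q ⧸ G) := Subgroup.finite_quotient_of_finiteIndex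
  exact lintegral_cosets (measurable_om D) hφ

/-- In particular for `normSq f` (`PhiS`, `conj`). -/
theorem lintegral_PhiS {f : ℂ × ℂ → ℂ} (hf : ContDiffOn ℝ 2 f U) :
    ∫⁻ z, wG D G z * ENNReal.ofReal (Complex.normSq (f z.1)) ∂mu =
      ∫⁻ z, om D z * PhiS G f z ∂mu := by
  have hm : Measurable fun z : X => ENNReal.ofReal (Complex.normSq (f z.1)) :=
    (ENNReal.continuous_ofReal.comp (Complex.continuous_normSq.comp
      (continuousOn_iff_continuous_domRestrict.mp hf.continuousOn))).measurable
  exact lintegral_wG D G hm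

end

end Pool.Agent.Lib.H56D
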