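import Pool.Agent.Lib.H56D.Gen
import Pool.Agent.Lib.H56D.BT
import Pool.Agent.Lib.H56C.B4
import Pool.Agent.Lib.H21C.T33B
import Pool.Agent.Lib.H79T.M2

/-!
# H56D, PT: the pointwise theorem

No simple value: cases (1), (2) of `Adm`: `H56C.B4`; case (3): `B2_three`, `H56C.B1`, `H56C.B4_three`, `H21C.case_cl3` and `H79T.case_cl4`. Then `PT_gen`.
-/

set_option autoImplicit false

open Finset

namespace H56D

open Pool.Agent.H69Hopf
open H30K (KB Cyc)
open H56C

/-- the class of the admissible families -/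
def AC : (N : ℕ) → (Fin N → ℝ) → Prop := fun _ β => Adm β

theorem AC_her : Her AC := fun _ _ _ _ hf hA => adm_her hA hf

theorem PT_base (n : ℕ) (R : Arr (2 * n)) (hR : IsAlgCurv R) (β : Fin (2 * n) → ℝ) (hc : Cyc β R) (hA : AC (2 * n) β) (h : ℝ) (hh : 0 ≤ h) (hK : KB h R)
    (h2 : ∀ i, 2 ≤ cl β i) : 4 ^ n * (n.factorial : ℝ) * h ^ n ≤ (-1) ^ n * gaussBonnet n R := by
  rcases hA with hA | hA | ⟨h3, h6⟩
  · exact B4 hR hc (Or.inl hA) hh hK h2
  · exact B4 hR hc (Or.inr hA) hh hK h2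
  · rcases B2_three h3 h6 h2 with hn | ⟨rfl, h4 | ⟨p, h4⟩ | ⟨p, h4⟩⟩
    · exact B1 hn hR hh hK
    · exact B4_three hR hc hh hK h4
    · have h1 := H21C.case_cl3 (R := R) hR hh hK (β := β) hc (p := p) h4
      have e : gaussBonnet 3 R = HopfSix.gaussBonnet R := H30K.gb3 R
      have h5 : HopfSix.gaussBonnet R ≤ -(384 * h ^ 3) := h1
      have hf : (Nat.factorial 3 : ℝ) = 6 := by norm_num [Nat.factorial]
      rw [e, hf]
      linarith
    · have h1 := H79T.case_cl4 (R := R) hR hh hK (β := β) hc (p := p) h4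
      have e : gaussBonnet 3 R = HopfSix.gaussBonnet R := H30K.gb3 R
      have h5 : HopfSix.gaussBonnet R ≤ -(384 * h ^ 3) := h1
      have hf : (Nat.factorial 3 : ℝ) = 6 := by norm_num [Nat.factorial]
      rw [e, hf]
      linarith

theorem PT (n : ℕ) : PTA AC n := PT_gen AC_her PT_base n

end H56D
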