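import Pool.Agent.Lib.H56D.Defs

/-!
# R1: bridge from the elementary form of the statement: square integrability
-/

namespace Pool.Agent.Lib.H56D

open Matrix hiding J
open MeasureTheory Topology Filter
open Pool.Agent.Lib.H56.Picard hiding O Gam mem_Gam star_mem_O T_mem sg_mem
open Pool.Agent.Lib.H56.Gen
open scoped ENNReal

noncomputable section

/-- The Siegel set of the statement. -/
def Sieg : Set (ℂ × ℂ) := {z | 1 < height z ∧ ‖z.2‖ ≤ 4 ∧ |z.1.im| ≤ 4}

lemma measurableSet_Sieg : MeasurableSet Sieg := by
  have h1 : MeasurableSet {z : ℂ × ℂ | 1 < height z} :=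
    measurableSet_lt measurable_const continuous_height.measurable
  have h2 : MeasurableSet {z : ℂ × ℂ | ‖z.2‖ ≤ 4} :=
    measurableSet_le (continuous_snd.norm).measurable measurable_const
  have h3 : MeasurableSet {z : ℂ × ℂ | |z.1.im| ≤ 4} :=
    measurableSet_le ((Complex.continuous_im.comp continuous_fst).abs).measurable measurable_const
  exact h1.inter (h2.inter h3)

/-- The integral over the box in coordinates is at most a constant times the integral over the
Siegel set. -/
theorem L2_of_Sieg {q : QD} (K : Cusp q) (hK : ‖K.e1‖ + ‖K.e2‖ ≤ 4) (hP : K.P ≤ 8)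
    {f : ℂ × ℂ → ℂ} (hf : ContinuousOn f U)
    (hL2 : ∫⁻ z in Sieg, ENNReal.ofReal ((height z)⁻¹ ^ 3 * Complex.normSq (f z)) < ⊤) :
    ∫⁻ u in Set.Ioi (1:ℝ), ∫⁻ s in Set.Icc (0:ℝ) 1, ∫⁻ t in Set.Icc (0:ℝ) 1,
      ∫⁻ v in Set.Icc (0:ℝ) K.P, ENNReal.ofReal (u⁻¹ ^ 3 *
        Complex.normSq (f (PsiE K.e1 K.e2 s t v u))) ≠ ⊤ := by
  set φ : ℂ × ℂ → ℝ≥0∞ := fun z => above 1 (height z) * ENNReal.ofReal (Complex.normSq (f z))
    with hφ
  have mfX : Measurable fun z : X => ENNReal.ofReal (Complex.normSq (f z.1)) :=
    (ENNReal.continuous_ofReal.comp (Complex.continuous_normSq.comp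
      (continuousOn_iff_continuous_domRestrict.mp hf))).measurable
  have mφ : Measurable fun z : X => φ z.1 :=
    ((measurable_above 1).comp measurable_height).mul mfX
  have h1 := lintegral_Box' K φ mφ
  have h2 : ∫⁻ u in Set.Ioi (0 : ℝ), ∫⁻ s in Set.Icc (0 : ℝ) 1, ∫⁻ t in Set.Icc (0 : ℝ) 1,
        ∫⁻ v in Set.Icc (0 : ℝ) K.P, ENNReal.ofReal (u⁻¹ ^ 3) * φ (PsiE K.e1 K.e2 s t v u) =
      ∫⁻ u in Set.Ioi (1:ℝ), ∫⁻ s in Set.Icc (0:ℝ) 1, ∫⁻ t in Set.Icc (0:ℝ) 1,
      ∫⁻ v in Set.Icc (0:ℝ) K.P, ENNReal.ofReal (u⁻¹ ^ 3 *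
        Complex.normSq (f (PsiE K.e1 K.e2 s t v u))) := by
    rw [← lintegral_indicator measurableSet_Ioi, ← lintegral_indicator measurableSet_Ioi]
    apply lintegral_congr
    intro u
    by_cases hu : 1 < u
    · have hu0 : 0 < u := by linarith
      rw [Set.indicator_of_mem (show u ∈ Set.Ioi 0 from hu0),
        Set.indicator_of_mem (show u ∈ Set.Ioi 1 from hu)]
      apply lintegral_congr; intro s
      apply lintegral_congr; intro t
      apply lintegral_congr; intro v
      have e1 : above 1 (height (PsiE K.e1 K.e2 s t v u)) = 1 := by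
        rw [ht_PsiE]
        exact Set.indicator_of_mem (show u ∈ Set.Ioi 1 from hu) _
      simp only [hφ]
      rw [e1, one_mul, ← ENNReal.ofReal_mul (by positivity)]
    · rw [Set.indicator_of_notMem (show u ∉ Set.Ioi 1 from hu)]
      by_cases hu0 : 0 < u
      · rw [Set.indicator_of_mem (show u ∈ Set.Ioi 0 from hu0)]
        have e1 : ∀ s t v, ENNReal.ofReal (u⁻¹ ^ 3) * φ (PsiE K.e1 K.e2 s t v u) = 0 := by
          intro s t v
          have e2 : above 1 (height (PsiE K.e1 K.e2 s t v u)) = 0 := by
            rw [ht_PsiE]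
            exact Set.indicator_of_notMem (show u ∉ Set.Ioi 1 from hu) _
          simp only [hφ]
          rw [e2, zero_mul, mul_zero]
        simp only [e1, lintegral_zero]
      · rw [Set.indicator_of_notMem (show u ∉ Set.Ioi 0 from hu0)]
  rw [← h2]
  have hc : ENNReal.ofReal (K.cv / 4) ≠ 0 := by
    have := K.cv_pos
    rw [Ne, ENNReal.ofReal_eq_zero, not_le]
    positivity
  intro htop
  rw [htop, ENNReal.mul_top hc] at h1
  -- compare with the Siegel set
  have h3 : ∫⁻ z in {z : X | z.1 ∈ K.Box}, φ z.1 ∂mu ≤
      ∫⁻ z in Sieg, ENNReal.ofReal ((height z)⁻¹ ^ 3 * Complex.normSq (f z)) := by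
    have hs : MeasurableSet {z : X | z.1 ∈ K.Box} :=
      (measurableSet_Box K).preimage measurable_subtype_coe
    have h4 : ∫⁻ z in {z : X | z.1 ∈ K.Box}, φ z.1 ∂mu ≤
        ∫⁻ z : X, Sieg.indicator (fun z => ENNReal.ofReal (Complex.normSq (f z))) z.1 ∂mu := by
      rw [← lintegral_indicator hs]
      refine lintegral_mono fun z => ?_
      by_cases hz : z ∈ {z : X | z.1 ∈ K.Box}
      · rw [Set.indicator_of_mem hz]
        by_cases hh : 1 < height z.1
        · have hS : z.1 ∈ Sieg := by
            obtain ⟨-, hs1, ht1, hv1⟩ := (hz : z.1 ∈ K.Box)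
            refine ⟨hh, ?_, ?_⟩
            · rw [← coords_snd K z.1]
              refine (norm_add_le _ _).trans ?_
              rw [norm_mul, norm_mul, Complex.norm_real, Complex.norm_real, Real.norm_eq_abs,
                Real.norm_eq_abs, abs_of_nonneg hs1.1, abs_of_nonneg ht1.1]
              have a1 : K.sc z.1 * ‖K.e1‖ ≤ 1 * ‖K.e1‖ := by
                gcongr
                exact hs1.2.le
              have a2 : K.tc z.1 * ‖K.e2‖ ≤ 1 * ‖K.e2‖ := by
                gcongr
                exact ht1.2.le
              linarith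
            · have a1 := hv1.1
              have a2 := hv1.2
              unfold Cusp.vc at a1 a2
              rw [abs_le]
              constructor <;> linarith
          rw [Set.indicator_of_mem hS]
          have e1 : above 1 (height z.1) = 1 :=
            Set.indicator_of_mem (show height z.1 ∈ Set.Ioi 1 from hh) _
          simp only [hφ]
          rw [e1, one_mul]
        · have e1 : above 1 (height z.1) = 0 :=
            Set.indicator_of_notMem (show height z.1 ∉ Set.Ioi 1 from hh) _
          simp only [hφ]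
          rw [e1, zero_mul]
          exact bot_le
      · rw [Set.indicator_of_notMem hz]
        exact bot_le
    refine h4.trans ?_
    -- integral over `X` in ambient coordinates
    have h5 : ∫⁻ z : X, Sieg.indicator (fun z => ENNReal.ofReal (Complex.normSq (f z))) z.1 ∂mu =
        ∫⁻ z in {z : ℂ × ℂ | 0 < height z}, ENNReal.ofReal ((height z)⁻¹ ^ 3) *
          Sieg.indicator (fun z => ENNReal.ofReal (Complex.normSq (f z))) z := by
      set g : X → ℝ≥0∞ := fun z => Sieg.indicator
        (fun z => ENNReal.ofReal (Complex.normSq (f z))) z.1 with hg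
      have mg : Measurable g := by
        have e : g = fun z : X => (Subtype.val ⁻¹' Sieg : Set X).indicator
            (fun z : X => ENNReal.ofReal (Complex.normSq (f z.1))) z := by
          funext z
          by_cases hz : z.1 ∈ Sieg
          · simp only [hg]
            rw [Set.indicator_of_mem hz, Set.indicator_of_mem (show z ∈ Subtype.val ⁻¹' Sieg from hz)]
          · simp only [hg]
            rw [Set.indicator_of_notMem hz,
              Set.indicator_of_notMem (show z ∉ Subtype.val ⁻¹' Sieg from hz)]
        rw [e]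
        exact mfX.indicator (measurableSet_Sieg.preimage measurable_subtype_coe)
      set ψ : ℂ × ℂ → ℝ≥0∞ := Function.extend Subtype.val g (fun _ => 0) with hψ
      have hψm : Measurable ψ :=
        (MeasurableEmbedding.subtype_coe measurableSet_siegel).measurable_extend mg
          measurable_const
      have hψX : ∀ z : X, ψ z.1 = g z := fun z => Subtype.val_injective.extend_apply _ _ _
      have e2 : ∫⁻ z : X, g z ∂mu = ∫⁻ z : X, ψ z.1 ∂mu := by simp only [hψX]
      rw [e2, lintegral_mu ψ hψm]
      apply setLIntegral_congr_fun measurableSet_siegel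
      intro z hz
      have := hψX ⟨z, hz⟩
      simp only at this ⊢
      rw [this]
    rw [h5, ← lintegral_indicator measurableSet_siegel, ← lintegral_indicator measurableSet_Sieg]
    refine lintegral_mono fun z => ?_
    by_cases hz : z ∈ Sieg
    · have hz0 : z ∈ {z : ℂ × ℂ | 0 < height z} := lt_trans zero_lt_one hz.1
      rw [Set.indicator_of_mem hz0, Set.indicator_of_mem hz, Set.indicator_of_mem hz,
        ← ENNReal.ofReal_mul (by
          have h7 : 0 < height z := hz0
          positivity)]
    · rw [Set.indicator_of_notMem hz]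
      by_cases hz0 : z ∈ {z : ℂ × ℂ | 0 < height z}
      · rw [Set.indicator_of_mem hz0, Set.indicator_of_notMem hz, mul_zero]
      · rw [Set.indicator_of_notMem hz0]
  rw [h1] at h3
  exact (h3.trans_lt hL2).ne rfl

end

end Pool.Agent.Lib.H56D
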