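import Pool.Agent.Lib.H56D.Defs

/-!
# R2: bridge from the elementary form of the statement: the groups and the index
-/

namespace Pool.Agent.Lib.H56D

open Matrix hiding J
open MeasureTheory Topology Filter
open Pool.Agent.Lib.H56.Picard hiding O Gam mem_Gam star_mem_O T_mem sg_mem
open Pool.Agent.Lib.H56.Gen
open scoped ENNReal

noncomputable section

/-- Principal congruence subgroups as sets of matrices. -/
def GamS (S : Set ℂ) (n : ℕ) : Set (Matrix (Fin 3) (Fin 3) ℂ) :=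
  {g | gᴴ * Pool.Agent.Lib.H56.Picard.J * g = Pool.Agent.Lib.H56.Picard.J ∧ g.det = 1 ∧ (∀ i j, g i j ∈ S) ∧
    ∀ i j, ∃ x ∈ S, g i j - (1 : Matrix (Fin 3) (Fin 3) ℂ) i j = n * x}

variable {q : QD} {S : Set ℂ}

lemma mat_mem_GamS (hS : ∀ x, x ∈ S ↔ x ∈ OO q) {n : ℕ} {γ : Gam q} (h : γ ∈ GamN q (n : ℂ)) :
    mat γ.1 ∈ GamS S n := by
  refine ⟨mat_unitary γ.1, γ.1.2.2, fun i j => (hS _).2 (γ.2 i j), fun i j => ?_⟩
  obtain ⟨x, hx, hxe⟩ := h i j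
  exact ⟨x, (hS x).2 hx, hxe⟩

lemma exists_of_mem_GamS (hS : ∀ x, x ∈ S ↔ x ∈ OO q) {n : ℕ} {g : Matrix (Fin 3) (Fin 3) ℂ}
    (h : g ∈ GamS S n) : ∃ γ : Gam q, mat γ.1 = g ∧ γ ∈ GamN q (n : ℂ) := by
  obtain ⟨h1, h2, h3, h4⟩ := h
  refine ⟨⟨mkSU g h1 h2, fun i j => ?_⟩, rfl, fun i j => ?_⟩
  · rw [mat_mkSU]
    exact (hS _).1 (h3 i j)
  · obtain ⟨x, hx, hxe⟩ := h4 i j
    exact ⟨x, (hS x).1 hx, hxe⟩

lemma mat_mem_one (hS : ∀ x, x ∈ S ↔ x ∈ OO q) (γ : Gam q) : mat γ.1 ∈ GamS S 1 := by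
  refine ⟨mat_unitary γ.1, γ.1.2.2, fun i j => (hS _).2 (γ.2 i j), fun i j => ?_⟩
  refine ⟨_, (hS _).2 ((OO q).sub_mem (γ.2 i j) ?_), by rw [Nat.cast_one, one_mul]⟩
  rw [Matrix.one_apply]
  split_ifs
  · exact (OO q).one_mem
  · exact (OO q).zero_mem

/-- The number of cosets is the index. -/
theorem ncard_cosets (hS : ∀ x, x ∈ S ↔ x ∈ OO q) (n : ℕ) :
    Set.ncard {C : Set (Matrix (Fin 3) (Fin 3) ℂ) | ∃ g ∈ GamS S 1,
      C = (fun h => g * h) '' GamS S n} = (GamN q (n : ℂ)).index := by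
  set Φ : Gam q ⧸ GamN q (n : ℂ) → Set (Matrix (Fin 3) (Fin 3) ℂ) :=
    fun c => (fun h => mat (c.out : Gam q).1 * h) '' GamS S n with hΦ
  -- a translate depends only on the coset
  have key : ∀ γ : Gam q, (fun h => mat γ.1 * h) '' GamS S n =
      Φ (γ : Gam q ⧸ GamN q (n : ℂ)) := by
    intro γ
    have h1 : γ⁻¹ * ((γ : Gam q ⧸ GamN q (n : ℂ)).out : Gam q) ∈ GamN q (n : ℂ) := by
      rw [← QuotientGroup.eq, QuotientGroup.out_eq']
    have h2 : ((γ : Gam q ⧸ GamN q (n : ℂ)).out : Gam q)⁻¹ * γ ∈ GamN q (n : ℂ) := by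
      rw [← QuotientGroup.eq, QuotientGroup.out_eq']
    set δ : Gam q := ((γ : Gam q ⧸ GamN q (n : ℂ)).out : Gam q) with hδ
    ext M
    constructor
    · rintro ⟨h, hh, rfl⟩
      obtain ⟨η, rfl, hη⟩ := exists_of_mem_GamS hS hh
      refine ⟨mat ((δ⁻¹ * γ) * η).1, mat_mem_GamS hS ((GamN q (n : ℂ)).mul_mem h2 hη), ?_⟩
      show mat δ.1 * mat ((δ⁻¹ * γ) * η).1 = mat γ.1 * mat η.1
      have e1 : δ * ((δ⁻¹ * γ) * η) = γ * η := by group
      calc mat δ.1 * mat ((δ⁻¹ * γ) * η).1 = mat (δ * ((δ⁻¹ * γ) * η)).1 := rfl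
        _ = mat (γ * η).1 := by rw [e1]
        _ = _ := rfl
    · rintro ⟨h, hh, rfl⟩
      obtain ⟨η, rfl, hη⟩ := exists_of_mem_GamS hS hh
      refine ⟨mat ((γ⁻¹ * δ) * η).1, mat_mem_GamS hS ((GamN q (n : ℂ)).mul_mem h1 hη), ?_⟩
      show mat γ.1 * mat ((γ⁻¹ * δ) * η).1 = mat δ.1 * mat η.1
      have e1 : γ * ((γ⁻¹ * δ) * η) = δ * η := by group
      calc mat γ.1 * mat ((γ⁻¹ * δ) * η).1 = mat (γ * ((γ⁻¹ * δ) * η)).1 := rfl
        _ = mat (δ * η).1 := by rw [e1]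
        _ = _ := rfl
  have hT : {C : Set (Matrix (Fin 3) (Fin 3) ℂ) | ∃ g ∈ GamS S 1,
      C = (fun h => g * h) '' GamS S n} = Set.range Φ := by
    ext C
    constructor
    · rintro ⟨g, hg, rfl⟩
      obtain ⟨γ, rfl, -⟩ := exists_of_mem_GamS hS hg
      exact ⟨(γ : Gam q ⧸ GamN q (n : ℂ)), (key γ).symm⟩
    · rintro ⟨c, rfl⟩
      exact ⟨mat (c.out : Gam q).1, mat_mem_one hS _, rfl⟩
  have hinj : Function.Injective Φ := by
    intro c c' h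
    have h1 : mat (c.out : Gam q).1 ∈ Φ c' := by
      rw [← h]
      refine ⟨1, ?_, by simp⟩
      have := mat_mem_GamS hS (n := n) (GamN q (n : ℂ)).one_mem
      exact this
    obtain ⟨η, hη, he⟩ := h1
    obtain ⟨γ, rfl, hγ⟩ := exists_of_mem_GamS hS hη
    have h2 : (c'.out : Gam q) * γ = (c.out : Gam q) := by
      apply Subtype.ext
      apply mat_injective
      exact he
    rw [← QuotientGroup.out_eq' c, ← QuotientGroup.out_eq' c', ← h2]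
    symm
    rw [QuotientGroup.eq, inv_mul_cancel_left]
    exact hγ
  rw [hT, Subgroup.index, Set.ncard_def, ← Set.image_univ]
  rw [← Set.ncard_def, Set.ncard_image_of_injective _ hinj, Set.ncard_univ]

end

end Pool.Agent.Lib.H56D
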