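import Pool.Agent.Lib.H56D.Z3
import Pool.Agent.Lib.H56D.R1
import Pool.Agent.Lib.H56D.R2
import Pool.Agent.Lib.H89D.CE
import Pool.Agent.Lib.H89D.I2C
import Pool.Agent.Lib.H89D.I3

/-!
# R3: the density theorem in elementary form
-/

namespace Pool.Agent.Lib.H56D

open Matrix hiding J
open MeasureTheory Topology Filter
open Pool.Agent.Lib.H56.Picard hiding O Gam mem_Gam star_mem_O T_mem sg_mem
open Pool.Agent.Lib.H56.Gen
open scoped ENNReal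

noncomputable section

variable {q : QD}

/-- The density theorem for a ring with the covering property and the count. -/
theorem density (D : CD q) (hq : Pool.Agent.Lib.H89D.Count q) {ε : ℝ} (hε : 0 < ε) :
    ∃ C : ℝ, ∀ n : ℕ, 1 ≤ n → ∀ ν : ℝ, 0 < ν → ν ≤ 1 → ∀ (m : ℕ)
      (f : Fin m → ℂ × ℂ → ℂ) (lam : Fin m → ℂ), (∀ i, Eig D (GamN q (n : ℂ)) (f i) (lam i)) →
      (∀ i, (lam i).re ≤ 1 - ν ^ 2) →
      (∀ c : Fin m → ℂ, (∀ z ∈ U, ∑ i, c i * f i z = 0) → c = 0) →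
      (m : ℝ) ≤ C * ν⁻¹ ^ 2 * ((GamN q (n : ℂ)).index : ℝ) ^ (1 - ν + ε) := by
  refine density_of D ?_ ?_ (fun n hn => Pool.Agent.Lib.H89D.le_index q n hn) hε
  · intro ε K hε hK
    exact Pool.Agent.Lib.H89D.count_sum_of hq hε hK
  · intro ε hε
    obtain ⟨C, -, h⟩ := Pool.Agent.Lib.H89D.index_bound q hε
    exact ⟨C, h⟩

/-- Elementary form of the hypothesis: square integrable eigenfunctions of level `n`. -/
structure EigS (S : Set ℂ) (n : ℕ) (f : ℂ × ℂ → ℂ) (lam : ℂ) : Prop where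
  smooth : ContDiffOn ℝ 2 f U
  inv : ∀ g ∈ GamS S n, ∀ z ∈ U, f (act g z) = f z
  eig : ∀ z ∈ U, laplacian f z = -(lam * f z)
  L2 : ∀ g ∈ GamS S 1, ∫⁻ z in Sieg,
    ENNReal.ofReal ((height z)⁻¹ ^ 3 * Complex.normSq (f (act g z))) < ⊤

/-- The density theorem in elementary form. -/
theorem density_S (D : CD q) (hq : Pool.Agent.Lib.H89D.Count q)
    (hK : ‖D.K.e1‖ + ‖D.K.e2‖ ≤ 4) (hP : D.K.P ≤ 8) {S : Set ℂ} (hS : ∀ x, x ∈ S ↔ x ∈ OO q)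
    {ε : ℝ} (hε : 0 < ε) :
    ∃ C : ℝ, ∀ n : ℕ, 1 ≤ n → ∀ ν : ℝ, 0 < ν → ν ≤ 1 → ∀ (m : ℕ)
      (f : Fin m → ℂ × ℂ → ℂ) (lam : Fin m → ℂ), (∀ i, EigS S n (f i) (lam i)) →
      (∀ i, (lam i).re ≤ 1 - ν ^ 2) →
      (∀ c : Fin m → ℂ, (∀ z ∈ U, ∑ i, c i * f i z = 0) → c = 0) →
      (m : ℝ) ≤ C * ν⁻¹ ^ 2 * (Set.ncard {C : Set (Matrix (Fin 3) (Fin 3) ℂ) |
        ∃ g ∈ GamS S 1, C = (fun h => g * h) '' GamS S n} : ℝ) ^ (1 - ν + ε) := by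
  obtain ⟨C, hC⟩ := density D hq hε
  refine ⟨C, fun n hn ν h0 h1 m f lam hf hlam hli => ?_⟩
  rw [ncard_cosets hS n]
  refine hC n hn ν h0 h1 m f lam (fun i => ?_) hlam hli
  have h := hf i
  refine ⟨h.smooth, fun γ hγ z hz => h.inv _ (mat_mem_GamS hS hγ) z hz, h.eig, fun γ => ?_⟩
  have hc : ContinuousOn (fun z => f i (act (mat γ.1) z)) U :=
    h.smooth.continuousOn.comp (fun z hz => (contDiffAt_act γ.1 hz).continuousAt.continuousWithinAt)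
      fun z hz => act_mem_U γ.1 hz
  exact L2_of_Sieg D.K hK hP hc (h.L2 _ (mat_mem_one hS γ))

end

end Pool.Agent.Lib.H56D
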