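import Pool.Agent.Lib.H56D.O1

/-!
# R4: numerical facts on the four fields
-/

namespace Pool.Agent.Lib.H56D

open Matrix hiding J
open Pool.Agent.Lib.H56.Gen

noncomputable section

lemma norm_el_le {q : QD} {a b : ℤ} {r s : ℝ} (h1 : |(a : ℝ) + b * q.t / 2| ≤ r)
    (h2 : |(b : ℝ) * sd q / 2| ≤ s) : ‖el q a b‖ ≤ r + s :=
  (Complex.norm_le_abs_re_add_abs_im _).trans (add_le_add h1 h2)

lemma cI_box : ‖cI.K.e1‖ + ‖cI.K.e2‖ ≤ 4 := by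
  have h1 : ‖cI.K.e1‖ ≤ 1 + 1 := by
    change ‖el qI (pm qI (1, 0) (1, 1)).1 (pm qI (1, 0) (1, 1)).2‖ ≤ 1 + 1
    have e : (pm qI (1, 0) (1, 1)) = (1, 1) := by simp [pm, qI]
    rw [e]
    refine norm_el_le ?_ ?_
    · simp [qI]
    · rw [sd_qI]; norm_num
  have h2 : ‖cI.K.e2‖ ≤ 1 + 1 := by
    change ‖el qI (pm qI (1, 0) (-1, 1)).1 (pm qI (1, 0) (-1, 1)).2‖ ≤ 1 + 1
    have e : (pm qI (1, 0) (-1, 1)) = (-1, 1) := by simp [pm, qI]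
    rw [e]
    refine norm_el_le ?_ ?_
    · simp [qI]
    · rw [sd_qI]; norm_num
  linarith

lemma cI_P : cI.K.P ≤ 8 := by
  change ((1 : ℤ) : ℝ) * sd qI ≤ 8
  rw [sd_qI]
  norm_num

lemma sqrt3_le : √3 ≤ 2 := by
  rw [Real.sqrt_le_left (by norm_num)]; norm_num

lemma sqrt7_le : √7 ≤ 3 := by
  rw [Real.sqrt_le_left (by norm_num)]; norm_num

lemma sqrt8_le : √8 ≤ 3 := by
  rw [Real.sqrt_le_left (by norm_num)]; norm_num

lemma cW_box : ‖cW.K.e1‖ + ‖cW.K.e2‖ ≤ 4 := by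
  have h0 := Real.sqrt_nonneg (3 : ℝ)
  have h3 := sqrt3_le
  have h1 : ‖cW.K.e1‖ ≤ 1 + 0 := by
    change ‖el qW (pm qW (1, 0) (1, 0)).1 (pm qW (1, 0) (1, 0)).2‖ ≤ 1 + 0
    have e : (pm qW (1, 0) (1, 0)) = (1, 0) := by simp [pm, qW]
    rw [e]
    refine norm_el_le ?_ ?_
    · simp
    · simp
  have h2 : ‖cW.K.e2‖ ≤ 1 / 2 + 1 := by
    change ‖el qW (pm qW (1, 0) (0, 1)).1 (pm qW (1, 0) (0, 1)).2‖ ≤ 1 / 2 + 1
    have e : (pm qW (1, 0) (0, 1)) = (0, 1) := by simp [pm, qW]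
    rw [e]
    refine norm_el_le ?_ ?_
    · simp [qW]
    · rw [sd_qW]
      simp only [Int.cast_one, one_mul]
      rw [abs_of_nonneg (by positivity)]
      linarith
  linarith

lemma cW_P : cW.K.P ≤ 8 := by
  change ((2 : ℤ) : ℝ) * sd qW ≤ 8
  rw [sd_qW]
  have := sqrt3_le
  push_cast
  linarith

lemma c7_box : ‖c7.K.e1‖ + ‖c7.K.e2‖ ≤ 4 := by
  have h0 := Real.sqrt_nonneg (7 : ℝ)
  have h3 := sqrt7_le
  have h1 : ‖c7.K.e1‖ ≤ 1 + 0 := by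
    change ‖el q7 (pm q7 (1, 0) (1, 0)).1 (pm q7 (1, 0) (1, 0)).2‖ ≤ 1 + 0
    have e : (pm q7 (1, 0) (1, 0)) = (1, 0) := by simp [pm, q7]
    rw [e]
    refine norm_el_le ?_ ?_
    · simp
    · simp
  have h2 : ‖c7.K.e2‖ ≤ 1 / 2 + 3 / 2 := by
    change ‖el q7 (pm q7 (1, 0) (0, 1)).1 (pm q7 (1, 0) (0, 1)).2‖ ≤ 1 / 2 + 3 / 2
    have e : (pm q7 (1, 0) (0, 1)) = (0, 1) := by simp [pm, q7]
    rw [e]
    refine norm_el_le ?_ ?_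
    · simp [q7]
    · rw [sd_q7]
      simp only [Int.cast_one, one_mul]
      rw [abs_of_nonneg (by positivity)]
      linarith
  linarith

lemma c7_P : c7.K.P ≤ 8 := by
  change ((2 : ℤ) : ℝ) * sd q7 ≤ 8
  rw [sd_q7]
  have := sqrt7_le
  push_cast
  linarith

lemma c8_box : ‖c8.K.e1‖ + ‖c8.K.e2‖ ≤ 4 := by
  have h0 := Real.sqrt_nonneg (8 : ℝ)
  have h3 := sqrt8_le
  have h1 : ‖c8.K.e1‖ ≤ 2 + 0 := by
    change ‖el q8 (pm q8 (1, 0) (2, 0)).1 (pm q8 (1, 0) (2, 0)).2‖ ≤ 2 + 0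
    have e : (pm q8 (1, 0) (2, 0)) = (2, 0) := by simp [pm, q8]
    rw [e]
    refine norm_el_le ?_ ?_
    · simp
    · simp
  have h2 : ‖c8.K.e2‖ ≤ 0 + 3 / 2 := by
    change ‖el q8 (pm q8 (1, 0) (0, 1)).1 (pm q8 (1, 0) (0, 1)).2‖ ≤ 0 + 3 / 2
    have e : (pm q8 (1, 0) (0, 1)) = (0, 1) := by simp [pm, q8]
    rw [e]
    refine norm_el_le ?_ ?_
    · simp [q8]
    · rw [sd_q8]
      simp only [Int.cast_one, one_mul]
      rw [abs_of_nonneg (by positivity)]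
      linarith
  linarith

lemma c8_P : c8.K.P ≤ 8 := by
  change ((1 : ℤ) : ℝ) * sd q8 ≤ 8
  rw [sd_q8]
  have := sqrt8_le
  push_cast
  linarith

end

end Pool.Agent.Lib.H56D
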