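import Pool.Agent.Lib.H56D.Defs

/-!
# S1: basic properties of `σ`
-/

namespace Pool.Agent.Lib.H56D

open Matrix hiding J
open MeasureTheory Topology Filter
open Pool.Agent.Lib.H56.Picard hiding O Gam mem_Gam star_mem_O T_mem sg_mem
open Pool.Agent.Lib.H56.Gen
open scoped ENNReal

noncomputable section

/-- Expand `hf_apply`, `lift`, `height` and compare real parts. -/
theorem re_hf (z w : ℂ × ℂ) : 2 * (hf (lift z) (lift w)).re =
    -(height z + height w + Complex.normSq (z.2 - w.2)) := by
  rw [hf_apply]
  simp only [lift, height, Matrix.cons_val_zero, Matrix.cons_val_one, Matrix.cons_val,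
    Complex.normSq_apply, Complex.star_def, Complex.add_re, Complex.mul_re, Complex.conj_re,
    Complex.conj_im, Complex.sub_re, Complex.sub_im, Complex.one_re, Complex.one_im, map_one]
  ring

/-- `hf (lift w) (lift z) = star (hf (lift z) (lift w))` (`hf_apply`). -/
theorem sgm_comm (z w : ℂ × ℂ) : sgm z w = sgm w z := by
  have h : hf (lift w) (lift z) = star (hf (lift z) (lift w)) := by
    simp only [hf_apply, star_add, star_mul', star_star]
    ring
  unfold sgm
  rw [h, Complex.star_def, Complex.normSq_conj, mul_comm (height z)]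

/-- `normSq = re² + im²` and `re_hf`. -/
theorem sgm_sq {z w : ℂ × ℂ} (hz : z ∈ U) (hw : w ∈ U) :
    (height z + height w + Complex.normSq (z.2 - w.2)) ^ 2 +
      4 * (hf (lift z) (lift w)).im ^ 2 = 4 * sgm z w * (height z * height w) := by
  have hz0 : 0 < height z := hz
  have hw0 : 0 < height w := hw
  have h1 := re_hf z w
  have h2 : sgm z w * (height z * height w) = Complex.normSq (hf (lift z) (lift w)) := by
    unfold sgm
    exact div_mul_cancel₀ _ (mul_pos hz0 hw0).ne'
  rw [mul_assoc, h2, Complex.normSq_apply (hf (lift z) (lift w))]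
  have h3 : height z + height w + Complex.normSq (z.2 - w.2) =
      -(2 * (hf (lift z) (lift w)).re) := by linarith
  rw [h3]
  ring

/-- From `sgm_sq`: `4 σ a b ≥ (a + b)² ≥ 4 a b`. -/
theorem one_le_sgm {z w : ℂ × ℂ} (hz : z ∈ U) (hw : w ∈ U) : 1 ≤ sgm z w := by
  have hz0 : 0 < height z := hz
  have hw0 : 0 < height w := hw
  have h1 := sgm_sq hz hw
  have h3 := Complex.normSq_nonneg (z.2 - w.2)
  have hab : 0 < height z * height w := mul_pos hz0 hw0
  have h5 : (height z + height w) ^ 2 ≤ (height z + height w + Complex.normSq (z.2 - w.2)) ^ 2 := by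
    apply pow_le_pow_left₀ (by linarith) (by linarith)
  have h6 := sq_nonneg (hf (lift z) (lift w)).im
  have h7 := sq_nonneg (height z - height w)
  have h8 : 1 * (height z * height w) ≤ sgm z w * (height z * height w) := by nlinarith
  exact le_of_mul_le_mul_right h8 hab

theorem sgm_self {z : ℂ × ℂ} (hz : z ∈ U) : sgm z z = 1 := by
  have hz0 : 0 < height z := hz
  unfold sgm
  rw [hf_lift, Complex.normSq_ofReal, neg_mul_neg]
  exact div_self (mul_pos hz0 hz0).ne'

/-- `mulVec_lift`, `hf_mulVec`, `height_act`: with `j = jf g z`, `k = jf g w` one has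
`⟨gz, gw⟩ · conj j · k = ⟨z,w⟩` and the heights are divided by `|j|²`, `|k|²`. -/
theorem sgm_act (g : SU21) {z w : ℂ × ℂ} (hz : z ∈ U) (hw : w ∈ U) :
    sgm (act (mat g) z) (act (mat g) w) = sgm z w := by
  have hz0 : 0 < height z := hz
  have hw0 : 0 < height w := hw
  have hg := mat_unitary g
  have hj := jf_ne_zero hg hz0
  have hk := jf_ne_zero hg hw0
  have h1 := hf_mulVec hg (lift z) (lift w)
  rw [mulVec_lift hj, mulVec_lift hk] at h1
  have h2 : hf (jf (mat g) z • lift (act (mat g) z)) (jf (mat g) w • lift (act (mat g) w)) =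
      star (jf (mat g) z) * jf (mat g) w * hf (lift (act (mat g) z)) (lift (act (mat g) w)) := by
    simp only [hf_apply, Pi.smul_apply, smul_eq_mul, star_mul']
    ring
  rw [h2] at h1
  have h3 := congrArg Complex.normSq h1
  rw [map_mul, map_mul, Complex.star_def, Complex.normSq_conj] at h3
  unfold sgm
  rw [height_act hg hz0, height_act hg hw0, ← h3]
  have hj' : Complex.normSq (jf (mat g) z) ≠ 0 := by simpa using hj
  have hk' : Complex.normSq (jf (mat g) w) ≠ 0 := by simpa using hk
  field_simp

end

end Pool.Agent.Lib.H56D
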