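import Pool.Agent.Lib.H56D.S1

/-!
# S2: balls
-/

namespace Pool.Agent.Lib.H56D

open Matrix hiding J
open MeasureTheory Topology Filter
open Pool.Agent.Lib.H56.Picard hiding O Gam mem_Gam star_mem_O T_mem sg_mem
open Pool.Agent.Lib.H56.Gen
open scoped ENNReal

noncomputable section

/-- From `sgm_sq`: `(a + b)² ≤ 4 L a b` with `a = height x`, `b = height w`; so `a² ≤ 4 L a b` and
`b² ≤ 4 L a b`. -/
theorem ball_height {x w : ℂ × ℂ} (hx : x ∈ U) {L : ℝ} (hw : w ∈ ball x L) :
    height x ≤ 4 * L * height w ∧ height w ≤ 4 * L * height x := by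
  have hx0 : 0 < height x := hx
  have hw0 : 0 < height w := hw.1
  have h1 := sgm_sq (z := x) (w := w) hx hw.1
  have h2 : sgm x w ≤ L := hw.2
  have h3 := Complex.normSq_nonneg (x.2 - w.2)
  have hab : 0 < height x * height w := mul_pos hx0 hw0
  have h4 : 4 * sgm x w * (height x * height w) ≤ 4 * L * (height x * height w) := by
    have := mul_le_mul_of_nonneg_right h2 hab.le
    linarith
  have h5 : (height x + height w) ^ 2 ≤ (height x + height w + Complex.normSq (x.2 - w.2)) ^ 2 := by
    apply pow_le_pow_left₀ (by linarith) (by linarith)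
  have h6 : (height x + height w) ^ 2 ≤ 4 * L * (height x * height w) := by
    have := sq_nonneg (hf (lift x) (lift w)).im
    linarith
  constructor
  · have : height x * height x ≤ height x * (4 * L * height w) := by nlinarith
    exact le_of_mul_le_mul_left this hx0
  · have : height w * height w ≤ height w * (4 * L * height x) := by nlinarith
    exact le_of_mul_le_mul_left this hw0

theorem s2_normSq_le {x w : ℂ × ℂ} (hx : x ∈ U) {L : ℝ} (hw : w ∈ ball x L) :
    Complex.normSq (x.2 - w.2) ≤ 4 * L * height x := by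
  have hx0 : 0 < height x := hx
  have hw0 : 0 < height w := hw.1
  have h1 := sgm_sq (z := x) (w := w) hx hw.1
  have h2 : sgm x w ≤ L := hw.2
  have hL : 1 ≤ L := (one_le_sgm (z := x) (w := w) hx hw.1).trans h2
  have h3 := Complex.normSq_nonneg (x.2 - w.2)
  have hab : 0 < height x * height w := mul_pos hx0 hw0
  have h4 : 4 * sgm x w * (height x * height w) ≤ 4 * L * (height x * height w) := by
    have := mul_le_mul_of_nonneg_right h2 hab.le
    linarith
  have h5 : (Complex.normSq (x.2 - w.2)) ^ 2 ≤
      (height x + height w + Complex.normSq (x.2 - w.2)) ^ 2 := by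
    apply pow_le_pow_left₀ h3 (by linarith)
  have h6 : (Complex.normSq (x.2 - w.2)) ^ 2 ≤ 4 * L * (height x * height w) := by
    have := sq_nonneg (hf (lift x) (lift w)).im
    linarith
  have h7 := (ball_height hx hw).2
  have h8 : 4 * L * (height x * height w) ≤ (4 * L * height x) ^ 2 := by
    have : 4 * L * height x * height w ≤ 4 * L * height x * (4 * L * height x) :=
      mul_le_mul_of_nonneg_left h7 (by positivity)
    nlinarith
  exact le_of_sq_le_sq (h6.trans h8) (by positivity)

theorem s2_hf_le {x w : ℂ × ℂ} (hx : x ∈ U) {L : ℝ} (hw : w ∈ ball x L) :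
    Complex.normSq (hf (lift x) (lift w)) ≤ (2 * L * height x) ^ 2 := by
  have hx0 : 0 < height x := hx
  have hw0 : 0 < height w := hw.1
  have h2 : sgm x w ≤ L := hw.2
  have hL : 1 ≤ L := (one_le_sgm (z := x) (w := w) hx hw.1).trans h2
  have hab : 0 < height x * height w := mul_pos hx0 hw0
  have h7 := (ball_height hx hw).2
  unfold sgm at h2
  rw [div_le_iff₀ hab] at h2
  have : L * height x * height w ≤ L * height x * (4 * L * height x) :=
    mul_le_mul_of_nonneg_left h7 (by positivity)
  nlinarith

theorem s2_fst (x w : ℂ × ℂ) : w.1 = hf (lift x) (lift w) - star x.1 - star x.2 * w.2 := by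
  rw [hf_apply]
  simp [lift]
  ring

theorem s2_continuous_hf (x : ℂ × ℂ) : Continuous fun w : ℂ × ℂ => hf (lift x) (lift w) := by
  have : (fun w : ℂ × ℂ => hf (lift x) (lift w)) = fun w => star x.1 + star x.2 * w.2 + w.1 := by
    funext w
    rw [hf_apply]
    simp [lift]
  rw [this]
  fun_prop

theorem ball_subset_U (x : ℂ × ℂ) (L : ℝ) : ball x L ⊆ U := fun _ hw => hw.1

theorem ball_mono (x : ℂ × ℂ) {L L' : ℝ} (h : L ≤ L') : ball x L ⊆ ball x L' :=
  fun _ hw => ⟨hw.1, hw.2.trans h⟩

/-- If `L < 1` the ball is empty (`one_le_sgm`). Let `L ≥ 1`, `a = height x`, `b = height w`,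
`l = hf (lift x) (lift w)`. BOUNDED: by `ball_height` `b ≤ 4La`; by `sgm_sq`
`|x₂ - w₂|⁴ ≤ 4Lab ≤ 16 L²a²`; `|l|² = σ a b ≤ 4L²a²`, and `w₁ = l - conj x₁ - conj x₂ w₂`
(`hf_apply`). CLOSED in `ℂ × ℂ`: the ball equals
`{w | a ≤ 4 L height w ∧ normSq l ≤ L a height w}` (the first condition forces `height w > 0`),
given by continuous functions (`continuous_height`). -/
theorem isCompact_ball {x : ℂ × ℂ} (hx : x ∈ U) (L : ℝ) : IsCompact (ball x L) := by
  have hx0 : 0 < height x := hx
  rcases lt_or_ge L 1 with hL | hL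
  · have : ball x L = ∅ := by
      ext w
      simp only [Set.mem_empty_iff_false, iff_false]
      intro hw
      have h1 := one_le_sgm (z := x) (w := w) hx hw.1
      have h2 : sgm x w ≤ L := hw.2
      linarith
    rw [this]
    exact isCompact_empty
  have hL0 : 0 < L := by linarith
  apply Metric.isCompact_of_isClosed_isBounded
  · have : ball x L = {w | height x ≤ 4 * L * height w} ∩
        {w | Complex.normSq (hf (lift x) (lift w)) ≤ L * (height x * height w)} := by
      ext w
      constructor
      · intro hw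
        refine ⟨(ball_height hx hw).1, ?_⟩
        have h2 : sgm x w ≤ L := hw.2
        unfold sgm at h2
        rw [div_le_iff₀ (mul_pos hx0 hw.1)] at h2
        exact h2
      · rintro ⟨h1, h2⟩
        have h1' : height x ≤ 4 * L * height w := h1
        have h2' : Complex.normSq (hf (lift x) (lift w)) ≤ L * (height x * height w) := h2
        have hw0 : 0 < height w := by
          by_contra hc
          push Not at hc
          have : 4 * L * height w ≤ 0 := mul_nonpos_of_nonneg_of_nonpos (by positivity) hc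
          linarith
        refine ⟨hw0, ?_⟩
        unfold sgm
        rw [div_le_iff₀ (mul_pos hx0 hw0)]
        exact h2'
    rw [this]
    apply IsClosed.inter
    · exact isClosed_le continuous_const (continuous_const.mul continuous_height)
    · exact isClosed_le (Complex.continuous_normSq.comp (s2_continuous_hf x))
        (continuous_const.mul (continuous_const.mul continuous_height))
  · set A : ℝ := ‖x.2‖ + √(4 * L * height x) with hA
    set B : ℝ := 2 * L * height x + ‖x.1‖ + ‖x.2‖ * A with hB
    apply (Metric.isBounded_closedBall (x := (0 : ℂ × ℂ)) (r := max B A)).subset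
    intro w hw
    rw [mem_closedBall_zero_iff, Prod.norm_def]
    have hA0 : ‖w.2‖ ≤ A := by
      have h1 := s2_normSq_le hx hw
      have h2 : ‖x.2 - w.2‖ ≤ √(4 * L * height x) := by
        apply Real.le_sqrt_of_sq_le
        rw [← Complex.normSq_eq_norm_sq]
        exact h1
      have h3 : ‖w.2‖ ≤ ‖x.2‖ + ‖x.2 - w.2‖ := by
        have := norm_sub_le x.2 (x.2 - w.2)
        simpa using this
      linarith
    have hB0 : ‖w.1‖ ≤ B := by
      rw [s2_fst x w]
      have h1 := s2_hf_le hx hw
      have h2 : ‖hf (lift x) (lift w)‖ ≤ 2 * L * height x := by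
        apply le_of_sq_le_sq _ (by positivity)
        rw [← Complex.normSq_eq_norm_sq]
        exact h1
      have h3 := norm_sub_le (hf (lift x) (lift w) - star x.1) (star x.2 * w.2)
      have h4 := norm_sub_le (hf (lift x) (lift w)) (star x.1)
      have h5 : ‖star x.2 * w.2‖ ≤ ‖x.2‖ * A := by
        rw [norm_mul, norm_star]
        exact mul_le_mul_of_nonneg_left hA0 (norm_nonneg _)
      have h6 : ‖star x.1‖ = ‖x.1‖ := norm_star _
      linarith
    exact max_le_max hB0 hA0

/-- Balls shrink to the centre. With `t = L - 1 > 0` small, `sgm_sq` gives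
`(a - b)² + 2(a + b)|x₂ - w₂|² + |x₂ - w₂|⁴ + 4 (Im l)² = 4 (σ - 1) a b ≤ 4 t a b ≤ 16 t (1+t) a²`,
so `b → a`, `w₂ → x₂`, `Im l → 0`, and `Re l → -a` by `re_hf`; as
`hf (lift x) (lift x) = -a`, `w₁ - x₁ = (l + a) - conj x₂ (w₂ - x₂) → 0`.
(Alternatively: the compact sets `ball x (1 + 1/n)` decrease to `⋂ = {w | σ(x,w) ≤ 1} = {x}`, by the
identity; use `IsCompact.elim_directed_family_closed_of_isCompact` or
`exists_subset_nhds_of_isCompact`.) -/
theorem ball_shrink {x : ℂ × ℂ} (hx : x ∈ U) {N : Set (ℂ × ℂ)} (hN : N ∈ 𝓝 x) :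
    ∃ L : ℝ, 1 < L ∧ ball x L ⊆ N := by
  have hx0 : 0 < height x := hx
  have hdir : Directed (fun A B : Set (ℂ × ℂ) => A ⊇ B)
      (fun n : ℕ => ball x (1 + 1 / ((n : ℝ) + 1))) := by
    apply directed_of_isDirected_le
    intro m n hmn
    apply ball_mono
    have : (m : ℝ) ≤ n := by exact_mod_cast hmn
    have h1 : 0 < (m : ℝ) + 1 := by positivity
    have := one_div_le_one_div_of_le h1 (by linarith : (m : ℝ) + 1 ≤ (n : ℝ) + 1)
    linarith
  have hint : ∀ w ∈ ⋂ n : ℕ, ball x (1 + 1 / ((n : ℝ) + 1)), N ∈ 𝓝 w := by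
    intro w hw
    rw [Set.mem_iInter] at hw
    have hw0 : 0 < height w := (hw 0).1
    have hs : sgm x w ≤ 1 := by
      have h1 : Tendsto (fun n : ℕ => 1 + 1 / ((n : ℝ) + 1)) atTop (𝓝 (1 + 0)) :=
        tendsto_const_nhds.add tendsto_one_div_add_atTop_nhds_zero_nat
      rw [add_zero] at h1
      exact ge_of_tendsto' h1 fun n => (hw n).2
    have h1 := sgm_sq (z := x) (w := w) hx hw0
    have h3 := Complex.normSq_nonneg (x.2 - w.2)
    have hab : 0 < height x * height w := mul_pos hx0 hw0
    have h4 : 4 * sgm x w * (height x * height w) ≤ 4 * (height x * height w) := by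
      have := mul_le_mul_of_nonneg_right hs hab.le
      linarith
    have h5 : (height x - height w) ^ 2 + 2 * (height x + height w) * Complex.normSq (x.2 - w.2)
        + Complex.normSq (x.2 - w.2) ^ 2 + 4 * (hf (lift x) (lift w)).im ^ 2 ≤ 0 := by
      nlinarith
    have e1 : 0 ≤ (height x - height w) ^ 2 := sq_nonneg _
    have e2 : 0 ≤ 2 * (height x + height w) * Complex.normSq (x.2 - w.2) := by positivity
    have e3 : 0 ≤ Complex.normSq (x.2 - w.2) ^ 2 := sq_nonneg _
    have e4 : 0 ≤ 4 * (hf (lift x) (lift w)).im ^ 2 := by positivity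
    have f1 : height x = height w := by
      have : (height x - height w) ^ 2 = 0 := by linarith
      have := pow_eq_zero_iff (two_ne_zero) |>.1 this
      linarith
    have f3 : Complex.normSq (x.2 - w.2) = 0 := by
      have : Complex.normSq (x.2 - w.2) ^ 2 = 0 := by linarith
      exact pow_eq_zero_iff (two_ne_zero) |>.1 this
    have f4 : (hf (lift x) (lift w)).im = 0 := by
      have : (hf (lift x) (lift w)).im ^ 2 = 0 := by linarith
      exact pow_eq_zero_iff (two_ne_zero) |>.1 this
    have f2 : x.2 = w.2 := by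
      have := Complex.normSq_eq_zero.1 f3
      exact sub_eq_zero.1 this
    have f5 := re_hf x w
    rw [f3, ← f1] at f5
    have f6 : hf (lift x) (lift w) = ((-height x : ℝ) : ℂ) := by
      apply Complex.ext
      · rw [Complex.ofReal_re]
        linarith
      · rw [Complex.ofReal_im]
        exact f4
    have f7 : w.1 = x.1 := by
      rw [s2_fst x w, f6, ← hf_lift, ← f2, ← s2_fst x x]
    have : w = x := Prod.ext f7 f2.symm
    rw [this]
    exact hN
  obtain ⟨n, hn⟩ := exists_subset_nhds_of_isCompact hdir (fun n => isCompact_ball hx _) hint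
  refine ⟨1 + 1 / ((n : ℝ) + 1), ?_, hn⟩
  have : 0 < 1 / ((n : ℝ) + 1) := by positivity
  linarith

end

end Pool.Agent.Lib.H56D
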