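import Pool.Agent.Lib.H56D.S1

/-!
# S3: transitivity
-/

namespace Pool.Agent.Lib.H56D

open Matrix hiding J
open MeasureTheory Topology Filter
open Pool.Agent.Lib.H56.Picard hiding O Gam mem_Gam star_mem_O T_mem sg_mem
open Pool.Agent.Lib.H56.Gen
open scoped ENNReal

noncomputable section

/-- The diagonal matrix `diag(r, 1, 1/r)`. -/
def s3D (r : ℝ) : Matrix (Fin 3) (Fin 3) ℂ := !![(r : ℂ), 0, 0; 0, 1, 0; 0, 0, ((r : ℂ))⁻¹]

theorem s3D_unitary {r : ℝ} (hr : 0 < r) : (s3D r)ᴴ * J * s3D r = J := by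
  have h : (r : ℂ) ≠ 0 := by exact_mod_cast hr.ne'
  ext i j
  fin_cases i <;> fin_cases j <;>
    simp [s3D, J, Matrix.mul_apply, Fin.sum_univ_three, h]

theorem s3D_det {r : ℝ} (hr : 0 < r) : (s3D r).det = 1 := by
  have h : (r : ℂ) ≠ 0 := by exact_mod_cast hr.ne'
  simp [s3D, Matrix.det_fin_three, h]

theorem s3_act_D {r : ℝ} (hr : 0 < r) : act (s3D r) o = (-((r : ℂ) ^ 2 / 2), 0) := by
  have h : (r : ℂ) ≠ 0 := by exact_mod_cast hr.ne'
  apply Prod.ext
  · simp [act, jf, lift, s3D, o, Matrix.mulVec, dotProduct, Fin.sum_univ_three]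
    field_simp
  · simp [act, jf, lift, s3D, o, Matrix.mulVec, dotProduct, Fin.sum_univ_three]

theorem o_mem : o ∈ U := by
  show 0 < height o
  simp [height, o]

/-- `SU(2,1)` acts transitively. Compose the diagonal element `diag(r, 1, 1/r)`, `r = √(height x)`
(unitary for `J`, determinant one; it maps `o = (-1/2, 0)` to `(-r²/2, 0)`; `mkSU` in
`H56/Picard/Heis.lean` builds elements from matrices) with the translation `T l w` with `l = x₂`,
`w = x₁ + r²/2`; `2 Re w = 2 Re x₁ + height x = -|x₂|²` as required, and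
`act_TM : act (TM l w) z = (z₁ - conj l z₂ + w, z₂ + l)`. Products: `act_act`. -/
theorem exists_act_o {x : ℂ × ℂ} (hx : x ∈ U) : ∃ g : SU21, act (mat g) o = x := by
  have hx0 : 0 < height x := hx
  set r : ℝ := √(height x) with hr
  have hr0 : 0 < r := Real.sqrt_pos.2 hx0
  have hr2 : r ^ 2 = height x := Real.sq_sqrt hx0.le
  have hw : 2 * (x.1 + (r : ℂ) ^ 2 / 2).re = -Complex.normSq x.2 := by
    have h1 : (x.1 + (r : ℂ) ^ 2 / 2).re = x.1.re + r ^ 2 / 2 := by
      have : (r : ℂ) ^ 2 / 2 = ((r ^ 2 / 2 : ℝ) : ℂ) := by push_cast; ring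
      rw [this, Complex.add_re, Complex.ofReal_re]
    rw [h1, hr2]
    unfold height
    ring
  refine ⟨T x.2 (x.1 + (r : ℂ) ^ 2 / 2) hw * mkSU (s3D r) (s3D_unitary hr0) (s3D_det hr0), ?_⟩
  rw [← act_act _ _ o_mem, mat_mkSU, s3_act_D hr0, mat_T, act_TM]
  apply Prod.ext
  · simp
  · simp

end

end Pool.Agent.Lib.H56D
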