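import Pool.Agent.Lib.H56C.Stmt2

/-!
# H56D: Codazzi tensors with few multiple eigenvalues, second version

Definitions used in the final statement.
-/

set_option autoImplicit false

open scoped ContDiff Manifold
open Set

namespace H56D

open H31R H79G H30K H56C

open Classical in
/-- **Admissible multiplicities** (`cl β i` = the multiplicity of the value `β i`): (1) at most one value is multiple, and its multiplicity is at most `5`, or (2) all multiplicities are at most `3`, at most one value has the
multiplicity `3`, and at most nine indices have a multiple value, or (3) all multiplicities are at most `5`, and at most six indices have a multiple value (multiplicities `2, 2, 2` or `3, 3` or `4, 2` or `5` or smaller ones, the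
others simple). -/
def Adm {N : ℕ} (β : Fin N → ℝ) : Prop :=
  ((∀ i j, 2 ≤ cl β i → 2 ≤ cl β j → β i = β j) ∧ ∀ i, cl β i ≤ 5) ∨
    ((∀ i, cl β i ≤ 3) ∧ (∀ i j, cl β i = 3 → cl β j = 3 → β i = β j) ∧ (Finset.univ.filter fun i => 2 ≤ cl β i).card ≤ 9) ∨
    ((∀ i, cl β i ≤ 5) ∧ (Finset.univ.filter fun i => 2 ≤ cl β i).card ≤ 6)

variable {d : ℕ}

/-- The eigenvalues of the bilinear form `b` with respect to the scalar product `G` have admissible multiplicities (`β` = the eigenvalues, the columns of `E` = orthonormal eigenvectors). -/
def AdmAt (G b : Matrix (Fin d) (Fin d) ℝ) : Prop :=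
  ∃ (E : Matrix (Fin d) (Fin d) ℝ) (β : Fin d → ℝ), E.transpose * G * E = 1 ∧ E.transpose * b * E = Matrix.diagonal β ∧ Adm β

variable {M : Type} [TopologicalSpace M] [ChartedSpace (EE d) M]

/-- Every nonempty open set of `M` contains a nonempty open set `U` on which there is a Codazzi tensor which has admissible multiplicities at some point of `U`, or exactly two eigenvalues, both of multiplicity at most `5`, at
every point of `U`. (In the charts `chartAt p`.) -/
def DenseMult (g : Ch.Metric d M) : Prop :=
  ∀ p : M, ∀ V : Set (EE d), V ⊆ (chartAt (EE d) p).target → IsOpen V → V.Nonempty →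
    ∃ U : Set (EE d), U ⊆ V ∧ IsOpen U ∧ U.Nonempty ∧ ∃ b : EE d → Matrix (Fin d) (Fin d) ℝ,
      IsCodazzi (g.mat p) U b ∧ ((∃ y ∈ U, AdmAt (g.mat p y) (b y)) ∨ ∀ y ∈ U, TwoAt (g.mat p y) (b y))

end H56D
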