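import Pool.Agent.Lib.H56D.F5
import Pool.Agent.Lib.H56D.H3
import Pool.Agent.Lib.H56D.S6

/-!
# Z1: summation over the orthonormal family and the cosets
-/

namespace Pool.Agent.Lib.H56D

open Matrix hiding J
open MeasureTheory Topology Filter
open Pool.Agent.Lib.H56.Picard hiding O Gam mem_Gam star_mem_O T_mem sg_mem
open Pool.Agent.Lib.H56.Gen
open scoped ENNReal

noncomputable section

/-- Sum over cosets of `point_bound` at `x = (c.out)⁻¹ z`: for `G` normal
`∑_{γ ∈ G} F(σ(δz, γδz)) = ∑_{γ ∈ G} F(σ(z, δ⁻¹γδ z)) = ∑_{γ ∈ G} F(σ(z,γz))` (`sgm_act`, conjugation is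
a bijection of `G`), and the number of cosets is the index. -/
theorem coset_bound {q : QD} {D : CD q} {G : Subgroup (Gam q)} [G.Normal] [G.FiniteIndex] {ν : ℝ}
    (hν : 0 < ν) {m : ℕ} {e : Fin m → ℂ × ℂ → ℂ} {l : Fin m → ℝ}
    (he : ∀ i, Good D G (e i) (l i)) (hl : ∀ i, 0 ≤ l i ∧ l i ≤ 1 - ν ^ 2)
    (hon : ∀ i j, ∫ z : X, star (e i z.1) * e j z.1 ∂(rho D G) = if i = j then 1 else 0) {L : ℝ}
    (hL : 1 < L) (z : X) :
    ENNReal.ofReal ((c3 * (L - 1) ^ 5 * L ^ (ν - 1)) ^ 2) * ∑ i, PhiS G (e i) z ≤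
      (G.index : ℝ≥0∞) * ∑' γ : G, FL L (sgm z.1 (act (mat γ.1.1) z.1)) := by
  have hfin : Finite (Gam q ⧸ G) := inferInstance
  have : Fintype (Gam q ⧸ G) := Fintype.ofFinite _
  have hz : z.1 ∈ U := z.2
  have h1 : ∑ i, PhiS G (e i) z = ∑ c : Gam q ⧸ G, ∑ i, ENNReal.ofReal
      (Complex.normSq (e i (act (mat (c.out : Gam q)⁻¹.1) z.1))) := by
    rw [Finset.sum_comm]
    refine Finset.sum_congr rfl fun i _ => ?_
    unfold PhiS
    rw [tsum_fintype]
    rfl
  rw [h1, Finset.mul_sum]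
  have h2 : ∀ c : Gam q ⧸ G, ENNReal.ofReal ((c3 * (L - 1) ^ 5 * L ^ (ν - 1)) ^ 2) *
      ∑ i, ENNReal.ofReal (Complex.normSq (e i (act (mat (c.out : Gam q)⁻¹.1) z.1))) ≤
      ∑' γ : G, FL L (sgm z.1 (act (mat γ.1.1) z.1)) := by
    intro c
    set δ : Gam q := c.out with hδ
    have hx : act (mat (δ⁻¹).1) z.1 ∈ U := act_mem_U _ hz
    refine (point_bound hν he hl hon hL hx).trans (le_of_eq ?_)
    rw [← (MulAut.conjNormal δ : G ≃* G).toEquiv.tsum_eq
      (fun γ : G => FL L (sgm z.1 (act (mat γ.1.1) z.1)))]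
    refine tsum_congr fun γ => ?_
    congr 1
    have h3 : ((MulAut.conjNormal δ : G ≃* G) γ).1.1 = δ.1 * γ.1.1 * (δ⁻¹).1 := by
      have := MulAut.conjNormal_apply (H := G) δ γ
      have h4 := congrArg (fun x : Gam q => x.1) this
      exact h4
    have h5 : act (mat ((MulAut.conjNormal δ : G ≃* G) γ).1.1) z.1 =
        act (mat δ.1) (act (mat γ.1.1) (act (mat (δ⁻¹).1) z.1)) := by
      rw [h3, act_act _ _ hx, act_act _ _ hz]
    have h6 : z.1 = act (mat δ.1) (act (mat (δ⁻¹).1) z.1) := by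
      have h7 := act_inv_act (δ⁻¹).1 hz
      have h8 : ((δ⁻¹).1)⁻¹ = δ.1 := by
        have : (δ⁻¹).1 = (δ.1)⁻¹ := rfl
        rw [this, inv_inv]
      rw [h8] at h7
      exact h7.symm
    calc sgm (act (mat (δ⁻¹).1) z.1) (act (mat γ.1.1) (act (mat (δ⁻¹).1) z.1))
        = sgm (act (mat δ.1) (act (mat (δ⁻¹).1) z.1))
            (act (mat δ.1) (act (mat γ.1.1) (act (mat (δ⁻¹).1) z.1))) :=
          (sgm_act δ.1 hx (act_mem_U _ hx)).symm
      _ = _ := by
          rw [← h6]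
          exact congrArg _ h5.symm
  refine (Finset.sum_le_sum fun c _ => h2 c).trans (le_of_eq ?_)
  rw [Finset.sum_const, Finset.card_univ, nsmul_eq_mul]
  congr 1
  rw [Subgroup.index, Nat.card_eq_fintype_card]

/-- the total mass of a member of the orthonormal family -/
lemma z1_mass {q : QD} {D : CD q} {G : Subgroup (Gam q)} [G.FiniteIndex] {f : ℂ × ℂ → ℂ} {l : ℝ}
    (h : Good D G f l) (h1 : ∫ z : X, star (f z.1) * f z.1 ∂(rho D G) = 1) :
    ∫⁻ z, om D z * PhiS G f z ∂mu = 1 := by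
  rw [← lintegral_PhiS D G h.smooth]
  have hc : Continuous fun z : X => Complex.normSq (f z.1) :=
    Complex.continuous_normSq.comp
      (continuousOn_iff_continuous_domRestrict.mp h.smooth.continuousOn)
  have hm : Measurable fun z : X => ENNReal.ofReal (Complex.normSq (f z.1)) :=
    (ENNReal.continuous_ofReal.comp hc).measurable
  have h2 : ∫⁻ z : X, ENNReal.ofReal (Complex.normSq (f z.1)) ∂(rho D G) =
      ∫⁻ z, wG D G z * ENNReal.ofReal (Complex.normSq (f z.1)) ∂mu := by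
    unfold rho
    rw [lintegral_withDensity_eq_lintegral_mul _ (measurable_wG D G) hm]
    rfl
  rw [← h2]
  have h3 : ∫ z : X, Complex.normSq (f z.1) ∂(rho D G) = 1 := by
    have h4 : ∫ z : X, star (f z.1) * f z.1 ∂(rho D G) =
        ((∫ z : X, Complex.normSq (f z.1) ∂(rho D G) : ℝ) : ℂ) := by
      rw [← integral_complex_ofReal]
      refine integral_congr_ae (Eventually.of_forall fun z => ?_)
      simp only [Complex.star_def]
      rw [Complex.normSq_eq_conj_mul_self]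
    rw [h4] at h1
    exact_mod_cast h1
  have h5 : Integrable (fun z : X => Complex.normSq (f z.1)) (rho D G) := by
    by_contra hcon
    rw [integral_undef hcon] at h3
    exact zero_ne_one h3
  rw [← ofReal_integral_eq_lintegral_ofReal h5
    (Eventually.of_forall fun z => Complex.normSq_nonneg _), h3, ENNReal.ofReal_one]

/-- `hardy_low` for each `e i` with `∫ om PhiS G (e i) = 1` (`lintegral_PhiS` and `hon i i`: the integral
of `star e * e = |e|²` against `rho` is `1`), `coset_bound`, `om ≤ 1`. -/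
theorem main_int {q : QD} {D : CD q} {G : Subgroup (Gam q)} [G.Normal] [G.FiniteIndex] {ν : ℝ}
    (hν : 0 < ν) (hν1 : ν ≤ 1) {m : ℕ} {e : Fin m → ℂ × ℂ → ℂ} {l : Fin m → ℝ}
    (he : ∀ i, Good D G (e i) (l i)) (hl : ∀ i, 0 ≤ l i ∧ l i ≤ 1 - ν ^ 2)
    (hon : ∀ i j, ∫ z : X, star (e i z.1) * e j z.1 ∂(rho D G) = if i = j then 1 else 0) {L : ℝ}
    (hL : 1 < L) :
    ENNReal.ofReal ((c3 * (L - 1) ^ 5 * L ^ (ν - 1)) ^ 2) * ENNReal.ofReal (m * ν ^ 2) ≤
      3 * (G.index : ℝ≥0∞) *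
        ∫⁻ z in K0 D, ∑' γ : G, FL L (sgm z.1 (act (mat γ.1.1) z.1)) ∂mu := by
  set A := ENNReal.ofReal ((c3 * (L - 1) ^ 5 * L ^ (ν - 1)) ^ 2) with hA
  have hA' : A ≠ ⊤ := ENNReal.ofReal_ne_top
  have hfin : Finite (Gam q ⧸ G) := inferInstance
  have hmPhi : ∀ i, Measurable (PhiS G (e i)) := by
    intro i
    unfold PhiS
    refine Measurable.tsum fun c => ?_
    have hc : Continuous fun z : X => Complex.normSq (conj G (e i) c z.1) :=
      Complex.continuous_normSq.comp (continuousOn_iff_continuous_domRestrict.mp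
        (contDiffOn_conj (he i).smooth c).continuousOn)
    exact (ENNReal.continuous_ofReal.comp hc).measurable
  have h1 : ∀ i, ENNReal.ofReal (ν ^ 2) ≤ 3 * ∫⁻ z in K0 D, om D z * PhiS G (e i) z ∂mu := by
    intro i
    have h2 := hardy_low (he i) hν hν1 (hl i).2
    have h3 := z1_mass (he i) (by rw [hon i i, if_pos rfl])
    rwa [h3, mul_one] at h2
  have h2 : ENNReal.ofReal (m * ν ^ 2) ≤ 3 * ∫⁻ z in K0 D, om D z * ∑ i, PhiS G (e i) z ∂mu := by
    have h3 : ENNReal.ofReal (m * ν ^ 2) = ∑ i : Fin m, ENNReal.ofReal (ν ^ 2) := by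
      rw [Finset.sum_const, Finset.card_univ, Fintype.card_fin, nsmul_eq_mul,
        ENNReal.ofReal_mul (Nat.cast_nonneg m), ENNReal.ofReal_natCast]
    rw [h3]
    refine (Finset.sum_le_sum fun i _ => h1 i).trans (le_of_eq ?_)
    rw [← Finset.mul_sum]
    congr 1
    have h4 := lintegral_finsetSum' (μ := mu.restrict (K0 D)) Finset.univ
      (f := fun (i : Fin m) (z : X) => om D z * PhiS G (e i) z) (fun i _ =>
        ((measurable_om D).mul (hmPhi i)).aemeasurable)
    rw [← h4]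
    refine lintegral_congr fun z => ?_
    rw [Finset.mul_sum]
  calc A * ENNReal.ofReal (m * ν ^ 2) ≤ A * (3 * ∫⁻ z in K0 D, om D z * ∑ i, PhiS G (e i) z ∂mu) := by
        gcongr
    _ = 3 * (A * ∫⁻ z in K0 D, om D z * ∑ i, PhiS G (e i) z ∂mu) := by ring
    _ = 3 * ∫⁻ z in K0 D, A * (om D z * ∑ i, PhiS G (e i) z) ∂mu := by
        rw [lintegral_const_mul' _ _ hA']
    _ ≤ 3 * ∫⁻ z in K0 D, (G.index : ℝ≥0∞) *
          ∑' γ : G, FL L (sgm z.1 (act (mat γ.1.1) z.1)) ∂mu := by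
        refine mul_le_mul_right (lintegral_mono fun z => ?_) _
        calc A * (om D z * ∑ i, PhiS G (e i) z) ≤ A * (1 * ∑ i, PhiS G (e i) z) := by
              gcongr
              exact om_le_one D z
          _ = A * ∑ i, PhiS G (e i) z := by rw [one_mul]
          _ ≤ _ := coset_bound hν he hl hon hL z
    _ = 3 * (G.index : ℝ≥0∞) *
          ∫⁻ z in K0 D, ∑' γ : G, FL L (sgm z.1 (act (mat γ.1.1) z.1)) ∂mu := by
        rw [lintegral_const_mul' _ _ (ENNReal.natCast_ne_top _), mul_assoc]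

end

end Pool.Agent.Lib.H56D
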