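import Pool.Agent.Lib.H56D.Z1
import Pool.Agent.Lib.H56D.G5

/-!
# Z2: the analytic main theorem
-/

namespace Pool.Agent.Lib.H56D

open Matrix hiding J
open MeasureTheory Topology Filter
open Pool.Agent.Lib.H56.Picard hiding O Gam mem_Gam star_mem_O T_mem sg_mem
open Pool.Agent.Lib.H56.Gen
open scoped ENNReal

noncomputable section

lemma z2_compact {S : Set (ℂ × ℂ)} (hS : IsCompact S) (hSU : S ⊆ {z | 0 < height z}) :
    IsCompact {z : X | z.1 ∈ S} := by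
  have hind : Topology.IsInducing (Subtype.val : X → ℂ × ℂ) := Topology.IsInducing.subtypeVal
  rw [hind.isCompact_iff]
  convert hS using 1
  ext z
  constructor
  · rintro ⟨w, hw, rfl⟩
    exact hw
  · intro hz
    exact ⟨⟨z, hSU hz⟩, hz, rfl⟩

lemma z2_fro_pos {q : QD} (g : Gam q) : 0 < fro g.1 := by
  have hex : ∃ i j, mat g.1 i j ≠ 0 := by
    by_contra h
    push Not at h
    have h1 : mat g.1 = 0 := Matrix.ext fun i j => h i j
    have h2 : mat g.1 * mat (g.1)⁻¹ = 1 := by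
      rw [← mat_mul, mul_inv_cancel, mat_one]
    rw [h1, Matrix.zero_mul] at h2
    have h3 := congrFun (congrFun h2 0) 0
    simp at h3
  obtain ⟨i, j, hij⟩ := hex
  have h1 : 0 < Complex.normSq (mat g.1 i j) := Complex.normSq_pos.2 hij
  have h2 : Complex.normSq (mat g.1 i j) ≤ fro g.1 := by
    unfold fro
    calc Complex.normSq (mat g.1 i j) ≤ ∑ j', Complex.normSq (mat g.1 i j') :=
          Finset.single_le_sum (f := fun j' => Complex.normSq (mat g.1 i j'))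
            (fun _ _ => Complex.normSq_nonneg _) (Finset.mem_univ j)
      _ ≤ _ := Finset.single_le_sum (f := fun i' => ∑ j', Complex.normSq (mat g.1 i' j'))
            (fun _ _ => Finset.sum_nonneg fun _ _ => Complex.normSq_nonneg _) (Finset.mem_univ i)
  linarith

/-- the real inequality between the constants -/
lemma z2_real {c M C₁ C I L ν : ℝ} (hc : 0 < c) (hI : 0 ≤ I) (hL : 2 ≤ L)
    (hM : 0 ≤ M) (hC1 : 0 < C₁) (hC : 3 * M * 128 * C₁ * 2 ^ 10 / c ≤ C) :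
    3 * I * M * (128 * c * L ^ 8 * C₁) ≤
      (c * (L - 1) ^ 5 * L ^ (ν - 1)) ^ 2 * (C * I * L ^ (-(2 * ν))) := by
  have hL0 : 0 < L := by linarith
  have h1 : L ^ 10 ≤ 2 ^ 10 * (L - 1) ^ 10 := by
    rw [← mul_pow]
    apply pow_le_pow_left₀ hL0.le
    linarith
  have h2 : (L ^ (ν - 1)) ^ 2 * L ^ (-(2 * ν)) = (L ^ 2)⁻¹ := by
    rw [← Real.rpow_natCast (L ^ (ν - 1)), ← Real.rpow_mul hL0.le, ← Real.rpow_add hL0,
      ← Real.rpow_natCast L, ← Real.rpow_neg hL0.le]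
    congr 1
    push_cast
    ring
  have h3 : 3 * M * 128 * C₁ * 2 ^ 10 ≤ C * c := by
    rwa [div_le_iff₀ hc] at hC
  have h4 : (c * (L - 1) ^ 5 * L ^ (ν - 1)) ^ 2 * (C * I * L ^ (-(2 * ν))) =
      c * (C * c) * I * (L - 1) ^ 10 * ((L ^ (ν - 1)) ^ 2 * L ^ (-(2 * ν))) := by ring
  rw [h4, h2]
  have h5 : (L - 1) ^ 10 * (L ^ 2)⁻¹ ≥ L ^ 8 / 2 ^ 10 := by
    rw [ge_iff_le, div_le_iff₀ (by positivity), mul_assoc, mul_comm (L ^ 2)⁻¹, ← mul_assoc,
      ← div_eq_mul_inv, le_div_iff₀ (by positivity)]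
    calc L ^ 8 * L ^ 2 = L ^ 10 := by ring
      _ ≤ 2 ^ 10 * (L - 1) ^ 10 := h1
      _ = _ := by ring
  calc 3 * I * M * (128 * c * L ^ 8 * C₁) = c * (3 * M * 128 * C₁ * 2 ^ 10) * I * (L ^ 8 / 2 ^ 10) := by
        ring
    _ ≤ c * (C * c) * I * ((L - 1) ^ 10 * (L ^ 2)⁻¹) := by
        apply mul_le_mul _ h5 (by positivity)
        · have : 0 ≤ C * c := le_trans (by positivity) h3
          positivity
        · gcongr
    _ = _ := by ring

/-- `K0 D` is contained in a compact subset of `U` (`Box_compact D.K D.h (8/D.h)`) and has finite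
measure. With the constant `C₁` of `fro_le`: `FL L (σ(z,γz)) ≤ 128 c3 L⁸ C₁/fro γ` if
`fro γ ≤ 4 C₁ L²`, and `0` otherwise (`fro γ ≤ C₁ σ`; note `fro γ ≥ 1`). So the integral in
`main_int` is at most `μ(K0) 128 c3 C₁ L⁸ S`,
`S = ∑' γ : G, if fro γ ≤ 4 C₁ L² then 1/fro γ else 0`. Divide by
`(c3 (L-1)⁵ L^(ν-1))² ≥ c3² 2⁻¹⁰ L^(8+2ν)` (`L ≥ 2`): orthonormal family from `exists_onb`.
Take `C` the maximum of the constants. -/
theorem an_main {q : QD} (D : CD q) : ∃ C : ℝ, 1 ≤ C ∧ ∀ (G : Subgroup (Gam q)) [G.Normal]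
    [G.FiniteIndex] (ν : ℝ),
    0 < ν → ν ≤ 1 → ∀ (m : ℕ) (f : Fin m → ℂ × ℂ → ℂ) (lam : Fin m → ℂ),
    (∀ i, Eig D G (f i) (lam i)) → (∀ i, (lam i).re ≤ 1 - ν ^ 2) →
    (∀ c : Fin m → ℂ, (∀ z ∈ U, ∑ i, c i * f i z = 0) → c = 0) → ∀ L : ℝ, 2 ≤ L →
    ENNReal.ofReal (m * ν ^ 2) ≤ ENNReal.ofReal (C * G.index * L ^ (-(2 * ν))) *
      ∑' γ : G, if fro γ.1.1 ≤ C * L ^ 2 then ENNReal.ofReal (fro γ.1.1)⁻¹ else 0 := by
  have hc := c3_pos
  obtain ⟨S, hS, hSU, hbox⟩ := Box_compact D.K D.h (8 / D.h) D.hh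
  obtain ⟨C₁, hC₁, hfro⟩ := fro_le hS hSU
  have hKS : K0 D ⊆ {z : X | z.1 ∈ S} := fun z hz => hbox z.1 hz.1 hz.2.1.le hz.2.2
  have hmuK : mu (K0 D) ≠ ⊤ :=
    ne_top_of_le_ne_top (z2_compact hS hSU).measure_lt_top.ne (measure_mono hKS)
  set M := (mu (K0 D)).toReal with hM
  have hM0 : 0 ≤ M := ENNReal.toReal_nonneg
  set C : ℝ := max 1 (max (4 * C₁) (3 * M * 128 * C₁ * 2 ^ 10 / c3)) with hC
  refine ⟨C, le_max_left _ _, ?_⟩
  intro G hGn hGf ν hν hν1 m f lam hf hlam hli L hL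
  have hL0 : 0 < L := by linarith
  obtain ⟨e, l, he, hl, hon⟩ := exists_onb hf hlam hli
  have hmain := main_int hν hν1 he hl hon (by linarith : 1 < L)
  set T : ℝ≥0∞ := ∑' γ : G, if fro γ.1.1 ≤ C * L ^ 2 then ENNReal.ofReal (fro γ.1.1)⁻¹ else 0
    with hT
  set B : ℝ≥0∞ := ENNReal.ofReal (128 * c3 * L ^ 8 * C₁) with hB
  have hpt : ∀ z ∈ K0 D, ∑' γ : G, FL L (sgm z.1 (act (mat γ.1.1) z.1)) ≤ B * T := by
    intro z hz
    rw [hT, ← ENNReal.tsum_mul_left]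
    refine ENNReal.tsum_le_tsum fun γ => ?_
    have h1 := hfro z.1 (hKS hz) γ.1.1
    have h2 := z2_fro_pos γ.1
    have h3 : 0 < sgm z.1 (act (mat γ.1.1) z.1) := by
      by_contra hcon
      push Not at hcon
      nlinarith
    unfold FL
    split_ifs with h4 h5
    · rw [hB, ← ENNReal.ofReal_mul (by positivity)]
      apply ENNReal.ofReal_le_ofReal
      rw [div_eq_mul_inv, mul_assoc _ C₁]
      apply mul_le_mul_of_nonneg_left _ (by positivity)
      rw [← div_eq_mul_inv, inv_eq_one_div, div_le_div_iff₀ h3 h2]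
      linarith
    · exfalso
      apply h5
      have h6 : 4 * C₁ ≤ C := (le_max_left _ _).trans (le_max_right _ _)
      calc fro γ.1.1 ≤ C₁ * sgm z.1 (act (mat γ.1.1) z.1) := h1
        _ ≤ C₁ * (4 * L ^ 2) := by gcongr
        _ = 4 * C₁ * L ^ 2 := by ring
        _ ≤ C * L ^ 2 := by gcongr
    · exact zero_le
    · exact zero_le
  have hmeasK : ∫⁻ z in K0 D, ∑' γ : G, FL L (sgm z.1 (act (mat γ.1.1) z.1)) ∂mu ≤
      B * T * mu (K0 D) := by
    calc ∫⁻ z in K0 D, ∑' γ : G, FL L (sgm z.1 (act (mat γ.1.1) z.1)) ∂mu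
        ≤ ∫⁻ _ in K0 D, B * T ∂mu := setLIntegral_mono measurable_const hpt
      _ = B * T * mu (K0 D) := setLIntegral_const _ _
  set A := ENNReal.ofReal ((c3 * (L - 1) ^ 5 * L ^ (ν - 1)) ^ 2) with hA
  have hA0 : A ≠ 0 := by
    rw [hA, Ne, ENNReal.ofReal_eq_zero, not_le]
    have : 0 < L - 1 := by linarith
    positivity
  have hAt : A ≠ ⊤ := ENNReal.ofReal_ne_top
  have hreal := z2_real (I := (G.index : ℝ)) (ν := ν) hc (Nat.cast_nonneg _) hL hM0 hC₁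
    ((le_max_right (4 * C₁) _).trans (le_max_right 1 _) : 3 * M * 128 * C₁ * 2 ^ 10 / c3 ≤ C)
  have h7 : A * ENNReal.ofReal (m * ν ^ 2) ≤
      A * (ENNReal.ofReal (C * G.index * L ^ (-(2 * ν))) * T) := by
    calc A * ENNReal.ofReal (m * ν ^ 2)
        ≤ 3 * (G.index : ℝ≥0∞) *
          ∫⁻ z in K0 D, ∑' γ : G, FL L (sgm z.1 (act (mat γ.1.1) z.1)) ∂mu := hmain
      _ ≤ 3 * (G.index : ℝ≥0∞) * (B * T * mu (K0 D)) := mul_le_mul_right hmeasK _
      _ = (3 * (G.index : ℝ≥0∞) * mu (K0 D) * B) * T := by ring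
      _ = ENNReal.ofReal (3 * G.index * M * (128 * c3 * L ^ 8 * C₁)) * T := by
          congr 1
          rw [ENNReal.ofReal_mul (by positivity), ENNReal.ofReal_mul (by positivity),
            ENNReal.ofReal_mul (by positivity), ENNReal.ofReal_natCast, hM,
            ENNReal.ofReal_toReal hmuK, ENNReal.ofReal_ofNat]
      _ ≤ ENNReal.ofReal ((c3 * (L - 1) ^ 5 * L ^ (ν - 1)) ^ 2 *
            (C * G.index * L ^ (-(2 * ν)))) * T := by
          gcongr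
      _ = A * (ENNReal.ofReal (C * G.index * L ^ (-(2 * ν))) * T) := by
          rw [ENNReal.ofReal_mul (by positivity), mul_assoc]
  exact (ENNReal.mul_le_mul_iff_right hA0 hAt).1 h7

end

end Pool.Agent.Lib.H56D
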