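import Pool.Agent.Lib.H56D.Z2

/-!
# Z3: the density theorem from the count and the index
-/

namespace Pool.Agent.Lib.H56D

open Matrix hiding J
open MeasureTheory Topology Filter
open Pool.Agent.Lib.H56.Picard hiding O Gam mem_Gam star_mem_O T_mem sg_mem
open Pool.Agent.Lib.H56.Gen
open scoped ENNReal

noncomputable section

theorem z3_fro_one : fro 1 = 3 := by
  unfold fro
  rw [mat_one]
  simp [Fin.sum_univ_three]
  norm_num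

/-- splitting off the identity -/
theorem z3_split {q : QD} (G : Subgroup (Gam q)) {C L R B : ℝ} (hR : C * L ^ 2 = R ^ 2)
    (hB : ∑' γ : G, (if γ ≠ 1 ∧ fro γ.1.1 ≤ R ^ 2 then
        ENNReal.ofReal (fro γ.1.1)⁻¹ else 0) ≤ ENNReal.ofReal B) :
    ∑' γ : G, (if fro γ.1.1 ≤ C * L ^ 2 then ENNReal.ofReal (fro γ.1.1)⁻¹ else 0) ≤
      ENNReal.ofReal (1 + |B|) := by
  classical
  have h1 : ∀ γ : G, (if fro γ.1.1 ≤ C * L ^ 2 then ENNReal.ofReal (fro γ.1.1)⁻¹ else 0) ≤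
      (if γ = 1 then 1 else 0) + (if γ ≠ 1 ∧ fro γ.1.1 ≤ R ^ 2 then
        ENNReal.ofReal (fro γ.1.1)⁻¹ else 0) := by
    intro γ
    rw [hR]
    by_cases hγ : γ = 1
    · have h2 : fro γ.1.1 = 3 := by
        rw [hγ]
        exact z3_fro_one
      rw [if_pos hγ, h2]
      refine le_trans ?_ le_self_add
      split_ifs
      · rw [← ENNReal.ofReal_one]
        exact ENNReal.ofReal_le_ofReal (by norm_num)
      · exact bot_le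
    · rw [if_neg hγ, zero_add]
      by_cases h3 : fro γ.1.1 ≤ R ^ 2
      · rw [if_pos h3, if_pos ⟨hγ, h3⟩]
      · rw [if_neg h3]
        exact bot_le
  refine (ENNReal.tsum_le_tsum h1).trans ?_
  rw [ENNReal.tsum_add, tsum_ite_eq]
  rw [ENNReal.ofReal_add (by norm_num) (abs_nonneg _), ENNReal.ofReal_one]
  exact add_le_add le_rfl (hB.trans (ENNReal.ofReal_le_ofReal (le_abs_self _)))

/-- the numbers -/
theorem z3_num {C C₂ C₄ ε ν V n m : ℝ} (hC : 1 ≤ C) (hC₄ : 1 ≤ C₄) (hε : 0 < ε) (hν : 0 < ν)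
    (hν1 : ν ≤ 1) (hn : 1 ≤ n) (hnV : n ≤ V) (hV : V ≤ C₄ * n ^ (8 + ε / 2))
    (h : m * ν ^ 2 ≤ C * V * (2 * n ^ 4) ^ (-(2 * ν)) * (1 + |C₂ * n ^ (ε / 2)|)) :
    m ≤ (C * (1 + |C₂|) * C₄) * ν⁻¹ ^ 2 * V ^ (1 - ν + ε) := by
  have hn0 : 0 < n := by linarith
  have hV0 : 0 < V := by linarith
  have hC₂ : 0 ≤ |C₂| := abs_nonneg _
  -- the sum
  have e1 : 1 + |C₂ * n ^ (ε / 2)| ≤ (1 + |C₂|) * n ^ (ε / 2) := by
    have h1 : 1 ≤ n ^ (ε / 2) := Real.one_le_rpow hn (by positivity)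
    rw [abs_mul, abs_of_pos (by positivity : 0 < n ^ (ε / 2))]
    nlinarith
  -- the power of `L`
  have e2 : (2 * n ^ 4) ^ (-(2 * ν)) ≤ n ^ (-(8 * ν)) := by
    have h1 : (2 * n ^ 4) ^ (-(2 * ν)) ≤ (n ^ 4) ^ (-(2 * ν)) := by
      apply Real.rpow_le_rpow_of_nonpos (by positivity)
      · have : 0 < n ^ 4 := by positivity
        linarith
      · linarith
    have h2 : (n ^ 4) ^ (-(2 * ν)) = n ^ (-(8 * ν)) := by
      rw [← Real.rpow_natCast, ← Real.rpow_mul hn0.le]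
      congr 1
      push_cast
      ring
    rwa [h2] at h1
  -- the index
  have e3 : V ^ ν ≤ C₄ * n ^ (8 * ν + ε / 2) := by
    calc V ^ ν ≤ (C₄ * n ^ (8 + ε / 2)) ^ ν := Real.rpow_le_rpow hV0.le hV hν.le
      _ = C₄ ^ ν * (n ^ (8 + ε / 2)) ^ ν := Real.mul_rpow (by linarith) (by positivity)
      _ ≤ C₄ * n ^ (8 * ν + ε / 2) := by
          apply mul_le_mul _ _ (by positivity) (by linarith)
          · calc C₄ ^ ν ≤ C₄ ^ (1 : ℝ) := Real.rpow_le_rpow_of_exponent_le hC₄ hν1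
              _ = C₄ := Real.rpow_one _
          · rw [← Real.rpow_mul hn0.le]
            apply Real.rpow_le_rpow_of_exponent_le hn
            nlinarith
  have e4 : n ^ (-(8 * ν)) ≤ C₄ * n ^ (ε / 2) * V ^ (-ν) := by
    have h1 : V ^ ν * V ^ (-ν) = 1 := by
      rw [← Real.rpow_add hV0, add_neg_cancel, Real.rpow_zero]
    have h2 : n ^ (-(8 * ν)) * n ^ (8 * ν + ε / 2) = n ^ (ε / 2) := by
      rw [← Real.rpow_add hn0]
      congr 1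
      ring
    have h3 : 0 < n ^ (-(8 * ν)) := by positivity
    have h4 : 0 < V ^ (-ν) := by positivity
    calc n ^ (-(8 * ν)) = n ^ (-(8 * ν)) * (V ^ ν * V ^ (-ν)) := by rw [h1, mul_one]
      _ ≤ n ^ (-(8 * ν)) * ((C₄ * n ^ (8 * ν + ε / 2)) * V ^ (-ν)) := by
          apply mul_le_mul_of_nonneg_left _ h3.le
          exact mul_le_mul_of_nonneg_right e3 h4.le
      _ = C₄ * (n ^ (-(8 * ν)) * n ^ (8 * ν + ε / 2)) * V ^ (-ν) := by ring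
      _ = C₄ * n ^ (ε / 2) * V ^ (-ν) := by rw [h2]
  have e5 : n ^ (ε / 2) * n ^ (ε / 2) ≤ V ^ ε := by
    rw [← Real.rpow_add hn0, add_halves]
    exact Real.rpow_le_rpow hn0.le hnV hε.le
  have e6 : V * V ^ (-ν) * V ^ ε = V ^ (1 - ν + ε) := by
    have h1 : V * V ^ (-ν) = V ^ (1 - ν) := by
      conv_lhs => rw [← Real.rpow_one V]
      rw [← Real.rpow_mul hV0.le, one_mul, ← Real.rpow_add hV0]
      rfl
    rw [h1, ← Real.rpow_add hV0]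
  have e7 : m * ν ^ 2 ≤ (C * (1 + |C₂|) * C₄) * V ^ (1 - ν + ε) := by
    calc m * ν ^ 2 ≤ C * V * (2 * n ^ 4) ^ (-(2 * ν)) * (1 + |C₂ * n ^ (ε / 2)|) := h
      _ ≤ C * V * (C₄ * n ^ (ε / 2) * V ^ (-ν)) * ((1 + |C₂|) * n ^ (ε / 2)) := by
          apply mul_le_mul _ e1 (by positivity) (by positivity)
          exact mul_le_mul_of_nonneg_left (e2.trans e4) (by positivity)
      _ = (C * (1 + |C₂|) * C₄) * (V * V ^ (-ν) * (n ^ (ε / 2) * n ^ (ε / 2))) := by ring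
      _ ≤ (C * (1 + |C₂|) * C₄) * (V * V ^ (-ν) * V ^ ε) := by
          apply mul_le_mul_of_nonneg_left _ (by positivity)
          exact mul_le_mul_of_nonneg_left e5 (by positivity)
      _ = (C * (1 + |C₂|) * C₄) * V ^ (1 - ν + ε) := by rw [e6]
  have e8 : m = m * ν ^ 2 * ν⁻¹ ^ 2 := by
    field_simp
  rw [e8]
  calc m * ν ^ 2 * ν⁻¹ ^ 2 ≤ (C * (1 + |C₂|) * C₄) * V ^ (1 - ν + ε) * ν⁻¹ ^ 2 :=
        mul_le_mul_of_nonneg_right e7 (by positivity)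
    _ = _ := by ring

/-- `an_main` with `G = GamN q n` (`GamN_normal`, `GamN_finiteIndex`), `L = 2 n⁴`; `C L² = R²` with
`R = √C · 2 n⁴ = K n⁴`, `K = 2√C`. The term `γ = 1` is `1/3` (`fro 1 = 3`) and the others sum to at most
`C' n^δ` by `hcount` (`δ = ε/8`, say). So
`m ν² ≤ C'' V (2n⁴)^(-2ν) n^δ ≤ C'' V n^(-8ν) n^δ` (`n ≥ 1`, `V` the index). By `hindex`
`V ≤ C₃ n^(8+δ)`, so `V^ν ≤ max(1,C₃) n^(8ν+δ)` (`ν ≤ 1`), i.e. `n^(-8ν) ≤ C₃' n^δ V^(-ν)`; and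
`n^(2δ) ≤ V^(2δ) ≤ V^ε` by `n ≤ V`. (The summation over `γ : G` splits off `γ = 1`:
`ENNReal.tsum_eq_add_tsum_ite` or bound by `ite` sums.) -/
theorem density_of {q : QD} (D : CD q)
    (hcount : ∀ ε K : ℝ, 0 < ε → 0 < K → ∃ C : ℝ, ∀ n : ℕ, 1 ≤ n → ∀ R : ℝ, 1 ≤ R →
      R ≤ K * (n : ℝ) ^ 4 → ∑' γ : GamN q (n : ℂ), (if γ ≠ 1 ∧ fro γ.1.1 ≤ R ^ 2 then
        ENNReal.ofReal (fro γ.1.1)⁻¹ else 0) ≤ ENNReal.ofReal (C * (n : ℝ) ^ ε))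
    (hindex : ∀ ε : ℝ, 0 < ε → ∃ C : ℝ, ∀ n : ℕ, 1 ≤ n →
      ((GamN q (n : ℂ)).index : ℝ) ≤ C * (n : ℝ) ^ (8 + ε))
    (hlow : ∀ n : ℕ, 1 ≤ n → n ≤ (GamN q (n : ℂ)).index)
    {ε : ℝ} (hε : 0 < ε) :
    ∃ C : ℝ, ∀ n : ℕ, 1 ≤ n → ∀ ν : ℝ, 0 < ν → ν ≤ 1 → ∀ (m : ℕ)
      (f : Fin m → ℂ × ℂ → ℂ) (lam : Fin m → ℂ), (∀ i, Eig D (GamN q (n : ℂ)) (f i) (lam i)) →
      (∀ i, (lam i).re ≤ 1 - ν ^ 2) →
      (∀ c : Fin m → ℂ, (∀ z ∈ U, ∑ i, c i * f i z = 0) → c = 0) →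
      (m : ℝ) ≤ C * ν⁻¹ ^ 2 * ((GamN q (n : ℂ)).index : ℝ) ^ (1 - ν + ε) := by
  obtain ⟨C, hC, hmain⟩ := an_main D
  have hC0 : 0 ≤ C := by linarith
  obtain ⟨C₂, hcnt⟩ := hcount (ε / 2) (2 * √C) (by positivity)
    (by have := Real.sqrt_pos.2 (by linarith : 0 < C); positivity)
  obtain ⟨C₄, hidx⟩ := hindex (ε / 2) (by positivity)
  refine ⟨C * (1 + |C₂|) * max 1 C₄, fun n hn ν hν hν1 m f lam hE hlam hind => ?_⟩
  have hn1 : (1 : ℝ) ≤ n := by exact_mod_cast hn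
  have hn0 : (n : ℂ) ≠ 0 := by
    have : n ≠ 0 := by omega
    exact_mod_cast this
  have hnO : (n : ℂ) ∈ OO q := natCast_mem (OO q) n
  have hfin : (GamN q (n : ℂ)).FiniteIndex := GamN_finiteIndex hnO hn0
  have hL2 : (2 : ℝ) ≤ 2 * (n : ℝ) ^ 4 := by
    have : (1 : ℝ) ≤ (n : ℝ) ^ 4 := one_le_pow₀ hn1
    linarith
  have h1 := hmain (GamN q (n : ℂ)) ν hν hν1 m f lam hE hlam hind (2 * (n : ℝ) ^ 4) hL2
  have hsC : √C ^ 2 = C := Real.sq_sqrt hC0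
  have hs1 : 1 ≤ √C := Real.one_le_sqrt.2 hC
  have hR : C * (2 * (n : ℝ) ^ 4) ^ 2 = (2 * √C * (n : ℝ) ^ 4) ^ 2 := by
    have : (2 * √C * (n : ℝ) ^ 4) ^ 2 = √C ^ 2 * (2 * (n : ℝ) ^ 4) ^ 2 := by ring
    rw [this, hsC]
  have hR1 : 1 ≤ 2 * √C * (n : ℝ) ^ 4 := by
    have : (1 : ℝ) ≤ (n : ℝ) ^ 4 := one_le_pow₀ hn1
    nlinarith
  have h2 := z3_split (GamN q (n : ℂ)) hR (hcnt n hn (2 * √C * (n : ℝ) ^ 4) hR1 le_rfl)
  have h3 := h1.trans (mul_le_mul_right h2 _)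
  rw [← ENNReal.ofReal_mul (by positivity)] at h3
  have h4 : (m : ℝ) * ν ^ 2 ≤ C * ((GamN q (n : ℂ)).index : ℝ) *
      (2 * (n : ℝ) ^ 4) ^ (-(2 * ν)) * (1 + |C₂ * (n : ℝ) ^ (ε / 2)|) :=
    (ENNReal.ofReal_le_ofReal_iff (by positivity)).1 h3
  refine z3_num hC (le_max_left _ _) hε hν hν1 hn1 (by exact_mod_cast hlow n hn) ?_ h4
  refine (hidx n hn).trans ?_
  exact mul_le_mul_of_nonneg_right (le_max_right _ _) (by positivity)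

end

end Pool.Agent.Lib.H56D
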